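import Pool.Agent.LibDC71.LD1

/-! LD2 (slab decoupling in dimension m+1 from dimension m). Data: ω unit in E (m+1), t, labels B of
level j, g β with frequencies ζ: ‖ζ.1 - ctr j β‖ ≤ A/2^j, |<ω,ζ.1> - t| ≤ A/4^j, |ζ.2 - ‖ζ.1‖^2| ≤ A/4^j.
* O : E (m+1) ≃ₗᵢ E (m+1) with O ω = last basis vector e (if ω = e the identity, else the reflection in the
  orthogonal complement of ω - e: `reflection_sub` / `Submodule.reflection`), split x = (x', s) by
  `Fin.snoc` (s = <x,e>); measure preserving. Fix s. With f β = ∫ φ ch z (g_β(σ)) the slice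
  G β (x',τ) = g β (O⁻¹(x',s), τ) has frequencies ((O ζ.1)', ζ.2) and density φ exp(2 pi i s <ω,ζ.1>): it is in
  the class Fr of the projected frequencies. ‖ζ.1‖^2 = ‖(Oζ.1)'‖^2 + <ω,ζ.1>^2, |<ω,ζ.1>^2 - t^2| ≤
  (A/4^j)(2|t| + A), so after the modulation by (0, -t^2) (`Fr.modulate`, norm unchanged) the frequencies
  η lie in {‖η.1 - (O ctr β)'‖ ≤ A/2^j, |η.2 - ‖η.1‖^2| ≤ A'/4^j}.
* if B' = {β : the region is not empty}: g β = 0 for β not in B' (`Fr.of_empty`), and for β in B'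
  |<ω,ctr j β> - t| ≤ 2A/2^j, hence |t| ≤ √(m+1) + 2A and the projected centres (O ctr β)' have bounded
  multiplicity at distance 1/2^j (`card_near`: two such β have ‖ctr β - ctr β'‖ ≤ (1 + 4A)/2^j).
* apply `hfam` for each s and integrate over s (`lintegral_prod` on V (m+1) ≃ R x V m). -/

set_option autoImplicit false

noncomputable section

open MeasureTheory
open scoped ENNReal

namespace Pool.LibDC71

private theorem LD_cont {m : ℕ} {U : Set (V m)} {f : V m → ℂ} (h : Fr U f) : Continuous f := by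
  obtain ⟨S, _, σ, g, φ, _, hg, hφ, -, hf⟩ := h
  have h1 : f = fun z => ∫ s, φ s * ch z (g s) ∂σ := funext hf
  rw [h1]
  refine continuous_of_dominated (bound := fun s => ‖φ s‖) ?_ ?_ hφ.norm ?_
  · intro z
    refine hφ.1.mul (Measurable.aestronglyMeasurable ?_)
    unfold ch
    fun_prop
  · intro z
    refine Filter.Eventually.of_forall fun s => ?_
    rw [norm_mul]
    have h2 : ‖ch z (g s)‖ = 1 := by
      unfold ch
      rw [Complex.norm_exp]
      simp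
    rw [h2, mul_one]
  · refine Filter.Eventually.of_forall fun s => ?_
    unfold ch
    fun_prop

private theorem LD_zero {m : ℕ} {f : V m → ℂ} (h : Fr (∅ : Set (V m)) f) : f = 0 := by
  obtain ⟨S, _, σ, g, φ, _, hg, hφ, h0, hf⟩ := h
  funext z
  rw [hf]
  have h1 : ∀ s, φ s = 0 := by
    intro s
    by_contra h
    exact h0 s h
  simp [h1]

/-- orthogonal splitting of `E (m+1)` along a unit vector -/
private theorem LD_split (m : ℕ) (ω : E (m + 1)) (hω : ‖ω‖ = 1) :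
    ∃ (P : E (m + 1) →ₗ[ℝ] E m) (J : E m → E (m + 1)),
      Measurable P ∧
      (∀ y x, inner ℝ (J y) x = inner ℝ y (P x)) ∧
      (∀ x, ‖x‖ ^ 2 = ‖P x‖ ^ 2 + (inner ℝ ω x) ^ 2) ∧
      MeasurePreserving (fun p : E m × ℝ => J p.1 + p.2 • ω) volume volume := by
  have hon : Orthonormal ℝ (({0} : Set (Fin (m + 1))).domRestrict (fun _ => ω)) := by
    rw [orthonormal_iff_ite]
    intro i j
    have hij : i = j := Subsingleton.elim i j
    rw [if_pos hij]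
    show inner ℝ ω ω = (1 : ℝ)
    rw [real_inner_self_eq_norm_sq, hω, one_pow]
  obtain ⟨b, hb⟩ := hon.exists_orthonormalBasis_extension_of_card_eq (ι := Fin (m + 1)) (by simp)
  have hb0 : b 0 = ω := hb 0 rfl
  have hin : ∀ x, inner ℝ ω x = b.repr x 0 := by
    intro x
    rw [b.repr_apply_apply, hb0]
  let P : E (m + 1) →ₗ[ℝ] E m :=
    { toFun := fun x => WithLp.toLp 2 (fun i : Fin m => b.repr x i.succ)
      map_add' := by
        intro x y
        ext i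
        simp
      map_smul' := by
        intro c x
        ext i
        simp }
  let J : E m → E (m + 1) := fun y => b.repr.symm (WithLp.toLp 2 (Fin.cons 0 (fun i => y i)))
  have hJω : ∀ (y : E m) (s : ℝ), J y + s • ω =
      b.repr.symm (WithLp.toLp 2 (Fin.cons s (fun i => y i) : Fin (m + 1) → ℝ)) := by
    intro y s
    apply b.repr.injective
    rw [map_add, map_smul, LinearIsometryEquiv.apply_symm_apply, LinearIsometryEquiv.apply_symm_apply,
      ← hb0, b.repr_self]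
    ext i
    refine Fin.cases ?_ (fun i => ?_) i
    · simp
    · simp
  refine ⟨P, J, ?_, ?_, ?_, ?_⟩
  · exact P.continuous_of_finiteDimensional.measurable
  · intro y x
    rw [← b.repr.inner_map_map (J y) x]
    show inner ℝ (b.repr (b.repr.symm _)) (b.repr x) = _
    rw [LinearIsometryEquiv.apply_symm_apply, PiLp.inner_apply, PiLp.inner_apply, Fin.sum_univ_succ]
    simp [P]
  · intro x
    rw [hin, ← b.repr.norm_map x, EuclideanSpace.norm_sq_eq, EuclideanSpace.norm_sq_eq,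
      Fin.sum_univ_succ, add_comm]
    simp [P]
  · have h1 : (fun p : E m × ℝ => J p.1 + p.2 • ω) =
        b.repr.symm ∘ (WithLp.toLp 2) ∘ (MeasurableEquiv.piFinSuccAbove (fun _ : Fin (m + 1) => ℝ) 0).symm ∘
          Prod.swap ∘ (Prod.map (WithLp.ofLp (p := 2)) (id : ℝ → ℝ)) := by
      funext p
      rw [hJω]
      simp [MeasurableEquiv.piFinSuccAbove]
      rfl
    rw [h1]
    refine b.measurePreserving_repr_symm.comp ((PiLp.volume_preserving_toLp (Fin (m + 1))).comp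
      ((volume_preserving_piFinSuccAbove (fun _ : Fin (m + 1) => ℝ) 0).symm.comp
        (MeasurePreserving.comp Measure.measurePreserving_swap
          ((PiLp.volume_preserving_ofLp (Fin m)).prod (MeasurePreserving.id volume)))))

private theorem LD_lint {m : ℕ} {ω : E (m + 1)} {J : E m → E (m + 1)}
    (h : MeasurePreserving (fun p : E m × ℝ => J p.1 + p.2 • ω) volume volume)
    {F : V (m + 1) → ℝ≥0∞} (hF : Measurable F) :
    ∫⁻ z, F z = ∫⁻ s : ℝ, ∫⁻ p : V m, F (J p.1 + s • ω, p.2) := by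
  have h0 : Measurable (fun p : E m × ℝ => J p.1 + p.2 • ω) := h.measurable
  have h1 : ∫⁻ z, F z = ∫⁻ x : E (m + 1), ∫⁻ t : ℝ, F (x, t) := by
    show ∫⁻ z, F z ∂((volume : Measure (E (m + 1))).prod (volume : Measure ℝ)) = _
    exact lintegral_prod _ hF.aemeasurable
  have h2 : Measurable (fun x : E (m + 1) => ∫⁻ t : ℝ, F (x, t)) := hF.lintegral_prod_right'
  rw [h1, ← h.lintegral_comp h2]
  have h3 : Measurable (fun p : E m × ℝ => ∫⁻ t : ℝ, F (J p.1 + p.2 • ω, t)) := h2.comp h0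
  have h4 : ∫⁻ p : E m × ℝ, ∫⁻ t : ℝ, F (J p.1 + p.2 • ω, t) =
      ∫⁻ s : ℝ, ∫⁻ y : E m, ∫⁻ t : ℝ, F (J y + s • ω, t) := by
    show ∫⁻ p : E m × ℝ, (∫⁻ t : ℝ, F (J p.1 + p.2 • ω, t))
      ∂((volume : Measure (E m)).prod (volume : Measure ℝ)) = _
    exact lintegral_prod_symm' _ h3
  rw [h4]
  refine lintegral_congr fun s => ?_
  symm
  show ∫⁻ p : E m × ℝ, F (J p.1 + s • ω, p.2)
      ∂((volume : Measure (E m)).prod (volume : Measure ℝ)) = _
  refine lintegral_prod (fun p : E m × ℝ => F (J p.1 + s • ω, p.2)) (Measurable.aemeasurable ?_)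
  have h5 : Measurable (fun p : E m × ℝ => (J p.1 + s • ω, p.2)) := by
    refine Measurable.prodMk ?_ measurable_snd
    exact h0.comp (measurable_fst.prodMk measurable_const)
  exact hF.comp h5

/-- the slice of a superposition is a superposition -/
private theorem LD_slice {m : ℕ} {ω : E (m + 1)} {P : E (m + 1) →ₗ[ℝ] E m} {J : E m → E (m + 1)}
    (hP : Measurable P) (hPJ : ∀ y x, inner ℝ (J y) x = inner ℝ y (P x)) {U : Set (V (m + 1))}
    {f : V (m + 1) → ℂ} (hf : Fr U f) (s τ : ℝ) {U' : Set (V m)}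
    (hU : ∀ ζ ∈ U, (P ζ.1, ζ.2 - τ) ∈ U') :
    Fr U' (fun p : V m => f (J p.1 + s • ω, p.2) * ch p ((0, -τ) : V m)) := by
  obtain ⟨S, _, σ, g, φ, hS, hg, hφ, h0, h1⟩ := hf
  refine ⟨S, _, σ, fun r => (P (g r).1, (g r).2 - τ),
    fun r => φ r * Complex.exp (2 * (Real.pi : ℂ) * Complex.I * ((s * inner ℝ ω (g r).1 : ℝ) : ℂ)),
    hS, ?_, ?_, ?_, ?_⟩
  · exact (hP.comp (measurable_fst.comp hg)).prodMk ((measurable_snd.comp hg).sub_const τ)
  · refine hφ.mul_bdd (c := 1) (Measurable.aestronglyMeasurable ?_) ?_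
    · fun_prop
    · refine Filter.Eventually.of_forall fun r => ?_
      rw [Complex.norm_exp]
      simp
  · intro r hr
    refine hU _ (h0 r fun h => hr ?_)
    show φ r * _ = 0
    rw [h, zero_mul]
  · intro p
    show f (J p.1 + s • ω, p.2) * ch p (0, -τ) = _
    rw [h1, ← integral_mul_const]
    refine integral_congr_ae (Filter.Eventually.of_forall fun r => ?_)
    simp only [ch]
    rw [mul_assoc (φ r), ← Complex.exp_add, mul_assoc (φ r), ← Complex.exp_add]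
    congr 2
    rw [inner_add_left, inner_smul_left, hPJ]
    simp only [inner_zero_right, conj_trivial]
    push_cast
    ring

private theorem LD_ctr {m : ℕ} {j : ℕ} {a : Fin m → ℤ} (ha : a ∈ Lam m j) : ‖ctr j a‖ ≤ m := by
  unfold Lam at ha
  rw [Fintype.mem_piFinset] at ha
  have h1 : ‖ctr j a‖ ≤ ∑ i, ‖(a i : ℝ) / 2 ^ j‖ := by
    have h2 : ctr j a = ∑ i, EuclideanSpace.single i ((a i : ℝ) / 2 ^ j) := by
      ext i
      simp [ctr, Finset.sum_apply]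
    rw [h2]
    refine (norm_sum_le _ _).trans (Finset.sum_le_sum fun i _ => ?_)
    rw [PiLp.norm_single]
  refine h1.trans ?_
  have h3 : ∀ i ∈ (Finset.univ : Finset (Fin m)), ‖(a i : ℝ) / 2 ^ j‖ ≤ 1 := by
    intro i _
    have h4 := Finset.mem_Ico.1 (ha i)
    have h5 : (0 : ℝ) ≤ a i := by exact_mod_cast h4.1
    have h6 : (a i : ℝ) ≤ 2 ^ j := by exact_mod_cast h4.2.le
    rw [Real.norm_of_nonneg (by positivity), div_le_one (by positivity)]
    exact h6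
  refine (Finset.sum_le_card_nsmul _ _ _ h3).trans ?_
  simp

private theorem LD_box {m : ℕ} (a : Fin m → ℤ) (N : ℕ) :
    (Fintype.piFinset fun i => Finset.Icc (a i - N) (a i + N)).card = (2 * N + 1) ^ m := by
  rw [Fintype.card_piFinset]
  have h1 : ∀ i ∈ (Finset.univ : Finset (Fin m)), (Finset.Icc (a i - N) (a i + N)).card = 2 * N + 1 := by
    intro i _
    rw [Int.card_Icc]
    omega
  rw [Finset.prod_congr rfl h1]
  simp

open scoped Classical in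
theorem cyl_of_family (m : ℕ) (q : ℝ) (hq : 2 < q)
    (hfam : ∀ (A R0 ε : ℝ) (L : ℕ), 0 < ε →
      ∃ C : ℝ≥0∞, C ≠ ⊤ ∧ ∀ (k : ℕ) (ι : Type) (s : Finset ι) (ξ : ι → E m) (f : ι → V m → ℂ),
        (∀ i ∈ s, ‖ξ i‖ ≤ R0) →
        (∀ i ∈ s, {j | j ∈ s ∧ ‖ξ j - ξ i‖ ≤ 1 / 2 ^ k}.ncard ≤ L) →
        (∀ i ∈ s, Fr {ζ | ‖ζ.1 - ξ i‖ ≤ A / 2 ^ k ∧ |ζ.2 - ‖ζ.1‖ ^ 2| ≤ A / 4 ^ k} (f i)) →
        ∫⁻ z, ‖∑ i ∈ s, f i z‖ₑ ^ q ≤
          C * 2 ^ ((ε + m * (q / 2 - 1)) * k) * ∑ i ∈ s, ∫⁻ z, ‖f i z‖ₑ ^ q)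
    (A ε : ℝ) (hε : 0 < ε) :
    ∃ C : ℝ≥0∞, C ≠ ⊤ ∧ ∀ j : ℕ, Cyl (m + 1) q A j (C * 2 ^ ((ε + m * (q / 2 - 1)) * j)) := by
  by_cases hA : A < 0
  · -- all the regions are empty
    refine ⟨0, ENNReal.zero_ne_top, fun j ω t hω B g hB hg => ?_⟩
    have h0 : ∀ β ∈ B, g β = 0 := by
      intro β hβ
      refine LD_zero ?_
      obtain ⟨S, i, σ, g', φ, hS, h1, h2, h3, h4⟩ := hg β hβ
      refine ⟨S, i, σ, g', φ, hS, h1, h2, fun s hs => ?_, h4⟩
      have h5 := (h3 s hs).1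
      have h6 : A / 2 ^ j < 0 := div_neg_of_neg_of_pos hA (by positivity)
      exact absurd (norm_nonneg _) (not_le.2 (lt_of_le_of_lt h5 h6))
    have h1 : ∀ z, ∑ β ∈ B, g β z = 0 := fun z => Finset.sum_eq_zero fun β hβ => by
      rw [h0 β hβ]; rfl
    simp only [h1]
    rw [enorm_zero, ENNReal.zero_rpow_of_pos (by linarith)]
    simp
  push Not at hA
  obtain ⟨N, hN⟩ : ∃ N : ℕ, 1 + 4 * A ≤ N := exists_nat_ge _
  obtain ⟨A', hA'⟩ : ∃ A' : ℝ, A' = A * (2 * ((m : ℝ) + 1 + A) + A + 1) := ⟨_, rfl⟩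
  have hAA' : A ≤ A' := by
    rw [hA']
    nlinarith [mul_nonneg hA (show (0 : ℝ) ≤ 2 * ((m : ℝ) + 1 + A) + A by positivity)]
  obtain ⟨C, hC, hmain⟩ := hfam A' ((m : ℝ) + 1) ε ((2 * N + 1) ^ (m + 1)) hε
  refine ⟨C, hC, fun j ω t hω B g hB hg => ?_⟩
  obtain ⟨P, J, hPm, hPJ, hPn, hJ⟩ := LD_split m ω hω
  have hj1 : (1 : ℝ) ≤ 2 ^ j := one_le_pow₀ (by norm_num)
  have hj2 : (2 : ℝ) ^ j ≤ 4 ^ j := pow_le_pow_left₀ (by norm_num) (by norm_num) j
  have hj0 : (0 : ℝ) < 2 ^ j := by positivity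
  have hj4 : (0 : ℝ) < 4 ^ j := by positivity
  have hPle : ∀ x, ‖P x‖ ≤ ‖x‖ := by
    intro x
    have h1 := hPn x
    exact abs_le_of_sq_le_sq' (by nlinarith [sq_nonneg (inner ℝ ω x)]) (norm_nonneg _) |>.2
  have hωle : ∀ x : E (m + 1), |inner ℝ ω x| ≤ ‖x‖ := by
    intro x
    have h1 := abs_real_inner_le_norm ω x
    rwa [hω, one_mul] at h1
  -- the labels whose region is not empty
  obtain ⟨U, hU⟩ : ∃ U : (Fin (m + 1) → ℤ) → Set (V (m + 1)), U = fun β =>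
    {ζ | ‖ζ.1 - ctr j β‖ ≤ A / 2 ^ j ∧ |inner ℝ ω ζ.1 - t| ≤ A / 4 ^ j ∧
      |ζ.2 - ‖ζ.1‖ ^ 2| ≤ A / 4 ^ j} := ⟨_, rfl⟩
  have hgU : ∀ β ∈ B, Fr (U β) (g β) := by
    intro β hβ
    rw [hU]
    exact hg β hβ
  obtain ⟨B', hB'⟩ : ∃ B' : Finset (Fin (m + 1) → ℤ), B' = B.filter (fun β => (U β).Nonempty) :=
    ⟨_, rfl⟩
  have hBB' : B' ⊆ B := by
    rw [hB']
    exact Finset.filter_subset _ _
  have hg0 : ∀ β ∈ B, β ∉ B' → g β = 0 := by
    intro β hβ hβ'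
    refine LD_zero ?_
    have h1 : U β = ∅ := by
      by_contra h2
      apply hβ'
      rw [hB', Finset.mem_filter]
      exact ⟨hβ, Set.nonempty_iff_ne_empty.2 h2⟩
    rw [← h1]
    exact hgU β hβ
  have hsum : ∀ z, ∑ β ∈ B, g β z = ∑ β ∈ B', g β z := by
    intro z
    symm
    refine Finset.sum_subset hBB' fun β hβ hβ' => ?_
    rw [hg0 β hβ hβ']
    rfl
  have hcm : ∀ β ∈ B, Measurable (g β) := fun β hβ => (LD_cont (hgU β hβ)).measurable
  -- a point of the region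
  have hnear : ∀ β ∈ B', |inner ℝ ω (ctr j β) - t| ≤ 2 * A / 2 ^ j := by
    intro β hβ
    rw [hB', Finset.mem_filter, hU] at hβ
    obtain ⟨-, ζ, h1, h2, -⟩ := hβ
    have h3 := (hωle (ζ.1 - ctr j β)).trans h1
    rw [inner_sub_right] at h3
    have h4 : A / 4 ^ j ≤ A / 2 ^ j := div_le_div_of_nonneg_left hA hj0 hj2
    have h5 : inner ℝ ω (ctr j β) - t = -(inner ℝ ω ζ.1 - inner ℝ ω (ctr j β)) + (inner ℝ ω ζ.1 - t) := by
      ring
    rw [h5]
    refine (abs_add_le _ _).trans ?_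
    rw [abs_neg]
    have h6 : 2 * A / 2 ^ j = A / 2 ^ j + A / 2 ^ j := by ring
    linarith
  have hR0 : ∀ β ∈ B', ‖P (ctr j β)‖ ≤ (m : ℝ) + 1 := by
    intro β hβ
    refine (hPle _).trans ?_
    have h1 := LD_ctr (hB (hBB' hβ))
    push_cast at h1
    exact h1
  have hmult : ∀ β ∈ B', {β' | β' ∈ B' ∧ ‖P (ctr j β') - P (ctr j β)‖ ≤ 1 / 2 ^ j}.ncard ≤
      (2 * N + 1) ^ (m + 1) := by
    intro β hβ
    rw [← LD_box β N, ← Set.ncard_coe_finset]
    refine Set.ncard_le_ncard ?_ (Finset.finite_toSet _)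
    rintro β' ⟨hβ', h1⟩
    rw [Finset.mem_coe, Fintype.mem_piFinset]
    have h2 : |inner ℝ ω (ctr j β' - ctr j β)| ≤ 4 * A / 2 ^ j := by
      have h3 := hnear β hβ
      have h4 := hnear β' hβ'
      rw [inner_sub_right]
      have h5 : inner ℝ ω (ctr j β') - inner ℝ ω (ctr j β) =
          (inner ℝ ω (ctr j β') - t) + -(inner ℝ ω (ctr j β) - t) := by ring
      rw [h5]
      refine (abs_add_le _ _).trans ?_
      rw [abs_neg]
      have h6 : 4 * A / 2 ^ j = 2 * A / 2 ^ j + 2 * A / 2 ^ j := by ring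
      linarith
    have h3 : ‖ctr j β' - ctr j β‖ ≤ (1 + 4 * A) / 2 ^ j := by
      have h4 := hPn (ctr j β' - ctr j β)
      rw [map_sub] at h4
      have h5 : ‖ctr j β' - ctr j β‖ ^ 2 ≤ ((1 + 4 * A) / 2 ^ j) ^ 2 := by
        rw [h4]
        have h6 : ‖P (ctr j β') - P (ctr j β)‖ ^ 2 ≤ (1 / 2 ^ j) ^ 2 :=
          pow_le_pow_left₀ (norm_nonneg _) h1 2
        have h7 : (inner ℝ ω (ctr j β' - ctr j β)) ^ 2 ≤ (4 * A / 2 ^ j) ^ 2 := by
          rw [← sq_abs]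
          exact pow_le_pow_left₀ (abs_nonneg _) h2 2
        have h8 : ((1 + 4 * A) / 2 ^ j) ^ 2 = (1 / 2 ^ j) ^ 2 + (4 * A / 2 ^ j) ^ 2 +
          2 * (1 / 2 ^ j) * (4 * A / 2 ^ j) := by ring
        rw [h8]
        have h9 : (0 : ℝ) ≤ 2 * (1 / 2 ^ j) * (4 * A / 2 ^ j) := by positivity
        linarith
      exact (abs_le_of_sq_le_sq' h5 (by positivity)).2
    intro i
    have h4 : ‖(ctr j β' - ctr j β) i‖ ≤ ‖ctr j β' - ctr j β‖ := PiLp.norm_apply_le _ i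
    have h5 : (ctr j β' - ctr j β) i = ((β' i - β i : ℤ) : ℝ) / 2 ^ j := by
      simp [ctr]
      ring
    rw [h5, Real.norm_eq_abs, abs_div, abs_of_pos hj0] at h4
    have h6 : |((β' i - β i : ℤ) : ℝ)| / 2 ^ j ≤ N / 2 ^ j :=
      h4.trans (h3.trans (div_le_div_of_nonneg_right hN hj0.le))
    rw [div_le_div_iff_of_pos_right hj0] at h6
    have h7 : |β' i - β i| ≤ N := by exact_mod_cast h6
    rw [abs_le] at h7
    rw [Finset.mem_Icc]
    constructor <;> omega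
  obtain ⟨G, hG⟩ : ∃ G : ℝ → (Fin (m + 1) → ℤ) → V m → ℂ, G = fun s β p =>
    g β (J p.1 + s • ω, p.2) * ch p ((0, -(t ^ 2)) : V m) := ⟨_, rfl⟩
  have hGn : ∀ s β p, ‖G s β p‖ₑ = ‖g β (J p.1 + s • ω, p.2)‖ₑ := by
    intro s β p
    rw [hG]
    simp only [enorm_mul]
    have h1 : ‖ch p ((0, -(t ^ 2)) : V m)‖ₑ = 1 := by
      rw [← ofReal_norm]
      unfold ch
      rw [Complex.norm_exp]
      have h2 : (2 * (Real.pi : ℂ) * Complex.I * ((inner ℝ p.1 (0 : E m) + p.2 * -(t ^ 2) : ℝ) : ℂ)).re = 0 := by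
        rw [Complex.re_mul_ofReal]
        simp
      rw [h2]
      simp
    rw [h1, mul_one]
  have hGs : ∀ s p, ‖∑ β ∈ B', G s β p‖ₑ = ‖∑ β ∈ B', g β (J p.1 + s • ω, p.2)‖ₑ := by
    intro s p
    rw [hG]
    simp only
    rw [← Finset.sum_mul, enorm_mul]
    have h1 : ‖ch p ((0, -(t ^ 2)) : V m)‖ₑ = 1 := by
      rw [← ofReal_norm]
      unfold ch
      rw [Complex.norm_exp]
      have h2 : (2 * (Real.pi : ℂ) * Complex.I * ((inner ℝ p.1 (0 : E m) + p.2 * -(t ^ 2) : ℝ) : ℂ)).re = 0 := by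
        rw [Complex.re_mul_ofReal]
        simp
      rw [h2]
      simp
    rw [h1, mul_one]
  have hFr : ∀ s, ∀ β ∈ B', Fr {ζ | ‖ζ.1 - P (ctr j β)‖ ≤ A' / 2 ^ j ∧
      |ζ.2 - ‖ζ.1‖ ^ 2| ≤ A' / 4 ^ j} (G s β) := by
    intro s β hβ
    rw [hG]
    refine LD_slice hPm hPJ (hgU β (hBB' hβ)) s (t ^ 2) ?_
    intro ζ hζ
    rw [hU] at hζ
    obtain ⟨h1, h2, h3⟩ := hζ
    refine ⟨?_, ?_⟩
    · show ‖P ζ.1 - P (ctr j β)‖ ≤ A' / 2 ^ j
      rw [← map_sub]
      exact (hPle _).trans (h1.trans (div_le_div_of_nonneg_right hAA' hj0.le))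
    · show |ζ.2 - t ^ 2 - ‖P ζ.1‖ ^ 2| ≤ A' / 4 ^ j
      have h4 := hPn ζ.1
      have h5 : ζ.2 - t ^ 2 - ‖P ζ.1‖ ^ 2 = (ζ.2 - ‖ζ.1‖ ^ 2) +
          (inner ℝ ω ζ.1 - t) * (2 * inner ℝ ω ζ.1 - (inner ℝ ω ζ.1 - t)) := by
        rw [h4]
        ring
      have h6 : ‖ζ.1‖ ≤ (m : ℝ) + 1 + A := by
        have h7 := LD_ctr (hB (hBB' hβ))
        push_cast at h7
        have h8 : ‖ζ.1‖ ≤ ‖ζ.1 - ctr j β‖ + ‖ctr j β‖ := by
          have := norm_add_le (ζ.1 - ctr j β) (ctr j β)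
          rwa [sub_add_cancel] at this
        have h9 : A / 2 ^ j ≤ A := div_le_self hA hj1
        linarith
      have h7 := (hωle ζ.1).trans h6
      have h8 : A / 4 ^ j ≤ A := div_le_self hA (hj1.trans hj2)
      have h9 : |2 * inner ℝ ω ζ.1 - (inner ℝ ω ζ.1 - t)| ≤ 2 * ((m : ℝ) + 1 + A) + A := by
        refine (abs_sub _ _).trans ?_
        rw [abs_mul, abs_two]
        linarith
      rw [h5]
      refine (abs_add_le _ _).trans ?_
      rw [abs_mul]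
      have h10 : |inner ℝ ω ζ.1 - t| * |2 * inner ℝ ω ζ.1 - (inner ℝ ω ζ.1 - t)| ≤
          A / 4 ^ j * (2 * ((m : ℝ) + 1 + A) + A) :=
        mul_le_mul h2 h9 (abs_nonneg _) (by positivity)
      have h11 : A' / 4 ^ j = A / 4 ^ j + A / 4 ^ j * (2 * ((m : ℝ) + 1 + A) + A) := by
        rw [hA']
        ring
      rw [h11]
      linarith
  have hms : ∀ β ∈ B, Measurable (fun z => ‖g β z‖ₑ ^ q) := fun β hβ => (hcm β hβ).enorm.pow_const q
  have hmS : Measurable (fun z => ‖∑ β ∈ B', g β z‖ₑ ^ q) :=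
    (Finset.measurable_sum B' fun β hβ => hcm β (hBB' hβ)).enorm.pow_const q
  have hJm : Measurable (fun r : ℝ × V m => (J r.2.1 + r.1 • ω, r.2.2)) := by
    refine Measurable.prodMk ?_ (measurable_snd.comp measurable_snd)
    exact hJ.measurable.comp ((measurable_fst.comp measurable_snd).prodMk measurable_fst)
  simp only [hsum]
  rw [LD_lint hJ hmS]
  have hK : C * 2 ^ ((ε + m * (q / 2 - 1)) * j) ≠ ⊤ :=
    ENNReal.mul_ne_top hC (ENNReal.rpow_ne_top_of_ne_zero (by norm_num) (by norm_num))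
  calc ∫⁻ s : ℝ, ∫⁻ p : V m, ‖∑ β ∈ B', g β (J p.1 + s • ω, p.2)‖ₑ ^ q
      ≤ ∫⁻ s : ℝ, C * 2 ^ ((ε + m * (q / 2 - 1)) * j) *
          ∑ β ∈ B', ∫⁻ p : V m, ‖g β (J p.1 + s • ω, p.2)‖ₑ ^ q := by
        refine lintegral_mono fun s => ?_
        have h1 := hmain j (Fin (m + 1) → ℤ) B' (fun β => P (ctr j β)) (G s) hR0 hmult (hFr s)
        simp only [hGn, hGs] at h1
        exact h1
    _ = C * 2 ^ ((ε + m * (q / 2 - 1)) * j) *
          ∑ β ∈ B', ∫⁻ s : ℝ, ∫⁻ p : V m, ‖g β (J p.1 + s • ω, p.2)‖ₑ ^ q := by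
        rw [lintegral_const_mul' _ _ hK, lintegral_finsetSum]
        intro β hβ
        exact ((hms β (hBB' hβ)).comp hJm).lintegral_prod_right'
    _ = C * 2 ^ ((ε + m * (q / 2 - 1)) * j) * ∑ β ∈ B', ∫⁻ z, ‖g β z‖ₑ ^ q := by
        congr 1
        exact Finset.sum_congr rfl fun β hβ => (LD_lint hJ (hms β (hBB' hβ))).symm
    _ ≤ C * 2 ^ ((ε + m * (q / 2 - 1)) * j) * ∑ β ∈ B, ∫⁻ z, ‖g β z‖ₑ ^ q := by
        gcongr

end Pool.LibDC71
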