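import Pool.Agent.LibDC71.BOOT
import Pool.Agent.LibDC71.LD2

/-! THE INTERFACE: `decoupling` is what the application (cone step, helper33 / helper49) cites. -/

set_option autoImplicit false

noncomputable section

open MeasureTheory
open scoped ENNReal

namespace Pool.LibDC71

/-- the grid statement in all dimensions (induction on m; `DB_zero`, `family_of_grid`,
`cyl_of_family`, `bootstrap`, `DB_mono`) -/
theorem grid (m : ℕ) (q : ℝ) (hq : 2 < q) (hq' : q * m < 2 * (m + 2)) :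
    ∀ A ε : ℝ, 0 < ε → ∃ C : ℝ≥0∞, C ≠ ⊤ ∧ ∀ k : ℕ, DB m q A k (C * 2 ^ (ε * k)) := by
  induction m with
  | zero =>
    intro A ε hε
    refine ⟨1, ENNReal.one_ne_top, fun k => ?_⟩
    refine DB_mono le_rfl ?_ (DB_zero q A k)
    rw [one_mul]
    have h2 : (1 : ℝ≥0∞) ≤ 2 := by norm_num
    have h3 : (0 : ℝ) ≤ ε * k := by positivity
    simpa using ENNReal.rpow_le_rpow_of_exponent_le h2 h3
  | succ m ih =>
    intro A ε hε
    have hq'' : q * m < 2 * (m + 2) := by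
      push_cast at hq'
      nlinarith
    have hgrid := ih hq''
    have hfam := family_of_grid m q hq hgrid
    have hcyl := cyl_of_family m q hq hfam
    obtain ⟨C, hC, h⟩ := bootstrap (m + 1) (by omega) q (max A (Real.sqrt (m + 1 : ℕ))) hq hq'
      (le_max_right _ _) (by
        intro A' ε' hε'
        obtain ⟨C, hC, h⟩ := hcyl A' ε' hε'
        refine ⟨C, hC, fun j => ?_⟩
        have := h j
        push_cast
        simpa using this) ε hε
    exact ⟨C, hC, fun k => DB_mono (le_max_left _ _) le_rfl (h k)⟩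

/-- **l^q decoupling for the paraboloid in R^(m+1)**, open range `2 < q < 2(m+2)/m`, for arbitrary
finite families of centres with bounded multiplicity. -/
theorem decoupling (m : ℕ) (q : ℝ) (hq : 2 < q) (hq' : q * m < 2 * (m + 2)) (A R0 ε : ℝ) (L : ℕ)
    (hε : 0 < ε) :
    ∃ C : ℝ≥0∞, C ≠ ⊤ ∧ ∀ (k : ℕ) (ι : Type) (s : Finset ι) (ξ : ι → E m) (f : ι → V m → ℂ),
      (∀ i ∈ s, ‖ξ i‖ ≤ R0) →
      (∀ i ∈ s, {j | j ∈ s ∧ ‖ξ j - ξ i‖ ≤ 1 / 2 ^ k}.ncard ≤ L) →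
      (∀ i ∈ s, Fr {ζ | ‖ζ.1 - ξ i‖ ≤ A / 2 ^ k ∧ |ζ.2 - ‖ζ.1‖ ^ 2| ≤ A / 4 ^ k} (f i)) →
      ∫⁻ z, ‖∑ i ∈ s, f i z‖ₑ ^ q ≤
        C * 2 ^ ((ε + m * (q / 2 - 1)) * k) * ∑ i ∈ s, ∫⁻ z, ‖f i z‖ₑ ^ q :=
  family_of_grid m q hq (grid m q hq hq') A R0 ε L hε

end Pool.LibDC71
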