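import Pool.Agent.LibDC71.Defs

/-! BN0 (the abstract part of the broad / narrow argument). -/

set_option autoImplicit false

noncomputable section

open MeasureTheory
open scoped ENNReal

namespace Pool.LibDC71

section

variable {X ι : Type} [MeasurableSpace X]

/-- The pointwise (in the centre) inequality in the broad case. -/
private theorem BN0_pw_broad (μ : Measure X) (T : Finset ι) (F : ι → X → ℂ) (χ : X → ℂ) (G : X → ℝ≥0∞)
    (a : ι → ℝ≥0∞) (C1 aM : ℝ≥0∞) {q : ℝ} (hq : 1 ≤ q) {n : ℕ} (hn : 0 < n)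
    (H1 : ∀ α ∈ T, ∀ y, ‖F α y‖ₑ ≤ C1 * G y * a α) (hM : ∀ α ∈ T, a α ≤ aM)
    (hχ : Measurable fun y => G y ^ q * ‖χ y‖ₑ ^ q)
    (t : Fin n → ι) (ht : ∀ i, aM ≤ T.card * a (t i)) :
    ∫⁻ y, ‖(∑ α ∈ T, F α y) * χ y‖ₑ ^ q ∂μ ≤
      (C1 * T.card * T.card) ^ q * (∫⁻ y, G y ^ q * ‖χ y‖ₑ ^ q ∂μ) * ∏ i, a (t i) ^ (q / n) := by
  have hq0 : 0 ≤ q := by linarith
  have hn' : (n : ℝ) ≠ 0 := by exact_mod_cast hn.ne'
  -- the size of `aM`
  have h1 : aM ^ q ≤ (T.card : ℝ≥0∞) ^ q * ∏ i, a (t i) ^ (q / n) := by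
    calc aM ^ q = ∏ _i : Fin n, aM ^ (q / n) := by
          rw [Finset.prod_const, Finset.card_univ, Fintype.card_fin, ← ENNReal.rpow_natCast,
            ← ENNReal.rpow_mul, div_mul_cancel₀ _ hn']
      _ ≤ ∏ i, ((T.card : ℝ≥0∞) * a (t i)) ^ (q / n) := by
          refine Finset.prod_le_prod' fun i _ => ?_
          gcongr
          exact ht i
      _ = (T.card : ℝ≥0∞) ^ q * ∏ i, a (t i) ^ (q / n) := by
          simp_rw [ENNReal.mul_rpow_of_nonneg _ _ (show 0 ≤ q / n by positivity)]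
          rw [Finset.prod_mul_distrib, Finset.prod_const, Finset.card_univ, Fintype.card_fin,
            ← ENNReal.rpow_natCast, ← ENNReal.rpow_mul, div_mul_cancel₀ _ hn']
  have h2 : ∀ y, ‖(∑ α ∈ T, F α y) * χ y‖ₑ ^ q ≤
      (C1 * T.card) ^ q * aM ^ q * (G y ^ q * ‖χ y‖ₑ ^ q) := by
    intro y
    have h3 : ‖∑ α ∈ T, F α y‖ₑ ≤ C1 * T.card * aM * G y := by
      calc ‖∑ α ∈ T, F α y‖ₑ ≤ ∑ α ∈ T, ‖F α y‖ₑ := enorm_sum_le _ _
        _ ≤ ∑ α ∈ T, C1 * G y * aM := by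
            refine Finset.sum_le_sum fun α hα => (H1 α hα y).trans ?_
            gcongr
            exact hM α hα
        _ = C1 * T.card * aM * G y := by
            rw [Finset.sum_const, nsmul_eq_mul]; ring
    rw [enorm_mul]
    calc (‖∑ α ∈ T, F α y‖ₑ * ‖χ y‖ₑ) ^ q ≤ (C1 * T.card * aM * G y * ‖χ y‖ₑ) ^ q := by gcongr
      _ = (C1 * T.card) ^ q * aM ^ q * (G y ^ q * ‖χ y‖ₑ ^ q) := by
          rw [ENNReal.mul_rpow_of_nonneg _ _ hq0, ENNReal.mul_rpow_of_nonneg _ _ hq0,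
            ENNReal.mul_rpow_of_nonneg _ _ hq0]
          ring
  calc ∫⁻ y, ‖(∑ α ∈ T, F α y) * χ y‖ₑ ^ q ∂μ
      ≤ ∫⁻ y, (C1 * T.card) ^ q * aM ^ q * (G y ^ q * ‖χ y‖ₑ ^ q) ∂μ := lintegral_mono h2
    _ = (C1 * T.card) ^ q * aM ^ q * ∫⁻ y, G y ^ q * ‖χ y‖ₑ ^ q ∂μ := lintegral_const_mul _ hχ
    _ ≤ (C1 * T.card) ^ q * ((T.card : ℝ≥0∞) ^ q * ∏ i, a (t i) ^ (q / n)) *
          ∫⁻ y, G y ^ q * ‖χ y‖ₑ ^ q ∂μ := by gcongr
    _ = _ := by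
        rw [ENNReal.mul_rpow_of_nonneg (C1 * T.card) _ hq0]
        ring

/-- The pointwise (in the centre) inequality in the narrow case. -/
private theorem BN0_pw_narrow (μ : Measure X) {κ : Type} [DecidableEq κ] (T S : Finset ι) (hS : S ⊆ T) (B : Finset κ)
    (π : ι → κ) (hπ : ∀ α ∈ T, π α ∈ B) (F : ι → X → ℂ) (χ : X → ℂ) (G : X → ℝ≥0∞)
    (hF : ∀ α ∈ T, Measurable (F α)) (hχm : Measurable χ)
    (a : ι → ℝ≥0∞) (C1 aM Γ : ℝ≥0∞) {q : ℝ} (hq : 1 ≤ q)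
    (H1 : ∀ α ∈ T, ∀ y, ‖F α y‖ₑ ≤ C1 * G y * a α)
    (hχ : Measurable fun y => G y ^ q * ‖χ y‖ₑ ^ q)
    (hout : ∀ α ∈ T, α ∉ S → (T.card : ℝ≥0∞) * a α ≤ aM)
    (hdec : ∫⁻ y, ‖∑ β ∈ B, (∑ α ∈ S with π α = β, F α y) * χ y‖ₑ ^ q ∂μ ≤
      Γ * ∑ β ∈ B, ∫⁻ y, ‖(∑ α ∈ S with π α = β, F α y) * χ y‖ₑ ^ q ∂μ) :
    ∫⁻ y, ‖(∑ α ∈ T, F α y) * χ y‖ₑ ^ q ∂μ ≤
      4 ^ q * Γ * ∑ β ∈ B, ∫⁻ y, ‖(∑ α ∈ T with π α = β, F α y) * χ y‖ₑ ^ q ∂μ +
      (4 ^ q * Γ * B.card + 4 ^ q) * (C1 ^ q * (∫⁻ y, G y ^ q * ‖χ y‖ₑ ^ q ∂μ) * aM ^ q) := by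
  classical
  have hq0 : 0 ≤ q := by linarith
  -- the insignificant terms
  have hins : ∀ R : Finset ι, R ⊆ T \ S → ∀ y, ‖∑ α ∈ R, F α y‖ₑ ≤ C1 * G y * aM := by
    intro R hR y
    have h1 : ∑ α ∈ R, a α ≤ aM := by
      rcases R.eq_empty_or_nonempty with rfl | hne
      · simp
      · have hT0 : T.Nonempty := by
          obtain ⟨α, hα⟩ := hne
          exact ⟨α, (Finset.mem_sdiff.1 (hR hα)).1⟩
        have hc0 : (T.card : ℝ≥0∞) ≠ 0 := by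
          exact_mod_cast (Finset.card_pos.2 hT0).ne'
        have hct : (T.card : ℝ≥0∞) ≠ ⊤ := ENNReal.natCast_ne_top _
        have h2 : (T.card : ℝ≥0∞) * ∑ α ∈ R, a α ≤ T.card * aM := by
          rw [Finset.mul_sum]
          calc ∑ α ∈ R, (T.card : ℝ≥0∞) * a α ≤ ∑ α ∈ R, aM := by
                refine Finset.sum_le_sum fun α hα => ?_
                have h3 := Finset.mem_sdiff.1 (hR hα)
                exact hout α h3.1 h3.2
            _ = R.card * aM := by rw [Finset.sum_const, nsmul_eq_mul]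
            _ ≤ T.card * aM := by
                gcongr
                exact hR.trans Finset.sdiff_subset
        exact (ENNReal.mul_le_mul_iff_right hc0 hct).1 h2
    calc ‖∑ α ∈ R, F α y‖ₑ ≤ ∑ α ∈ R, ‖F α y‖ₑ := enorm_sum_le _ _
      _ ≤ ∑ α ∈ R, C1 * G y * a α := Finset.sum_le_sum fun α hα =>
          H1 α (Finset.mem_sdiff.1 (hR hα)).1 y
      _ = C1 * G y * ∑ α ∈ R, a α := by rw [Finset.mul_sum]
      _ ≤ C1 * G y * aM := by gcongr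
  set J : ℝ≥0∞ := ∫⁻ y, G y ^ q * ‖χ y‖ₑ ^ q ∂μ with hJ
  have htwo : ∀ x y : ℝ≥0∞, (x + y) ^ q ≤ 2 ^ q * (x ^ q + y ^ q) := by
    intro x y
    calc (x + y) ^ q ≤ 2 ^ (q - 1) * (x ^ q + y ^ q) := ENNReal.rpow_add_le_mul_rpow_add_rpow x y hq
      _ ≤ 2 ^ q * (x ^ q + y ^ q) := by
          gcongr
          · norm_num
          · linarith
  have hJm : ∫⁻ y, (C1 * G y * aM * ‖χ y‖ₑ) ^ q ∂μ = C1 ^ q * J * aM ^ q := by
    have h1 : ∀ y, (C1 * G y * aM * ‖χ y‖ₑ) ^ q = (C1 ^ q * aM ^ q) * (G y ^ q * ‖χ y‖ₑ ^ q) := by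
      intro y
      rw [ENNReal.mul_rpow_of_nonneg _ _ hq0, ENNReal.mul_rpow_of_nonneg _ _ hq0,
        ENNReal.mul_rpow_of_nonneg _ _ hq0]
      ring
    simp_rw [h1]
    rw [lintegral_const_mul _ hχ]
    ring
  -- the sum over `S`, grouped
  have hgroup : ∀ y, ∑ β ∈ B, (∑ α ∈ S with π α = β, F α y) * χ y = (∑ α ∈ S, F α y) * χ y := by
    intro y
    rw [← Finset.sum_mul]
    congr 1
    exact Finset.sum_fiberwise_of_maps_to (fun α hα => hπ α (hS hα)) _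
  -- splitting into significant and insignificant
  have hsplit : ∀ R : Finset ι, R ⊆ T → ∀ y, ‖(∑ α ∈ R, F α y) * χ y‖ₑ ^ q ≤
      2 ^ q * (‖(∑ α ∈ R with α ∈ S, F α y) * χ y‖ₑ ^ q + (C1 * G y * aM * ‖χ y‖ₑ) ^ q) := by
    intro R hR y
    have h1 : ∑ α ∈ R, F α y = ∑ α ∈ R with α ∈ S, F α y + ∑ α ∈ R with α ∉ S, F α y :=
      (Finset.sum_filter_add_sum_filter_not R _ _).symm
    refine le_trans ?_ (htwo _ _)
    gcongr
    rw [h1, add_mul]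
    refine (enorm_add_le _ _).trans ?_
    gcongr
    rw [enorm_mul]
    gcongr
    exact hins _ (fun α hα => by
      have := Finset.mem_filter.1 hα
      exact Finset.mem_sdiff.2 ⟨hR this.1, this.2⟩) y
  have hsplit' : ∀ R : Finset ι, R ⊆ T → R ⊆ S → ∀ R' : Finset ι, R' ⊆ T → (R'.filter (· ∈ S)) = R →
      ∀ y, ‖(∑ α ∈ R, F α y) * χ y‖ₑ ^ q ≤
      2 ^ q * (‖(∑ α ∈ R', F α y) * χ y‖ₑ ^ q + (C1 * G y * aM * ‖χ y‖ₑ) ^ q) := by
    intro R _ _ R' hR' hRR' y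
    have h1 : ∑ α ∈ R, F α y = ∑ α ∈ R', F α y + -∑ α ∈ R' with α ∉ S, F α y := by
      have h2 := Finset.sum_filter_add_sum_filter_not R' (· ∈ S) (fun α => F α y)
      rw [hRR'] at h2
      rw [← h2]
      ring
    refine le_trans ?_ (htwo _ _)
    gcongr
    rw [h1, add_mul]
    refine (enorm_add_le _ _).trans ?_
    gcongr
    rw [enorm_mul, enorm_neg]
    gcongr
    exact hins _ (fun α hα => by
      have := Finset.mem_filter.1 hα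
      exact Finset.mem_sdiff.2 ⟨hR' this.1, this.2⟩) y
  have hmeasG : Measurable fun y => (C1 * G y * aM * ‖χ y‖ₑ) ^ q := by
    have h1 : ∀ y, (C1 * G y * aM * ‖χ y‖ₑ) ^ q = (C1 ^ q * aM ^ q) * (G y ^ q * ‖χ y‖ₑ ^ q) := by
      intro y
      rw [ENNReal.mul_rpow_of_nonneg _ _ hq0, ENNReal.mul_rpow_of_nonneg _ _ hq0,
        ENNReal.mul_rpow_of_nonneg _ _ hq0]
      ring
    simp_rw [h1]
    exact hχ.const_mul _
  have hmeas : ∀ R : Finset ι, R ⊆ T → Measurable fun y => ‖(∑ α ∈ R, F α y) * χ y‖ₑ ^ q := by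
    intro R hR
    exact (((Finset.measurable_fun_sum R fun α hα => hF α (hR hα)).mul hχm).enorm).pow_const q
  -- first step
  have step1 : ∫⁻ y, ‖(∑ α ∈ T, F α y) * χ y‖ₑ ^ q ∂μ ≤
      2 ^ q * (Γ * ∑ β ∈ B, ∫⁻ y, ‖(∑ α ∈ S with π α = β, F α y) * χ y‖ₑ ^ q ∂μ + C1 ^ q * J * aM ^ q) := by
    have hTS : T.filter (· ∈ S) = S := by
      ext α
      simp only [Finset.mem_filter]
      exact ⟨fun h => h.2, fun h => ⟨hS h, h⟩⟩
    calc ∫⁻ y, ‖(∑ α ∈ T, F α y) * χ y‖ₑ ^ q ∂μ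
        ≤ ∫⁻ y, 2 ^ q * (‖(∑ α ∈ S, F α y) * χ y‖ₑ ^ q + (C1 * G y * aM * ‖χ y‖ₑ) ^ q) ∂μ := by
          refine lintegral_mono fun y => ?_
          have := hsplit T le_rfl y
          rwa [hTS] at this
      _ = 2 ^ q * (∫⁻ y, ‖(∑ α ∈ S, F α y) * χ y‖ₑ ^ q ∂μ + C1 ^ q * J * aM ^ q) := by
          rw [lintegral_const_mul' _ _ (ENNReal.rpow_ne_top_of_nonneg hq0 (by norm_num)), lintegral_add_left (hmeas S hS), hJm]
      _ ≤ _ := by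
          gcongr
          simp_rw [hgroup] at hdec
          exact hdec
  have step2 : ∀ β ∈ B, ∫⁻ y, ‖(∑ α ∈ S with π α = β, F α y) * χ y‖ₑ ^ q ∂μ ≤
      2 ^ q * (∫⁻ y, ‖(∑ α ∈ T with π α = β, F α y) * χ y‖ₑ ^ q ∂μ + C1 ^ q * J * aM ^ q) := by
    intro β _
    have h1 : (T.filter (fun α => π α = β)).filter (· ∈ S) = S.filter (fun α => π α = β) := by
      ext α
      simp only [Finset.mem_filter]
      exact ⟨fun h => ⟨h.2, h.1.2⟩, fun h => ⟨⟨hS h.1, h.2⟩, h.1⟩⟩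
    have hsub : T.filter (fun α => π α = β) ⊆ T := Finset.filter_subset _ _
    calc ∫⁻ y, ‖(∑ α ∈ S with π α = β, F α y) * χ y‖ₑ ^ q ∂μ
        ≤ ∫⁻ y, 2 ^ q * (‖(∑ α ∈ T with π α = β, F α y) * χ y‖ₑ ^ q +
            (C1 * G y * aM * ‖χ y‖ₑ) ^ q) ∂μ := by
          refine lintegral_mono fun y => ?_
          exact hsplit' _ ((Finset.filter_subset _ _).trans hS) (Finset.filter_subset _ _) _ hsub h1 y
      _ = _ := by
          rw [lintegral_const_mul' _ _ (ENNReal.rpow_ne_top_of_nonneg hq0 (by norm_num)), lintegral_add_left (hmeas _ hsub), hJm]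
  have h22 : (2 : ℝ≥0∞) ^ q * 2 ^ q = 4 ^ q := by
    rw [← ENNReal.mul_rpow_of_nonneg _ _ hq0]; norm_num
  have h24 : (2 : ℝ≥0∞) ^ q ≤ 4 ^ q := ENNReal.rpow_le_rpow (by norm_num) hq0
  refine step1.trans ?_
  have h3 : ∑ β ∈ B, ∫⁻ y, ‖(∑ α ∈ S with π α = β, F α y) * χ y‖ₑ ^ q ∂μ ≤
      2 ^ q * ∑ β ∈ B, ∫⁻ y, ‖(∑ α ∈ T with π α = β, F α y) * χ y‖ₑ ^ q ∂μ +
        2 ^ q * (B.card * (C1 ^ q * J * aM ^ q)) := by
    refine (Finset.sum_le_sum step2).trans ?_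
    rw [← Finset.mul_sum, Finset.sum_add_distrib, Finset.sum_const, nsmul_eq_mul, mul_add]
  calc 2 ^ q * (Γ * ∑ β ∈ B, ∫⁻ y, ‖(∑ α ∈ S with π α = β, F α y) * χ y‖ₑ ^ q ∂μ + C1 ^ q * J * aM ^ q)
      ≤ 2 ^ q * (Γ * (2 ^ q * ∑ β ∈ B, ∫⁻ y, ‖(∑ α ∈ T with π α = β, F α y) * χ y‖ₑ ^ q ∂μ +
        2 ^ q * (B.card * (C1 ^ q * J * aM ^ q))) + C1 ^ q * J * aM ^ q) := by gcongr
    _ = 2 ^ q * 2 ^ q * Γ * ∑ β ∈ B, ∫⁻ y, ‖(∑ α ∈ T with π α = β, F α y) * χ y‖ₑ ^ q ∂μ +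
        (2 ^ q * 2 ^ q * Γ * B.card + 2 ^ q) * (C1 ^ q * J * aM ^ q) := by ring
    _ ≤ _ := by
        rw [h22]
        gcongr

end

private theorem BN0_haar_V (m : ℕ) : (volume : Measure (V m)).IsAddHaarMeasure := by
  change ((volume : Measure (E m)).prod (volume : Measure ℝ)).IsAddHaarMeasure
  infer_instance

/-- `∫∫ H(y) w(y - x) dy dx = ∫ H ∫ w`. -/
private theorem BN0_lintegral_lintegral_sub {m : ℕ} {H w : V m → ℝ≥0∞} (hH : Measurable H) (hw : Measurable w) :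
    ∫⁻ x : V m, ∫⁻ y : V m, H y * w (y - x) = (∫⁻ y, H y) * ∫⁻ y, w y := by
  have := BN0_haar_V m
  have h1 : Measurable fun p : V m × V m => H p.2 * w (p.2 - p.1) :=
    (hH.comp measurable_snd).mul (hw.comp (measurable_snd.sub measurable_fst))
  rw [lintegral_lintegral_swap h1.aemeasurable]
  have h2 : ∀ y : V m, ∫⁻ x : V m, H y * w (y - x) = H y * ∫⁻ x, w x := by
    intro y
    have h3 : Measurable fun x : V m => w (y - x) := hw.comp (measurable_const.sub measurable_id)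
    rw [lintegral_const_mul _ h3]
    congr 1
    exact lintegral_sub_left_eq_self w y
  simp_rw [h2]
  rw [lintegral_mul_const _ hH]

private theorem BN0_measurable_lintegral_sub {m : ℕ} {H w : V m → ℝ≥0∞} (hH : Measurable H) (hw : Measurable w) :
    Measurable fun x : V m => ∫⁻ y : V m, H y * w (y - x) := by
  have h1 : Measurable fun p : V m × V m => H p.2 * w (p.2 - p.1) :=
    (hH.comp measurable_snd).mul (hw.comp (measurable_snd.sub measurable_fst))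
  exact h1.lintegral_prod_right'

/-- Broad / narrow, with everything abstract. -/
theorem bn_core {m : ℕ} {ι κ : Type} [DecidableEq κ] {q : ℝ} (hq : 1 ≤ q)
    (T : Finset ι) (F : ι → V m → ℂ) (hF : ∀ α ∈ T, Measurable (F α))
    (B : Finset κ) (π : ι → κ) (hπ : ∀ α ∈ T, π α ∈ B)
    (χ : V m → ℂ) (hχ : Measurable χ) (G : V m → ℝ≥0∞) (hG : Measurable G)
    (a : ι → V m → ℝ≥0∞) (ha : ∀ α ∈ T, Measurable (a α)) (C1 Γ Mt : ℝ≥0∞)
    (H1 : ∀ α ∈ T, ∀ x y, ‖F α y‖ₑ ≤ C1 * G (y - x) * a α x)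
    (Trans : (Fin (m + 1) → ι) → Prop)
    (hdich : ∀ S ⊆ T, S.Nonempty → (∃ t : Fin (m + 1) → ι, (∀ i, t i ∈ S) ∧ Trans t) ∨
      ∀ x, ∫⁻ y, ‖∑ β ∈ B, (∑ α ∈ S with π α = β, F α y) * χ (y - x)‖ₑ ^ q ≤
        Γ * ∑ β ∈ B, (∫⁻ y, ‖(∑ α ∈ S with π α = β, F α y) * χ (y - x)‖ₑ ^ q))
    (hM : ∀ t : Fin (m + 1) → ι, (∀ i, t i ∈ T) → Trans t →
      ∫⁻ z, ∏ i, a (t i) z ^ (q / ((m : ℝ) + 1)) ≤ Mt) :
    (∫⁻ y, ‖χ y‖ₑ ^ q) * ∫⁻ y, ‖∑ α ∈ T, F α y‖ₑ ^ q ≤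
      4 ^ q * Γ * (∫⁻ y, ‖χ y‖ₑ ^ q) * (∑ β ∈ B, ∫⁻ y, ‖∑ α ∈ T with π α = β, F α y‖ₑ ^ q) +
      (4 ^ q * Γ * B.card + 4 ^ q) * (C1 ^ q * ∫⁻ y, G y ^ q * ‖χ y‖ₑ ^ q) *
        (∑ α ∈ T, ∫⁻ y, a α y ^ q) +
      (C1 * T.card * T.card) ^ q * (∫⁻ y, G y ^ q * ‖χ y‖ₑ ^ q) * (T.card : ℝ≥0∞) ^ (m + 1) * Mt := by
  classical
  have hq0 : 0 < q := by linarith
  rcases T.eq_empty_or_nonempty with rfl | hTne
  · have : ∫⁻ y : V m, ‖∑ α ∈ (∅ : Finset ι), F α y‖ₑ ^ q = 0 := by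
      simp [ENNReal.zero_rpow_of_pos hq0]
    rw [this, mul_zero]
    exact zero_le
  have := BN0_haar_V m
  set J : ℝ≥0∞ := ∫⁻ y, G y ^ q * ‖χ y‖ₑ ^ q with hJ
  set X : ℝ≥0∞ := ∫⁻ y, ‖χ y‖ₑ ^ q with hX
  have hwm : Measurable fun y : V m => ‖χ y‖ₑ ^ q := hχ.enorm.pow_const q
  have hGm : Measurable fun y : V m => G y ^ q * ‖χ y‖ₑ ^ q := (hG.pow_const q).mul hwm
  have hFm : ∀ R : Finset ι, R ⊆ T → Measurable fun y => ‖∑ α ∈ R, F α y‖ₑ ^ q := fun R hR =>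
    (Finset.measurable_fun_sum R fun α hα => hF α (hR hα)).enorm.pow_const q
  -- rewriting the local norms
  have hloc : ∀ (g : V m → ℂ) (x : V m), ∫⁻ y, ‖g y * χ (y - x)‖ₑ ^ q =
      ∫⁻ y, ‖g y‖ₑ ^ q * (fun y => ‖χ y‖ₑ ^ q) (y - x) := by
    intro g x
    refine lintegral_congr fun y => ?_
    rw [enorm_mul, ENNReal.mul_rpow_of_nonneg _ _ hq0.le]
  have hJx : ∀ x : V m, ∫⁻ y, G (y - x) ^ q * ‖χ (y - x)‖ₑ ^ q = J := fun x =>
    lintegral_sub_right_eq_self (fun y => G y ^ q * ‖χ y‖ₑ ^ q) x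
  set 𝒯 : Finset (Fin (m + 1) → ι) := (Fintype.piFinset fun _ => T).filter Trans with h𝒯
  -- the pointwise inequality
  have hpt : ∀ x : V m, ∫⁻ y, ‖(∑ α ∈ T, F α y) * χ (y - x)‖ₑ ^ q ≤
      4 ^ q * Γ * (∑ β ∈ B, ∫⁻ y, ‖(∑ α ∈ T with π α = β, F α y) * χ (y - x)‖ₑ ^ q) +
      (4 ^ q * Γ * B.card + 4 ^ q) * (C1 ^ q * J) * (∑ α ∈ T, a α x ^ q) +
      (C1 * T.card * T.card) ^ q * J * ∑ t ∈ 𝒯, ∏ i, a (t i) x ^ (q / ((m : ℝ) + 1)) := by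
    intro x
    set aM : ℝ≥0∞ := T.sup fun α => a α x with haM
    have hle : ∀ α ∈ T, a α x ≤ aM := fun α hα => Finset.le_sup (f := fun α => a α x) hα
    obtain ⟨α0, hα0, hα0M⟩ := Finset.exists_mem_eq_sup T hTne (fun α => a α x)
    set S : Finset ι := T.filter fun α => aM ≤ T.card * a α x with hS
    have hSne : S.Nonempty := by
      refine ⟨α0, Finset.mem_filter.2 ⟨hα0, ?_⟩⟩
      rw [haM, hα0M]
      have h1 : (1 : ℝ≥0∞) ≤ T.card := by exact_mod_cast Finset.card_pos.2 hTne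
      calc a α0 x = 1 * a α0 x := (one_mul _).symm
        _ ≤ T.card * a α0 x := by gcongr
    have hST : S ⊆ T := Finset.filter_subset _ _
    rcases hdich S hST hSne with ⟨t, htS, htT⟩ | hnar
    · have h1 := BN0_pw_broad (volume : Measure (V m)) T F (fun y => χ (y - x)) (fun y => G (y - x))
        (fun α => a α x) C1 aM hq (Nat.succ_pos m) (fun α hα y => H1 α hα x y) hle
        (hGm.comp (measurable_id.sub_const x)) t (fun i => (Finset.mem_filter.1 (htS i)).2)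
      rw [hJx x] at h1
      refine h1.trans ?_
      refine le_trans ?_ le_add_self
      gcongr
      have h2 : t ∈ 𝒯 := Finset.mem_filter.2 ⟨Fintype.mem_piFinset.2 fun i => hST (htS i), htT⟩
      have h3 := Finset.single_le_sum (f := fun t : Fin (m + 1) → ι =>
        ∏ i, a (t i) x ^ (q / ((m : ℝ) + 1))) (fun _ _ => zero_le) h2
      refine le_trans (le_of_eq ?_) h3
      simp
    · have h1 := BN0_pw_narrow (volume : Measure (V m)) T S hST B π hπ F (fun y => χ (y - x))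
        (fun y => G (y - x)) hF (hχ.comp (measurable_id.sub_const x)) (fun α => a α x) C1 aM Γ hq
        (fun α hα y => H1 α hα x y) (hGm.comp (measurable_id.sub_const x)) (fun α hα hαS => by
          by_contra hcon
          push Not at hcon
          exact hαS (Finset.mem_filter.2 ⟨hα, hcon.le⟩)) (hnar x)
      rw [hJx x] at h1
      refine h1.trans ?_
      refine le_trans ?_ le_self_add
      have h2 : aM ^ q ≤ ∑ α ∈ T, a α x ^ q := by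
        rw [haM, hα0M]
        exact Finset.single_le_sum (f := fun α => a α x ^ q) (fun _ _ => zero_le) hα0
      calc 4 ^ q * Γ * (∑ β ∈ B, ∫⁻ y, ‖(∑ α ∈ T with π α = β, F α y) * χ (y - x)‖ₑ ^ q) +
            (4 ^ q * Γ * B.card + 4 ^ q) * (C1 ^ q * J * aM ^ q)
          ≤ 4 ^ q * Γ * (∑ β ∈ B, ∫⁻ y, ‖(∑ α ∈ T with π α = β, F α y) * χ (y - x)‖ₑ ^ q) +
            (4 ^ q * Γ * B.card + 4 ^ q) * (C1 ^ q * J * (∑ α ∈ T, a α x ^ q)) := by gcongr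
        _ = _ := by rw [← mul_assoc (4 ^ q * Γ * B.card + 4 ^ q)]
  -- integrate
  have hB : ∀ g : V m → ℂ, Measurable (fun y => ‖g y‖ₑ ^ q) →
      ∫⁻ x, ∫⁻ y, ‖g y * χ (y - x)‖ₑ ^ q = X * ∫⁻ y, ‖g y‖ₑ ^ q := by
    intro g hg
    simp_rw [hloc]
    rw [BN0_lintegral_lintegral_sub hg hwm, mul_comm]
  have hBm : ∀ g : V m → ℂ, Measurable (fun y => ‖g y‖ₑ ^ q) →
      Measurable fun x => ∫⁻ y, ‖g y * χ (y - x)‖ₑ ^ q := by
    intro g hg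
    simp_rw [hloc]
    exact BN0_measurable_lintegral_sub hg hwm
  have hm1 : Measurable fun x => 4 ^ q * Γ *
      ∑ β ∈ B, ∫⁻ y, ‖(∑ α ∈ T with π α = β, F α y) * χ (y - x)‖ₑ ^ q :=
    (Finset.measurable_fun_sum B fun β _ => hBm _ (hFm _ (Finset.filter_subset _ _))).const_mul _
  have hm2 : Measurable fun x => (4 ^ q * Γ * B.card + 4 ^ q) * (C1 ^ q * J) * ∑ α ∈ T, a α x ^ q :=
    (Finset.measurable_fun_sum T fun α hα => (ha α hα).pow_const q).const_mul _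
  have hprodm : ∀ t ∈ 𝒯, Measurable fun x => ∏ i, a (t i) x ^ (q / ((m : ℝ) + 1)) := by
    intro t ht
    have h1 := Fintype.mem_piFinset.1 (Finset.mem_filter.1 ht).1
    exact Finset.measurable_fun_prod _ fun i _ => (ha _ (h1 i)).pow_const _
  have hcard : (𝒯.card : ℝ≥0∞) ≤ (T.card : ℝ≥0∞) ^ (m + 1) := by
    have h1 : 𝒯.card ≤ (Fintype.piFinset fun _ : Fin (m + 1) => T).card := Finset.card_filter_le _ _
    rw [Fintype.card_piFinset_const] at h1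
    exact_mod_cast h1
  calc X * ∫⁻ y, ‖∑ α ∈ T, F α y‖ₑ ^ q
      = ∫⁻ x, ∫⁻ y, ‖(∑ α ∈ T, F α y) * χ (y - x)‖ₑ ^ q := (hB _ (hFm T le_rfl)).symm
    _ ≤ ∫⁻ x, (4 ^ q * Γ * (∑ β ∈ B, ∫⁻ y, ‖(∑ α ∈ T with π α = β, F α y) * χ (y - x)‖ₑ ^ q) +
      (4 ^ q * Γ * B.card + 4 ^ q) * (C1 ^ q * J) * (∑ α ∈ T, a α x ^ q) +
      (C1 * T.card * T.card) ^ q * J * ∑ t ∈ 𝒯, ∏ i, a (t i) x ^ (q / ((m : ℝ) + 1))) :=
        lintegral_mono hpt
    _ = 4 ^ q * Γ * (∑ β ∈ B, (X * ∫⁻ y, ‖∑ α ∈ T with π α = β, F α y‖ₑ ^ q)) +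
      (4 ^ q * Γ * B.card + 4 ^ q) * (C1 ^ q * J) * (∑ α ∈ T, ∫⁻ x, a α x ^ q) +
      (C1 * T.card * T.card) ^ q * J * ∑ t ∈ 𝒯, ∫⁻ x, ∏ i, a (t i) x ^ (q / ((m : ℝ) + 1)) := by
        have hm12 : Measurable fun x => 4 ^ q * Γ *
            (∑ β ∈ B, ∫⁻ y, ‖(∑ α ∈ T with π α = β, F α y) * χ (y - x)‖ₑ ^ q) +
            (4 ^ q * Γ * B.card + 4 ^ q) * (C1 ^ q * J) * (∑ α ∈ T, a α x ^ q) := hm1.add hm2
        rw [lintegral_add_left hm12, lintegral_add_left hm1,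
          lintegral_const_mul _ (Finset.measurable_fun_sum B fun β _ =>
            hBm _ (hFm _ (Finset.filter_subset _ _))),
          lintegral_finsetSum _ fun β _ => hBm _ (hFm _ (Finset.filter_subset _ _)),
          lintegral_const_mul _ (Finset.measurable_fun_sum T fun α hα => (ha α hα).pow_const q),
          lintegral_finsetSum' _ fun α hα => ((ha α hα).pow_const q).aemeasurable,
          lintegral_const_mul _ (Finset.measurable_fun_sum 𝒯 hprodm),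
          lintegral_finsetSum' _ fun t ht => (hprodm t ht).aemeasurable]
        congr 3
        refine Finset.sum_congr rfl fun β _ => ?_
        exact hB _ (hFm _ (Finset.filter_subset _ _))
    _ ≤ _ := by
        rw [← Finset.mul_sum]
        have h4 : ∑ t ∈ 𝒯, ∫⁻ x, ∏ i, a (t i) x ^ (q / ((m : ℝ) + 1)) ≤
            (T.card : ℝ≥0∞) ^ (m + 1) * Mt := by
          calc ∑ t ∈ 𝒯, ∫⁻ x, ∏ i, a (t i) x ^ (q / ((m : ℝ) + 1)) ≤ ∑ _t ∈ 𝒯, Mt := by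
                refine Finset.sum_le_sum fun t ht => ?_
                have h5 := Finset.mem_filter.1 ht
                exact hM t (Fintype.mem_piFinset.1 h5.1) h5.2
            _ = 𝒯.card * Mt := by rw [Finset.sum_const, nsmul_eq_mul]
            _ ≤ _ := by gcongr
        calc 4 ^ q * Γ * (X * ∑ β ∈ B, ∫⁻ y, ‖∑ α ∈ T with π α = β, F α y‖ₑ ^ q) +
            (4 ^ q * Γ * B.card + 4 ^ q) * (C1 ^ q * J) * (∑ α ∈ T, ∫⁻ x, a α x ^ q) +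
            (C1 * T.card * T.card) ^ q * J * ∑ t ∈ 𝒯, ∫⁻ x, ∏ i, a (t i) x ^ (q / ((m : ℝ) + 1))
            ≤ 4 ^ q * Γ * (X * ∑ β ∈ B, ∫⁻ y, ‖∑ α ∈ T with π α = β, F α y‖ₑ ^ q) +
            (4 ^ q * Γ * B.card + 4 ^ q) * (C1 ^ q * J) * (∑ α ∈ T, ∫⁻ x, a α x ^ q) +
            (C1 * T.card * T.card) ^ q * J * ((T.card : ℝ≥0∞) ^ (m + 1) * Mt) := by gcongr
          _ = _ := by ring

end Pool.LibDC71
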