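import Pool.Agent.LibDC71.G1

/-! G2 (regions). Coordinates of ctr k b - ctr l (par (k-l) b) lie in [0, 2^(-l) - 2^(-k)], so the
norm is ≤ √m (2^(-l) - 2^(-k)); with √m ≤ A: A 2^(-k) + √m (2^(-l) - 2^(-k)) ≤ A 2^(-l).
* ball: |ζ.2 - ‖c‖^2| ≤ A 4^(-k) + |‖ζ.1‖^2 - ‖c‖^2| ≤ A 4^(-k) + A 2^(-k) (2 ‖c‖ + A 2^(-k)), ‖c‖ ≤ √m.
* multiplicity: the integer vectors b - a have all coordinates in [-B, B]: at most (2B+1)^m. -/

set_option autoImplicit false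

noncomputable section

open MeasureTheory
open scoped ENNReal

namespace Pool.LibDC71

private theorem g2_norm_le {m : ℕ} (v : E m) {c : ℝ} (hc : 0 ≤ c) (h : ∀ i, |v i| ≤ c) :
    ‖v‖ ≤ Real.sqrt m * c := by
  rw [EuclideanSpace.norm_eq]
  have h1 : ∑ i, ‖v i‖ ^ 2 ≤ (m : ℝ) * c ^ 2 := by
    calc ∑ i, ‖v i‖ ^ 2 ≤ ∑ _i : Fin m, c ^ 2 := by
          refine Finset.sum_le_sum fun i _ => ?_
          rw [Real.norm_eq_abs]
          exact pow_le_pow_left₀ (abs_nonneg _) (h i) 2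
      _ = (m : ℝ) * c ^ 2 := by simp
  calc Real.sqrt (∑ i, ‖v i‖ ^ 2) ≤ Real.sqrt ((m : ℝ) * c ^ 2) := Real.sqrt_le_sqrt h1
    _ = Real.sqrt m * c := by
      rw [Real.sqrt_mul (Nat.cast_nonneg m), Real.sqrt_sq hc]

private theorem g2_ctr_apply {m : ℕ} (k : ℕ) (a : Fin m → ℤ) (i : Fin m) :
    ctr k a i = (a i : ℝ) / 2 ^ k := rfl

theorem norm_ctr_le {m k : ℕ} {a : Fin m → ℤ} (ha : a ∈ Lam m k) : ‖ctr k a‖ ≤ Real.sqrt m := by
  have h := g2_norm_le (ctr k a) (c := 1) zero_le_one (fun i => by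
    rw [g2_ctr_apply]
    obtain ⟨h0, h1⟩ := (mem_Lam.mp ha) i
    have h0' : (0 : ℝ) ≤ (a i : ℝ) := by exact_mod_cast h0
    have h1' : (a i : ℝ) ≤ 2 ^ k := by exact_mod_cast h1.le
    rw [abs_of_nonneg (by positivity)]
    exact div_le_one_of_le₀ h1' (by positivity))
  rwa [mul_one] at h

theorem dist_ctr_par {m k l : ℕ} (hl : l ≤ k) (b : Fin m → ℤ) :
    ‖ctr k b - ctr l (par (k - l) b)‖ ≤ Real.sqrt m * (1 / 2 ^ l - 1 / 2 ^ k) := by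
  have hpos : (0 : ℝ) < 2 ^ l := by positivity
  have hposk : (0 : ℝ) < 2 ^ k := by positivity
  have hk : (2 : ℝ) ^ k = 2 ^ (k - l) * 2 ^ l := by
    rw [← pow_add, Nat.sub_add_cancel hl]
  have hd : (0 : ℝ) ≤ 1 / 2 ^ l - 1 / 2 ^ k := by
    have : (1 : ℝ) / 2 ^ k ≤ 1 / 2 ^ l :=
      one_div_le_one_div_of_le hpos (pow_le_pow_right₀ one_le_two hl)
    linarith
  refine g2_norm_le _ hd fun i => ?_
  have e : (ctr k b - ctr l (par (k - l) b)) i =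
      (b i : ℝ) / 2 ^ k - ((b i / 2 ^ (k - l) : ℤ) : ℝ) / 2 ^ l := rfl
  rw [e]
  have hP : (0 : ℤ) < 2 ^ (k - l) := by positivity
  have h1 := Int.emod_add_mul_ediv (b i) (2 ^ (k - l))
  have h2 : 0 ≤ b i % 2 ^ (k - l) := Int.emod_nonneg _ hP.ne'
  have h3 : b i % 2 ^ (k - l) < 2 ^ (k - l) := Int.emod_lt_of_pos _ hP
  have h3' : b i % 2 ^ (k - l) ≤ 2 ^ (k - l) - 1 := by omega
  set r : ℤ := b i % 2 ^ (k - l) with hr
  set d : ℤ := b i / 2 ^ (k - l) with hdd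
  have hb : (b i : ℝ) = (r : ℝ) + 2 ^ (k - l) * (d : ℝ) := by
    have : ((b i : ℤ) : ℝ) = ((r + 2 ^ (k - l) * d : ℤ) : ℝ) := by rw [h1]
    rw [this]
    push_cast
    ring
  have h2r : (0 : ℝ) ≤ (r : ℝ) := by exact_mod_cast h2
  have h3r : (r : ℝ) ≤ 2 ^ (k - l) - 1 := by
    have : ((r : ℤ) : ℝ) ≤ (((2 : ℤ) ^ (k - l) - 1 : ℤ) : ℝ) := by exact_mod_cast h3'
    simpa using this
  have e2 : (b i : ℝ) / 2 ^ k - (d : ℝ) / 2 ^ l = (r : ℝ) / 2 ^ k := by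
    rw [hb, hk]
    field_simp
    ring
  rw [e2, abs_of_nonneg (by positivity)]
  have e3 : (1 : ℝ) / 2 ^ l - 1 / 2 ^ k = (2 ^ (k - l) - 1) / 2 ^ k := by
    rw [hk]
    field_simp
  rw [e3]
  exact div_le_div_of_nonneg_right h3r hposk.le

theorem reg_subset {m k l : ℕ} {A : ℝ} (hA : Real.sqrt m ≤ A) (hl : l ≤ k) {a b : Fin m → ℤ}
    (hb : b ∈ desc k l a) : reg A k b ⊆ reg A l a := by
  rintro ζ ⟨h1, h2⟩
  have hA0 : 0 ≤ A := le_trans (Real.sqrt_nonneg _) hA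
  have hpos : (0 : ℝ) < 2 ^ l := by positivity
  have hba : par (k - l) b = a := (mem_desc.mp hb).2
  have h3 := dist_ctr_par hl b
  rw [hba] at h3
  have h12 : (1 : ℝ) / 2 ^ k ≤ 1 / 2 ^ l :=
    one_div_le_one_div_of_le hpos (pow_le_pow_right₀ one_le_two hl)
  refine ⟨?_, ?_⟩
  · have h4 : ζ.1 - ctr l a = (ζ.1 - ctr k b) + (ctr k b - ctr l a) := by abel
    have h5 : Real.sqrt m * (1 / 2 ^ l - 1 / 2 ^ k) ≤ A * (1 / 2 ^ l - 1 / 2 ^ k) :=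
      mul_le_mul_of_nonneg_right hA (by linarith)
    calc ‖ζ.1 - ctr l a‖ ≤ ‖ζ.1 - ctr k b‖ + ‖ctr k b - ctr l a‖ := by
          rw [h4]; exact norm_add_le _ _
      _ ≤ A / 2 ^ k + A * (1 / 2 ^ l - 1 / 2 ^ k) := add_le_add h1 (h3.trans h5)
      _ = A / 2 ^ l := by ring
  · refine h2.trans ?_
    exact div_le_div_of_nonneg_left hA0 (by positivity)
      (pow_le_pow_right₀ (by norm_num) hl)

theorem Fr_pc {m k l : ℕ} {A : ℝ} (hA : Real.sqrt m ≤ A) (hl : l ≤ k)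
    {f : (Fin m → ℤ) → V m → ℂ} (hf : Fam A k f) (a : Fin m → ℤ) :
    Fr (reg A l a) (pc k l f a) := by
  have h : Fr (reg A l a) (fun z => ∑ b ∈ desc k l a, f b z) :=
    Fr.sum _ fun b hb => (hf b (mem_desc.mp hb).1).mono (reg_subset hA hl hb)
  exact h

/-- the family of the pieces of level l is admissible -/
theorem Fam_pc {m k l : ℕ} {A : ℝ} (hA : Real.sqrt m ≤ A) (hl : l ≤ k)
    {f : (Fin m → ℤ) → V m → ℂ} (hf : Fam A k f) : Fam A l (pc k l f) :=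
  fun a _ => Fr_pc hA hl hf a

theorem reg_subset_ball {m k : ℕ} {A : ℝ} (hA : 0 ≤ A) {a : Fin m → ℤ} (ha : a ∈ Lam m k) :
    reg A k a ⊆ Metric.closedBall (ctr k a, ‖ctr k a‖ ^ 2)
      (((A + 1) * (A + 1 + 2 * Real.sqrt m)) / 2 ^ k) := by
  rintro ζ ⟨h1, h2⟩
  have hs : 0 ≤ Real.sqrt m := Real.sqrt_nonneg _
  have hc := norm_ctr_le ha
  have hc0 : 0 ≤ ‖ctr k a‖ := norm_nonneg _
  have hk1 : (1 : ℝ) ≤ 2 ^ k := one_le_pow₀ one_le_two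
  have hpos : (0 : ℝ) < 2 ^ k := by positivity
  set u : ℝ := 1 / 2 ^ k with hu
  have hu0 : 0 ≤ u := by positivity
  have hu1 : u ≤ 1 := by
    rw [hu]
    exact div_le_one_of_le₀ hk1 hpos.le
  have hAu : A / 2 ^ k = A * u := by rw [hu]; ring
  have hA4 : A / 4 ^ k = A * (u * u) := by
    have : (4 : ℝ) ^ k = 2 ^ k * 2 ^ k := by
      rw [← mul_pow]; norm_num
    rw [hu, this]
    field_simp
  have hR : ((A + 1) * (A + 1 + 2 * Real.sqrt m)) / 2 ^ k =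
      ((A + 1) * (A + 1 + 2 * Real.sqrt m)) * u := by rw [hu]; ring
  rw [hAu] at h1
  rw [hA4] at h2
  rw [Metric.mem_closedBall, hR]
  rw [Prod.dist_eq]
  refine max_le ?_ ?_
  · rw [dist_eq_norm]
    refine h1.trans (mul_le_mul_of_nonneg_right ?_ hu0)
    nlinarith [mul_nonneg hA hs, mul_nonneg hA hA]
  · rw [Real.dist_eq]
    show |ζ.2 - ‖ctr k a‖ ^ 2| ≤ _
    have h3 : ‖ζ.1‖ ≤ ‖ctr k a‖ + A * u := by
      calc ‖ζ.1‖ = ‖ctr k a + (ζ.1 - ctr k a)‖ := by congr 1; abel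
        _ ≤ ‖ctr k a‖ + ‖ζ.1 - ctr k a‖ := norm_add_le _ _
        _ ≤ _ := by linarith
    have h4 : |‖ζ.1‖ - ‖ctr k a‖| ≤ A * u := (abs_norm_sub_norm_le _ _).trans h1
    have h5 : |‖ζ.1‖ ^ 2 - ‖ctr k a‖ ^ 2| ≤ A * u * (2 * Real.sqrt m + A * u) := by
      have : ‖ζ.1‖ ^ 2 - ‖ctr k a‖ ^ 2 = (‖ζ.1‖ - ‖ctr k a‖) * (‖ζ.1‖ + ‖ctr k a‖) := by ring
      rw [this, abs_mul]
      refine mul_le_mul h4 ?_ (abs_nonneg _) (by positivity)
      rw [abs_of_nonneg (by positivity)]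
      linarith
    have h6 : |ζ.2 - ‖ctr k a‖ ^ 2| ≤ A * (u * u) + A * u * (2 * Real.sqrt m + A * u) := by
      have : ζ.2 - ‖ctr k a‖ ^ 2 = (ζ.2 - ‖ζ.1‖ ^ 2) + (‖ζ.1‖ ^ 2 - ‖ctr k a‖ ^ 2) := by ring
      rw [this]
      exact (abs_add_le _ _).trans (add_le_add h2 h5)
    refine h6.trans ?_
    have h7 : A * (u * u) ≤ A * u := by
      have : u * u ≤ u := by nlinarith
      exact mul_le_mul_of_nonneg_left this hA
    have h8 : A * u * (A * u) ≤ A * A * u := by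
      have : u * u ≤ u := by nlinarith
      nlinarith [mul_nonneg hA hA]
    have h9 : (A + 1) * (A + 1 + 2 * Real.sqrt m) * u =
        A * u + A * A * u + 2 * (A * u * Real.sqrt m) + (A + 1 + 2 * Real.sqrt m) * u := by ring
    have h10 : 0 ≤ (A + 1 + 2 * Real.sqrt m) * u := by positivity
    rw [h9]
    nlinarith [h7, h8, h10]

/-- bounded multiplicity of the centres -/
theorem card_near (m : ℕ) (B : ℝ) : ∃ L : ℕ, ∀ (k : ℕ) (a : Fin m → ℤ),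
    {b : Fin m → ℤ | ‖ctr k b - ctr k a‖ ≤ B / 2 ^ k}.ncard ≤ L ∧
    {b : Fin m → ℤ | ‖ctr k b - ctr k a‖ ≤ B / 2 ^ k}.Finite := by
  refine ⟨(2 * ⌈B⌉₊ + 1) ^ m, fun k a => ?_⟩
  set N : ℕ := ⌈B⌉₊ with hN
  set F : Finset (Fin m → ℤ) :=
    Fintype.piFinset fun i => Finset.Icc (a i - (N : ℤ)) (a i + (N : ℤ)) with hF
  have hsub : {b : Fin m → ℤ | ‖ctr k b - ctr k a‖ ≤ B / 2 ^ k} ⊆ (F : Set (Fin m → ℤ)) := by
    intro b hb
    rw [Finset.mem_coe, hF, Fintype.mem_piFinset]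
    intro i
    have hpos : (0 : ℝ) < 2 ^ k := by positivity
    have h1 : |(b i : ℝ) / 2 ^ k - (a i : ℝ) / 2 ^ k| ≤ B / 2 ^ k := by
      have h2 : ‖(ctr k b - ctr k a) i‖ ≤ ‖ctr k b - ctr k a‖ := PiLp.norm_apply_le _ i
      have h3 : (ctr k b - ctr k a) i = (b i : ℝ) / 2 ^ k - (a i : ℝ) / 2 ^ k := rfl
      rw [h3, Real.norm_eq_abs] at h2
      exact h2.trans hb
    have h4 : |(b i : ℝ) - (a i : ℝ)| ≤ B := by
      rw [← sub_div, abs_div, abs_of_pos hpos] at h1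
      exact (div_le_div_iff_of_pos_right hpos).mp h1
    have h5 : |(b i : ℝ) - (a i : ℝ)| ≤ (N : ℝ) := h4.trans (Nat.le_ceil B)
    rw [abs_le] at h5
    have h6 : (a i : ℤ) - (N : ℤ) ≤ b i := by
      have : ((a i : ℝ) - (N : ℝ)) ≤ (b i : ℝ) := by linarith [h5.1]
      exact_mod_cast this
    have h7 : b i ≤ (a i : ℤ) + (N : ℤ) := by
      have : (b i : ℝ) ≤ (a i : ℝ) + (N : ℝ) := by linarith [h5.2]
      exact_mod_cast this
    exact Finset.mem_Icc.mpr ⟨h6, h7⟩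
  have hcard : F.card = (2 * N + 1) ^ m := by
    rw [hF, Fintype.card_piFinset]
    have : ∀ i : Fin m, (Finset.Icc (a i - (N : ℤ)) (a i + (N : ℤ))).card = 2 * N + 1 := by
      intro i
      rw [Int.card_Icc]
      omega
    simp only [this, Finset.prod_const, Finset.card_univ, Fintype.card_fin]
  refine ⟨?_, F.finite_toSet.subset hsub⟩
  calc _ ≤ (F : Set (Fin m → ℤ)).ncard := Set.ncard_le_ncard hsub F.finite_toSet
    _ = (2 * N + 1) ^ m := by rw [Set.ncard_coe_finset, hcard]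

end Pool.LibDC71
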