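import Pool.Agent.LibDC71.F3
import Pool.Agent.LibDC71.G2

/-! G3 (rescaling, exact). a ∈ Lam m l, λ = 2^l, c = ctr l a; the descendants are b = 2^(k-l) a + b',
b' ∈ Lam m (k-l) (`desc_eq`), λ (ctr k b - c) = ctr (k-l) b'. F_{b'} = gal λ c (f b) is an admissible
family of level k-l (`Fr_gal`, `reg_eq`: λ A 2^(-k) = A 2^(-(k-l)), λ^2 A 4^(-k) = A 4^(-(k-l))).
Apply DB at level k-l; `gal_sum`, `lintegral_gal` (the factor λ^(-(m+2)) cancels: multiply by it).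
* rescale_sum: sum over a, `sum_desc`.
* trivial bound: ‖∑ f_a‖^q ≤ N^(q-1) ∑ ‖f_a‖^q (`ENNReal.inner_le..`/`ENNReal.rpow_sum_le..`:
  power mean for finite sums), N^(q-1) = N^(q/2-1) N^(q/2). -/

set_option autoImplicit false

noncomputable section

open MeasureTheory
open scoped ENNReal

namespace Pool.LibDC71

private theorem G3_sum_image {m k l : ℕ} (hl : l ≤ k) {a : Fin m → ℤ} (ha : a ∈ Lam m l)
    {M : Type} [AddCommMonoid M] (F : (Fin m → ℤ) → M) :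
    ∑ c ∈ Lam m (k - l), F (fun i => 2 ^ (k - l) * a i + c i) = ∑ b ∈ desc k l a, F b := by
  classical
  rw [desc_eq hl ha, Finset.sum_image]
  intro c _ c' _ h
  funext i
  have h1 := congrFun h i
  simp only [add_right_inj] at h1
  exact h1

private theorem G3_ctr {m k l : ℕ} (hl : l ≤ k) (a c : Fin m → ℤ) :
    (2 : ℝ) ^ l • (ctr k (fun i => 2 ^ (k - l) * a i + c i) - ctr l a) = ctr (k - l) c := by
  obtain ⟨j, rfl⟩ : ∃ j, k = l + j := ⟨k - l, by omega⟩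
  have h : l + j - l = j := by omega
  rw [h]
  ext i
  simp only [ctr, PiLp.smul_apply, PiLp.sub_apply, smul_eq_mul]
  push_cast
  rw [pow_add]
  field_simp
  ring

private theorem G3_holder {ι : Type} {m : ℕ} {q : ℝ} (hq : 1 ≤ q) (s : Finset ι) {f : ι → V m → ℂ}
    (hf : ∀ i ∈ s, Measurable (fun z => ‖f i z‖ₑ ^ q)) :
    ∫⁻ z, ‖∑ i ∈ s, f i z‖ₑ ^ q ≤ (s.card : ℝ≥0∞) ^ (q - 1) * ∑ i ∈ s, ∫⁻ z, ‖f i z‖ₑ ^ q := by
  have hq0 : 0 ≤ q := by linarith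
  have h1 : ∀ z, ‖∑ i ∈ s, f i z‖ₑ ^ q ≤ (s.card : ℝ≥0∞) ^ (q - 1) * ∑ i ∈ s, ‖f i z‖ₑ ^ q := by
    intro z
    refine le_trans (ENNReal.rpow_le_rpow (enorm_sum_le s (fun i => f i z)) hq0) ?_
    exact ENNReal.rpow_sum_le_const_mul_sum_rpow s (fun i => ‖f i z‖ₑ) hq
  refine le_trans (lintegral_mono h1) ?_
  rw [lintegral_const_mul _ (Finset.measurable_sum _ hf), lintegral_finsetSum _ hf]

theorem rescale {m k l : ℕ} {q A : ℝ} {D : ℝ≥0∞} (hq : 2 < q) (hl : l ≤ k) (hD : DB m q A (k - l) D)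
    {f : (Fin m → ℤ) → V m → ℂ} (hf : Fam A k f) {a : Fin m → ℤ} (ha : a ∈ Lam m l) :
    ∫⁻ z, ‖pc k l f a z‖ₑ ^ q ≤ D * nf m q (k - l) * ∑ b ∈ desc k l a, ∫⁻ z, ‖f b z‖ₑ ^ q := by
  classical
  have hlam : (0 : ℝ) < 2 ^ l := by positivity
  set F : (Fin m → ℤ) → V m → ℂ :=
    fun c => gal (2 ^ l) (ctr l a) (f (fun i => 2 ^ (k - l) * a i + c i)) with hF
  have hfam : Fam A (k - l) F := by
    intro c hc
    have hb : (fun i => 2 ^ (k - l) * a i + c i) ∈ desc k l a := by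
      rw [desc_eq hl ha]
      exact Finset.mem_image_of_mem _ hc
    have h1 := hf _ (mem_desc.1 hb).1
    rw [reg_eq] at h1
    have h2 := Fr_gal hlam (ctr l a) _ h1
    rw [G3_ctr hl a c] at h2
    have e1 : (2 : ℝ) ^ l * (A / 2 ^ k) = A / 2 ^ (k - l) := by
      have : (2 : ℝ) ^ k = 2 ^ l * 2 ^ (k - l) := by rw [← pow_add]; congr 1; omega
      rw [this]
      field_simp
    have e2 : ((2 : ℝ) ^ l) ^ 2 * (A / 4 ^ k) = A / 4 ^ (k - l) := by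
      have h4 : (4 : ℝ) ^ k = 4 ^ l * 4 ^ (k - l) := by rw [← pow_add]; congr 1; omega
      have h5 : ((2 : ℝ) ^ l) ^ 2 = 4 ^ l := by rw [← pow_mul, mul_comm, pow_mul]; norm_num
      rw [h4, h5]
      field_simp
    rw [e1, e2] at h2
    rw [reg_eq]
    exact h2
  have h3 := hD F hfam
  have h4 : ∀ z, ∑ c ∈ Lam m (k - l), F c z = gal (2 ^ l) (ctr l a) (pc k l f a) z := by
    intro z
    rw [hF, ← gal_sum]
    congr 1
    funext y
    exact G3_sum_image hl ha (fun b => f b y)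
  simp only [h4] at h3
  rw [lintegral_gal hlam] at h3
  have h5 : en q (k - l) F = ENNReal.ofReal ((((2 : ℝ) ^ l) ^ (m + 2))⁻¹) *
      ∑ b ∈ desc k l a, ∫⁻ z, ‖f b z‖ₑ ^ q := by
    unfold en
    rw [Finset.mul_sum, ← G3_sum_image hl ha]
    refine Finset.sum_congr rfl fun c _ => ?_
    exact lintegral_gal hlam _ _ q
  rw [h5] at h3
  have hμ0 : ENNReal.ofReal ((((2 : ℝ) ^ l) ^ (m + 2))⁻¹) ≠ 0 := by
    rw [Ne, ENNReal.ofReal_eq_zero, not_le]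
    positivity
  have hμt : ENNReal.ofReal ((((2 : ℝ) ^ l) ^ (m + 2))⁻¹) ≠ ⊤ := ENNReal.ofReal_ne_top
  set μ := ENNReal.ofReal ((((2 : ℝ) ^ l) ^ (m + 2))⁻¹) with hμ
  calc ∫⁻ z, ‖pc k l f a z‖ₑ ^ q = μ⁻¹ * (μ * ∫⁻ z, ‖pc k l f a z‖ₑ ^ q) := by
        rw [← mul_assoc, ENNReal.inv_mul_cancel hμ0 hμt, one_mul]
    _ ≤ μ⁻¹ * (D * nf m q (k - l) * (μ * ∑ b ∈ desc k l a, ∫⁻ z, ‖f b z‖ₑ ^ q)) :=
        mul_le_mul_right h3 _
    _ = (μ⁻¹ * μ) * (D * nf m q (k - l) * ∑ b ∈ desc k l a, ∫⁻ z, ‖f b z‖ₑ ^ q) := by ring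
    _ = D * nf m q (k - l) * ∑ b ∈ desc k l a, ∫⁻ z, ‖f b z‖ₑ ^ q := by
        rw [ENNReal.inv_mul_cancel hμ0 hμt, one_mul]

theorem rescale_sum {m k l : ℕ} {q A : ℝ} {D : ℝ≥0∞} (hq : 2 < q) (hl : l ≤ k)
    (hD : DB m q A (k - l) D) {f : (Fin m → ℤ) → V m → ℂ} (hf : Fam A k f) :
    en q l (pc k l f) ≤ D * nf m q (k - l) * en q k f := by
  unfold en
  rw [← sum_desc hl (fun b => ∫⁻ z, ‖f b z‖ₑ ^ q), Finset.mul_sum]
  exact Finset.sum_le_sum fun a ha => rescale hq hl hD hf ha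

theorem nf_add (m : ℕ) (q : ℝ) (k l : ℕ) : nf m q (k + l) = nf m q k * nf m q l := by
  unfold nf
  rw [← ENNReal.rpow_add _ _ two_ne_zero ENNReal.ofNat_ne_top]
  congr 1
  push_cast
  ring

theorem DB_trivial (m : ℕ) {q : ℝ} (hq : 2 < q) (A : ℝ) (k : ℕ) :
    DB m q A k (2 ^ ((k : ℝ) * (m * q / 2))) := by
  intro f hf
  refine le_trans (G3_holder (by linarith) (Lam m k) fun a ha => (hf a ha).measurable_enorm q) ?_
  unfold en
  refine le_of_eq ?_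
  congr 1
  rw [card_Lam]
  unfold nf
  rw [← ENNReal.rpow_add _ _ two_ne_zero ENNReal.ofNat_ne_top]
  push_cast
  rw [← ENNReal.rpow_natCast, ← ENNReal.rpow_mul]
  congr 1
  push_cast
  ring

/-- crude bound for a change of level -/
theorem en_pc_le {m k l : ℕ} {q A : ℝ} (hq : 2 < q) (hl : l ≤ k) {f : (Fin m → ℤ) → V m → ℂ}
    (hf : Fam A k f) :
    en q l (pc k l f) ≤ 2 ^ (((k - l : ℕ) : ℝ) * (m * (q - 1))) * en q k f := by
  unfold en
  rw [← sum_desc hl (fun b => ∫⁻ z, ‖f b z‖ₑ ^ q), Finset.mul_sum]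
  refine Finset.sum_le_sum fun a ha => ?_
  refine le_trans (G3_holder (f := f) (by linarith) (desc k l a)
    fun b hb => (hf b (mem_desc.1 hb).1).measurable_enorm q) ?_
  refine mul_le_mul_left ?_ _
  have h1 : ((desc k l a).card : ℝ≥0∞) ≤ ((2 ^ ((k - l) * m) : ℕ) : ℝ≥0∞) := by
    exact_mod_cast card_desc_le hl a
  refine le_trans (ENNReal.rpow_le_rpow h1 (by linarith)) (le_of_eq ?_)
  push_cast
  rw [← ENNReal.rpow_natCast, ← ENNReal.rpow_mul]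
  congr 1
  push_cast
  ring

theorem DB_mono {m k : ℕ} {q A A' : ℝ} {D D' : ℝ≥0∞} (hA : A' ≤ A) (hD : D ≤ D')
    (h : DB m q A k D) : DB m q A' k D' := by
  intro f hf
  have hf' : Fam A k f := by
    intro a ha
    refine (hf a ha).mono ?_
    rintro ζ ⟨h1, h2⟩
    refine ⟨h1.trans ?_, h2.trans ?_⟩
    · exact div_le_div_of_nonneg_right hA (by positivity)
    · exact div_le_div_of_nonneg_right hA (by positivity)
  refine (h f hf').trans ?_
  exact mul_le_mul_left (mul_le_mul_left hD _) _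

/-- dimension zero -/
theorem DB_zero (q A : ℝ) (k : ℕ) : DB 0 q A k 1 := by
  intro f _
  have h1 : Lam 0 k = {default} := by
    ext a
    rw [mem_Lam, Finset.mem_singleton]
    exact ⟨fun _ => Subsingleton.elim _ _, fun _ i => i.elim0⟩
  unfold en nf
  rw [h1]
  simp

end Pool.LibDC71
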