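import Pool.Agent.LibDC71.G2

/-! LIN (linear algebra). Transversal points or a hyperplane. Induction on i (0 ≤ i ≤ m): claim(i): for
every δ > 0 there is b_i > 0 (depending on m, R0, δ, i) such that for every nonempty finite S in the ball
of radius R0 either there are ξ_0..ξ_i in S with b_i ‖c‖ ≤ ‖∑_{j ≤ i} c_j vec(ξ_j)‖ for all c, or there is a
linear functional (ω', τ') on V m with max(‖ω'‖,|τ'|) = 1 and |-2<ω',ξ> + τ'| ≤ δ for all ξ ∈ S.
i = 0: any point, b = 1 (second coordinate). i → i+1 (i < m): span of i+1 ≤ m vectors is not V m (dimension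
m+1), so there is a functional vanishing on it (`Submodule.exists_le_ker_of_lt_top`), normalised; if
|f(vec ξ)| ≤ δ on S we are in the second case, otherwise add ξ with |f (vec ξ)| > δ:
|c_{i+1}| δ ≤ C ‖∑ c_j vec ξ_j‖ and b_i ‖c'‖ ≤ ‖∑‖ + C |c_{i+1}|.
Second case ⇒ hyperplane: if ‖ω'‖ < 1/(4 R0 + 4) then |τ'| = 1 and |-2<ω',ξ> + τ'| ≥ 1/2 > δ (S nonempty),
contradiction for δ < 1/2; else divide by 2‖ω'‖: |<ω,ξ> - t| ≤ δ (2 R0 + 2) ≤ ε. -/

set_option autoImplicit false

noncomputable section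

open MeasureTheory
open scoped ENNReal

namespace Pool.LibDC71

private lemma lin_functional {m : ℕ} (W : Submodule ℝ (V m)) (h : Module.finrank ℝ W < m + 1) :
    ∃ (ω : E m) (τ : ℝ), max ‖ω‖ |τ| = 1 ∧ ∀ v ∈ W, inner ℝ ω v.1 + τ * v.2 = 0 := by
  have hW : W < ⊤ := by
    refine lt_top_iff_ne_top.2 ?_
    rintro rfl
    rw [finrank_top] at h
    have h2 : Module.finrank ℝ (V m) = m + 1 := by
      rw [Module.finrank_prod]
      simp
    omega
  obtain ⟨f, hf, hfW⟩ := W.exists_le_ker_of_lt_top hW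
  set g : E m →L[ℝ] ℝ := LinearMap.toContinuousLinearMap (f ∘ₗ LinearMap.inl ℝ (E m) ℝ) with hg
  set ω : E m := (InnerProductSpace.toDual ℝ (E m)).symm g with hω
  set τ : ℝ := f (0, 1) with hτ
  have hfv : ∀ v : V m, f v = inner ℝ ω v.1 + τ * v.2 := by
    intro v
    have h1 : v = (v.1, (0 : ℝ)) + v.2 • ((0 : E m), (1 : ℝ)) := by
      ext1
      · simp
      · simp
    have h2 : inner ℝ ω v.1 = f (v.1, 0) := by
      rw [hω, InnerProductSpace.toDual_symm_apply]
      simp [hg]
    conv_lhs => rw [h1]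
    rw [map_add, map_smul, h2, hτ, smul_eq_mul]
    ring
  set M : ℝ := max ‖ω‖ |τ| with hM
  have hMpos : 0 < M := by
    rcases lt_or_eq_of_le (le_max_of_le_left (norm_nonneg ω) : (0 : ℝ) ≤ M) with h1 | h1
    · exact h1
    · exfalso
      apply hf
      have h2 : ω = 0 := by
        rw [← norm_le_zero_iff, h1]
        exact le_max_left _ _
      have h3 : τ = 0 := by
        rw [← abs_nonpos_iff, h1]
        exact le_max_right _ _
      ext v
      · rw [LinearMap.comp_apply, LinearMap.inl_apply, hfv]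
        simp [h2]
      · rw [LinearMap.comp_apply, LinearMap.inr_apply, hfv]
        simp [h3]
  refine ⟨M⁻¹ • ω, M⁻¹ * τ, ?_, ?_⟩
  · rw [norm_smul, abs_mul, Real.norm_eq_abs, abs_of_pos (inv_pos.2 hMpos),
      ← mul_max_of_nonneg _ _ (inv_pos.2 hMpos).le, ← hM, inv_mul_cancel₀ hMpos.ne']
  · intro v hv
    have h1 : f v = 0 := hfW hv
    rw [hfv] at h1
    rw [real_inner_smul_left, mul_assoc, ← mul_add, h1, mul_zero]

private lemma lin_step (m : ℕ) (R0 δ : ℝ) (hδ : 0 < δ) (i : ℕ) (hi : i ≤ m) : ∃ b : ℝ, 0 < b ∧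
    ∀ S : Finset (E m), S.Nonempty → (∀ ξ ∈ S, ‖ξ‖ ≤ R0) →
      (∃ ξ : Fin (i + 1) → E m, (∀ j, ξ j ∈ S) ∧
        ∀ c : Fin (i + 1) → ℝ, b * ‖c‖ ≤ ‖∑ j, c j • vec (ξ j)‖) ∨
      (∃ (ω : E m) (τ : ℝ), max ‖ω‖ |τ| = 1 ∧ ∀ ξ ∈ S, |(-2) * inner ℝ ω ξ + τ| ≤ δ) := by
  induction i with
  | zero =>
    refine ⟨1, one_pos, ?_⟩
    intro S hS _
    left
    obtain ⟨ξ, hξ⟩ := hS
    refine ⟨fun _ => ξ, fun _ => hξ, ?_⟩
    intro c
    rw [one_mul]
    have h1 : (∑ j : Fin (0 + 1), c j • vec ξ).2 = c 0 := by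
      simp [vec]
    have h2 : ‖c‖ ≤ |c 0| := by
      rw [pi_norm_le_iff_of_nonneg (abs_nonneg _)]
      intro j
      have : j = 0 := by
        have := j.2
        ext
        simp only [Fin.val_zero]
        omega
      rw [this, Real.norm_eq_abs]
    calc ‖c‖ ≤ |c 0| := h2
      _ = ‖(∑ j : Fin (0 + 1), c j • vec ξ).2‖ := by rw [h1, Real.norm_eq_abs]
      _ ≤ _ := norm_snd_le _
  | succ i ih =>
    obtain ⟨b, hb, hbS⟩ := ih (by omega)
    set K : ℝ := 2 * |R0| + 1 with hK
    have hKpos : 0 < K := by positivity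
    refine ⟨((1 + 2 * K / δ) / b + 2 / δ)⁻¹, by positivity, ?_⟩
    intro S hS hSR
    rcases hbS S hS hSR with ⟨ξ, hξ, hξb⟩ | h2
    · set W : Submodule ℝ (V m) := Submodule.span ℝ (Set.range (fun j => vec (ξ j))) with hWdef
      have hW : Module.finrank ℝ W < m + 1 := by
        have h3 := finrank_range_le_card (R := ℝ) (fun j => vec (ξ j))
        rw [Fintype.card_fin] at h3
        have h4 : Module.finrank ℝ W ≤ i + 1 := h3
        omega
      obtain ⟨ω, τ, hωτ, hf⟩ := lin_functional W hW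
      by_cases hall : ∀ ξ ∈ S, |(-2) * inner ℝ ω ξ + τ| ≤ δ
      · right
        exact ⟨ω, τ, hωτ, hall⟩
      · left
        push Not at hall
        obtain ⟨ξ', hξ', hδξ⟩ := hall
        refine ⟨Fin.snoc ξ ξ', ?_, ?_⟩
        · intro j
          refine Fin.lastCases ?_ (fun j => ?_) j
          · rw [Fin.snoc_last]
            exact hξ'
          · rw [Fin.snoc_castSucc]
            exact hξ j
        · intro c
          rw [Fin.sum_univ_castSucc]
          simp only [Fin.snoc_castSucc, Fin.snoc_last]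
          set c' : Fin (i + 1) → ℝ := fun j => c (Fin.castSucc j) with hc'
          set cl : ℝ := c (Fin.last (i + 1)) with hcl
          set s' : V m := ∑ j : Fin (i + 1), c (Fin.castSucc j) • vec (ξ j) with hs'
          set s : V m := s' + cl • vec ξ' with hs
          have hs'W : s' ∈ W := by
            rw [hs']
            exact Submodule.sum_mem _ fun j _ => Submodule.smul_mem _ _
              (Submodule.subset_span ⟨j, rfl⟩)
          have hfs : inner ℝ ω s.1 + τ * s.2 = cl * ((-2) * inner ℝ ω ξ' + τ) := by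
            have h5 := hf s' hs'W
            rw [hs]
            simp only [Prod.fst_add, Prod.snd_add, Prod.smul_fst, Prod.smul_snd, vec,
              inner_add_right, real_inner_smul_right, smul_eq_mul]
            linear_combination h5
          have hω1 : ‖ω‖ ≤ 1 := by
            rw [← hωτ]
            exact le_max_left _ _
          have hτ1 : |τ| ≤ 1 := by
            rw [← hωτ]
            exact le_max_right _ _
          have hfs2 : |inner ℝ ω s.1 + τ * s.2| ≤ 2 * ‖s‖ := by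
            have h6 : |inner ℝ ω s.1| ≤ ‖ω‖ * ‖s.1‖ := abs_real_inner_le_norm _ _
            have h7 : ‖s.1‖ ≤ ‖s‖ := norm_fst_le _
            have h8 : |s.2| ≤ ‖s‖ := norm_snd_le s
            calc |inner ℝ ω s.1 + τ * s.2| ≤ |inner ℝ ω s.1| + |τ * s.2| := abs_add_le _ _
              _ ≤ 1 * ‖s‖ + 1 * ‖s‖ := by
                refine add_le_add (h6.trans ?_) ?_
                · exact mul_le_mul hω1 h7 (norm_nonneg _) zero_le_one
                · rw [abs_mul]
                  exact mul_le_mul hτ1 h8 (abs_nonneg _) zero_le_one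
              _ = 2 * ‖s‖ := by ring
          have hcl1 : |cl| * δ ≤ 2 * ‖s‖ := by
            refine le_trans ?_ hfs2
            rw [hfs, abs_mul]
            exact mul_le_mul_of_nonneg_left hδξ.le (abs_nonneg _)
          have hcl2 : |cl| ≤ 2 / δ * ‖s‖ := by
            rw [div_mul_eq_mul_div, le_div_iff₀ hδ]
            exact hcl1
          have hvec : ‖vec ξ'‖ ≤ K := by
            rw [vec, Prod.norm_mk, norm_smul]
            refine max_le ?_ ?_
            · have h9 := hSR ξ' hξ'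
              have h10 : R0 ≤ |R0| := le_abs_self R0
              rw [hK, norm_neg, Real.norm_ofNat]
              linarith
            · rw [hK, norm_one]
              have := abs_nonneg R0
              linarith
          have hc'1 : b * ‖c'‖ ≤ (1 + 2 * K / δ) * ‖s‖ := by
            have h11 : b * ‖c'‖ ≤ ‖s'‖ := hξb c'
            have h12 : ‖s'‖ ≤ ‖s‖ + |cl| * K := by
              have h13 : s' = s - cl • vec ξ' := by
                rw [hs]
                abel
              rw [h13]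
              refine (norm_sub_le _ _).trans ?_
              rw [norm_smul, Real.norm_eq_abs]
              exact add_le_add le_rfl (mul_le_mul_of_nonneg_left hvec (abs_nonneg _))
            have h14 : |cl| * K ≤ 2 / δ * ‖s‖ * K := mul_le_mul_of_nonneg_right hcl2 hKpos.le
            calc b * ‖c'‖ ≤ ‖s‖ + 2 / δ * ‖s‖ * K := by linarith
              _ = (1 + 2 * K / δ) * ‖s‖ := by ring
          have hc'2 : ‖c'‖ ≤ (1 + 2 * K / δ) / b * ‖s‖ := by
            rw [div_mul_eq_mul_div, le_div_iff₀ hb]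
            linarith
          have hnorm : ‖c‖ ≤ ((1 + 2 * K / δ) / b + 2 / δ) * ‖s‖ := by
            rw [pi_norm_le_iff_of_nonneg (by positivity)]
            intro j
            refine Fin.lastCases ?_ (fun j => ?_) j
            · rw [Real.norm_eq_abs]
              have h15 : 0 ≤ (1 + 2 * K / δ) / b * ‖s‖ := by positivity
              rw [add_mul]
              linarith
            · have h16 : ‖c (Fin.castSucc j)‖ ≤ ‖c'‖ := norm_le_pi_norm c' j
              have h17 : 0 ≤ 2 / δ * ‖s‖ := by positivity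
              rw [add_mul]
              linarith
          rw [inv_mul_le_iff₀ (by positivity)]
          exact hnorm
    · right
      exact h2

theorem transversal_or_slab (m : ℕ) (hm : 1 ≤ m) (R0 ε : ℝ) (hε : 0 < ε) : ∃ b : ℝ, 0 < b ∧
    ∀ S : Finset (E m), S.Nonempty → (∀ ξ ∈ S, ‖ξ‖ ≤ R0) →
      (∃ ξ : Fin (m + 1) → E m, (∀ j, ξ j ∈ S) ∧ Tr b ξ) ∨
      (∃ (ω : E m) (t : ℝ), ‖ω‖ = 1 ∧ ∀ ξ ∈ S, |inner ℝ ω ξ - t| ≤ ε) := by
  set R : ℝ := |R0| with hR
  have hRnn : 0 ≤ R := abs_nonneg _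
  set δ : ℝ := min (1 / 4) (ε / (2 * R + 2)) with hδdef
  have hδ : 0 < δ := by
    rw [hδdef]
    positivity
  obtain ⟨b, hb, hbS⟩ := lin_step m R0 δ hδ m le_rfl
  refine ⟨b, hb, ?_⟩
  intro S hS hSR
  rcases hbS S hS hSR with ⟨ξ, hξ, hξb⟩ | ⟨ω, τ, hωτ, hall⟩
  · left
    exact ⟨ξ, hξ, hξb⟩
  · right
    have hSR' : ∀ ξ ∈ S, ‖ξ‖ ≤ R := fun ξ hξ => (hSR ξ hξ).trans (le_abs_self R0)
    have hω : 1 / (4 * R + 4) ≤ ‖ω‖ := by
      by_contra hlt
      push Not at hlt
      obtain ⟨ξ, hξ⟩ := hS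
      have h1 : |τ| = 1 := by
        rcases max_choice ‖ω‖ |τ| with h2 | h2
        · rw [h2] at hωτ
          exfalso
          rw [hωτ, lt_div_iff₀ (by positivity)] at hlt
          linarith
        · rw [h2] at hωτ
          exact hωτ
      have h3 := hall ξ hξ
      have h4 : |inner ℝ ω ξ| ≤ ‖ω‖ * ‖ξ‖ := abs_real_inner_le_norm _ _
      have h5 : ‖ω‖ * ‖ξ‖ ≤ 1 / (4 * R + 4) * R :=
        mul_le_mul hlt.le (hSR' ξ hξ) (norm_nonneg _) (by positivity)
      have h6 : 1 / (4 * R + 4) * R ≤ 1 / 4 := by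
        rw [div_mul_eq_mul_div, div_le_div_iff₀ (by positivity) (by norm_num)]
        linarith
      have h7 : δ ≤ 1 / 4 := min_le_left _ _
      have h8 : |τ| ≤ |(-2) * inner ℝ ω ξ + τ| + 2 * |inner ℝ ω ξ| := by
        have h9 : τ = ((-2) * inner ℝ ω ξ + τ) + 2 * inner ℝ ω ξ := by ring
        calc |τ| = |((-2) * inner ℝ ω ξ + τ) + 2 * inner ℝ ω ξ| := by rw [← h9]
          _ ≤ |(-2) * inner ℝ ω ξ + τ| + |2 * inner ℝ ω ξ| := abs_add_le _ _
          _ = _ := by rw [abs_mul, abs_two]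
      linarith
    have hωpos : 0 < ‖ω‖ := lt_of_lt_of_le (by positivity) hω
    refine ⟨‖ω‖⁻¹ • ω, τ / (2 * ‖ω‖), ?_, ?_⟩
    · rw [norm_smul, norm_inv, norm_norm, inv_mul_cancel₀ hωpos.ne']
    · intro ξ hξ
      have h1 := hall ξ hξ
      have h2 : inner ℝ (‖ω‖⁻¹ • ω) ξ - τ / (2 * ‖ω‖) =
          -(((-2) * inner ℝ ω ξ + τ) / (2 * ‖ω‖)) := by
        rw [real_inner_smul_left]
        field_simp
        ring
      rw [h2, abs_neg, abs_div, abs_of_pos (by positivity : (0 : ℝ) < 2 * ‖ω‖),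
        div_le_iff₀ (by positivity)]
      have h3 : δ ≤ ε / (2 * R + 2) := min_le_right _ _
      have h4 : ε / (2 * R + 2) ≤ ε * (2 * ‖ω‖) := by
        rw [div_eq_mul_inv]
        refine mul_le_mul_of_nonneg_left ?_ hε.le
        have h5 : (2 * R + 2)⁻¹ = 2 * (1 / (4 * R + 4)) := by
          field_simp
          ring
        rw [h5]
        linarith
      linarith

end Pool.LibDC71
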