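import Pool.Agent.LibDC71.K2
import Pool.Agent.LibDC71.G3
import Pool.Agent.LibDC71.LIN
import Pool.Agent.LibDC71.BN0

/-! BN (broad / narrow), helper31. -/

set_option autoImplicit false

noncomputable section

open MeasureTheory
open scoped ENNReal Pointwise

namespace Pool.LibDC71

private theorem BN_haar (m : ℕ) : (volume : Measure (V m)).IsAddHaarMeasure := by
  change ((volume : Measure (E m)).prod (volume : Measure ℝ)).IsAddHaarMeasure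
  infer_instance

private theorem BN_dil {m : ℕ} {U U' : Set (V m)} {f : V m → ℂ} (hf : Fr U f) (δ : ℝ)
    (h : ∀ ζ ∈ U, δ • ζ ∈ U') : Fr U' (fun z => f (δ • z)) := by
  obtain ⟨S, hS, σ, g, φ, hσ, hg, hφ, hU, hrep⟩ := hf
  refine ⟨S, hS, σ, fun s => δ • g s, φ, hσ, hg.const_smul δ, hφ, fun s hs => h _ (hU s hs), ?_⟩
  intro z
  change f (δ • z) = ∫ s, φ s * ch z (δ • g s) ∂σ
  rw [hrep]
  refine integral_congr_ae (Filter.Eventually.of_forall fun s => ?_)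
  change φ s * ch (δ • z) (g s) = φ s * ch z (δ • g s)
  congr 1
  unfold ch
  congr 3
  simp only [Prod.smul_fst, Prod.smul_snd, inner_smul_left, inner_smul_right, conj_trivial,
    smul_eq_mul]
  ring

/-- powers of two are unbounded -/
private theorem BN_large (X : ℝ≥0∞) (hX : X ≠ ⊤) (δ : ℝ) (hδ : 0 < δ) :
    ∃ j0 : ℕ, ∀ j : ℕ, j0 ≤ j → X ≤ (2 : ℝ≥0∞) ^ (δ * (j : ℝ)) := by
  have h1 : (1 : ℝ) < (2 : ℝ) ^ δ := Real.one_lt_rpow (by norm_num) hδ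
  obtain ⟨j0, hj0⟩ := pow_unbounded_of_one_lt X.toReal h1
  refine ⟨j0, fun j hj => ?_⟩
  have h2 : X = ENNReal.ofReal X.toReal := (ENNReal.ofReal_toReal hX).symm
  have h3 : (2 : ℝ≥0∞) ^ (δ * (j : ℝ)) = ENNReal.ofReal ((2 : ℝ) ^ (δ * (j : ℝ))) := by
    rw [← ENNReal.ofReal_rpow_of_pos (by norm_num)]
    norm_num
  rw [h2, h3]
  refine ENNReal.ofReal_le_ofReal ?_
  calc X.toReal ≤ ((2 : ℝ) ^ δ) ^ j0 := hj0.le
    _ ≤ ((2 : ℝ) ^ δ) ^ j := pow_le_pow_right₀ h1.le hj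
    _ = (2 : ℝ) ^ (δ * (j : ℝ)) := by rw [Real.rpow_mul (by norm_num), Real.rpow_natCast]

/-- the window at scale `K` -/
private theorem BN_window (m : ℕ) (q : ℝ) (hq : 1 ≤ q) : ∃ C0 : ℝ≥0∞, C0 ≠ ⊤ ∧ ∀ K r : ℝ, 0 < K → K ≤ r →
    ∃ χ : V m → ℂ, Fr (Metric.closedBall 0 (1 / K)) χ ∧
      (∫⁻ z, ‖χ z‖ₑ ^ q) ≠ 0 ∧ (∫⁻ z, ‖χ z‖ₑ ^ q) ≠ ⊤ ∧
      ∫⁻ z, ENNReal.ofReal ((1 + ‖z‖ / r) ^ (m + 2)) ^ q * ‖χ z‖ₑ ^ q ≤ C0 * ∫⁻ z, ‖χ z‖ₑ ^ q := by
  have := BN_haar m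
  obtain ⟨ψ, hψ, hψ1, Cψ, hψC⟩ := exists_window m
  obtain ⟨M0, hM0, -, hmass⟩ := mass_bw m
  have hq0 : 0 < q := by linarith
  have hCψ : 0 ≤ Cψ := by
    have h1 := hψC 0
    have h2 := norm_nonneg (ψ 0)
    simp at h1
    linarith
  set v1 : ℝ≥0∞ := volume (Metric.ball (0 : V m) 1) with hv1
  have hv0 : v1 ≠ 0 := (Metric.measure_ball_pos volume (0 : V m) one_pos).ne'
  have hvt : v1 ≠ ⊤ := measure_ball_lt_top.ne
  refine ⟨ENNReal.ofReal Cψ ^ q * M0 / v1, ?_, ?_⟩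
  · exact ENNReal.div_ne_top (ENNReal.mul_ne_top (ENNReal.rpow_ne_top_of_nonneg hq0.le ENNReal.ofReal_ne_top)
      hM0) hv0
  intro K r hK hKr
  have hr : 0 < r := lt_of_lt_of_le hK hKr
  set χ : V m → ℂ := fun z => ψ (K⁻¹ • z) with hχ
  have hχF : Fr (Metric.closedBall 0 (1 / K)) χ := by
    refine BN_dil hψ K⁻¹ fun ζ hζ => ?_
    rw [mem_closedBall_zero_iff] at *
    rw [norm_smul, norm_inv, Real.norm_of_nonneg hK.le, one_div]
    have : K⁻¹ * ‖ζ‖ ≤ K⁻¹ * 1 := by gcongr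
    linarith
  have hχC : ∀ z, ‖χ z‖ₑ ≤ ENNReal.ofReal (Cψ * ((1 + ‖z‖ / K) ^ (2 * (m + 2)))⁻¹) := by
    intro z
    rw [← ofReal_norm]
    refine ENNReal.ofReal_le_ofReal ?_
    have h1 := hψC (K⁻¹ • z)
    rw [norm_smul, norm_inv, Real.norm_of_nonneg hK.le, inv_mul_eq_div] at h1
    exact h1
  -- the lower bound
  have hlow : ENNReal.ofReal (K ^ (m + 1)) * v1 ≤ ∫⁻ z, ‖χ z‖ₑ ^ q := by
    have h1 : volume (Metric.closedBall (0 : V m) K) = ENNReal.ofReal (K ^ (m + 1)) * v1 := by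
      rw [Measure.addHaar_closedBall _ _ hK.le, finrank_V]
    rw [← h1, ← setLIntegral_one]
    calc ∫⁻ _z in Metric.closedBall (0 : V m) K, 1 ≤ ∫⁻ z in Metric.closedBall (0 : V m) K, ‖χ z‖ₑ ^ q := by
          refine setLIntegral_mono' Metric.isClosed_closedBall.measurableSet fun z hz => ?_
          have h2 : ‖K⁻¹ • z‖ ≤ 1 := by
            rw [norm_smul, norm_inv, Real.norm_of_nonneg hK.le, inv_mul_le_iff₀ hK, mul_one]
            exact mem_closedBall_zero_iff.1 hz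
          have h3 : (1 : ℝ≥0∞) ≤ ‖χ z‖ₑ := by
            rw [← ofReal_norm, ← ENNReal.ofReal_one]
            exact ENNReal.ofReal_le_ofReal (hψ1 _ h2)
          calc (1 : ℝ≥0∞) = 1 ^ q := (ENNReal.one_rpow q).symm
            _ ≤ ‖χ z‖ₑ ^ q := by gcongr
      _ ≤ ∫⁻ z, ‖χ z‖ₑ ^ q := setLIntegral_le_lintegral _ _
  have hKp : ENNReal.ofReal (K ^ (m + 1)) ≠ 0 := by
    rw [Ne, ENNReal.ofReal_eq_zero, not_le]
    positivity
  -- the upper bound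
  have hup : ∫⁻ z, ENNReal.ofReal ((1 + ‖z‖ / r) ^ (m + 2)) ^ q * ‖χ z‖ₑ ^ q ≤
      ENNReal.ofReal Cψ ^ q * (ENNReal.ofReal (K ^ (m + 1)) * M0) := by
    calc ∫⁻ z, ENNReal.ofReal ((1 + ‖z‖ / r) ^ (m + 2)) ^ q * ‖χ z‖ₑ ^ q
        ≤ ∫⁻ z : V m, ENNReal.ofReal Cψ ^ q * (ENNReal.ofReal (K ^ (m + 1)) * bw K z) := by
          refine lintegral_mono fun z => ?_
          set u : ℝ := 1 + ‖z‖ / K with hu
          have hu1 : 1 ≤ u := by
            rw [hu]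
            have : 0 ≤ ‖z‖ / K := by positivity
            linarith
          have hu0 : 0 < u := by linarith
          have h1 : ENNReal.ofReal ((1 + ‖z‖ / r) ^ (m + 2)) ≤ ENNReal.ofReal (u ^ (m + 2)) := by
            refine ENNReal.ofReal_le_ofReal ?_
            rw [hu]
            gcongr
          have h2 : ENNReal.ofReal ((1 + ‖z‖ / r) ^ (m + 2)) * ‖χ z‖ₑ ≤
              ENNReal.ofReal Cψ * ENNReal.ofReal ((u ^ (m + 2))⁻¹) := by
            calc ENNReal.ofReal ((1 + ‖z‖ / r) ^ (m + 2)) * ‖χ z‖ₑ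
                ≤ ENNReal.ofReal (u ^ (m + 2)) * ENNReal.ofReal (Cψ * (u ^ (2 * (m + 2)))⁻¹) := by
                  gcongr
                  exact hχC z
              _ = ENNReal.ofReal Cψ * ENNReal.ofReal ((u ^ (m + 2))⁻¹) := by
                  rw [← ENNReal.ofReal_mul (by positivity), ← ENNReal.ofReal_mul hCψ]
                  congr 1
                  rw [two_mul, pow_add]
                  field_simp
                  ring
          have h3 : ENNReal.ofReal ((u ^ (m + 2))⁻¹) ^ q ≤ ENNReal.ofReal ((u ^ (m + 2))⁻¹) := by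
            have h4 : ENNReal.ofReal ((u ^ (m + 2))⁻¹) ≤ 1 := by
              rw [← ENNReal.ofReal_one]
              refine ENNReal.ofReal_le_ofReal ?_
              exact inv_le_one_of_one_le₀ (one_le_pow₀ hu1)
            calc ENNReal.ofReal ((u ^ (m + 2))⁻¹) ^ q ≤ ENNReal.ofReal ((u ^ (m + 2))⁻¹) ^ (1 : ℝ) :=
                  ENNReal.rpow_le_rpow_of_exponent_ge h4 hq
              _ = _ := ENNReal.rpow_one _
          have h5 : ENNReal.ofReal (K ^ (m + 1)) * bw K z = ENNReal.ofReal ((u ^ (m + 2))⁻¹) := by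
            unfold bw
            rw [← ENNReal.ofReal_mul (by positivity), ← mul_assoc, mul_inv_cancel₀ (by positivity), one_mul]
          rw [← ENNReal.mul_rpow_of_nonneg _ _ hq0.le, h5]
          calc (ENNReal.ofReal ((1 + ‖z‖ / r) ^ (m + 2)) * ‖χ z‖ₑ) ^ q
              ≤ (ENNReal.ofReal Cψ * ENNReal.ofReal ((u ^ (m + 2))⁻¹)) ^ q := by gcongr
            _ = ENNReal.ofReal Cψ ^ q * ENNReal.ofReal ((u ^ (m + 2))⁻¹) ^ q :=
                ENNReal.mul_rpow_of_nonneg _ _ hq0.le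
            _ ≤ _ := by gcongr
      _ = ENNReal.ofReal Cψ ^ q * (ENNReal.ofReal (K ^ (m + 1)) * M0) := by
          rw [lintegral_const_mul _ ((measurable_bw K).const_mul _),
            lintegral_const_mul _ (measurable_bw K), hmass K hK]
  have hJt : ENNReal.ofReal Cψ ^ q * (ENNReal.ofReal (K ^ (m + 1)) * M0) ≠ ⊤ :=
    ENNReal.mul_ne_top (ENNReal.rpow_ne_top_of_nonneg hq0.le ENNReal.ofReal_ne_top)
      (ENNReal.mul_ne_top ENNReal.ofReal_ne_top hM0)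
  refine ⟨χ, hχF, ?_, ?_, ?_⟩
  · intro h0
    rw [h0, nonpos_iff_eq_zero] at hlow
    exact (mul_ne_zero hKp hv0) hlow
  · refine ne_top_of_le_ne_top hJt (le_trans ?_ hup)
    refine lintegral_mono fun z => ?_
    have h1 : (1 : ℝ≥0∞) ≤ ENNReal.ofReal ((1 + ‖z‖ / r) ^ (m + 2)) := by
      rw [← ENNReal.ofReal_one]
      refine ENNReal.ofReal_le_ofReal (one_le_pow₀ ?_)
      have : 0 ≤ ‖z‖ / r := by positivity
      linarith
    calc ‖χ z‖ₑ ^ q = 1 ^ q * ‖χ z‖ₑ ^ q := by rw [ENNReal.one_rpow, one_mul]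
      _ ≤ _ := by gcongr
  · refine hup.trans ?_
    calc ENNReal.ofReal Cψ ^ q * (ENNReal.ofReal (K ^ (m + 1)) * M0)
        = ENNReal.ofReal Cψ ^ q * M0 / v1 * (ENNReal.ofReal (K ^ (m + 1)) * v1) := by
          rw [div_eq_mul_inv]
          calc ENNReal.ofReal Cψ ^ q * (ENNReal.ofReal (K ^ (m + 1)) * M0)
              = ENNReal.ofReal Cψ ^ q * M0 * ENNReal.ofReal (K ^ (m + 1)) * 1 := by ring
            _ = ENNReal.ofReal Cψ ^ q * M0 * ENNReal.ofReal (K ^ (m + 1)) * (v1⁻¹ * v1) := by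
                rw [ENNReal.inv_mul_cancel hv0 hvt]
            _ = _ := by ring
      _ ≤ _ := by gcongr

/-- the frequencies of the windowed pieces -/
private theorem BN_freq {m j1 j2 : ℕ} {A : ℝ} (hA : Real.sqrt m ≤ A) (h12 : 2 * j1 ≤ j2)
    {ω : E m} {t : ℝ} (hω : ‖ω‖ = 1) {α β : Fin m → ℤ} (hα : α ∈ Lam m j2)
    (hαβ : par (j2 - j1) α = β) (hslab : |inner ℝ ω (ctr j2 α) - t| ≤ 1 / 4 ^ j1) :
    reg A j2 α + Metric.closedBall (0 : V m) (1 / 4 ^ j1) ⊆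
      {ζ | ‖ζ.1 - ctr j1 β‖ ≤ (3 * A + 2 * Real.sqrt m + 3) / 2 ^ j1 ∧
        |inner ℝ ω ζ.1 - t| ≤ (3 * A + 2 * Real.sqrt m + 3) / 4 ^ j1 ∧
        |ζ.2 - ‖ζ.1‖ ^ 2| ≤ (3 * A + 2 * Real.sqrt m + 3) / 4 ^ j1} := by
  have hs : 0 ≤ Real.sqrt m := Real.sqrt_nonneg _
  have hA0 : 0 ≤ A := hs.trans hA
  rintro ζ ⟨ζ', hζ', η, hη, rfl⟩
  rw [mem_closedBall_zero_iff] at hη
  have hη1 : ‖η.1‖ ≤ 1 / 4 ^ j1 := (norm_fst_le η).trans hη
  have hη2 : |η.2| ≤ 1 / 4 ^ j1 := (norm_snd_le η).trans hη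
  have hle : j1 ≤ j2 := by omega
  have hmem : α ∈ desc j2 j1 β := mem_desc.2 ⟨hα, hαβ⟩
  have h1 := reg_subset hA hle hmem hζ'
  obtain ⟨h1a, h1b⟩ := h1
  obtain ⟨h2a, h2b⟩ := hζ'
  have h4 : (1 : ℝ) / 4 ^ j1 ≤ 1 / 2 ^ j1 := by
    apply one_div_le_one_div_of_le (by positivity)
    exact pow_le_pow_left₀ (by norm_num) (by norm_num) _
  have h42 : (1 : ℝ) / 2 ^ j2 ≤ 1 / 4 ^ j1 := by
    apply one_div_le_one_div_of_le (by positivity)
    calc (4 : ℝ) ^ j1 = 2 ^ (2 * j1) := by rw [pow_mul]; norm_num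
      _ ≤ 2 ^ j2 := pow_le_pow_right₀ (by norm_num) h12
  have h2p : (0 : ℝ) < 1 / 2 ^ j1 := by positivity
  have h4p : (0 : ℝ) < 1 / 4 ^ j1 := by positivity
  have h41 : (1 : ℝ) / 4 ^ j1 ≤ 1 := by
    rw [div_le_one (by positivity)]
    exact one_le_pow₀ (by norm_num)
  refine ⟨?_, ?_, ?_⟩
  · change ‖ζ'.1 + η.1 - ctr j1 β‖ ≤ _
    have h5 : ζ'.1 + η.1 - ctr j1 β = (ζ'.1 - ctr j1 β) + η.1 := by abel
    rw [h5]
    calc ‖(ζ'.1 - ctr j1 β) + η.1‖ ≤ ‖ζ'.1 - ctr j1 β‖ + ‖η.1‖ := norm_add_le _ _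
      _ ≤ A / 2 ^ j1 + 1 / 2 ^ j1 := add_le_add h1a (hη1.trans h4)
      _ = (A + 1) * (1 / 2 ^ j1) := by ring
      _ ≤ (3 * A + 2 * Real.sqrt m + 3) * (1 / 2 ^ j1) :=
          mul_le_mul_of_nonneg_right (by linarith) h2p.le
      _ = _ := by ring
  · change |inner ℝ ω (ζ'.1 + η.1) - t| ≤ _
    have h5 : inner ℝ ω (ζ'.1 + η.1) - t = inner ℝ ω (ζ'.1 - ctr j2 α) +
        (inner ℝ ω (ctr j2 α) - t) + inner ℝ ω η.1 := by
      rw [inner_add_right, inner_sub_right]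
      ring
    have h6 : |inner ℝ ω (ζ'.1 - ctr j2 α)| ≤ A / 2 ^ j2 := by
      refine (abs_real_inner_le_norm _ _).trans ?_
      rw [hω, one_mul]
      exact h2a
    have h7 : |inner ℝ ω η.1| ≤ 1 / 4 ^ j1 := by
      refine (abs_real_inner_le_norm _ _).trans ?_
      rw [hω, one_mul]
      exact hη1
    rw [h5]
    calc |inner ℝ ω (ζ'.1 - ctr j2 α) + (inner ℝ ω (ctr j2 α) - t) + inner ℝ ω η.1|
        ≤ |inner ℝ ω (ζ'.1 - ctr j2 α)| + |inner ℝ ω (ctr j2 α) - t| + |inner ℝ ω η.1| := abs_add_three _ _ _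
      _ ≤ A / 2 ^ j2 + 1 / 4 ^ j1 + 1 / 4 ^ j1 := by gcongr
      _ = A * (1 / 2 ^ j2) + 1 / 4 ^ j1 + 1 / 4 ^ j1 := by ring
      _ ≤ A * (1 / 4 ^ j1) + 1 / 4 ^ j1 + 1 / 4 ^ j1 := by gcongr
      _ = (A + 2) * (1 / 4 ^ j1) := by ring
      _ ≤ (3 * A + 2 * Real.sqrt m + 3) * (1 / 4 ^ j1) :=
          mul_le_mul_of_nonneg_right (by linarith) h4p.le
      _ = _ := by ring
  · change |ζ'.2 + η.2 - ‖ζ'.1 + η.1‖ ^ 2| ≤ _
    have h5 : ‖ζ'.1 + η.1‖ ^ 2 = ‖ζ'.1‖ ^ 2 + 2 * inner ℝ ζ'.1 η.1 + ‖η.1‖ ^ 2 := norm_add_sq_real _ _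
    have hn : ‖ζ'.1‖ ≤ Real.sqrt m + A := by
      have h6 : ζ'.1 = ctr j2 α + (ζ'.1 - ctr j2 α) := by abel
      rw [h6]
      refine (norm_add_le _ _).trans (add_le_add (norm_ctr_le hα) (h2a.trans ?_))
      calc A / 2 ^ j2 ≤ A / 1 := by
            gcongr
            exact one_le_pow₀ (by norm_num)
        _ = A := by ring
    have h7 : |inner ℝ ζ'.1 η.1| ≤ (Real.sqrt m + A) * (1 / 4 ^ j1) := by
      refine (abs_real_inner_le_norm _ _).trans ?_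
      gcongr
    have h8 : ‖η.1‖ ^ 2 ≤ 1 / 4 ^ j1 := by
      calc ‖η.1‖ ^ 2 = ‖η.1‖ * ‖η.1‖ := sq _
        _ ≤ (1 / 4 ^ j1) * 1 := by
            gcongr
            exact hη1.trans h41
        _ = _ := mul_one _
    have h9 : ζ'.2 + η.2 - ‖ζ'.1 + η.1‖ ^ 2 = (ζ'.2 - ‖ζ'.1‖ ^ 2) + η.2 + (-(2 * inner ℝ ζ'.1 η.1)) +
        (-(‖η.1‖ ^ 2)) := by rw [h5]; ring
    rw [h9]
    calc |(ζ'.2 - ‖ζ'.1‖ ^ 2) + η.2 + (-(2 * inner ℝ ζ'.1 η.1)) + (-(‖η.1‖ ^ 2))|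
        ≤ |ζ'.2 - ‖ζ'.1‖ ^ 2| + |η.2| + |-(2 * inner ℝ ζ'.1 η.1)| + |-(‖η.1‖ ^ 2)| := by
          refine (abs_add_le _ _).trans ?_
          gcongr
          exact abs_add_three _ _ _
      _ ≤ A / 4 ^ j1 + 1 / 4 ^ j1 + 2 * ((Real.sqrt m + A) * (1 / 4 ^ j1)) + 1 / 4 ^ j1 := by
          gcongr
          · rw [abs_neg, abs_mul, abs_two]
            gcongr
          · rw [abs_neg, abs_of_nonneg (by positivity)]
            exact h8
      _ = (3 * A + 2 * Real.sqrt m + 2) * (1 / 4 ^ j1) := by ring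
      _ ≤ (3 * A + 2 * Real.sqrt m + 3) * (1 / 4 ^ j1) :=
          mul_le_mul_of_nonneg_right (by linarith) h4p.le
      _ = _ := by ring

private theorem BN_half (D : ℝ≥0∞) : 4⁻¹ * D + 4⁻¹ * D = D / 2 := by
  have h1 : (4 : ℝ≥0∞)⁻¹ = 2⁻¹ * 2⁻¹ := by
    rw [← ENNReal.mul_inv (Or.inl (by norm_num)) (Or.inl (by norm_num))]
    norm_num
  rw [← add_mul, h1, ← mul_add, ENNReal.inv_two_add_inv_two, mul_one, div_eq_mul_inv, mul_comm]

theorem broad_narrow (m : ℕ) (hm : 1 ≤ m) (q A : ℝ) (hq : 2 < q) (hA : Real.sqrt m ≤ A)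
    (hcyl : ∀ A' ε : ℝ, 0 < ε → ∃ C : ℝ≥0∞, C ≠ ⊤ ∧
      ∀ j : ℕ, Cyl m q A' j (C * 2 ^ ((ε + ((m : ℝ) - 1) * (q / 2 - 1)) * j))) :
    ∃ (j1 : ℕ) (b : ℝ) (j0 : ℕ), 1 ≤ j1 ∧ 0 < b ∧ ∀ j2, j0 ≤ j2 → ∃ C : ℝ≥0∞, C ≠ ⊤ ∧
      ∀ (k : ℕ) (D M : ℝ≥0∞), j1 ≤ k → j2 ≤ k → DB m q A (k - j1) D → DB m q A (k - j2) D →
        MB m q A b j2 k M → DB m q A k (D / 2 + C * M) := by
  classical
  have hq1 : 1 ≤ q := by linarith
  have hq0 : 0 < q := by linarith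
  have hs : 0 ≤ Real.sqrt m := Real.sqrt_nonneg _
  have hA0 : 0 ≤ A := hs.trans hA
  have hm1 : (1 : ℝ) ≤ m := by exact_mod_cast hm
  set δ : ℝ := (q / 2 - 1) / 2 with hδ
  have hδ0 : 0 < δ := by rw [hδ]; linarith
  -- constants
  obtain ⟨C', hC', hCyl⟩ := hcyl (3 * A + 2 * Real.sqrt m + 3) δ hδ0
  obtain ⟨C0, hC0, hwin⟩ := BN_window m q hq1
  obtain ⟨C1, hC1, hlc⟩ := lc_ball m ((A + 1) * (A + 1 + 2 * Real.sqrt m)) 1 le_rfl
  obtain ⟨M0, hM0, hM00, hmass⟩ := mass_bw m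
  have h4q : (4 : ℝ≥0∞) ^ q ≠ ⊤ := ENNReal.rpow_ne_top_of_nonneg hq0.le (by norm_num)
  -- the choice of `j1`
  obtain ⟨j1', hj1'⟩ := BN_large (4 * (4 ^ q * C')) (ENNReal.mul_ne_top (by norm_num)
    (ENNReal.mul_ne_top h4q hC')) δ hδ0
  set j1 : ℕ := max 1 j1' with hj1
  have hj11 : 1 ≤ j1 := le_max_left _ _
  set Γ : ℝ≥0∞ := C' * 2 ^ ((δ + ((m : ℝ) - 1) * (q / 2 - 1)) * j1) with hΓ
  have hΓt : Γ ≠ ⊤ := by
    refine ENNReal.mul_ne_top hC' (ENNReal.rpow_ne_top_of_nonneg ?_ (by norm_num))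
    have : 0 ≤ ((m : ℝ) - 1) * (q / 2 - 1) := mul_nonneg (by linarith) (by linarith)
    positivity
  have hΓ1 : 4 ^ q * Γ ≤ 4⁻¹ * nf m q j1 := by
    have h1 := hj1' j1 (le_max_right _ _)
    have h2 : nf m q j1 = 2 ^ (δ * (j1 : ℝ)) * 2 ^ ((δ + ((m : ℝ) - 1) * (q / 2 - 1)) * j1) := by
      unfold nf
      rw [← ENNReal.rpow_add _ _ (by norm_num) (by norm_num)]
      congr 1
      rw [hδ]
      ring
    calc 4 ^ q * Γ = 4⁻¹ * (4 * (4 ^ q * C')) * 2 ^ ((δ + ((m : ℝ) - 1) * (q / 2 - 1)) * j1) := by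
          rw [hΓ]
          rw [← mul_assoc (4⁻¹ : ℝ≥0∞) 4, ENNReal.inv_mul_cancel (by norm_num) (by norm_num), one_mul]
          ring
      _ ≤ 4⁻¹ * 2 ^ (δ * (j1 : ℝ)) * 2 ^ ((δ + ((m : ℝ) - 1) * (q / 2 - 1)) * j1) := by gcongr
      _ = _ := by rw [h2]; ring
  -- transversality
  obtain ⟨b, hb, hTS⟩ := transversal_or_slab m hm (Real.sqrt m) (1 / 4 ^ j1) (by positivity)
  -- the choice of `j0`
  set Z : ℝ≥0∞ := (4 ^ q * Γ * ((Lam m j1).card : ℝ≥0∞) + 4 ^ q) * (C1 ^ q * C0) * (M0 ^ (q - 1) * M0) with hZ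
  have hZt : Z ≠ ⊤ := by
    rw [hZ]
    refine ENNReal.mul_ne_top (ENNReal.mul_ne_top (ENNReal.add_ne_top.2 ⟨?_, h4q⟩) ?_) ?_
    · exact ENNReal.mul_ne_top (ENNReal.mul_ne_top h4q hΓt) (ENNReal.natCast_ne_top _)
    · exact ENNReal.mul_ne_top (ENNReal.rpow_ne_top_of_nonneg hq0.le hC1) hC0
    · exact ENNReal.mul_ne_top (ENNReal.rpow_ne_top_of_nonneg (by linarith) hM0) hM0
  obtain ⟨j0', hj0'⟩ := BN_large (4 * Z) (ENNReal.mul_ne_top (by norm_num) hZt)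
    ((m : ℝ) * (q / 2 - 1)) (mul_pos (by linarith) (by linarith))
  refine ⟨j1, b, max (2 * j1) j0', hj11, hb, ?_⟩
  intro j2 hj2
  have h12 : 2 * j1 ≤ j2 := (le_max_left _ _).trans hj2
  have h12' : j1 ≤ j2 := by omega
  have hZ1 : Z ≤ 4⁻¹ * nf m q j2 := by
    have h1 := hj0' j2 ((le_max_right _ _).trans hj2)
    have h2 : nf m q j2 = 2 ^ ((m : ℝ) * (q / 2 - 1) * (j2 : ℝ)) := by
      unfold nf
      congr 1
      ring
    calc Z = 4⁻¹ * (4 * Z) := by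
          rw [← mul_assoc, ENNReal.inv_mul_cancel (by norm_num) (by norm_num), one_mul]
      _ ≤ 4⁻¹ * 2 ^ ((m : ℝ) * (q / 2 - 1) * (j2 : ℝ)) := by gcongr
      _ = _ := by rw [h2]
  set N : ℝ≥0∞ := ((Lam m j2).card : ℝ≥0∞) with hN
  have hNt : N ≠ ⊤ := ENNReal.natCast_ne_top _
  refine ⟨(C1 * N * N) ^ q * C0 * N ^ (m + 1), ?_, ?_⟩
  · refine ENNReal.mul_ne_top (ENNReal.mul_ne_top ?_ hC0) (ENNReal.pow_ne_top hNt)
    exact ENNReal.rpow_ne_top_of_nonneg hq0.le (ENNReal.mul_ne_top (ENNReal.mul_ne_top hC1 hNt) hNt)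
  intro k D M hjk1 hjk2 hD1 hD2 hMB f hf
  -- the window
  have hr2 : (0 : ℝ) < 2 ^ j2 := by positivity
  have h42 : (4 : ℝ) ^ j1 ≤ 2 ^ j2 := by
    calc (4 : ℝ) ^ j1 = 2 ^ (2 * j1) := by rw [pow_mul]; norm_num
      _ ≤ 2 ^ j2 := pow_le_pow_right₀ (by norm_num) h12
  obtain ⟨χ, hχF, hX0, hXt, hJ⟩ := hwin (4 ^ j1) (2 ^ j2) (by positivity) h42
  have hFam : Fam A j2 (pc k j2 f) := Fam_pc hA hjk2 hf
  have hFm : ∀ α, α ∈ Lam m j2 → Measurable (pc k j2 f α) := fun α hα => (hFam α hα).continuous.measurable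
  have hFe : ∀ α, α ∈ Lam m j2 → Measurable fun y => ‖pc k j2 f α y‖ₑ := fun α hα => (hFm α hα).enorm
  have hBN := bn_core (m := m) hq1 (Lam m j2) (pc k j2 f) hFm (Lam m j1) (par (j2 - j1))
    (fun α hα => par_mem h12' hα) χ hχF.continuous.measurable
    (fun y => ENNReal.ofReal ((1 + ‖y‖ / 2 ^ j2) ^ (m + 2)))
    (ENNReal.measurable_ofReal.comp (((measurable_norm.div_const _).const_add 1).pow_const _))
    (fun α => cv (fun y => ‖pc k j2 f α y‖ₑ) (bw (2 ^ j2)))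
    (fun α hα => measurable_cv (hFe α hα) (measurable_bw _)) C1 Γ (M * nf m q k * en q k f)
    (by
      intro α hα x y
      have h1 := hlc (2 ^ j2) (ctr j2 α, ‖ctr j2 α‖ ^ 2) (pc k j2 f α) hr2
        ((hFam α hα).mono (reg_subset_ball hA0 hα)) y
      simp only [ENNReal.rpow_one] at h1
      refine h1.trans ?_
      rw [mul_assoc]
      gcongr
      exact cv_bw_move hr2 _ y x)
    (fun t => Tr b (fun i => ctr j2 (t i)))
    (by
      intro S hST hSne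
      rcases hTS (S.image (ctr j2)) (hSne.image _) (by
        intro ξ hξ
        obtain ⟨α, hα, rfl⟩ := Finset.mem_image.1 hξ
        exact norm_ctr_le (hST hα)) with ⟨ξ, hξ, hTr⟩ | ⟨ω, t0, hω, hslab⟩
      · left
        choose t ht using fun i => Finset.mem_image.1 (hξ i)
        refine ⟨t, fun i => (ht i).1, ?_⟩
        have h1 : (fun i => ctr j2 (t i)) = ξ := funext fun i => (ht i).2
        rw [h1]
        exact hTr
      · right
        intro x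
        refine hCyl j1 ω t0 hω (Lam m j1) (fun β y => (∑ α ∈ S with par (j2 - j1) α = β,
          pc k j2 f α y) * χ (y - x)) (Finset.Subset.refl _) ?_
        intro β hβ
        have hχx : Fr (Metric.closedBall (0 : V m) (1 / 4 ^ j1)) (fun y => χ (y - x)) := by
          have := hχF.translate (-x)
          simpa only [← sub_eq_add_neg] using this
        have h2 : (fun y => (∑ α ∈ S with par (j2 - j1) α = β, pc k j2 f α y) * χ (y - x)) =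
            fun y => ∑ α ∈ S with par (j2 - j1) α = β, pc k j2 f α y * χ (y - x) := by
          funext y
          rw [Finset.sum_mul]
        rw [h2]
        refine Fr.sum _ fun α hα => ?_
        obtain ⟨hαS, hαβ⟩ := Finset.mem_filter.1 hα
        refine ((hFam α (hST hαS)).mul hχx).mono ?_
        exact BN_freq hA h12 hω (hST hαS) hαβ (hslab _ (Finset.mem_image_of_mem _ hαS)))
    (by
      intro t ht hTr
      exact hMB f hf t ht hTr)
  -- identification of the terms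
  have hsum1 : (fun y => ∑ α ∈ Lam m j2, pc k j2 f α y) = fun y => ∑ a ∈ Lam m k, f a y :=
    funext fun y => sum_pc hjk2 f y
  have hsum2 : ∑ β ∈ Lam m j1, ∫⁻ y, ‖∑ α ∈ Lam m j2 with par (j2 - j1) α = β, pc k j2 f α y‖ₑ ^ q =
      en q j1 (pc k j1 f) := by
    unfold en
    refine Finset.sum_congr rfl fun β hβ => ?_
    refine lintegral_congr fun y => ?_
    rw [pc_pc h12' hjk2 f hβ y]
    rfl
  have hen1 : en q j1 (pc k j1 f) ≤ D * nf m q (k - j1) * en q k f := rescale_sum hq hjk1 hD1 hf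
  have hen2 : en q j2 (pc k j2 f) ≤ D * nf m q (k - j2) * en q k f := rescale_sum hq hjk2 hD2 hf
  have hnf1 : nf m q k = nf m q j1 * nf m q (k - j1) := by
    rw [← nf_add]
    congr 1
    omega
  have hnf2 : nf m q k = nf m q j2 * nf m q (k - j2) := by
    rw [← nf_add]
    congr 1
    omega
  have ha : ∑ α ∈ Lam m j2, ∫⁻ y, cv (fun y => ‖pc k j2 f α y‖ₑ) (bw (2 ^ j2)) y ^ q ≤
      M0 ^ (q - 1) * M0 * en q j2 (pc k j2 f) := by
    unfold en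
    rw [Finset.mul_sum]
    refine Finset.sum_le_sum fun α hα => ?_
    calc ∫⁻ y, cv (fun y => ‖pc k j2 f α y‖ₑ) (bw (2 ^ j2)) y ^ q
        ≤ ∫⁻ y, M0 ^ (q - 1) * cv (fun y => ‖pc k j2 f α y‖ₑ ^ q) (bw (2 ^ j2)) y := by
          refine lintegral_mono fun y => ?_
          have h1 := cv_jensen hq1 (hFe α hα) (measurable_bw (2 ^ j2)) (bw_ne_top (2 ^ j2)) y
          rw [hmass _ hr2] at h1
          exact h1
      _ = M0 ^ (q - 1) * ((∫⁻ y, ‖pc k j2 f α y‖ₑ ^ q) * M0) := by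
          rw [lintegral_const_mul _ (measurable_cv ((hFe α hα).pow_const q) (measurable_bw _)),
            lintegral_cv ((hFe α hα).pow_const q) (measurable_bw _), hmass _ hr2]
      _ = _ := by ring
  rw [hsum2] at hBN
  rw [show (∫⁻ y, ‖∑ α ∈ Lam m j2, pc k j2 f α y‖ₑ ^ q) = ∫⁻ y, ‖∑ a ∈ Lam m k, f a y‖ₑ ^ q from
    lintegral_congr fun y => by rw [sum_pc hjk2 f y]] at hBN
  set X : ℝ≥0∞ := ∫⁻ y, ‖χ y‖ₑ ^ q with hX
  set Jv : ℝ≥0∞ := ∫⁻ y, ENNReal.ofReal ((1 + ‖y‖ / 2 ^ j2) ^ (m + 2)) ^ q * ‖χ y‖ₑ ^ q with hJv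
  set I : ℝ≥0∞ := ∫⁻ y, ‖∑ a ∈ Lam m k, f a y‖ₑ ^ q with hI
  rw [← hN] at hBN
  have hfinal : X * I ≤ X * ((D / 2 + (C1 * N * N) ^ q * C0 * N ^ (m + 1) * M) * nf m q k * en q k f) := by
    refine hBN.trans ?_
    calc 4 ^ q * Γ * X * en q j1 (pc k j1 f) +
          (4 ^ q * Γ * ((Lam m j1).card : ℝ≥0∞) + 4 ^ q) * (C1 ^ q * Jv) *
            (∑ α ∈ Lam m j2, ∫⁻ y, cv (fun y => ‖pc k j2 f α y‖ₑ) (bw (2 ^ j2)) y ^ q) +
          (C1 * N * N) ^ q * Jv * N ^ (m + 1) * (M * nf m q k * en q k f)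
        ≤ 4 ^ q * Γ * X * (D * nf m q (k - j1) * en q k f) +
          (4 ^ q * Γ * ((Lam m j1).card : ℝ≥0∞) + 4 ^ q) * (C1 ^ q * (C0 * X)) *
            (M0 ^ (q - 1) * M0 * (D * nf m q (k - j2) * en q k f)) +
          (C1 * N * N) ^ q * (C0 * X) * N ^ (m + 1) * (M * nf m q k * en q k f) := by
          gcongr
          exact ha.trans (by gcongr)
      _ = X * (4 ^ q * Γ * nf m q (k - j1) * D * en q k f + Z * nf m q (k - j2) * D * en q k f +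
          (C1 * N * N) ^ q * C0 * N ^ (m + 1) * M * nf m q k * en q k f) := by
          rw [hZ]
          ring
      _ ≤ X * ((4⁻¹ * nf m q j1) * nf m q (k - j1) * D * en q k f +
          (4⁻¹ * nf m q j2) * nf m q (k - j2) * D * en q k f +
          (C1 * N * N) ^ q * C0 * N ^ (m + 1) * M * nf m q k * en q k f) := by gcongr
      _ = X * ((4⁻¹ * D + 4⁻¹ * D) * nf m q k * en q k f +
          (C1 * N * N) ^ q * C0 * N ^ (m + 1) * M * nf m q k * en q k f) := by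
          congr 1
          have h1 : 4⁻¹ * nf m q j1 * nf m q (k - j1) * D * en q k f = 4⁻¹ * D * nf m q k * en q k f := by
            rw [hnf1]
            ring
          have h2 : 4⁻¹ * nf m q j2 * nf m q (k - j2) * D * en q k f = 4⁻¹ * D * nf m q k * en q k f := by
            rw [hnf2]
            ring
          rw [h1, h2]
          ring
      _ = _ := by
          rw [BN_half]
          ring
  exact (ENNReal.mul_le_mul_iff_right hX0 hXt).1 hfinal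

end Pool.LibDC71
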