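import Pool.Agent.LibDC71.W1

/-! J1. Hoelder / Jensen for the averages `cv h w` (w of mass at most M).
* jensen: `cv h w z ≤ (∫ w)^(1-1/s) (cv (h^s) w z)^(1/s)`: `ENNReal.lintegral_mul_le_Lp_mul_Lq`
  applied to `h(z-y) w(y)^(1/s)` and `w(y)^(1-1/s)`.
* interp: `h^s = (h^2)^θ (h^q)^(1-θ)`, θ = (1-κ) s/2, 1-θ = κ s/q; then
  `ENNReal.lintegral_mul_norm_pow_le` / Hoelder with exponents 1/θ, 1/(1-θ) for the measure w dy,
  and Hoelder for the finite sum (`ENNReal.inner_le_Lp_mul_Lq` or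
  `ENNReal.sum_..`): both in one stroke for the measure on ι x V. -/

set_option autoImplicit false

noncomputable section

open MeasureTheory
open scoped ENNReal

namespace Pool.LibDC71

private theorem J1_cv_eq {m : ℕ} {h w : V m → ℝ≥0∞} (hh : Measurable h) (hw : Measurable w) (z : V m) :
    cv h w z = ∫⁻ y, h (z - y) ∂((volume : Measure (V m)).withDensity w) := by
  have h1 : Measurable (fun y : V m => h (z - y)) := hh.comp (measurable_const.sub measurable_id)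
  rw [lintegral_withDensity_eq_lintegral_mul _ hw h1]
  unfold cv
  refine lintegral_congr fun y => ?_
  rw [Pi.mul_apply, mul_comm]

private theorem J1_meas {m : ℕ} {h : V m → ℝ≥0∞} (hh : Measurable h) (z : V m) :
    Measurable (fun y : V m => h (z - y)) := hh.comp (measurable_const.sub measurable_id)

private theorem J1_sum_holder {ι : Type} (T : Finset ι) (f g : ι → ℝ≥0∞) {p q : ℝ} (hp : 0 ≤ p) (hq : 0 ≤ q)
    (hpq : p + q = 1) : ∑ i ∈ T, f i ^ p * g i ^ q ≤ (∑ i ∈ T, f i) ^ p * (∑ i ∈ T, g i) ^ q := by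
  classical
  let _ : MeasurableSpace ι := ⊤
  have key : ∀ F : ι → ℝ≥0∞, ∫⁻ i, F i ∂(∑ j ∈ T, Measure.dirac j) = ∑ i ∈ T, F i := by
    intro F
    rw [lintegral_finsetSum_measure]
    refine Finset.sum_congr rfl fun j _ => ?_
    exact lintegral_dirac' j measurable_from_top
  have h := ENNReal.lintegral_mul_norm_pow_le (μ := ∑ j ∈ T, Measure.dirac j) (f := f) (g := g)
    (Measurable.aemeasurable measurable_from_top) (Measurable.aemeasurable measurable_from_top) hp hq hpq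
  rw [key, key, key] at h
  exact h

theorem cv_jensen {m : ℕ} {s : ℝ} (hs : 1 ≤ s) {h w : V m → ℝ≥0∞} (hh : Measurable h)
    (hw : Measurable w) (hfin : ∀ z, w z ≠ ⊤) (z : V m) :
    cv h w z ^ s ≤ (∫⁻ y, w y) ^ (s - 1) * cv (fun y => h y ^ s) w z := by
  have h1 : Measurable (fun y : V m => h y ^ s) := hh.pow_const s
  rw [J1_cv_eq hh hw, J1_cv_eq h1 hw]
  have hs0 : 0 < s := by linarith
  have h2 := ENNReal.lintegral_mul_norm_pow_le (μ := (volume : Measure (V m)).withDensity w)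
    (f := fun y => h (z - y) ^ s) (g := fun _ => 1) (J1_meas h1 z).aemeasurable aemeasurable_const
    (p := 1 / s) (q := 1 - 1 / s) (by positivity)
    (by rw [sub_nonneg, div_le_one hs0]; exact hs) (by ring)
  have h3 : ∀ y : V m, (h (z - y) ^ s) ^ (1 / s) * (1 : ℝ≥0∞) ^ (1 - 1 / s) = h (z - y) := by
    intro y
    rw [ENNReal.one_rpow, mul_one, ← ENNReal.rpow_mul, mul_one_div_cancel hs0.ne', ENNReal.rpow_one]
  simp only [h3] at h2
  have h4 : ∫⁻ _y : V m, (1 : ℝ≥0∞) ∂((volume : Measure (V m)).withDensity w) = ∫⁻ y, w y := by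
    rw [lintegral_one, withDensity_apply _ MeasurableSet.univ, Measure.restrict_univ]
  rw [h4] at h2
  calc (∫⁻ y, h (z - y) ∂((volume : Measure (V m)).withDensity w)) ^ s
      ≤ ((∫⁻ y, h (z - y) ^ s ∂((volume : Measure (V m)).withDensity w)) ^ (1 / s) *
          (∫⁻ y, w y) ^ (1 - 1 / s)) ^ s := ENNReal.rpow_le_rpow h2 hs0.le
    _ = (∫⁻ y, w y) ^ (s - 1) * ∫⁻ y, h (z - y) ^ s ∂((volume : Measure (V m)).withDensity w) := by
        rw [ENNReal.mul_rpow_of_nonneg _ _ hs0.le, ← ENNReal.rpow_mul, ← ENNReal.rpow_mul,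
          one_div_mul_cancel hs0.ne', ENNReal.rpow_one, sub_mul, one_mul, one_div_mul_cancel hs0.ne', mul_comm]

/-- with an additional finite sum: `(∑ cv (h_i^2) w)^(s/2) ≤ (N mass)^(s/2-1) ∑ cv (h_i^s) w` -/
theorem cv_two_le {m : ℕ} {s : ℝ} (hs : 2 ≤ s) {ι : Type} (T : Finset ι) {h : ι → V m → ℝ≥0∞}
    {w : V m → ℝ≥0∞} (hh : ∀ i ∈ T, Measurable (h i)) (hw : Measurable w) (hfin : ∀ z, w z ≠ ⊤)
    (z : V m) :
    (∑ i ∈ T, cv (fun y => h i y ^ (2 : ℝ)) w z) ^ (s / 2) ≤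
      ((T.card : ℝ≥0∞) * ∫⁻ y, w y) ^ (s / 2 - 1) * ∑ i ∈ T, cv (fun y => h i y ^ s) w z := by
  have hs1 : 1 ≤ s / 2 := by linarith
  have h1 := ENNReal.rpow_sum_le_const_mul_sum_rpow T (fun i => cv (fun y => h i y ^ (2 : ℝ)) w z) hs1
  refine h1.trans ?_
  rw [ENNReal.mul_rpow_of_nonneg _ _ (by linarith : (0 : ℝ) ≤ s / 2 - 1), mul_assoc]
  refine mul_le_mul_right ?_ _
  rw [Finset.mul_sum]
  refine Finset.sum_le_sum fun i hi => ?_
  have h2 := cv_jensen hs1 ((hh i hi).pow_const (2 : ℝ)) hw hfin z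
  have h3 : (fun y => (h i y ^ (2 : ℝ)) ^ (s / 2)) = fun y => h i y ^ s := by
    funext y
    rw [← ENNReal.rpow_mul]
    congr 1
    ring
  rw [h3] at h2
  exact h2

/-- log-convexity on `T x V` -/
theorem cv_interp {m : ℕ} {s q κ : ℝ} (hs : 2 ≤ s) (hq : 2 < q) (hκ0 : 0 ≤ κ) (hκ1 : κ < 1)
    (hκ : 1 / s = (1 - κ) / 2 + κ / q) {ι : Type} (T : Finset ι) {h : ι → V m → ℝ≥0∞}
    {w : V m → ℝ≥0∞} (hh : ∀ i ∈ T, Measurable (h i)) (hfh : ∀ i ∈ T, ∀ z, h i z ≠ ⊤)
    (hw : Measurable w) (hfin : ∀ z, w z ≠ ⊤) (z : V m) :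
    ∑ i ∈ T, cv (fun y => h i y ^ s) w z ≤
      (∑ i ∈ T, cv (fun y => h i y ^ (2 : ℝ)) w z) ^ ((1 - κ) * s / 2) *
        (∑ i ∈ T, cv (fun y => h i y ^ q) w z) ^ (κ * s / q) := by
  have hs0 : 0 < s := by linarith
  have hq0 : 0 < q := by linarith
  have hθ : 0 ≤ (1 - κ) * s / 2 := by
    have : 0 ≤ 1 - κ := by linarith
    positivity
  have hθ' : 0 ≤ κ * s / q := by positivity
  have hsum : (1 - κ) * s / 2 + κ * s / q = 1 := by
    have h1 : s * (1 / s) = 1 := mul_one_div_cancel hs0.ne'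
    rw [hκ] at h1
    linear_combination h1
  refine le_trans (Finset.sum_le_sum fun i hi => ?_) (J1_sum_holder T
    (fun i => cv (fun y => h i y ^ (2 : ℝ)) w z) (fun i => cv (fun y => h i y ^ q) w z) hθ hθ' hsum)
  have m1 : Measurable (fun y : V m => h i y ^ s) := (hh i hi).pow_const s
  have m2 : Measurable (fun y : V m => h i y ^ (2 : ℝ)) := (hh i hi).pow_const 2
  have m3 : Measurable (fun y : V m => h i y ^ q) := (hh i hi).pow_const q
  rw [J1_cv_eq m1 hw, J1_cv_eq m2 hw, J1_cv_eq m3 hw]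
  have h2 := ENNReal.lintegral_mul_norm_pow_le (μ := (volume : Measure (V m)).withDensity w)
    (J1_meas m2 z).aemeasurable (J1_meas m3 z).aemeasurable hθ hθ' hsum
  refine le_trans (le_of_eq (lintegral_congr fun y => ?_)) h2
  rw [← ENNReal.rpow_mul, ← ENNReal.rpow_mul, ← ENNReal.rpow_add_of_nonneg _ _ (by positivity) (by positivity)]
  congr 1
  field_simp
  ring

end Pool.LibDC71
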