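import Pool.Agent.LibDC71.F1

/-! K1 (kernels). On E m and on R take a smooth bump `χ` (`ContDiffBump`), a Schwartz function
(compact support), and its inverse Fourier transform; products κ(x,t) = κ_m(x) κ_1(t).
`ch (-y) ζ` = product of the two characters, `∫ κ_m(x) exp(-2 pi i <x,ξ>) dx = χ_m(ξ)` by Fourier
inversion for Schwartz functions. Decay: `SchwartzMap.decay` / `one_add_le_seminorm`, both factors
with exponent 2(m+2): (1+‖x‖)^(-2(m+2)) (1+|t|)^(-2(m+2)) ≤ (1+‖(x,t)‖)^(-2(m+2)).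
* window: ψ = inverse Fourier transform of a nonnegative bump supported in the ball of radius ρ0,
  ψ(0) > 0, so |ψ| ≥ ψ(0)/2 on a ball; dilate (frequencies shrink) and multiply by a constant.
* weight: w = |ψ|^2, ∫ w(y) ch y ζ = ∫ χ(η) χ(η - ζ) dη type integral (Fubini + inversion), = 0 if
  the bump has support in the ball of radius 1/4 and ‖ζ‖ ≥ 1 (dilation by δ ≤ 1 keeps this). -/

set_option autoImplicit false

noncomputable section

open MeasureTheory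
open scoped ENNReal SchwartzMap FourierTransform

namespace Pool.LibDC71

section gen

variable {H : Type} [NormedAddCommGroup H] [InnerProductSpace ℝ H] [FiniteDimensional ℝ H] [MeasurableSpace H]
  [BorelSpace H]

set_option linter.unusedSectionVars false

/-- the character on a Euclidean space -/
private def eH (x ξ : H) : ℂ := Complex.exp (2 * (Real.pi : ℂ) * Complex.I * ((inner ℝ x ξ : ℝ) : ℂ))

private theorem K1_bump (r R : ℝ) (hr : 0 < r) (hR : r < R) : ∃ (B : 𝓢(H, ℂ)) (b : H → ℝ), (∀ x, B x = (b x : ℂ)) ∧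
    (∀ x, 0 ≤ b x) ∧ (∀ x, ‖x‖ ≤ r → b x = 1) ∧ (∀ x, R ≤ ‖x‖ → b x = 0) ∧ Continuous b ∧ HasCompactSupport b := by
  let f : ContDiffBump (0 : H) := ⟨r, R, hr, hR⟩
  have h1 : ContDiff ℝ (↑(⊤ : ℕ∞)) (fun x => ((f x : ℝ) : ℂ)) := Complex.ofRealCLM.contDiff.comp f.contDiff
  have h2 : HasCompactSupport (fun x => ((f x : ℝ) : ℂ)) :=
    f.hasCompactSupport.comp_left (g := fun t : ℝ => (t : ℂ)) Complex.ofReal_zero
  refine ⟨h2.toSchwartzMap h1, fun x => f x, fun x => rfl, fun x => f.nonneg, ?_, ?_, f.continuous,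
    f.hasCompactSupport⟩
  · intro x hx
    exact f.one_of_mem_closedBall (by simpa using hx)
  · intro x hx
    exact f.zero_of_le_dist (by simpa using hx)

private theorem K1_fourier (f : 𝓢(H, ℂ)) (ζ : H) : 𝓕 f ζ = ∫ y, f y * eH (-y) ζ := by
  rw [SchwartzMap.fourier_coe, Real.fourier_eq']
  refine integral_congr_ae (Filter.Eventually.of_forall fun y => ?_)
  simp only [eH, smul_eq_mul]
  rw [mul_comm]
  congr 2
  rw [inner_neg_left]
  push_cast
  ring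

private theorem K1_fourierInv (f : 𝓢(H, ℂ)) (ζ : H) : 𝓕⁻ f ζ = ∫ y, f y * eH ζ y := by
  rw [SchwartzMap.fourierInv_coe, Real.fourierInv_eq']
  refine integral_congr_ae (Filter.Eventually.of_forall fun y => ?_)
  simp only [eH, smul_eq_mul]
  rw [mul_comm]
  congr 2
  rw [real_inner_comm]
  push_cast
  ring

private theorem K1_decay (f : 𝓢(H, ℂ)) (k : ℕ) : ∃ C : ℝ, 0 ≤ C ∧ ∀ x, ‖f x‖ ≤ C * ((1 + ‖x‖) ^ k)⁻¹ := by
  refine ⟨2 ^ k * (Finset.Iic (k, 0)).sup (fun m => SchwartzMap.seminorm ℝ m.1 m.2) f, by positivity, fun x => ?_⟩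
  have h := SchwartzMap.one_add_le_sup_seminorm_apply (𝕜 := ℝ) (m := (k, 0)) (k := k) (n := 0) le_rfl le_rfl f x
  rw [norm_iteratedFDeriv_zero] at h
  have hp : 0 < (1 + ‖x‖) ^ k := by positivity
  rw [← div_eq_mul_inv, le_div_iff₀ hp, mul_comm]
  exact h

private theorem K1_one (A : ℝ) : ∃ κ : 𝓢(H, ℂ), ∀ ζ : H, ‖ζ‖ ≤ A → ∫ y, κ y * eH (-y) ζ = 1 := by
  obtain ⟨B, b, hB, -, h1, -⟩ := K1_bump (H := H) (max A 1) (max A 1 + 1) (by positivity) (by linarith)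
  refine ⟨𝓕⁻ B, fun ζ hζ => ?_⟩
  rw [← K1_fourier, FourierTransform.fourier_fourierInv_eq, hB, h1 ζ (le_trans hζ (le_max_left _ _))]
  simp


private theorem K1_eH_add_right (x ξ η : H) : eH x (ξ + η) = eH x ξ * eH x η := by
  unfold eH
  rw [← Complex.exp_add, inner_add_right]
  congr 1
  push_cast
  ring

private theorem K1_eH_conj (x ξ : H) : (starRingEnd ℂ) (eH x ξ) = eH (-x) ξ := by
  unfold eH
  rw [← Complex.exp_conj, inner_neg_left]
  congr 1
  simp only [map_mul, Complex.conj_ofReal, Complex.conj_I, map_ofNat]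
  push_cast
  ring

private theorem K1_eH_comm (x ξ : H) : eH x ξ = eH ξ x := by
  unfold eH
  rw [real_inner_comm]

private theorem K1_eH_neg_comm (x ξ : H) : eH (-x) ξ = eH x (-ξ) := by
  unfold eH
  rw [inner_neg_left, inner_neg_right]

/-- the window and its square on a Euclidean space -/
private theorem K1_win : ∃ (ψ B : 𝓢(H, ℂ)) (c : ℝ), 0 < c ∧ (∀ ζ, ψ ζ = ∫ y, B y * eH ζ y) ∧
    (∀ y, B y ≠ 0 → ‖y‖ ≤ 1) ∧ (∀ x, ‖x‖ ≤ 1 → c ≤ ‖ψ x‖) ∧
    (∀ ζ : H, 1 ≤ ‖ζ‖ → ∫ x, ((‖ψ x‖ ^ 2 : ℝ) : ℂ) * eH x ζ = 0) := by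
  obtain ⟨B, b, hB, hb0, hb1, hbz, hbc, hbs⟩ := K1_bump (H := H) (1 / 16) (1 / 8) (by norm_num) (by norm_num)
  have hbi : Integrable b := hbc.integrable_of_hasCompactSupport hbs
  have hpos : 0 < ∫ y, b y := by
    rw [integral_pos_iff_support_of_nonneg hb0 hbi]
    refine lt_of_lt_of_le ?_ (measure_mono (s := Metric.ball (0 : H) (1 / 16)) ?_)
    · exact Metric.measure_ball_pos _ _ (by norm_num)
    · intro x hx
      rw [Function.mem_support, hb1 x (by simpa using (Metric.mem_ball.1 hx).le)]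
      norm_num
  refine ⟨𝓕⁻ B, B, (∫ y, b y) / 2, by positivity, fun ζ => K1_fourierInv B ζ, ?_, ?_, ?_⟩
  · intro y hy
    by_contra h
    apply hy
    rw [hB, hbz y (by linarith [not_le.1 h])]
    simp
  · intro x hx
    have hre : (𝓕⁻ B x).re = ∫ y, b y * Real.cos (2 * Real.pi * inner ℝ x y) := by
      rw [K1_fourierInv]
      have hint : Integrable (fun y => B y * eH x y) := by
        refine B.integrable.mul_bdd (c := 1) ?_ (Filter.Eventually.of_forall fun y => ?_)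
        · refine Continuous.aestronglyMeasurable ?_
          unfold eH
          fun_prop
        · unfold eH
          rw [show (2 * (Real.pi : ℂ) * Complex.I * ((inner ℝ x y : ℝ) : ℂ)) =
            ((2 * Real.pi * inner ℝ x y : ℝ) : ℂ) * Complex.I by push_cast; ring]
          rw [Complex.norm_exp_ofReal_mul_I]
      have h1 : (∫ y, B y * eH x y).re = ∫ y, (B y * eH x y).re := (integral_re hint).symm
      rw [h1]
      refine integral_congr_ae (Filter.Eventually.of_forall fun y => ?_)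
      simp only
      rw [hB, Complex.re_ofReal_mul]
      congr 1
      unfold eH
      rw [show (2 * (Real.pi : ℂ) * Complex.I * ((inner ℝ x y : ℝ) : ℂ)) =
            ((2 * Real.pi * inner ℝ x y : ℝ) : ℂ) * Complex.I by push_cast; ring]
      rw [Complex.exp_ofReal_mul_I_re]
    refine le_trans ?_ (Complex.abs_re_le_norm _)
    rw [hre]
    refine le_trans ?_ (le_abs_self _)
    rw [div_eq_inv_mul, ← integral_const_mul]
    refine integral_mono (hbi.const_mul _) ?_ ?_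
    · refine hbi.mul_bdd (c := 1) ?_ (Filter.Eventually.of_forall fun y => ?_)
      · exact Continuous.aestronglyMeasurable (by fun_prop)
      · exact Real.abs_cos_le_one _
    · intro y
      simp only
      rw [mul_comm]
      by_cases hy : 1 / 8 ≤ ‖y‖
      · rw [hbz y hy]
        simp
      · refine mul_le_mul_of_nonneg_left ?_ (hb0 y)
        push Not at hy
        have h1 : |2 * Real.pi * inner ℝ x y| ≤ Real.pi / 3 := by
          rw [abs_mul, abs_of_pos (by positivity)]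
          have h2 : |inner ℝ x y| ≤ 1 / 8 := by
            refine (abs_real_inner_le_norm x y).trans ?_
            calc ‖x‖ * ‖y‖ ≤ 1 * (1 / 8) := by gcongr
              _ = 1 / 8 := by ring
          have h3 := Real.pi_pos
          nlinarith
        rw [← Real.cos_abs]
        have h4 := Real.cos_le_cos_of_nonneg_of_le_pi (abs_nonneg (2 * Real.pi * inner ℝ x y))
          (by linarith [Real.pi_pos]) h1
        rw [Real.cos_pi_div_three] at h4
        simpa using h4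
  · intro ζ hζ
    -- the translated bump
    have h1 : ContDiff ℝ (↑(⊤ : ℕ∞)) (fun x => B (x + ζ)) := (B.smooth _).comp (by fun_prop)
    have hBs : HasCompactSupport (fun x => B x) := by
      refine HasCompactSupport.of_support_subset_isCompact (isCompact_closedBall (0 : H) 1) ?_
      intro y hy
      rw [Function.mem_support, hB] at hy
      by_contra h
      apply hy
      rw [hbz y ?_]
      · simp
      · simp only [Metric.mem_closedBall, dist_zero_right, not_le] at h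
        linarith
    have h2 : HasCompactSupport (fun x => B (x + ζ)) := hBs.comp_homeomorph (Homeomorph.addRight ζ)
    set B' : 𝓢(H, ℂ) := h2.toSchwartzMap h1 with hB'
    have hB'a : ∀ x, B' x = B (x + ζ) := fun x => rfl
    have key : ∀ x, ((‖𝓕⁻ B x‖ ^ 2 : ℝ) : ℂ) * eH x ζ = 𝓕⁻ B x * 𝓕 B' x := by
      intro x
      have e1 : 𝓕 B' x = (starRingEnd ℂ) (𝓕⁻ B x) * eH x ζ := by
        rw [K1_fourier, K1_fourierInv, ← integral_conj, ← integral_mul_const]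
        have e2 : ∫ y, B' y * eH (-y) x = ∫ y, (fun y => B y * eH (-(y - ζ)) x) (y + ζ) := by
          refine integral_congr_ae (Filter.Eventually.of_forall fun y => ?_)
          simp only
          rw [hB'a, add_sub_cancel_right]
        rw [e2, integral_add_right_eq_self (fun y => B y * eH (-(y - ζ)) x)]
        refine integral_congr_ae (Filter.Eventually.of_forall fun y => ?_)
        simp only
        rw [map_mul, hB, Complex.conj_ofReal, K1_eH_conj, mul_assoc]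
        congr 1
        rw [neg_sub, K1_eH_comm (ζ - y), sub_eq_add_neg, K1_eH_add_right, mul_comm, ← K1_eH_neg_comm]
      rw [e1, Complex.ofReal_pow, ← Complex.mul_conj', mul_assoc]
    simp_rw [key]
    rw [SchwartzMap.integral_fourierInv_mul_eq, FourierTransform.fourierInv_fourier_eq]
    have : ∀ x, B x * B' x = 0 := by
      intro x
      rw [hB'a, hB, hB]
      by_cases hx : 1 / 8 ≤ ‖x‖
      · rw [hbz x hx]
        simp
      · rw [hbz (x + ζ) ?_]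
        · simp
        · push Not at hx
          have h3 : ‖ζ‖ ≤ ‖x + ζ‖ + ‖x‖ := by
            have := norm_sub_le (x + ζ) x
            rwa [add_sub_cancel_left] at this
          linarith
    simp_rw [this]
    exact integral_zero _ _

end gen

private theorem K1_ch {m : ℕ} (z ζ : V m) : ch z ζ = eH z.1 ζ.1 * eH z.2 ζ.2 := by
  have h : inner ℝ z.2 ζ.2 = z.2 * ζ.2 := by
    rw [RCLike.inner_apply, conj_trivial, mul_comm]
  unfold ch eH
  rw [← Complex.exp_add, h]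
  congr 1
  push_cast
  ring

private theorem K1_prod_decay {m : ℕ} {f : E m → ℂ} {g : ℝ → ℂ} {k : ℕ} {C D : ℝ} (hC : 0 ≤ C) (hD : 0 ≤ D)
    (hf : ∀ x, ‖f x‖ ≤ C * ((1 + ‖x‖) ^ k)⁻¹) (hg : ∀ x, ‖g x‖ ≤ D * ((1 + ‖x‖) ^ k)⁻¹) (z : V m) :
    ‖f z.1 * g z.2‖ ≤ C * D * ((1 + ‖z‖) ^ k)⁻¹ := by
  rw [norm_mul]
  have h1 : ‖f z.1‖ * ‖g z.2‖ ≤ (C * ((1 + ‖z.1‖) ^ k)⁻¹) * (D * ((1 + ‖z.2‖) ^ k)⁻¹) :=
    mul_le_mul (hf _) (hg _) (norm_nonneg _) (by positivity)
  refine h1.trans ?_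
  have h2 : (1 + ‖z‖) ^ k ≤ (1 + ‖z.1‖) ^ k * (1 + ‖z.2‖) ^ k := by
    rw [← mul_pow]
    refine pow_le_pow_left₀ (by positivity) ?_ k
    have h3 : ‖z‖ ≤ ‖z.1‖ + ‖z.2‖ := by
      rw [Prod.norm_def]
      exact max_le (by linarith [norm_nonneg z.2]) (by linarith [norm_nonneg z.1])
    nlinarith [norm_nonneg z.1, norm_nonneg z.2]
  have h4 : (C * ((1 + ‖z.1‖) ^ k)⁻¹) * (D * ((1 + ‖z.2‖) ^ k)⁻¹) =
      C * D * ((1 + ‖z.1‖) ^ k * (1 + ‖z.2‖) ^ k)⁻¹ := by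
    rw [mul_inv]
    ring
  rw [h4]
  exact mul_le_mul_of_nonneg_left (inv_anti₀ (by positivity) h2) (mul_nonneg hC hD)

private theorem K1_int_prod {m : ℕ} (f : E m → ℂ) (g : ℝ → ℂ) :
    ∫ z : V m, f z.1 * g z.2 = (∫ x, f x) * ∫ y, g y := integral_prod_mul f g

theorem exists_kernel (m : ℕ) (A : ℝ) : ∃ κ : V m → ℂ, Integrable κ ∧ Continuous κ ∧
    (∃ C : ℝ, ∀ z, ‖κ z‖ ≤ C * ((1 + ‖z‖) ^ (2 * (m + 2)))⁻¹) ∧
    ∀ ζ : V m, ‖ζ‖ ≤ A → ∫ y, κ y * ch (-y) ζ = 1 := by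
  obtain ⟨f, hf⟩ := K1_one (H := E m) A
  obtain ⟨g, hg⟩ := K1_one (H := ℝ) A
  obtain ⟨C, hC0, hC⟩ := K1_decay f (2 * (m + 2))
  obtain ⟨D, hD0, hD⟩ := K1_decay g (2 * (m + 2))
  refine ⟨fun z => f z.1 * g z.2, ?_, ?_, ⟨C * D, fun z => K1_prod_decay hC0 hD0 hC hD z⟩, ?_⟩
  · exact Integrable.mul_prod f.integrable g.integrable
  · exact (f.continuous.comp continuous_fst).mul (g.continuous.comp continuous_snd)
  · intro ζ hζ
    have h1 : ∀ y : V m, f y.1 * g y.2 * ch (-y) ζ = (f y.1 * eH (-y.1) ζ.1) * (g y.2 * eH (-y.2) ζ.2) := by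
      intro y
      rw [K1_ch]
      simp only [Prod.fst_neg, Prod.snd_neg]
      ring
    simp_rw [h1]
    rw [K1_int_prod (fun x => f x * eH (-x) ζ.1) (fun x => g x * eH (-x) ζ.2)]
    rw [hf ζ.1 ((norm_fst_le ζ).trans hζ), hg ζ.2 ((norm_snd_le ζ).trans hζ), one_mul]

theorem exists_window (m : ℕ) : ∃ ψ : V m → ℂ, Fr (Metric.closedBall 0 1) ψ ∧
    (∀ z, ‖z‖ ≤ 1 → 1 ≤ ‖ψ z‖) ∧ ∃ C : ℝ, ∀ z, ‖ψ z‖ ≤ C * ((1 + ‖z‖) ^ (2 * (m + 2)))⁻¹ := by
  obtain ⟨f, F, c, hc, hf, hF, hfc, -⟩ := K1_win (H := E m)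
  obtain ⟨g, G, d, hd, hg, hG, hgd, -⟩ := K1_win (H := ℝ)
  obtain ⟨C, hC0, hC⟩ := K1_decay f (2 * (m + 2))
  obtain ⟨D, hD0, hD⟩ := K1_decay g (2 * (m + 2))
  refine ⟨fun z => (((c * d)⁻¹ : ℝ) : ℂ) * (f z.1 * g z.2), ?_, ?_, ⟨(c * d)⁻¹ * (C * D), fun z => ?_⟩⟩
  · have h1 : ∀ z : V m, (((c * d)⁻¹ : ℝ) : ℂ) * (f z.1 * g z.2) =
        ∫ ζ : V m, (fun ζ : V m => (((c * d)⁻¹ : ℝ) : ℂ) * (F ζ.1 * G ζ.2)) ζ * ch z ζ := by
      intro z
      have h2 : ∀ ζ : V m, (((c * d)⁻¹ : ℝ) : ℂ) * (F ζ.1 * G ζ.2) * ch z ζ =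
          (((c * d)⁻¹ : ℝ) : ℂ) * ((F ζ.1 * eH z.1 ζ.1) * (G ζ.2 * eH z.2 ζ.2)) := by
        intro ζ
        rw [K1_ch]
        ring
      simp_rw [h2]
      rw [integral_const_mul, K1_int_prod (fun x => F x * eH z.1 x) (fun x => G x * eH z.2 x), hf, hg]
    have h3 : Fr (Metric.closedBall (0 : V m) 1)
        (fun z => ∫ ζ : V m, (fun ζ : V m => (((c * d)⁻¹ : ℝ) : ℂ) * (F ζ.1 * G ζ.2)) ζ * ch z ζ) := by
      refine Fr.of_density ?_ ?_
      · exact (Integrable.mul_prod F.integrable G.integrable).const_mul _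
      · intro ζ hζ
        have h4 := right_ne_zero_of_mul hζ
        have h5 := hF _ (left_ne_zero_of_mul h4)
        have h6 := hG _ (right_ne_zero_of_mul h4)
        rw [mem_closedBall_zero_iff, Prod.norm_def]
        exact max_le h5 h6
    have h4 : (fun z : V m => (((c * d)⁻¹ : ℝ) : ℂ) * (f z.1 * g z.2)) = (fun z : V m =>
        ∫ ζ : V m, (fun ζ : V m => (((c * d)⁻¹ : ℝ) : ℂ) * (F ζ.1 * G ζ.2)) ζ * ch z ζ) := funext h1
    rw [h4]
    exact h3
  · intro z hz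
    rw [norm_mul, norm_mul, Complex.norm_real, Real.norm_of_nonneg (by positivity)]
    have h1 := hfc z.1 ((norm_fst_le z).trans hz)
    have h2 := hgd z.2 ((norm_snd_le z).trans hz)
    have h3 : c * d ≤ ‖f z.1‖ * ‖g z.2‖ := mul_le_mul h1 h2 hd.le (norm_nonneg _)
    rw [inv_mul_eq_div, le_div_iff₀ (by positivity), one_mul]
    exact h3
  · rw [norm_mul, Complex.norm_real, Real.norm_of_nonneg (by positivity), mul_assoc]
    exact mul_le_mul_of_nonneg_left (K1_prod_decay hC0 hD0 hC hD z) (by positivity)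

theorem exists_weight (m : ℕ) : ∃ w : V m → ℝ, Continuous w ∧ (∀ z, 0 ≤ w z) ∧
    (∀ z, ‖z‖ ≤ 1 → 1 ≤ w z) ∧ (∃ C : ℝ, ∀ z, w z ≤ C * ((1 + ‖z‖) ^ (m + 2))⁻¹) ∧
    ∀ ζ : V m, 1 ≤ ‖ζ‖ → ∫ y, (w y : ℂ) * ch y ζ = 0 := by
  obtain ⟨f, F, c, hc, -, -, hfc, hfz⟩ := K1_win (H := E m)
  obtain ⟨g, G, d, hd, -, -, hgd, hgz⟩ := K1_win (H := ℝ)
  obtain ⟨C, hC0, hC⟩ := K1_decay f (m + 2)
  obtain ⟨D, hD0, hD⟩ := K1_decay g (m + 2)
  have hfcont : Continuous fun z : V m => ‖f z.1‖ := (f.continuous.comp continuous_fst).norm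
  have hgcont : Continuous fun z : V m => ‖g z.2‖ := (g.continuous.comp continuous_snd).norm
  refine ⟨fun z => ((c * d) ^ 2)⁻¹ * (‖f z.1‖ ^ 2 * ‖g z.2‖ ^ 2), ?_, ?_, ?_, ?_, ?_⟩
  · exact continuous_const.mul ((hfcont.pow 2).mul (hgcont.pow 2))
  · intro z
    positivity
  · intro z hz
    have h1 := hfc z.1 ((norm_fst_le z).trans hz)
    have h2 := hgd z.2 ((norm_snd_le z).trans hz)
    have h3 : c * d ≤ ‖f z.1‖ * ‖g z.2‖ := mul_le_mul h1 h2 hd.le (norm_nonneg _)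
    have h4 : (c * d) ^ 2 ≤ (‖f z.1‖ * ‖g z.2‖) ^ 2 := pow_le_pow_left₀ (by positivity) h3 2
    change 1 ≤ ((c * d) ^ 2)⁻¹ * (‖f z.1‖ ^ 2 * ‖g z.2‖ ^ 2)
    rw [inv_mul_eq_div, le_div_iff₀ (by positivity), one_mul, ← mul_pow]
    exact h4
  · refine ⟨((c * d) ^ 2)⁻¹ * ((C * D) * (C * D)), fun z => ?_⟩
    have h1 := K1_prod_decay hC0 hD0 hC hD z
    have h2 : ‖f z.1 * g z.2‖ ≤ C * D := by
      refine h1.trans ?_
      have h3 : ((1 + ‖z‖) ^ (m + 2))⁻¹ ≤ 1 := by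
        apply inv_le_one_of_one_le₀
        exact one_le_pow₀ (by linarith [norm_nonneg z])
      calc C * D * ((1 + ‖z‖) ^ (m + 2))⁻¹ ≤ C * D * 1 :=
            mul_le_mul_of_nonneg_left h3 (mul_nonneg hC0 hD0)
        _ = C * D := mul_one _
    have h4 : ‖f z.1‖ ^ 2 * ‖g z.2‖ ^ 2 = ‖f z.1 * g z.2‖ * ‖f z.1 * g z.2‖ := by
      rw [norm_mul]
      ring
    change ((c * d) ^ 2)⁻¹ * (‖f z.1‖ ^ 2 * ‖g z.2‖ ^ 2) ≤ _
    rw [h4, mul_assoc]
    refine mul_le_mul_of_nonneg_left ?_ (by positivity)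
    rw [mul_assoc (C * D) (C * D)]
    exact mul_le_mul h2 h1 (norm_nonneg _) (mul_nonneg hC0 hD0)
  · intro ζ hζ
    have h1 : ∀ y : V m, ((((c * d) ^ 2)⁻¹ * (‖f y.1‖ ^ 2 * ‖g y.2‖ ^ 2) : ℝ) : ℂ) * ch y ζ =
        ((((c * d) ^ 2)⁻¹ : ℝ) : ℂ) * ((((‖f y.1‖ ^ 2 : ℝ) : ℂ) * eH y.1 ζ.1) *
          (((‖g y.2‖ ^ 2 : ℝ) : ℂ) * eH y.2 ζ.2)) := by
      intro y
      rw [K1_ch]
      push_cast
      ring
    simp_rw [h1]
    rw [integral_const_mul, K1_int_prod (fun x => ((‖f x‖ ^ 2 : ℝ) : ℂ) * eH x ζ.1)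
      (fun x => ((‖g x‖ ^ 2 : ℝ) : ℂ) * eH x ζ.2)]
    rw [Prod.norm_def] at hζ
    rcases le_max_iff.1 hζ with h | h
    · rw [hfz ζ.1 h, zero_mul, mul_zero]
    · rw [hgz ζ.2 h, mul_zero, mul_zero]

end Pool.LibDC71
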