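import Pool.Agent.LibDC71.W3

/-! W4. The plank weight. Let `L (x,t) = (ρ (x + 2 t c), ρ^2 t)`: a linear bijection of V m of
determinant ρ^(m+2), `tw ρ c z = ρ^(m+2) (1 + ‖L z‖)^(-2(m+2))`.
* mass: substitution y = L z (shear in x for fixed t: translation invariance, then two dilations;
  or `lintegral_map_linearMap..`); mass = ∫ (1+‖y‖)^(-2(m+2)), finite.
* translation: L (τ (-2c, 1)) = (0, ρ^2 τ), norm ≤ 1 if |τ| ≤ ρ^(-2); 1+‖a‖ ≤ (1+‖a+b‖)(1+‖b‖).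
* tw * bw R ≤ C bw R for R ≥ ρ^(-2), ρ ≤ 1, ‖c‖ ≤ R0: ‖z‖ ≤ (2 + 2 R0) ρ^(-2) ‖L z‖
  (x = ρ^(-1) (Lz).1 - 2 ρ^(-2) (Lz).2 c), hence by bw_translate
  bw R (z - y) ≤ (1 + (2+2R0)‖L y‖)^(m+2) bw R z and ∫ tw(y) (1 + (2+2R0)‖L y‖)^(m+2) dy
  ≤ (2+2R0)^(m+2) ∫ (1+‖y‖)^(-(m+2)) dy < ∞. -/

set_option autoImplicit false

noncomputable section

open MeasureTheory
open scoped ENNReal

namespace Pool.LibDC71

/-- the linear map of the plank -/
private def W4L {m : ℕ} (ρ : ℝ) (c : E m) (z : V m) : V m :=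
  (ρ • (z.1 + (2 * z.2) • c), ρ ^ 2 * z.2)

private theorem W4_cont {m : ℕ} (ρ : ℝ) (c : E m) : Continuous (W4L ρ c : V m → V m) := by
  unfold W4L
  fun_prop

private theorem W4_tw {m : ℕ} (ρ : ℝ) (c : E m) (z : V m) :
    tw ρ c z = ENNReal.ofReal (ρ ^ (m + 2) * ((1 + ‖W4L ρ c z‖) ^ (2 * (m + 2)))⁻¹) := rfl

private theorem W4_smul {F : Type} [NormedAddCommGroup F] [NormedSpace ℝ F] [MeasurableSpace F]
    [BorelSpace F] [FiniteDimensional ℝ F] (μ : Measure F) [μ.IsAddHaarMeasure] {r : ℝ}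
    (hr : 0 < r) {G : F → ℝ≥0∞} (hG : Measurable G) :
    ∫⁻ x, G (r • x) ∂μ = ENNReal.ofReal ((r ^ Module.finrank ℝ F)⁻¹) * ∫⁻ x, G x ∂μ := by
  have h1 : ∫⁻ x, G x ∂(Measure.map (r • ·) μ) = ∫⁻ x, G (r • x) ∂μ :=
    lintegral_map hG (measurable_const_smul r)
  rw [← h1, Measure.map_addHaar_smul μ hr.ne', lintegral_smul_measure, smul_eq_mul,
    abs_of_nonneg (by positivity)]

private theorem W4_subst {m : ℕ} {ρ : ℝ} (hρ : 0 < ρ) (c : E m) {G : V m → ℝ≥0∞}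
    (hG : Measurable G) :
    ∫⁻ z, G (W4L ρ c z) = ENNReal.ofReal ((ρ ^ (m + 2))⁻¹) * ∫⁻ z, G z := by
  have hm1 : Measurable fun z : V m => G (W4L ρ c z) := hG.comp (W4_cont ρ c).measurable
  rw [volume_V]
  rw [lintegral_prod_symm (fun z : V m => G (W4L ρ c z)) hm1.aemeasurable,
    lintegral_prod_symm _ hG.aemeasurable]
  have h1 : ∀ t : ℝ, ∫⁻ x : E m, G (W4L ρ c (x, t)) =
      ENNReal.ofReal ((ρ ^ m)⁻¹) * ∫⁻ x : E m, G (x, ρ ^ 2 * t) := by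
    intro t
    have hm : Measurable fun x : E m => G (x, ρ ^ 2 * t) :=
      hG.comp (measurable_id.prodMk measurable_const)
    have h2 := W4_smul (volume : Measure (E m)) hρ hm
    rw [finrank_euclideanSpace_fin] at h2
    rw [← h2]
    have h3 := lintegral_add_right_eq_self (μ := (volume : Measure (E m)))
      (fun x : E m => G (ρ • x, ρ ^ 2 * t)) ((2 * t) • c)
    rw [← h3]
    rfl
  simp only [h1]
  have hm2 : Measurable fun t : ℝ => ∫⁻ x : E m, G (x, t) :=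
    hG.lintegral_prod_left'
  have hm3 : Measurable fun t : ℝ => ∫⁻ x : E m, G (x, ρ ^ 2 * t) :=
    hm2.comp (measurable_const_mul (ρ ^ 2))
  rw [lintegral_const_mul _ hm3]
  have h4 := W4_smul (volume : Measure ℝ) (r := ρ ^ 2) (by positivity) hm2
  simp only [smul_eq_mul, Module.finrank_self, pow_one] at h4
  rw [h4, ← mul_assoc, ← ENNReal.ofReal_mul (by positivity)]
  congr 2
  rw [← mul_inv]
  congr 1
  ring

theorem measurable_tw {m : ℕ} (ρ : ℝ) (c : E m) : Measurable (tw ρ c : V m → ℝ≥0∞) := by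
  have h : Continuous fun z : V m => ρ ^ (m + 2) * ((1 + ‖W4L ρ c z‖) ^ (2 * (m + 2)))⁻¹ := by
    refine continuous_const.mul (Continuous.inv₀ ?_ ?_)
    · exact (continuous_const.add (W4_cont ρ c).norm).pow _
    · intro z
      positivity
  exact h.measurable.ennreal_ofReal

private theorem W4_measG {m : ℕ} (k : ℕ) :
    Measurable fun z : V m => ENNReal.ofReal (((1 + ‖z‖) ^ k)⁻¹) := by
  have h : Continuous fun z : V m => ((1 + ‖z‖) ^ k)⁻¹ := by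
    refine Continuous.inv₀ ?_ ?_
    · exact (continuous_const.add continuous_norm).pow _
    · intro z
      positivity
  exact h.measurable.ennreal_ofReal

private theorem W4_fin (m k : ℕ) (hk : m + 1 < k) :
    ∫⁻ z : V m, ENNReal.ofReal (((1 + ‖z‖) ^ k)⁻¹) ≠ ⊤ := by
  have hh : (volume : Measure (V m)).IsAddHaarMeasure := by
    rw [volume_V]
    infer_instance
  have h := finite_integral_one_add_norm (E := V m) (μ := volume) (r := (k : ℝ)) (by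
    rw [finrank_V]
    exact_mod_cast hk)
  have h2 : ∀ z : V m, (1 + ‖z‖) ^ (-(k : ℝ)) = ((1 + ‖z‖) ^ k)⁻¹ := by
    intro z
    rw [Real.rpow_neg (by positivity), Real.rpow_natCast]
  simp only [h2] at h
  exact h.ne

theorem mass_tw (m : ℕ) : ∃ C : ℝ≥0∞, C ≠ ⊤ ∧ ∀ (ρ : ℝ) (c : E m), 0 < ρ →
    ∫⁻ z, tw ρ c (z : V m) = C := by
  refine ⟨∫⁻ z : V m, ENNReal.ofReal (((1 + ‖z‖) ^ (2 * (m + 2)))⁻¹), W4_fin m _ (by omega), ?_⟩
  intro ρ c hρ
  have h1 : ∀ z : V m, tw ρ c z = ENNReal.ofReal (ρ ^ (m + 2)) *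
      (fun y : V m => ENNReal.ofReal (((1 + ‖y‖) ^ (2 * (m + 2)))⁻¹)) (W4L ρ c z) := by
    intro z
    rw [W4_tw, ENNReal.ofReal_mul (by positivity)]
  have hmG : Measurable fun y : V m =>
      (fun y : V m => ENNReal.ofReal (((1 + ‖y‖) ^ (2 * (m + 2)))⁻¹)) (W4L ρ c y) :=
    (W4_measG _).comp (W4_cont ρ c).measurable
  rw [lintegral_congr h1, lintegral_const_mul _ hmG,
    W4_subst hρ c (W4_measG _), ← mul_assoc, ← ENNReal.ofReal_mul (by positivity),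
    mul_inv_cancel₀ (by positivity), ENNReal.ofReal_one, one_mul]

theorem tw_translate {m : ℕ} {ρ : ℝ} (hρ : 0 < ρ) (c : E m) (τ : ℝ) (hτ : |τ| * ρ ^ 2 ≤ 1)
    (z : V m) : tw ρ c (z + τ • vec c) ≤ 4 ^ (m + 2) * tw ρ c z := by
  have hL : W4L ρ c (z + τ • vec c) = W4L ρ c z + (0, ρ ^ 2 * τ) := by
    unfold W4L vec
    ext1
    · simp only [Prod.fst_add, Prod.snd_add, Prod.smul_fst, Prod.smul_snd, smul_eq_mul, mul_one,
        add_zero]
      congr 1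
      module
    · simp only [Prod.snd_add, Prod.smul_snd, smul_eq_mul, mul_one]
      ring
  have hn : ‖((0 : E m), ρ ^ 2 * τ)‖ ≤ 1 := by
    rw [Prod.norm_def]
    simp only [norm_zero]
    refine max_le (by norm_num) ?_
    rw [Real.norm_eq_abs, abs_mul, abs_of_nonneg (by positivity : (0 : ℝ) ≤ ρ ^ 2)]
    linarith
  have hle : 1 + ‖W4L ρ c z‖ ≤ 2 * (1 + ‖W4L ρ c (z + τ • vec c)‖) := by
    have h1 : W4L ρ c z = W4L ρ c (z + τ • vec c) - (0, ρ ^ 2 * τ) := by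
      rw [hL]
      abel
    have h2 : ‖W4L ρ c z‖ ≤ ‖W4L ρ c (z + τ • vec c)‖ + ‖((0 : E m), ρ ^ 2 * τ)‖ := by
      calc ‖W4L ρ c z‖ = ‖W4L ρ c (z + τ • vec c) - (0, ρ ^ 2 * τ)‖ := by rw [← h1]
        _ ≤ _ := norm_sub_le _ _
    have h3 := norm_nonneg (W4L ρ c (z + τ • vec c))
    linarith
  rw [W4_tw, W4_tw]
  have h4 : (4 : ℝ≥0∞) ^ (m + 2) = ENNReal.ofReal (4 ^ (m + 2)) := by
    rw [ENNReal.ofReal_pow (by norm_num)]
    norm_num
  rw [h4, ← ENNReal.ofReal_mul (by positivity)]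
  apply ENNReal.ofReal_le_ofReal
  rw [mul_left_comm]
  refine mul_le_mul_of_nonneg_left ?_ (by positivity)
  have h5 : (1 + ‖W4L ρ c z‖) ^ (2 * (m + 2)) ≤
      4 ^ (m + 2) * (1 + ‖W4L ρ c (z + τ • vec c)‖) ^ (2 * (m + 2)) := by
    calc (1 + ‖W4L ρ c z‖) ^ (2 * (m + 2))
        ≤ (2 * (1 + ‖W4L ρ c (z + τ • vec c)‖)) ^ (2 * (m + 2)) :=
          pow_le_pow_left₀ (by positivity) hle _
      _ = _ := by
          rw [mul_pow, pow_mul (2 : ℝ)]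
          norm_num
  have hA : 0 < (1 + ‖W4L ρ c (z + τ • vec c)‖) ^ (2 * (m + 2)) := by positivity
  have hB : 0 < (1 + ‖W4L ρ c z‖) ^ (2 * (m + 2)) := by positivity
  rw [← div_eq_mul_inv, inv_eq_one_div, div_le_div_iff₀ hA hB]
  linarith

theorem cv_tw_bw (m : ℕ) (R0 : ℝ) : ∃ C : ℝ≥0∞, C ≠ ⊤ ∧ ∀ (ρ R : ℝ) (c : E m), 0 < ρ → ρ ≤ 1 →
    1 ≤ R * ρ ^ 2 → ‖c‖ ≤ R0 → ∀ z : V m, cv (tw ρ c) (bw R) z ≤ C * bw R z := by
  refine ⟨ENNReal.ofReal ((2 + 2 * R0) ^ (m + 2)) *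
    ∫⁻ z : V m, ENNReal.ofReal (((1 + ‖z‖) ^ (m + 2))⁻¹),
    ENNReal.mul_ne_top ENNReal.ofReal_ne_top (W4_fin m _ (by omega)), ?_⟩
  intro ρ R c hρ hρ1 hR hc z
  have hR0 : 0 ≤ R0 := (norm_nonneg c).trans hc
  have hRpos : 0 < R := by
    by_contra h
    push Not at h
    have : R * ρ ^ 2 ≤ 0 := mul_nonpos_of_nonpos_of_nonneg h (by positivity)
    linarith
  have hinv : (ρ ^ 2)⁻¹ ≤ R := by
    rw [inv_le_iff_one_le_mul₀ (by positivity)]
    exact hR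
  have hy : ∀ y : V m, ‖y‖ ≤ (ρ ^ 2)⁻¹ * (1 + 2 * R0) * ‖W4L ρ c y‖ := by
    intro y
    have h0 := norm_nonneg (W4L ρ c y)
    have hu : ‖(W4L ρ c y).1‖ ≤ ‖W4L ρ c y‖ := by
      rw [Prod.norm_def (x := W4L ρ c y)]
      exact le_max_left _ _
    have hv : ‖(W4L ρ c y).2‖ ≤ ‖W4L ρ c y‖ := by
      rw [Prod.norm_def (x := W4L ρ c y)]
      exact le_max_right _ _
    have hy2 : y.2 = (ρ ^ 2)⁻¹ * (W4L ρ c y).2 := by
      unfold W4L
      simp only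
      field_simp
    have hy1 : y.1 = ρ⁻¹ • (W4L ρ c y).1 - (2 * y.2) • c := by
      unfold W4L
      simp only
      rw [smul_smul, inv_mul_cancel₀ hρ.ne', one_smul]
      abel
    have hb2 : ‖y.2‖ ≤ (ρ ^ 2)⁻¹ * ‖W4L ρ c y‖ := by
      rw [hy2, norm_mul, Real.norm_of_nonneg (by positivity : (0 : ℝ) ≤ (ρ ^ 2)⁻¹)]
      exact mul_le_mul_of_nonneg_left hv (by positivity)
    have hρi : ρ⁻¹ ≤ (ρ ^ 2)⁻¹ := by
      apply inv_anti₀ (by positivity)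
      nlinarith
    have hb1 : ‖y.1‖ ≤ (ρ ^ 2)⁻¹ * (1 + 2 * R0) * ‖W4L ρ c y‖ := by
      calc ‖y.1‖ = ‖ρ⁻¹ • (W4L ρ c y).1 - (2 * y.2) • c‖ := by rw [← hy1]
        _ ≤ ‖ρ⁻¹ • (W4L ρ c y).1‖ + ‖(2 * y.2) • c‖ := norm_sub_le _ _
        _ = ρ⁻¹ * ‖(W4L ρ c y).1‖ + 2 * ‖y.2‖ * ‖c‖ := by
            rw [norm_smul, norm_smul, Real.norm_of_nonneg (by positivity : (0 : ℝ) ≤ ρ⁻¹),
              norm_mul]
            norm_num
        _ ≤ (ρ ^ 2)⁻¹ * ‖W4L ρ c y‖ + 2 * ((ρ ^ 2)⁻¹ * ‖W4L ρ c y‖) * R0 := by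
            refine add_le_add (mul_le_mul hρi hu (norm_nonneg _) (by positivity)) ?_
            refine mul_le_mul (mul_le_mul_of_nonneg_left hb2 (by norm_num)) hc (norm_nonneg _) ?_
            positivity
        _ = _ := by ring
    rw [Prod.norm_def]
    refine max_le hb1 (hb2.trans ?_)
    have h6 : (0 : ℝ) ≤ (ρ ^ 2)⁻¹ * ‖W4L ρ c y‖ := by positivity
    have h7 : (ρ ^ 2)⁻¹ * (1 + 2 * R0) * ‖W4L ρ c y‖ =
        (ρ ^ 2)⁻¹ * ‖W4L ρ c y‖ + 2 * R0 * ((ρ ^ 2)⁻¹ * ‖W4L ρ c y‖) := by ring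
    rw [h7]
    have h8 : 0 ≤ 2 * R0 * ((ρ ^ 2)⁻¹ * ‖W4L ρ c y‖) := by positivity
    linarith
  have hpt : ∀ y : V m, bw R (z - y) * tw ρ c y ≤ bw R z * (ENNReal.ofReal ((2 + 2 * R0) ^ (m + 2)) *
      (ENNReal.ofReal (ρ ^ (m + 2)) *
      (fun y : V m => ENNReal.ofReal (((1 + ‖y‖) ^ (m + 2))⁻¹)) (W4L ρ c y))) := by
    intro y
    have h1 := bw_translate (m := m) hRpos z (-y)
    rw [← sub_eq_add_neg, norm_neg] at h1
    have hL0 := norm_nonneg (W4L ρ c y)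
    have h2 : 1 + ‖y‖ / R ≤ (2 + 2 * R0) * (1 + ‖W4L ρ c y‖) := by
      have h3 : ‖y‖ / R ≤ (1 + 2 * R0) * ‖W4L ρ c y‖ := by
        rw [div_le_iff₀ hRpos]
        refine (hy y).trans ?_
        have h4 : (ρ ^ 2)⁻¹ * ((1 + 2 * R0) * ‖W4L ρ c y‖) ≤ R * ((1 + 2 * R0) * ‖W4L ρ c y‖) :=
          mul_le_mul_of_nonneg_right hinv (by positivity)
        linarith
      nlinarith
    calc bw R (z - y) * tw ρ c y
        ≤ (ENNReal.ofReal ((1 + ‖y‖ / R) ^ (m + 2)) * bw R z) * tw ρ c y := by gcongr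
      _ ≤ (ENNReal.ofReal (((2 + 2 * R0) * (1 + ‖W4L ρ c y‖)) ^ (m + 2)) * bw R z) * tw ρ c y := by
          gcongr
      _ = bw R z * (ENNReal.ofReal (((2 + 2 * R0) * (1 + ‖W4L ρ c y‖)) ^ (m + 2)) * tw ρ c y) := by
          ring
      _ = _ := by
          congr 1
          rw [W4_tw, ← ENNReal.ofReal_mul (by positivity), ← ENNReal.ofReal_mul (by positivity),
            ← ENNReal.ofReal_mul (by positivity)]
          congr 1
          have h5 : (1 + ‖W4L ρ c y‖) ^ (2 * (m + 2)) =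
              (1 + ‖W4L ρ c y‖) ^ (m + 2) * (1 + ‖W4L ρ c y‖) ^ (m + 2) := by
            rw [← pow_add]
            congr 1
            ring
          have h6 : (1 + ‖W4L ρ c y‖) ^ (m + 2) ≠ 0 := by positivity
          rw [h5, mul_pow]
          field_simp
  rw [cv_comm]
  unfold cv
  calc ∫⁻ y, bw R (z - y) * tw ρ c y
      ≤ ∫⁻ y, bw R z * (ENNReal.ofReal ((2 + 2 * R0) ^ (m + 2)) *
      (ENNReal.ofReal (ρ ^ (m + 2)) *
      (fun y : V m => ENNReal.ofReal (((1 + ‖y‖) ^ (m + 2))⁻¹)) (W4L ρ c y))) :=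
        lintegral_mono hpt
    _ = _ := by
        have hmG : Measurable fun y : V m =>
            (fun y : V m => ENNReal.ofReal (((1 + ‖y‖) ^ (m + 2))⁻¹)) (W4L ρ c y) :=
          (W4_measG _).comp (W4_cont ρ c).measurable
        rw [lintegral_const_mul _ ((hmG.const_mul _).const_mul _),
          lintegral_const_mul _ (hmG.const_mul _), lintegral_const_mul _ hmG,
          W4_subst hρ c (W4_measG _), ← mul_assoc (ENNReal.ofReal (ρ ^ (m + 2))),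
          ← ENNReal.ofReal_mul (by positivity), mul_inv_cancel₀ (by positivity),
          ENNReal.ofReal_one, one_mul]
        ring

end Pool.LibDC71
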