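import Pool.Agent.LibDC71.F1
import Pool.Agent.LibDC71.J1
import Pool.Agent.LibDC71.K1
import Pool.Agent.LibDC71.W4

/-! K2 (local constancy).
* ball: κ_r(z) = r^(-m-1) κ(z/r) ch z c with κ of `exists_kernel m A`;
  ∫ κ_r(y) ch (-y) ζ dy = ∫ κ(y) ch (-y) (r(ζ-c)) dy = 1 if ‖ζ-c‖ ≤ A/r; ‖κ_r‖ ≤ C bw r.
* plank: ρ = 2^(-k), L(x,t) = (ρ(x+2tc), ρ^2 t), κ_ρ(z) = ρ^(m+2) κ(L z) ch z (c,‖c‖^2) with κ of
  `exists_kernel m (A+A^2)`. For ζ in reg A k a, c = ctr k a, u = ζ.1 - c, w = ζ.2 - ‖c‖^2: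
  <x,u> + t w = <ρ(x+2tc), u/ρ> + ρ^2 t (w-2<c,u>)/ρ^2, ‖u/ρ‖ ≤ A, |w-2<c,u>| = |ζ.2-‖ζ.1‖^2+‖u‖^2|
  ≤ (A+A^2) ρ^2. So ∫ κ_ρ(y) ch (-y) ζ dy = 1 (substitution L, determinant ρ^(m+2)), ‖κ_ρ‖ ≤ C tw.
* powers s ≥ 1: `cv_jensen`. (A < 0: the class is trivial, or replace A by |A|.) -/

set_option autoImplicit false

noncomputable section

open MeasureTheory
open scoped ENNReal

namespace Pool.LibDC71

/-- the general step: a kernel bounded by a weight -/
private theorem K2_core {m : ℕ} {s : ℝ} (hs : 1 ≤ s) {U : Set (V m)} {f : V m → ℂ} (hf : Fr U f)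
    {κ : V m → ℂ} (hκ : Integrable κ) (h1 : ∀ ζ ∈ U, ∫ y, κ y * ch (-y) ζ = 1)
    {w : V m → ℝ≥0∞} (hw : Measurable w) (hfin : ∀ z, w z ≠ ⊤) {C M : ℝ≥0∞} (hC : C ≠ ⊤)
    (hb : ∀ y, ‖κ y‖ₑ ≤ C * w y) (hM : ∫⁻ y, w y ≤ M) (z : V m) :
    ‖f z‖ₑ ^ s ≤ (C ^ s * M ^ (s - 1)) * cv (fun y => ‖f y‖ₑ ^ s) w z := by
  have hm1 : Measurable fun y => ‖f y‖ₑ := by
    have := hf.measurable_enorm 1
    simpa using this
  have h2 : ‖f z‖ₑ ≤ C * cv (fun y => ‖f y‖ₑ) w z := by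
    refine (hf.le_cv hκ h1 z).trans ?_
    refine (cv_mono (fun _ => le_rfl) hb z).trans ?_
    rw [cv_mul_const C hC]
  have hs0 : 0 ≤ s := by linarith
  calc ‖f z‖ₑ ^ s ≤ (C * cv (fun y => ‖f y‖ₑ) w z) ^ s := ENNReal.rpow_le_rpow h2 hs0
    _ = C ^ s * cv (fun y => ‖f y‖ₑ) w z ^ s := ENNReal.mul_rpow_of_nonneg _ _ hs0
    _ ≤ C ^ s * ((∫⁻ y, w y) ^ (s - 1) * cv (fun y => ‖f y‖ₑ ^ s) w z) := by
        gcongr
        exact cv_jensen hs hm1 hw hfin z
    _ ≤ C ^ s * (M ^ (s - 1) * cv (fun y => ‖f y‖ₑ ^ s) w z) := by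
        gcongr
    _ = _ := by rw [mul_assoc]

/-- the transported kernel -/
private theorem K2_ker {m : ℕ} {κ : V m → ℂ} (hκ : Integrable κ) (hκc : Continuous κ)
    {T : V m → V m} (hT : Continuous T) {d : ℝ} (hd : 0 < d)
    (hmap : Measure.map T volume = ENNReal.ofReal d⁻¹ • (volume : Measure (V m))) (c' : V m) :
    Integrable (fun z => (d : ℂ) * (κ (T z) * ch z c')) ∧
      ∀ ζ ζ' : V m, (∀ y, ch y c' * ch (-y) ζ = ch (-T y) ζ') →
        ∫ y, (d : ℂ) * (κ (T y) * ch y c') * ch (-y) ζ = ∫ y, κ y * ch (-y) ζ' := by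
  have hchc : ∀ ζ : V m, Continuous fun y : V m => ch y ζ := fun ζ =>
    continuous_ch.comp (continuous_id.prodMk continuous_const)
  constructor
  · refine Integrable.const_mul ?_ _
    have h1 : Integrable κ (Measure.map T volume) := by
      rw [hmap]
      exact hκ.smul_measure ENNReal.ofReal_ne_top
    have h2 : Integrable (fun z => κ (T z)) := h1.comp_measurable hT.measurable
    refine h2.mono ((hκc.comp hT).mul (hchc c')).aestronglyMeasurable (ae_of_all _ fun z => ?_)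
    rw [norm_mul, norm_ch, mul_one]
  · intro ζ ζ' h
    have e1 : ∀ y, (d : ℂ) * (κ (T y) * ch y c') * ch (-y) ζ =
        (d : ℂ) * (κ (T y) * ch (-T y) ζ') := by
      intro y
      rw [← h y]
      ring
    simp only [e1]
    rw [integral_const_mul]
    have hg : Continuous fun y : V m => κ y * ch (-y) ζ' :=
      hκc.mul ((hchc ζ').comp continuous_neg)
    have h3 : ∫ y, κ (T y) * ch (-T y) ζ' = ∫ y, κ y * ch (-y) ζ' ∂(Measure.map T volume) :=
      (integral_map hT.measurable.aemeasurable hg.aestronglyMeasurable).symm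
    rw [h3, hmap, integral_smul_measure, ENNReal.toReal_ofReal (inv_pos.2 hd).le]
    rw [Complex.real_smul, ← mul_assoc, Complex.ofReal_inv, mul_inv_cancel₀, one_mul]
    exact_mod_cast hd.ne'

private theorem K2_haar (m : ℕ) : (volume : Measure (V m)).IsAddHaarMeasure :=
  Measure.prod.instIsAddHaarMeasure (volume : Measure (E m)) (volume : Measure ℝ)

/-- norm of a transported kernel -/
private theorem K2_norm {m : ℕ} {κ : V m → ℂ} {T : V m → V m} {d : ℝ} (hd : 0 < d) (c' : V m)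
    (z : V m) : ‖(d : ℂ) * (κ (T z) * ch z c')‖ₑ = ENNReal.ofReal (d * ‖κ (T z)‖) := by
  rw [← ofReal_norm]
  congr 1
  rw [norm_mul, norm_mul, norm_ch, mul_one, Complex.norm_real, Real.norm_of_nonneg hd.le]

/-- the substitution for the planks -/
private theorem K2_map {m : ℕ} {ρ : ℝ} (hρ : 0 < ρ) (c : E m) :
    Measure.map (fun z : V m => ((ρ • (z.1 + (2 * z.2) • c), ρ ^ 2 * z.2) : V m)) volume =
      ENNReal.ofReal (ρ ^ (m + 2))⁻¹ • (volume : Measure (V m)) := by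
  -- the shear
  have hS : MeasurePreserving (fun z : V m => ((z.1 + (2 * z.2) • c, z.2) : V m)) volume volume := by
    have h1 : MeasurePreserving (fun p : ℝ × E m => ((p.1, p.2 + (2 * p.1) • c) : ℝ × E m))
        ((volume : Measure ℝ).prod (volume : Measure (E m)))
        ((volume : Measure ℝ).prod (volume : Measure (E m))) := by
      refine MeasurePreserving.skew_product (g := fun t x => x + (2 * t) • c)
        (MeasurePreserving.id volume) ?_ (ae_of_all _ fun t => ?_)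
      · show Measurable fun p : ℝ × E m => p.2 + (2 * p.1) • c
        exact (continuous_snd.add ((continuous_const.mul continuous_fst).smul
          continuous_const)).measurable
      · exact map_add_right_eq_self (volume : Measure (E m)) ((2 * t) • c)
    have h2 : MeasurePreserving (Prod.swap : E m × ℝ → ℝ × E m)
        ((volume : Measure (E m)).prod (volume : Measure ℝ))
        ((volume : Measure ℝ).prod (volume : Measure (E m))) := Measure.measurePreserving_swap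
    have h3 : MeasurePreserving (Prod.swap : ℝ × E m → E m × ℝ)
        ((volume : Measure ℝ).prod (volume : Measure (E m)))
        ((volume : Measure (E m)).prod (volume : Measure ℝ)) := Measure.measurePreserving_swap
    exact h3.comp (h1.comp h2)
  -- the dilation
  have hD : Measure.map (fun z : V m => ((ρ • z.1, ρ ^ 2 * z.2) : V m)) volume =
      ENNReal.ofReal (ρ ^ (m + 2))⁻¹ • (volume : Measure (V m)) := by
    have h1 := Measure.map_addHaar_smul (volume : Measure (E m)) hρ.ne'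
    have h2 := Measure.map_addHaar_smul (volume : Measure ℝ) (r := ρ ^ 2) (by positivity)
    have h3 : Measure.map (Prod.map (fun x : E m => ρ • x) (fun t : ℝ => ρ ^ 2 • t))
        ((volume : Measure (E m)).prod (volume : Measure ℝ)) =
        (Measure.map (fun x : E m => ρ • x) volume).prod
          (Measure.map (fun t : ℝ => ρ ^ 2 • t) volume) :=
      (Measure.map_prod_map volume volume (measurable_const_smul ρ)
        (measurable_const_smul (ρ ^ 2))).symm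
    have h4 : (fun z : V m => ((ρ • z.1, ρ ^ 2 * z.2) : V m)) =
        Prod.map (fun x : E m => ρ • x) (fun t : ℝ => ρ ^ 2 • t) := rfl
    rw [h4]
    refine h3.trans ?_
    rw [h1, h2, Measure.prod_smul_left, Measure.prod_smul_right, smul_smul, volume_V]
    congr 1
    rw [← ENNReal.ofReal_mul (abs_nonneg _)]
    congr 1
    have hm : Module.finrank ℝ (E m) = m := by simp [E]
    rw [hm, Module.finrank_self, pow_one, abs_of_pos (by positivity), abs_of_pos (by positivity),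
      ← mul_inv, ← pow_add]
  have hcomp : (fun z : V m => ((ρ • (z.1 + (2 * z.2) • c), ρ ^ 2 * z.2) : V m)) =
      (fun z : V m => ((ρ • z.1, ρ ^ 2 * z.2) : V m)) ∘
        (fun z : V m => ((z.1 + (2 * z.2) • c, z.2) : V m)) := rfl
  have hDm : Measurable (fun z : V m => ((ρ • z.1, ρ ^ 2 * z.2) : V m)) :=
    ((continuous_fst.const_smul ρ).prodMk (continuous_const.mul continuous_snd)).measurable
  rw [hcomp, ← Measure.map_map hDm hS.measurable, hS.map_eq, hD]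

private theorem K2_ch {m : ℕ} {y c' ζ Ty ζ' : V m}
    (h : (inner ℝ y.1 c'.1 + y.2 * c'.2) + (inner ℝ (-y).1 ζ.1 + (-y).2 * ζ.2) =
      inner ℝ (-Ty).1 ζ'.1 + (-Ty).2 * ζ'.2) : ch y c' * ch (-y) ζ = ch (-Ty) ζ' := by
  unfold ch
  rw [← Complex.exp_add, ← mul_add, ← Complex.ofReal_add, h]

theorem lc_ball (m : ℕ) (A s : ℝ) (hs : 1 ≤ s) : ∃ C : ℝ≥0∞, C ≠ ⊤ ∧ ∀ (r : ℝ) (c : V m)
    (f : V m → ℂ), 0 < r → Fr (Metric.closedBall c (A / r)) f →
    ∀ z, ‖f z‖ₑ ^ s ≤ C * cv (fun y => ‖f y‖ₑ ^ s) (bw r) z := by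
  obtain ⟨κ, hκ, hκc, ⟨C0, hC0⟩, hκ1⟩ := exists_kernel m A
  obtain ⟨M, hM, -, hM1⟩ := mass_bw m
  refine ⟨ENNReal.ofReal |C0| ^ s * M ^ (s - 1), ENNReal.mul_ne_top
    (ENNReal.rpow_ne_top_of_nonneg (by linarith) ENNReal.ofReal_ne_top)
    (ENNReal.rpow_ne_top_of_nonneg (by linarith) hM), ?_⟩
  intro r c f hr hf z
  have := K2_haar m
  have hmap : Measure.map (fun y : V m => r⁻¹ • y) volume =
      ENNReal.ofReal ((r ^ (m + 1))⁻¹)⁻¹ • (volume : Measure (V m)) := by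
    have h := Measure.map_addHaar_smul (volume : Measure (V m)) (r := r⁻¹) (by positivity)
    rw [finrank_V, inv_pow, abs_of_nonneg (by positivity)] at h
    exact h
  have hd : 0 < (r ^ (m + 1))⁻¹ := by positivity
  have hT : Continuous fun y : V m => r⁻¹ • y := continuous_const_smul _
  obtain ⟨hint, hker⟩ := K2_ker hκ hκc hT hd hmap c
  refine K2_core hs hf hint ?_ (measurable_bw r) (bw_ne_top r) ENNReal.ofReal_ne_top ?_
    (hM1 r hr).le z
  · intro ζ hζ
    rw [hker ζ (r • (ζ - c))]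
    · apply hκ1
      rw [norm_smul, Real.norm_of_nonneg hr.le]
      have h1 : ‖ζ - c‖ ≤ A / r := by
        rw [← dist_eq_norm]
        exact hζ
      calc r * ‖ζ - c‖ ≤ r * (A / r) := mul_le_mul_of_nonneg_left h1 hr.le
        _ = A := mul_div_cancel₀ _ hr.ne'
    · intro y
      apply K2_ch
      simp only [Prod.fst_neg, Prod.snd_neg, Prod.smul_fst, Prod.smul_snd, Prod.fst_sub,
        Prod.snd_sub, inner_neg_left, inner_smul_left, inner_smul_right, inner_sub_right,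
        smul_eq_mul, conj_trivial]
      field_simp
      ring
  · intro y
    rw [K2_norm hd, bw, ← ENNReal.ofReal_mul (abs_nonneg _)]
    apply ENNReal.ofReal_le_ofReal
    have h1 := hC0 (r⁻¹ • y)
    have h2 : ‖(r⁻¹ • y : V m)‖ = ‖y‖ / r := by
      rw [norm_smul, Real.norm_of_nonneg (by positivity), div_eq_inv_mul]
    rw [h2] at h1
    have h3 : 1 ≤ 1 + ‖y‖ / r := by
      have : 0 ≤ ‖y‖ / r := by positivity
      linarith
    have h4 : ((1 + ‖y‖ / r) ^ (2 * (m + 2)))⁻¹ ≤ ((1 + ‖y‖ / r) ^ (m + 2))⁻¹ := by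
      apply inv_anti₀ (by positivity)
      exact pow_le_pow_right₀ h3 (by omega)
    calc (r ^ (m + 1))⁻¹ * ‖κ (r⁻¹ • y)‖
        ≤ (r ^ (m + 1))⁻¹ * (|C0| * ((1 + ‖y‖ / r) ^ (m + 2))⁻¹) := by
          apply mul_le_mul_of_nonneg_left _ hd.le
          refine h1.trans ?_
          calc C0 * ((1 + ‖y‖ / r) ^ (2 * (m + 2)))⁻¹
              ≤ |C0| * ((1 + ‖y‖ / r) ^ (2 * (m + 2)))⁻¹ :=
                mul_le_mul_of_nonneg_right (le_abs_self _) (by positivity)
            _ ≤ |C0| * ((1 + ‖y‖ / r) ^ (m + 2))⁻¹ :=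
                mul_le_mul_of_nonneg_left h4 (abs_nonneg _)
      _ = |C0| * ((r ^ (m + 1))⁻¹ * ((1 + ‖y‖ / r) ^ (m + 2))⁻¹) := by ring

theorem lc_plank (m : ℕ) (A s : ℝ) (hs : 1 ≤ s) : ∃ C : ℝ≥0∞, C ≠ ⊤ ∧ ∀ (k : ℕ)
    (a : Fin m → ℤ) (f : V m → ℂ), Fr (reg A k a) f →
    ∀ z, ‖f z‖ₑ ^ s ≤ C * cv (fun y => ‖f y‖ₑ ^ s) (tw (1 / 2 ^ k) (ctr k a)) z := by
  obtain ⟨κ, hκ, hκc, ⟨C0, hC0⟩, hκ1⟩ := exists_kernel m (A + A ^ 2)
  obtain ⟨M, hM, hM1⟩ := mass_tw m
  refine ⟨ENNReal.ofReal |C0| ^ s * M ^ (s - 1), ENNReal.mul_ne_top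
    (ENNReal.rpow_ne_top_of_nonneg (by linarith) ENNReal.ofReal_ne_top)
    (ENNReal.rpow_ne_top_of_nonneg (by linarith) hM), ?_⟩
  intro k a f hf z
  set ρ : ℝ := 1 / 2 ^ k with hρdef
  have hρ : 0 < ρ := by positivity
  set c : E m := ctr k a with hc
  have hd : 0 < ρ ^ (m + 2) := by positivity
  have hT : Continuous fun z : V m => ((ρ • (z.1 + (2 * z.2) • c), ρ ^ 2 * z.2) : V m) :=
    ((continuous_fst.add ((continuous_const.mul continuous_snd).smul
      continuous_const)).const_smul ρ).prodMk (continuous_const.mul continuous_snd)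
  obtain ⟨hint, hker⟩ := K2_ker hκ hκc hT hd (K2_map hρ c) ((c, ‖c‖ ^ 2) : V m)
  refine K2_core hs hf hint ?_ (measurable_tw ρ c) (fun z => ENNReal.ofReal_ne_top)
    ENNReal.ofReal_ne_top ?_ (hM1 ρ c hρ).le z
  · intro ζ hζ
    obtain ⟨hζ1, hζ2⟩ := hζ
    rw [hker ζ ((ρ⁻¹ • (ζ.1 - c),
      (ρ ^ 2)⁻¹ * (ζ.2 - ‖c‖ ^ 2 - 2 * inner ℝ c (ζ.1 - c))) : V m)]
    · apply hκ1
      have h1 : ‖ζ.1 - c‖ ≤ A * ρ := by
        rw [hρdef, mul_one_div]
        exact hζ1
      have hA : 0 ≤ A := by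
        have := (norm_nonneg _).trans h1
        by_contra h
        push Not at h
        nlinarith
      have h2 : |ζ.2 - ‖ζ.1‖ ^ 2| ≤ A * ρ ^ 2 := by
        have h4 : A * ρ ^ 2 = A / 4 ^ k := by
          rw [hρdef, div_pow, one_pow, mul_one_div, ← pow_mul, mul_comm k 2, pow_mul]
          norm_num
        rw [h4]
        exact hζ2
      have h3 : ζ.2 - ‖c‖ ^ 2 - 2 * inner ℝ c (ζ.1 - c) =
          (ζ.2 - ‖ζ.1‖ ^ 2) + ‖ζ.1 - c‖ ^ 2 := by
        rw [inner_sub_right, real_inner_self_eq_norm_sq, norm_sub_sq_real, real_inner_comm]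
        ring
      have h4 : |ζ.2 - ‖c‖ ^ 2 - 2 * inner ℝ c (ζ.1 - c)| ≤ (A + A ^ 2) * ρ ^ 2 := by
        rw [h3]
        refine (abs_add_le _ _).trans ?_
        have h5 : |‖ζ.1 - c‖ ^ 2| ≤ A ^ 2 * ρ ^ 2 := by
          rw [abs_of_nonneg (by positivity), ← mul_pow]
          exact pow_le_pow_left₀ (norm_nonneg _) h1 2
        linarith
      rw [Prod.norm_mk]
      apply max_le
      · rw [norm_smul, Real.norm_of_nonneg (by positivity)]
        calc ρ⁻¹ * ‖ζ.1 - c‖ ≤ ρ⁻¹ * (A * ρ) := mul_le_mul_of_nonneg_left h1 (by positivity)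
          _ = A := by field_simp
          _ ≤ A + A ^ 2 := by nlinarith
      · rw [norm_mul, Real.norm_of_nonneg (by positivity), Real.norm_eq_abs]
        calc (ρ ^ 2)⁻¹ * |ζ.2 - ‖c‖ ^ 2 - 2 * inner ℝ c (ζ.1 - c)|
            ≤ (ρ ^ 2)⁻¹ * ((A + A ^ 2) * ρ ^ 2) := mul_le_mul_of_nonneg_left h4 (by positivity)
          _ = A + A ^ 2 := by field_simp
    · intro y
      apply K2_ch
      simp only [Prod.fst_neg, Prod.snd_neg, inner_neg_left, inner_smul_left, inner_smul_right,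
        inner_add_left, inner_sub_right, smul_eq_mul, conj_trivial, real_inner_self_eq_norm_sq]
      field_simp
      ring
  · intro y
    rw [K2_norm (T := fun z : V m => ((ρ • (z.1 + (2 * z.2) • c), ρ ^ 2 * z.2) : V m)) hd, tw,
      ← ENNReal.ofReal_mul (abs_nonneg _)]
    apply ENNReal.ofReal_le_ofReal
    have h1 := hC0 ((ρ • (y.1 + (2 * y.2) • c), ρ ^ 2 * y.2) : V m)
    calc ρ ^ (m + 2) * ‖κ ((ρ • (y.1 + (2 * y.2) • c), ρ ^ 2 * y.2) : V m)‖
        ≤ ρ ^ (m + 2) * (|C0| * ((1 + ‖((ρ • (y.1 + (2 * y.2) • c), ρ ^ 2 * y.2) : V m)‖) ^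
          (2 * (m + 2)))⁻¹) := by
          apply mul_le_mul_of_nonneg_left _ hd.le
          exact h1.trans (mul_le_mul_of_nonneg_right (le_abs_self _) (by positivity))
      _ = |C0| * (ρ ^ (m + 2) * ((1 + ‖((ρ • (y.1 + (2 * y.2) • c), ρ ^ 2 * y.2) : V m)‖) ^
          (2 * (m + 2)))⁻¹) := by ring

end Pool.LibDC71
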