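import Pool.Agent.LibDC71.Defs

/-! MS2a (the exponents). s = sx m q = max 2 (q m/(m+1)), κ = kap m q. If q m ≤ 2 (m+1): s = 2, κ = 0.
Otherwise κ = (q m - 2(m+1)) / ((q-2) m), and 2 κ < 1 iff q m < 2 (m+2). -/

set_option autoImplicit false

noncomputable section

open MeasureTheory
open scoped ENNReal

namespace Pool.LibDC71

theorem two_le_sx (m : ℕ) (q : ℝ) : 2 ≤ sx m q := le_max_left _ _

private theorem half_sub_pos {q : ℝ} (hq : 2 < q) : 0 < 1 / 2 - 1 / q := by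
  have h : 1 / q < 1 / 2 := one_div_lt_one_div_of_lt (by norm_num) hq
  linarith

private theorem sx_pos (m : ℕ) (q : ℝ) : 0 < sx m q :=
  lt_of_lt_of_le (by norm_num) (two_le_sx m q)

private theorem half_sub_sx_nonneg (m : ℕ) (q : ℝ) : 0 ≤ 1 / 2 - 1 / sx m q := by
  have h : 1 / sx m q ≤ 1 / 2 := one_div_le_one_div_of_le (by norm_num) (two_le_sx m q)
  linarith

theorem sx_lt {m : ℕ} {q : ℝ} (hq : 2 < q) : sx m q < q := by
  have hm : (0 : ℝ) ≤ (m : ℝ) := Nat.cast_nonneg m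
  refine max_lt hq ?_
  rw [div_lt_iff₀ (by linarith)]
  nlinarith

theorem sx_kakeya {m : ℕ} {q : ℝ} (hq : 2 < q) : q / (sx m q * (m + 1)) * m ≤ 1 := by
  have hm : (0 : ℝ) ≤ (m : ℝ) := Nat.cast_nonneg m
  have hm1 : (0 : ℝ) < (m : ℝ) + 1 := by linarith
  have hs := sx_pos m q
  have hle : q * m / (m + 1) ≤ sx m q := le_max_right _ _
  rw [div_le_iff₀ hm1] at hle
  rw [div_mul_eq_mul_div, div_le_one (mul_pos hs hm1)]
  exact hle

theorem kap_nonneg {m : ℕ} {q : ℝ} (hq : 2 < q) : 0 ≤ kap m q :=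
  div_nonneg (half_sub_sx_nonneg m q) (half_sub_pos hq).le

theorem kap_lt {m : ℕ} {q : ℝ} (hm : 1 ≤ m) (hq : 2 < q) (hq' : q * m < 2 * (m + 2)) :
    kap m q < 1 / 2 := by
  have hm0 : (1 : ℝ) ≤ (m : ℝ) := by exact_mod_cast hm
  have hmp : (0 : ℝ) < (m : ℝ) := by linarith
  have hq0 : (0 : ℝ) < q := by linarith
  have hp := half_sub_pos hq
  unfold kap
  rw [div_lt_iff₀ hp]
  rcases le_total (q * m / (m + 1)) 2 with h | h
  · have hs : sx m q = 2 := max_eq_left h
    rw [hs]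
    linarith
  · have hs : sx m q = q * m / (m + 1) := max_eq_right h
    rw [hs]
    have h1 : 1 / (q * m / (m + 1)) = (m + 1) / (q * m) := one_div_div _ _
    rw [h1]
    have h2 : (m + 1 : ℝ) / (q * m) = 1 / q + (1 / q) * (1 / m) := by
      field_simp
    rw [h2]
    have h3 : q * (1 / q) = 1 := by field_simp
    have h4 : (m : ℝ) * (1 / m) = 1 := by field_simp
    have h5 : (0 : ℝ) < 1 / q := by positivity
    have h6 : (0 : ℝ) < 1 / (m : ℝ) := by positivity
    -- `1/4 < 1/(2q) + 1/(q m)`, i.e. `q m < 2 (m + 2)`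
    have h7 : (1 : ℝ) / 4 < 1 / (2 * q) + 1 / (q * m) := by
      rw [div_add_div _ _ (by positivity) (by positivity), div_lt_div_iff₀ (by norm_num)
        (by positivity)]
      nlinarith
    have h8 : (1 : ℝ) / (2 * q) = (1 / q) / 2 := by field_simp
    have h9 : (1 : ℝ) / (q * m) = (1 / q) * (1 / m) := by field_simp
    rw [h8, h9] at h7
    linarith

theorem kap_eq {m : ℕ} {q : ℝ} (hq : 2 < q) :
    1 / sx m q = (1 - kap m q) / 2 + kap m q / q := by
  have hp := half_sub_pos hq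
  have h : kap m q * (1 / 2 - 1 / q) = 1 / 2 - 1 / sx m q := by
    unfold kap
    rw [div_mul_cancel₀ _ hp.ne']
  have h2 : kap m q / q = kap m q * (1 / q) := by rw [mul_one_div]
  rw [h2]
  linarith

/-- the loss of the Hoelder step, `q (1/2 - 1/s) = κ (q/2 - 1)` -/
theorem kap_loss {m : ℕ} {q : ℝ} (hq : 2 < q) :
    q * (1 / 2 - 1 / sx m q) = kap m q * (q / 2 - 1) := by
  have hp := half_sub_pos hq
  have hq0 : q ≠ 0 := by linarith
  have h : kap m q * (1 / 2 - 1 / q) = 1 / 2 - 1 / sx m q := by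
    unfold kap
    rw [div_mul_cancel₀ _ hp.ne']
  rw [← h]
  have h3 : q * (1 / 2 - 1 / q) = q / 2 - 1 := by field_simp
  calc q * (kap m q * (1 / 2 - 1 / q)) = kap m q * (q * (1 / 2 - 1 / q)) := by ring
    _ = kap m q * (q / 2 - 1) := by rw [h3]

end Pool.LibDC71
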