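import Pool.Agent.LibDC71.KK
import Pool.Agent.LibDC71.K2
import Pool.Agent.LibDC71.G2
import Pool.Agent.LibDC71.J1
import Pool.Agent.LibDC71.MS2a

/-! MS2b (from l^2, radius 2^l, to l^s, radius 4^l). -/

set_option autoImplicit false

noncomputable section

open MeasureTheory
open scoped ENNReal

namespace Pool.LibDC71

/-- monotonicity of products of sums of powers -/
private theorem MS2b_prod {n : ℕ} {ι : Type} (T : Fin n → Finset ι) (u v : ι → ℝ≥0∞) (C : ℝ≥0∞) {p : ℝ}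
    (hp : 0 ≤ p) (h : ∀ j, ∀ a ∈ T j, u a ≤ C * v a) :
    ∏ j, (∑ a ∈ T j, u a) ^ p ≤ C ^ (p * n) * ∏ j, (∑ a ∈ T j, v a) ^ p := by
  calc ∏ j, (∑ a ∈ T j, u a) ^ p ≤ ∏ j, (C * ∑ a ∈ T j, v a) ^ p := by
        refine Finset.prod_le_prod' fun j _ => ?_
        refine ENNReal.rpow_le_rpow ?_ hp
        rw [Finset.mul_sum]
        exact Finset.sum_le_sum fun a ha => h j a ha
    _ = C ^ (p * n) * ∏ j, (∑ a ∈ T j, v a) ^ p := by
        simp_rw [ENNReal.mul_rpow_of_nonneg _ _ hp]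
        rw [Finset.prod_mul_distrib, Finset.prod_const, Finset.card_univ, Fintype.card_fin,
          ENNReal.rpow_mul, ENNReal.rpow_natCast]

theorem ms_inflate (m : ℕ) (hm : 1 ≤ m) (q A b ε : ℝ) (hq : 2 < q) (hA : Real.sqrt m ≤ A)
    (hb : 0 < b) (hε : 0 < ε) :
    ∃ j0 : ℕ, ∃ C : ℝ≥0∞, C ≠ ⊤ ∧ ∀ (j l k : ℕ), j0 ≤ j → j ≤ l → l ≤ k →
      ∀ (f : (Fin m → ℤ) → V m → ℂ), Fam A k f →
      ∀ α : Fin (m + 1) → (Fin m → ℤ), (∀ i, α i ∈ Lam m j) → Tr b (fun i => ctr j (α i)) →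
      Aq q j k l f α ≤ C * 2 ^ (ε * l) * nf m q l ^ kap m q *
        ∫⁻ z, ∏ i, (∑ a ∈ desc l j (α i), cv (fun y => ‖pc k l f a y‖ₑ ^ sx m q) (bw (4 ^ l)) z) ^
          (q / (sx m q * ((m : ℝ) + 1))) := by
  set s : ℝ := sx m q with hs
  have hs2 : 2 ≤ s := two_le_sx m q
  have hs0 : 0 < s := by linarith
  have hs1 : 1 ≤ s := by linarith
  have hn : (0 : ℝ) < (m : ℝ) + 1 := by positivity
  set p : ℝ := q / (s * ((m : ℝ) + 1)) with hp
  have hp0 : 0 < p := by rw [hp]; positivity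
  have hpm : p * m ≤ 1 := sx_kakeya hq
  have hsq : Real.sqrt m ≤ 2 ^ m := by
    have h1 : (m : ℝ) ≤ (2 ^ m) ^ 2 := by
      have h2 : (m : ℝ) < 2 ^ m := by exact_mod_cast Nat.lt_two_pow_self
      have h3 : (1 : ℝ) ≤ 2 ^ m := one_le_pow₀ (by norm_num)
      nlinarith
    exact (Real.sqrt_le_sqrt h1).trans (by rw [Real.sqrt_sq (by positivity)])
  obtain ⟨M0, hM0, hM00, hmass⟩ := mass_bw m
  obtain ⟨Cp, hCp, hlc⟩ := lc_plank m A s hs1
  obtain ⟨l0, Ci, hCi, hinf⟩ := ball_inflation m hm b (Real.sqrt m) p ε hb hp0 hpm hε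
  obtain ⟨Ct, hCt, htw⟩ := cv_tw_bw m (Real.sqrt m)
  have hκ : 0 ≤ kap m q := kap_nonneg hq
  have hloss : q * (1 / 2 - 1 / s) = kap m q * (q / 2 - 1) := kap_loss hq
  have hq2 : 0 ≤ q / 2 - 1 := by linarith
  have hpn : ∀ x : ℝ≥0∞, x ≠ ⊤ → x ^ (p * ((m + 1 : ℕ) : ℝ)) ≠ ⊤ := fun x hx =>
    ENNReal.rpow_ne_top_of_nonneg (by positivity) hx
  refine ⟨l0 + m, M0 ^ (kap m q * (q / 2 - 1)) * Cp ^ (p * ((m + 1 : ℕ) : ℝ)) *
    Ct ^ (p * ((m + 1 : ℕ) : ℝ)) * Ci, ?_, ?_⟩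
  · refine ENNReal.mul_ne_top (ENNReal.mul_ne_top (ENNReal.mul_ne_top ?_ (hpn _ hCp)) (hpn _ hCt)) hCi
    exact ENNReal.rpow_ne_top_of_nonneg (by positivity) hM0
  intro j l k hj hjl hlk f hf α hα hTr
  have h2l : (0 : ℝ) < 2 ^ l := by positivity
  have h4l : (0 : ℝ) < 4 ^ l := by positivity
  have hFr : ∀ a, Fr (reg A l a) (pc k l f a) := fun a => Fr_pc hA hlk hf a
  have hme : ∀ a, Measurable fun y => ‖pc k l f a y‖ₑ := fun a => (hFr a).continuous.measurable.enorm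
  have hms : ∀ a, Measurable fun y => ‖pc k l f a y‖ₑ ^ s := fun a => (hme a).pow_const s
  have hmw : Measurable (bw (2 ^ l) : V m → ℝ≥0∞) := measurable_bw _
  have hmW : Measurable (bw (4 ^ l) : V m → ℝ≥0∞) := measurable_bw _
  -- the three quantities
  set T : Fin (m + 1) → Finset (Fin m → ℤ) := fun i => desc l j (α i) with hT
  have hTmem : ∀ i, ∀ a ∈ T i, a ∈ Lam m l ∧ par (l - j) a = α i := fun i a ha => mem_desc.1 ha
  -- step 1 : from 2 to s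
  have h1 : Aq q j k l f α ≤ (M0 ^ (kap m q * (q / 2 - 1)) * nf m q l ^ kap m q) *
      ∫⁻ z, ∏ i, (∑ a ∈ T i, cv (fun y => ‖pc k l f a y‖ₑ ^ s) (bw (2 ^ l)) z) ^ p := by
    have hfac : M0 ^ (kap m q * (q / 2 - 1)) * nf m q l ^ kap m q ≠ ⊤ := by
      refine ENNReal.mul_ne_top (ENNReal.rpow_ne_top_of_nonneg (by positivity) hM0) ?_
      refine ENNReal.rpow_ne_top_of_nonneg hκ ?_
      unfold nf
      exact ENNReal.rpow_ne_top_of_nonneg (by positivity) (by norm_num)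
    rw [← lintegral_const_mul' _ _ hfac]
    unfold Aq
    refine lintegral_mono fun z => ?_
    have hterm : ∀ i, (∑ a ∈ desc l j (α i), cv (fun y => ‖pc k l f a y‖ₑ ^ (2 : ℝ)) (bw (2 ^ l)) z) ^
        (q / (2 * ((m : ℝ) + 1))) ≤
        ((2 ^ ((l : ℝ) * m) * M0) ^ (s / 2 - 1)) ^ p *
          (∑ a ∈ T i, cv (fun y => ‖pc k l f a y‖ₑ ^ s) (bw (2 ^ l)) z) ^ p := by
      intro i
      have hexp : q / (2 * ((m : ℝ) + 1)) = s / 2 * p := by
        rw [hp]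
        field_simp
      rw [hexp, ENNReal.rpow_mul, ← ENNReal.mul_rpow_of_nonneg _ _ hp0.le]
      refine ENNReal.rpow_le_rpow ?_ hp0.le
      have h2 := cv_two_le hs2 (desc l j (α i)) (h := fun a y => ‖pc k l f a y‖ₑ) (w := bw (2 ^ l))
        (fun a _ => hme a) hmw (bw_ne_top _) z
      rw [hmass _ h2l] at h2
      refine h2.trans ?_
      gcongr
      · linarith
      · have h3 := card_desc_le hjl (α i)
        have h4 : (desc l j (α i)).card ≤ 2 ^ (l * m) := h3.trans (Nat.pow_le_pow_right (by norm_num)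
          (Nat.mul_le_mul_right _ (Nat.sub_le _ _)))
        calc ((desc l j (α i)).card : ℝ≥0∞) ≤ ((2 ^ (l * m) : ℕ) : ℝ≥0∞) := by exact_mod_cast h4
          _ = 2 ^ ((l : ℝ) * m) := by
            rw [← Nat.cast_mul, ENNReal.rpow_natCast]
            push_cast
            rfl
    calc ∏ i, (∑ a ∈ desc l j (α i), cv (fun y => ‖pc k l f a y‖ₑ ^ (2 : ℝ)) (bw (2 ^ l)) z) ^
          (q / (2 * ((m : ℝ) + 1)))
        ≤ ∏ i, (((2 ^ ((l : ℝ) * m) * M0) ^ (s / 2 - 1)) ^ p *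
          (∑ a ∈ T i, cv (fun y => ‖pc k l f a y‖ₑ ^ s) (bw (2 ^ l)) z) ^ p) :=
          Finset.prod_le_prod' fun i _ => hterm i
      _ = (M0 ^ (kap m q * (q / 2 - 1)) * nf m q l ^ kap m q) *
          ∏ i, (∑ a ∈ T i, cv (fun y => ‖pc k l f a y‖ₑ ^ s) (bw (2 ^ l)) z) ^ p := by
          rw [Finset.prod_mul_distrib, Finset.prod_const, Finset.card_univ, Fintype.card_fin]
          congr 1
          rw [← ENNReal.rpow_natCast, ← ENNReal.rpow_mul, ← ENNReal.rpow_mul]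
          have h5 : (s / 2 - 1) * (p * ((m + 1 : ℕ) : ℝ)) = kap m q * (q / 2 - 1) := by
            rw [← hloss, hp]
            push_cast
            field_simp
          rw [h5, ENNReal.mul_rpow_of_nonneg _ _ (by positivity), mul_comm]
          congr 1
          unfold nf
          rw [← ENNReal.rpow_mul, ← ENNReal.rpow_mul]
          congr 1
          ring
  -- step 2 : planks
  have h2 : ∫⁻ z, ∏ i, (∑ a ∈ T i, cv (fun y => ‖pc k l f a y‖ₑ ^ s) (bw (2 ^ l)) z) ^ p ≤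
      Cp ^ (p * ((m + 1 : ℕ) : ℝ)) * ∫⁻ z, ∏ i, (∑ a ∈ T i,
        cv (cv (fun y => ‖pc k l f a y‖ₑ ^ s) (tw (1 / 2 ^ l) (ctr l a))) (bw (2 ^ l)) z) ^ p := by
    rw [← lintegral_const_mul' _ _ (hpn _ hCp)]
    refine lintegral_mono fun z => ?_
    refine MS2b_prod T _ _ Cp hp0.le fun i a _ => ?_
    rw [← cv_const_mul Cp hCp]
    refine cv_mono (fun y => ?_) (fun y => le_rfl) z
    exact hlc l a (pc k l f a) (hFr a) y
  -- step 3 : ball inflation
  have h3 := hinf l (fun i => ctr j (α i)) hTr (fun i => norm_ctr_le (hα i)) (Fin m → ℤ) T (ctr l)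
    (fun a y => ‖pc k l f a y‖ₑ ^ s) hms (by
      intro i a ha
      obtain ⟨ha1, ha2⟩ := hTmem i a ha
      have h4 := dist_ctr_par (m := m) hjl a
      rw [ha2] at h4
      refine h4.trans ?_
      have h5 : (0 : ℝ) < 1 / 2 ^ l := by positivity
      have h6 : (0 : ℝ) < 2 ^ j := by positivity
      calc Real.sqrt m * (1 / 2 ^ j - 1 / 2 ^ l) ≤ 2 ^ m * (1 / 2 ^ j) := by
            refine mul_le_mul hsq (by linarith) ?_ (by positivity)
            have h7 : (1 : ℝ) / 2 ^ l ≤ 1 / 2 ^ j := by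
              apply one_div_le_one_div_of_le h6
              exact pow_le_pow_right₀ (by norm_num) hjl
            linarith
        _ ≤ 1 / 2 ^ l0 := by
            rw [mul_one_div, div_le_div_iff₀ h6 (by positivity), one_mul, ← pow_add]
            exact pow_le_pow_right₀ (by norm_num) (by omega))
  -- step 4 : removing the planks
  have h4 : ∫⁻ z, ∏ i, (∑ a ∈ T i,
        cv (cv (fun y => ‖pc k l f a y‖ₑ ^ s) (tw (1 / 2 ^ l) (ctr l a))) (bw (4 ^ l)) z) ^ p ≤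
      Ct ^ (p * ((m + 1 : ℕ) : ℝ)) *
        ∫⁻ z, ∏ i, (∑ a ∈ T i, cv (fun y => ‖pc k l f a y‖ₑ ^ s) (bw (4 ^ l)) z) ^ p := by
    rw [← lintegral_const_mul' _ _ (hpn _ hCt)]
    refine lintegral_mono fun z => ?_
    refine MS2b_prod T _ _ Ct hp0.le fun i a ha => ?_
    rw [cv_assoc (hms a) (measurable_tw _ _) hmW, ← cv_mul_const Ct hCt]
    refine cv_mono (fun y => le_rfl) (fun y => ?_) z
    refine htw (1 / 2 ^ l) (4 ^ l) (ctr l a) (by positivity) ?_ ?_ (norm_ctr_le (hTmem i a ha).1) y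
    · rw [div_le_one (by positivity)]
      exact one_le_pow₀ (by norm_num)
    · rw [div_pow, one_pow, ← pow_mul, mul_comm l 2, pow_mul]
      norm_num
  calc Aq q j k l f α ≤ (M0 ^ (kap m q * (q / 2 - 1)) * nf m q l ^ kap m q) *
        ∫⁻ z, ∏ i, (∑ a ∈ T i, cv (fun y => ‖pc k l f a y‖ₑ ^ s) (bw (2 ^ l)) z) ^ p := h1
    _ ≤ (M0 ^ (kap m q * (q / 2 - 1)) * nf m q l ^ kap m q) * (Cp ^ (p * ((m + 1 : ℕ) : ℝ)) *
        (Ci * 2 ^ (ε * l) * (Ct ^ (p * ((m + 1 : ℕ) : ℝ)) *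
        ∫⁻ z, ∏ i, (∑ a ∈ T i, cv (fun y => ‖pc k l f a y‖ₑ ^ s) (bw (4 ^ l)) z) ^ p))) := by
        gcongr
        refine h2.trans ?_
        gcongr
        refine h3.trans ?_
        gcongr
    _ = _ := by ring

end Pool.LibDC71
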