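import Pool.Agent.LibDC71.K3
import Pool.Agent.LibDC71.G3
import Pool.Agent.LibDC71.J1
import Pool.Agent.LibDC71.MS2a

/-! MS2c (interpolation, L2 orthogonality, rescaling). w = bw 4^l, X_i = ∑_{a in desc l j (α i)} cv ‖F_a‖^2 w,
Y_i = ∑ cv ‖F_a‖^q w. `cv_interp` : ∑ cv ‖F_a‖^s w ≤ X_i^((1-κ)s/2) Y_i^(κ s/q); power q/(s(m+1)):
X_i^((1-κ) q/(2(m+1))) Y_i^(κ/(m+1)). Hoelder in z with exponents 1-κ, κ:
∫ ∏ ≤ (∫ ∏ X_i^(q/(2(m+1))))^(1-κ) (∫ ∏ Y_i^(1/(m+1)))^κ.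
* `l2_orth` with R = 4^l = 2^(2l), pieces b in desc (2l) l a of F_a = ∑ pc k (2l) f b (`pc_pc`), centres
  (ctr (2l) b, ‖..‖^2), `reg_subset_ball`, `card_near` (the distance of the V-centres bounds the distance of the
  E-centres): X_i ≤ C ∑_{b in desc (2l) j (α i)} cv ‖pc k (2l) f b‖^2 (bw 2^(2l)) (`sum_desc_desc`),
  so the first factor is ≤ C (Aq q j k (2l) f α)^(1-κ).
* ∫ ∏ Y_i^(1/(m+1)) ≤ ∏ (∫ Y_i)^(1/(m+1)) ≤ C en q l (pc k l f) ≤ C D nf m q (k-l) en q k f (`rescale_sum`). -/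

set_option autoImplicit false

noncomputable section

open MeasureTheory
open scoped ENNReal

namespace Pool.LibDC71

private theorem c38_meas {m : ℕ} {U : Set (V m)} {F : V m → ℂ} (hF : Fr U F) (p : ℝ) :
    Measurable (fun z => ‖F z‖ₑ ^ p) := hF.measurable_enorm p

private theorem c38_meas1 {m : ℕ} {U : Set (V m)} {F : V m → ℂ} (hF : Fr U F) :
    Measurable (fun z => ‖F z‖ₑ) := hF.continuous.enorm.measurable

/-- the first factor -/
private theorem c38_X (m : ℕ) (A : ℝ) (hA : Real.sqrt m ≤ A) :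
    ∃ C : ℝ≥0∞, C ≠ ⊤ ∧ ∀ (j l k : ℕ), j ≤ l → 2 * l ≤ k →
      ∀ (f : (Fin m → ℤ) → V m → ℂ), Fam A k f → ∀ α : Fin m → ℤ, α ∈ Lam m j → ∀ z : V m,
      ∑ a ∈ desc l j α, cv (fun y => ‖pc k l f a y‖ₑ ^ (2 : ℝ)) (bw (4 ^ l)) z ≤
        C * ∑ b ∈ desc (2 * l) j α,
          cv (fun y => ‖pc k (2 * l) f b y‖ₑ ^ (2 : ℝ)) (bw (2 ^ (2 * l))) z := by
  have hA0 : 0 ≤ A := (Real.sqrt_nonneg _).trans hA
  set A' : ℝ := (A + 1) * (A + 1 + 2 * Real.sqrt m) with hA'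
  obtain ⟨C, hC, horth⟩ := l2_orth m A'
  obtain ⟨L, hL⟩ := card_near m (2 * A' + 1)
  refine ⟨C * L, ENNReal.mul_ne_top hC (ENNReal.natCast_ne_top L), ?_⟩
  intro j l k hjl hlk f hf α hα z
  have hll : l ≤ 2 * l := by omega
  have h4 : (4 : ℝ) ^ l = 2 ^ (2 * l) := by
    rw [pow_mul]
    norm_num
  rw [← sum_desc_desc hjl hll (fun b => cv (fun y => ‖pc k (2 * l) f b y‖ₑ ^ (2 : ℝ))
    (bw (2 ^ (2 * l))) z) hα, Finset.mul_sum]
  refine Finset.sum_le_sum fun a ha => ?_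
  have haL : a ∈ Lam m l := (mem_desc.1 ha).1
  have h1 := horth (4 ^ l) (Fin m → ℤ) (desc (2 * l) l a)
    (fun b => (ctr (2 * l) b, ‖ctr (2 * l) b‖ ^ 2)) (fun b => pc k (2 * l) f b) L
    (by positivity)
    (by
      intro b hb
      have h2 := Fr_pc hA hlk hf b
      refine h2.mono ?_
      rw [h4]
      exact reg_subset_ball hA0 (mem_desc.1 hb).1)
    (by
      intro b hb
      refine (Set.ncard_le_ncard ?_ (hL (2 * l) b).2).trans (hL (2 * l) b).1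
      rintro b' ⟨-, hb'⟩
      show ‖ctr (2 * l) b' - ctr (2 * l) b‖ ≤ (2 * A' + 1) / 2 ^ (2 * l)
      rw [← h4]
      refine le_trans ?_ hb'
      exact norm_fst_le (((ctr (2 * l) b' : E m), (‖ctr (2 * l) b'‖ ^ 2 : ℝ)) -
        ((ctr (2 * l) b : E m), (‖ctr (2 * l) b‖ ^ 2 : ℝ)))) z
  have h3 : (fun y => ‖pc k l f a y‖ₑ ^ (2 : ℝ)) =
      fun y => ‖∑ b ∈ desc (2 * l) l a, pc k (2 * l) f b y‖ₑ ^ (2 : ℝ) := by
    funext y
    rw [pc_pc hll hlk f haL y]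
  rw [h3, ← h4]
  exact h1

/-- the second factor -/
private theorem c38_Y (m : ℕ) (q A : ℝ) (hq : 2 < q) (hA : Real.sqrt m ≤ A) :
    ∃ C : ℝ≥0∞, C ≠ ⊤ ∧ ∀ (j l k : ℕ), j ≤ l → l ≤ k →
      ∀ (f : (Fin m → ℤ) → V m → ℂ), Fam A k f → ∀ α : Fin m → ℤ, ∀ D : ℝ≥0∞,
      DB m q A (k - l) D →
      ∫⁻ z, ∑ a ∈ desc l j α, cv (fun y => ‖pc k l f a y‖ₑ ^ q) (bw (4 ^ l)) z ≤
        C * (D * nf m q (k - l) * en q k f) := by
  obtain ⟨C, hC, -, hm⟩ := mass_bw m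
  refine ⟨C, hC, ?_⟩
  intro j l k hjl hlk f hf α D hD
  have hfr : ∀ a, Fr (reg A l a) (pc k l f a) := fun a => Fr_pc hA hlk hf a
  rw [lintegral_finsetSum _ fun a _ => measurable_cv (c38_meas (hfr a) q) (measurable_bw _)]
  have h1 : ∀ a, ∫⁻ z, cv (fun y => ‖pc k l f a y‖ₑ ^ q) (bw (4 ^ l)) z =
      C * ∫⁻ z, ‖pc k l f a z‖ₑ ^ q := by
    intro a
    rw [lintegral_cv (c38_meas (hfr a) q) (measurable_bw _), hm _ (by positivity), mul_comm]
  calc ∑ a ∈ desc l j α, ∫⁻ z, cv (fun y => ‖pc k l f a y‖ₑ ^ q) (bw (4 ^ l)) z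
      = C * ∑ a ∈ desc l j α, ∫⁻ z, ‖pc k l f a z‖ₑ ^ q := by
        rw [Finset.mul_sum]
        exact Finset.sum_congr rfl fun a _ => h1 a
    _ ≤ C * ∑ a ∈ Lam m l, ∫⁻ z, ‖pc k l f a z‖ₑ ^ q := by
        gcongr
        intro a ha
        exact (mem_desc.1 ha).1
    _ ≤ C * (D * nf m q (k - l) * en q k f) := by
        gcongr
        exact rescale_sum hq hlk hD hf

theorem ms_interp (m : ℕ) (hm : 1 ≤ m) (q A : ℝ) (hq : 2 < q) (hq' : q * m < 2 * (m + 2))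
    (hA : Real.sqrt m ≤ A) :
    ∃ C : ℝ≥0∞, C ≠ ⊤ ∧ ∀ (j l k : ℕ), j ≤ l → 2 * l ≤ k →
      ∀ (f : (Fin m → ℤ) → V m → ℂ), Fam A k f →
      ∀ α : Fin (m + 1) → (Fin m → ℤ), (∀ i, α i ∈ Lam m j) → ∀ D : ℝ≥0∞, DB m q A (k - l) D →
      ∫⁻ z, ∏ i, (∑ a ∈ desc l j (α i), cv (fun y => ‖pc k l f a y‖ₑ ^ sx m q) (bw (4 ^ l)) z) ^
          (q / (sx m q * ((m : ℝ) + 1))) ≤
        C * Aq q j k (2 * l) f α ^ (1 - kap m q) * (D * nf m q (k - l) * en q k f) ^ kap m q := by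
  have hs2 : 2 ≤ sx m q := two_le_sx m q
  have hs0 : 0 < sx m q := by linarith
  have hκ0 : 0 ≤ kap m q := kap_nonneg hq
  have hκ1 : kap m q < 1 := (kap_lt hm hq hq').trans (by norm_num)
  have hκ := kap_eq (m := m) hq
  set s := sx m q with hs
  set κ := kap m q with hκdef
  have hn0 : (0 : ℝ) < (m : ℝ) + 1 := by positivity
  have hq0 : 0 < q := by linarith
  obtain ⟨C1, hC1, hX⟩ := c38_X m A hA
  obtain ⟨C2, hC2, hY⟩ := c38_Y m q A hq hA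
  refine ⟨(C1 ^ (q / 2)) ^ (1 - κ) * C2 ^ κ, ?_, ?_⟩
  · refine ENNReal.mul_ne_top ?_ ?_
    · exact ENNReal.rpow_ne_top_of_nonneg (by linarith)
        (ENNReal.rpow_ne_top_of_nonneg (by positivity) hC1)
    · exact ENNReal.rpow_ne_top_of_nonneg hκ0 hC2
  intro j l k hjl hlk f hf α hα D hD
  have hlk' : l ≤ k := by omega
  have hfr : ∀ a, Fr (reg A l a) (pc k l f a) := fun a => Fr_pc hA hlk' hf a
  set X : Fin (m + 1) → V m → ℝ≥0∞ := fun i z =>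
    ∑ a ∈ desc l j (α i), cv (fun y => ‖pc k l f a y‖ₑ ^ (2 : ℝ)) (bw (4 ^ l)) z with hXdef
  set Y : Fin (m + 1) → V m → ℝ≥0∞ := fun i z =>
    ∑ a ∈ desc l j (α i), cv (fun y => ‖pc k l f a y‖ₑ ^ q) (bw (4 ^ l)) z with hYdef
  have hXm : ∀ i, Measurable (X i) := fun i => Finset.measurable_sum _ fun a _ =>
    measurable_cv (c38_meas (hfr a) 2) (measurable_bw _)
  have hYm : ∀ i, Measurable (Y i) := fun i => Finset.measurable_sum _ fun a _ =>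
    measurable_cv (c38_meas (hfr a) q) (measurable_bw _)
  -- pointwise
  have hpt : ∀ z, ∏ i, (∑ a ∈ desc l j (α i), cv (fun y => ‖pc k l f a y‖ₑ ^ s) (bw (4 ^ l)) z) ^
      (q / (s * ((m : ℝ) + 1))) ≤
      (∏ i, X i z ^ (q / (2 * ((m : ℝ) + 1)))) ^ (1 - κ) *
        (∏ i, Y i z ^ (1 / ((m : ℝ) + 1))) ^ κ := by
    intro z
    rw [← ENNReal.prod_rpow_of_nonneg (by linarith), ← ENNReal.prod_rpow_of_nonneg hκ0,
      ← Finset.prod_mul_distrib]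
    refine Finset.prod_le_prod' fun i _ => ?_
    have h1 := cv_interp hs2 hq hκ0 hκ1 hκ (desc l j (α i))
      (h := fun a y => ‖pc k l f a y‖ₑ) (w := bw (4 ^ l)) (fun a _ => c38_meas1 (hfr a))
      (fun a _ z => enorm_ne_top) (measurable_bw _) (fun z => bw_ne_top _ z) z
    have h2 := ENNReal.rpow_le_rpow h1 (show 0 ≤ q / (s * ((m : ℝ) + 1)) by positivity)
    refine h2.trans (le_of_eq ?_)
    rw [ENNReal.mul_rpow_of_nonneg _ _ (by positivity), ← ENNReal.rpow_mul, ← ENNReal.rpow_mul,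
      ← ENNReal.rpow_mul, ← ENNReal.rpow_mul]
    congr 2
    · field_simp
    · field_simp
  have h1 : ∫⁻ z, ∏ i, (∑ a ∈ desc l j (α i),
      cv (fun y => ‖pc k l f a y‖ₑ ^ s) (bw (4 ^ l)) z) ^ (q / (s * ((m : ℝ) + 1))) ≤
      (∫⁻ z, ∏ i, X i z ^ (q / (2 * ((m : ℝ) + 1)))) ^ (1 - κ) *
        (∫⁻ z, ∏ i, Y i z ^ (1 / ((m : ℝ) + 1))) ^ κ := by
    refine (lintegral_mono hpt).trans ?_
    refine ENNReal.lintegral_mul_norm_pow_le ?_ ?_ (by linarith) hκ0 (by ring)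
    · exact (Finset.measurable_prod _ fun i _ => (hXm i).pow_const _).aemeasurable
    · exact (Finset.measurable_prod _ fun i _ => (hYm i).pow_const _).aemeasurable
  have h2 : ∫⁻ z, ∏ i, X i z ^ (q / (2 * ((m : ℝ) + 1))) ≤
      C1 ^ (q / 2) * Aq q j k (2 * l) f α := by
    unfold Aq
    rw [← lintegral_const_mul' _ _ (ENNReal.rpow_ne_top_of_nonneg (by positivity) hC1)]
    refine lintegral_mono fun z => ?_
    have h3 : C1 ^ (q / 2) = ∏ _i : Fin (m + 1), C1 ^ (q / (2 * ((m : ℝ) + 1))) := by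
      rw [Finset.prod_const, Finset.card_univ, Fintype.card_fin, ← ENNReal.rpow_natCast,
        ← ENNReal.rpow_mul]
      congr 1
      push_cast
      field_simp
    rw [h3, ← Finset.prod_mul_distrib]
    refine Finset.prod_le_prod' fun i _ => ?_
    rw [← ENNReal.mul_rpow_of_nonneg _ _ (by positivity)]
    exact ENNReal.rpow_le_rpow (hX j l k hjl hlk f hf (α i) (hα i) z) (by positivity)
  have h4 : ∫⁻ z, ∏ i, Y i z ^ (1 / ((m : ℝ) + 1)) ≤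
      C2 * (D * nf m q (k - l) * en q k f) := by
    have h5 := ENNReal.lintegral_prod_norm_pow_le (μ := (volume : Measure (V m))) Finset.univ
      (f := Y) (fun i _ => (hYm i).aemeasurable) (p := fun _ => 1 / ((m : ℝ) + 1))
      (by
        rw [Finset.sum_const, Finset.card_univ, Fintype.card_fin, nsmul_eq_mul]
        push_cast
        field_simp)
      (fun i _ => by positivity)
    refine h5.trans ?_
    calc ∏ i, (∫⁻ z, Y i z) ^ (1 / ((m : ℝ) + 1))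
        ≤ ∏ _i : Fin (m + 1), (C2 * (D * nf m q (k - l) * en q k f)) ^ (1 / ((m : ℝ) + 1)) := by
          refine Finset.prod_le_prod' fun i _ => ?_
          exact ENNReal.rpow_le_rpow (hY j l k hjl hlk' f hf (α i) D hD) (by positivity)
      _ = C2 * (D * nf m q (k - l) * en q k f) := by
          rw [Finset.prod_const, Finset.card_univ, Fintype.card_fin, ← ENNReal.rpow_natCast,
            ← ENNReal.rpow_mul]
          have h6 : 1 / ((m : ℝ) + 1) * ((m + 1 : ℕ) : ℝ) = 1 := by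
            push_cast
            field_simp
          rw [h6, ENNReal.rpow_one]
  refine h1.trans ?_
  calc (∫⁻ z, ∏ i, X i z ^ (q / (2 * ((m : ℝ) + 1)))) ^ (1 - κ) *
        (∫⁻ z, ∏ i, Y i z ^ (1 / ((m : ℝ) + 1))) ^ κ
      ≤ (C1 ^ (q / 2) * Aq q j k (2 * l) f α) ^ (1 - κ) *
        (C2 * (D * nf m q (k - l) * en q k f)) ^ κ :=
        mul_le_mul' (ENNReal.rpow_le_rpow h2 (by linarith)) (ENNReal.rpow_le_rpow h4 hκ0)
    _ = (C1 ^ (q / 2)) ^ (1 - κ) * C2 ^ κ * Aq q j k (2 * l) f α ^ (1 - κ) *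
        (D * nf m q (k - l) * en q k f) ^ κ := by
        rw [ENNReal.mul_rpow_of_nonneg _ _ (by linarith : (0 : ℝ) ≤ 1 - κ),
          ENNReal.mul_rpow_of_nonneg _ _ hκ0]
        ring

end Pool.LibDC71
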