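import Pool.Agent.LibDC71.Defs

/-! W2 (basic facts on the ball weight). `bw r z = r^(-m-1) φ(z/r)`, `φ(y) = (1+‖y‖)^(-(m+2))`,
`V m` has dimension `m + 1`.
* mass: `Measure.addHaar_smul` / `lintegral_comp_smul..` (substitution z = r y) and
  `integrable_one_add_norm` / `finite_integral_one_add_norm` (exponent m+2 > m+1 = finrank).
* Peetre: 1 + ‖z‖/r ≤ (1 + ‖z+w‖/r)(1 + ‖w‖/r). -/

set_option autoImplicit false

noncomputable section

open MeasureTheory
open scoped ENNReal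

namespace Pool.LibDC71

theorem finrank_V (m : ℕ) : Module.finrank ℝ (V m) = m + 1 := by
  simp [V, E, Module.finrank_prod]

theorem measurable_bw {m : ℕ} (r : ℝ) : Measurable (bw r : V m → ℝ≥0∞) := by
  unfold bw
  refine ENNReal.measurable_ofReal.comp ?_
  exact (((measurable_norm.div_const r).const_add 1).pow_const (m + 2)).inv.const_mul _

theorem bw_ne_top {m : ℕ} (r : ℝ) (z : V m) : bw r z ≠ ⊤ := by
  exact ENNReal.ofReal_ne_top

theorem bw_neg {m : ℕ} (r : ℝ) (z : V m) : bw r (-z) = bw r z := by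
  unfold bw
  rw [norm_neg]

/-- the mass of `bw r` does not depend on `r` and is finite and positive -/
theorem mass_bw (m : ℕ) : ∃ C : ℝ≥0∞, C ≠ ⊤ ∧ C ≠ 0 ∧ ∀ r : ℝ, 0 < r →
    ∫⁻ z, bw r (z : V m) = C := by
  have hfr : Module.finrank ℝ (V m) = m + 1 := finrank_V m
  haveI hHaar : (volume : Measure (V m)).IsAddHaarMeasure :=
    Measure.prod.instIsAddHaarMeasure (volume : Measure (E m)) (volume : Measure ℝ)
  refine ⟨∫⁻ y : V m, ENNReal.ofReal (((1 + ‖y‖) ^ (m + 2))⁻¹), ?_, ?_, ?_⟩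
  · have h := finite_integral_one_add_norm (E := V m) (μ := volume) (r := (m : ℝ) + 2) (by
      rw [hfr]; push_cast; linarith)
    refine ne_of_lt (lt_of_le_of_lt (lintegral_mono fun y => ?_) h)
    apply ENNReal.ofReal_le_ofReal
    rw [Real.rpow_neg (by positivity)]
    have : (1 + ‖y‖) ^ ((m : ℝ) + 2) = (1 + ‖y‖) ^ (m + 2) := by
      rw [← Real.rpow_natCast]; push_cast; rfl
    rw [this]
  · intro h0
    rw [lintegral_eq_zero_iff (by
      refine ENNReal.measurable_ofReal.comp ?_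
      exact ((measurable_norm.const_add 1).pow_const (m + 2)).inv)] at h0
    obtain ⟨y, hy⟩ := h0.exists
    simp only [Pi.zero_apply, ENNReal.ofReal_eq_zero] at hy
    exact absurd hy (not_le.2 (by positivity))
  · intro r hr
    have hmap := Measure.map_addHaar_smul (volume : Measure (V m)) (r := r⁻¹) (by positivity)
    have hmeas : Measurable (fun y : V m => ENNReal.ofReal (((1 + ‖y‖) ^ (m + 2))⁻¹)) := by
      refine ENNReal.measurable_ofReal.comp ?_
      exact ((measurable_norm.const_add 1).pow_const (m + 2)).inv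
    have h1 : ∫⁻ z : V m, ENNReal.ofReal (((1 + ‖(r⁻¹ • z : V m)‖) ^ (m + 2))⁻¹) =
        ENNReal.ofReal (r ^ (m + 1)) *
          ∫⁻ y : V m, ENNReal.ofReal (((1 + ‖y‖) ^ (m + 2))⁻¹) := by
      rw [← lintegral_map (μ := volume) hmeas (measurable_const_smul (r⁻¹ : ℝ)), hmap,
        lintegral_smul_measure, hfr]
      congr 2
      rw [inv_pow, inv_inv, abs_of_nonneg (by positivity)]
    have h2 : ∀ z : V m, bw r z = ENNReal.ofReal ((r ^ (m + 1))⁻¹) *
        ENNReal.ofReal (((1 + ‖(r⁻¹ • z : V m)‖) ^ (m + 2))⁻¹) := by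
      intro z
      unfold bw
      rw [← ENNReal.ofReal_mul (by positivity), norm_smul, Real.norm_of_nonneg (by positivity),
        div_eq_inv_mul]
    simp_rw [h2]
    have hmeas2 : Measurable (fun z : V m =>
        ENNReal.ofReal (((1 + ‖(r⁻¹ • z : V m)‖) ^ (m + 2))⁻¹)) :=
      hmeas.comp (measurable_const_smul (r⁻¹ : ℝ))
    rw [lintegral_const_mul _ hmeas2, h1, ← mul_assoc,
      ← ENNReal.ofReal_mul (by positivity), inv_mul_cancel₀ (by positivity), ENNReal.ofReal_one,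
      one_mul]

theorem bw_translate {m : ℕ} {r : ℝ} (hr : 0 < r) (z w : V m) :
    bw r (z + w) ≤ ENNReal.ofReal ((1 + ‖w‖ / r) ^ (m + 2)) * bw r z := by
  unfold bw
  rw [← ENNReal.ofReal_mul (by positivity)]
  apply ENNReal.ofReal_le_ofReal
  rw [mul_left_comm]
  refine mul_le_mul_of_nonneg_left ?_ (by positivity)
  rw [← div_eq_mul_inv, inv_eq_one_div, div_le_div_iff₀ (by positivity) (by positivity), one_mul,
    ← mul_pow]
  refine pow_le_pow_left₀ (by positivity) ?_ _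
  have h1 : ‖z‖ ≤ ‖z + w‖ + ‖w‖ := by
    calc ‖z‖ = ‖(z + w) - w‖ := by rw [add_sub_cancel_right]
      _ ≤ _ := norm_sub_le _ _
  have h2 : ‖z‖ / r ≤ ‖z + w‖ / r + ‖w‖ / r := by
    rw [← add_div]; gcongr
  have h3 : 0 ≤ ‖z + w‖ / r * (‖w‖ / r) := by positivity
  nlinarith

/-- comparison of two radii -/
theorem bw_le_bw {m : ℕ} {r R : ℝ} (hr : 0 < r) (hrR : r ≤ R) (z : V m) :
    bw r z ≤ ENNReal.ofReal ((R / r) ^ (m + 1)) * bw R z := by
  have hR : 0 < R := lt_of_lt_of_le hr hrR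
  unfold bw
  rw [← ENNReal.ofReal_mul (by positivity)]
  apply ENNReal.ofReal_le_ofReal
  rw [← mul_assoc, div_pow, div_mul_eq_mul_div, mul_inv_cancel₀ (by positivity), one_div]
  gcongr

theorem bw_le_bw' {m : ℕ} {r R : ℝ} (hr : 0 < r) (hrR : r ≤ R) (z : V m) :
    bw R z ≤ ENNReal.ofReal (R / r) * bw r z := by
  have hR : 0 < R := lt_of_lt_of_le hr hrR
  unfold bw
  rw [← ENNReal.ofReal_mul (by positivity)]
  apply ENNReal.ofReal_le_ofReal
  have h1 : 1 + ‖z‖ / r ≤ R / r * (1 + ‖z‖ / R) := by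
    have : R / r * (1 + ‖z‖ / R) = R / r + ‖z‖ / r := by
      field_simp
    rw [this]
    have : 1 ≤ R / r := by rw [le_div_iff₀ hr]; linarith
    linarith
  have h2 : (1 + ‖z‖ / r) ^ (m + 2) ≤ (R / r) ^ (m + 2) * (1 + ‖z‖ / R) ^ (m + 2) := by
    rw [← mul_pow]
    exact pow_le_pow_left₀ (by positivity) h1 _
  have h3 : ((1 + ‖z‖ / R) ^ (m + 2))⁻¹ ≤ (R / r) ^ (m + 2) * ((1 + ‖z‖ / r) ^ (m + 2))⁻¹ := by
    rw [← div_eq_mul_inv, inv_eq_one_div, div_le_div_iff₀ (by positivity) (by positivity), one_mul]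
    exact h2
  calc (R ^ (m + 1))⁻¹ * ((1 + ‖z‖ / R) ^ (m + 2))⁻¹
      ≤ (R ^ (m + 1))⁻¹ * ((R / r) ^ (m + 2) * ((1 + ‖z‖ / r) ^ (m + 2))⁻¹) := by gcongr
    _ = R / r * ((r ^ (m + 1))⁻¹ * ((1 + ‖z‖ / r) ^ (m + 2))⁻¹) := by
      rw [div_pow, pow_succ R (m + 1), pow_succ r (m + 1)]
      field_simp

/-- lower bound on the ball of radius r -/
theorem le_bw {m : ℕ} {r : ℝ} (hr : 0 < r) (z : V m) (hz : ‖z‖ ≤ r) :
    ENNReal.ofReal ((2 ^ (m + 2))⁻¹ * (r ^ (m + 1))⁻¹) ≤ bw r z := by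
  unfold bw
  apply ENNReal.ofReal_le_ofReal
  rw [mul_comm]
  refine mul_le_mul_of_nonneg_left ?_ (by positivity)
  apply inv_anti₀ (by positivity)
  refine pow_le_pow_left₀ (by positivity) ?_ _
  have : ‖z‖ / r ≤ 1 := by rw [div_le_one hr]; exact hz
  linarith

end Pool.LibDC71
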