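import Pool.Agent.LibDC71.G3
import Pool.Agent.LibDC71.J1
import Pool.Agent.LibDC71.W2

/-! MS3 (end of the iteration). Generalised Hoelder over the m+1 factors (`ENNReal.lintegral_prod_norm_pow_le`):
∫ ∏ G_i^(q/(2(m+1))) ≤ ∏ (∫ G_i^(q/2))^(1/(m+1)), G_i = ∑_{a in desc l j (α i)} cv ‖F_a‖^2 (bw 2^l), and by
`cv_two_le` (s = q) G_i^(q/2) ≤ (2^(l m) C)^(q/2-1) ∑ cv ‖F_a‖^q (bw 2^l), whose integral is
≤ C' nf m q l * en q l (pc k l f) (`lintegral_cv`, `mass_bw`); finally `en_pc_le`, nf m q l ≤ nf m q k. -/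

set_option autoImplicit false

noncomputable section

open MeasureTheory
open scoped ENNReal

namespace Pool.LibDC71

theorem ms_end (m : ℕ) (q A : ℝ) (hq : 2 < q) (hA : Real.sqrt m ≤ A) : ∃ C : ℝ≥0∞, C ≠ ⊤ ∧
    ∀ (j l k : ℕ), j ≤ l → l ≤ k → ∀ (f : (Fin m → ℤ) → V m → ℂ), Fam A k f →
      ∀ α : Fin (m + 1) → (Fin m → ℤ), (∀ i, α i ∈ Lam m j) →
      Aq q j k l f α ≤ C * 2 ^ (((k - l : ℕ) : ℝ) * (m * (q - 1))) * nf m q k * en q k f := by
  obtain ⟨W, hW, hW0, hmass⟩ := mass_bw m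
  have hq0 : 0 < q := by linarith
  have hqq : 0 ≤ q / 2 - 1 := by linarith
  refine ⟨W ^ (q / 2 - 1) * W, ENNReal.mul_ne_top (ENNReal.rpow_ne_top_of_nonneg hqq hW) hW, ?_⟩
  intro j l k hjl hlk f hf α hα
  have hr : (0 : ℝ) < 2 ^ l := by positivity
  have hFr : ∀ a, Fr (reg A l a) (pc k l f a) := fun a => Fr_pc hA hlk hf a
  have hmeas : ∀ (a : Fin m → ℤ) (p : ℝ), Measurable (fun y => ‖pc k l f a y‖ₑ ^ p) :=
    fun a p => (hFr a).measurable_enorm p
  have hmeas1 : ∀ a : Fin m → ℤ, Measurable (fun y => ‖pc k l f a y‖ₑ) := by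
    intro a
    have := hmeas a 1
    simpa only [ENNReal.rpow_one] using this
  set G : Fin (m + 1) → V m → ℝ≥0∞ := fun i z =>
    ∑ a ∈ desc l j (α i), cv (fun y => ‖pc k l f a y‖ₑ ^ (2 : ℝ)) (bw (2 ^ l)) z with hG
  have hGm : ∀ i, Measurable (G i) := by
    intro i
    have : G i = fun z => ∑ a ∈ desc l j (α i),
        cv (fun y => ‖pc k l f a y‖ₑ ^ (2 : ℝ)) (bw (2 ^ l)) z := rfl
    rw [this]
    exact Finset.measurable_fun_sum _ fun a _ => measurable_cv (hmeas a 2) (measurable_bw _)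
  have hn0 : (0 : ℝ) < (m : ℝ) + 1 := by positivity
  -- the bound for one factor
  have hone : ∀ i, ∫⁻ z, G i z ^ (q / 2) ≤
      W ^ (q / 2 - 1) * W * (nf m q l * en q l (pc k l f)) := by
    intro i
    have hsub : desc l j (α i) ⊆ Lam m l := Finset.filter_subset _ _
    have hcard : ((desc l j (α i)).card : ℝ≥0∞) ≤ 2 ^ ((l : ℝ) * m) := by
      have h1 := card_desc_le hjl (α i)
      have h2 : ((desc l j (α i)).card : ℝ≥0∞) ≤ ((2 ^ (l * m) : ℕ) : ℝ≥0∞) := by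
        have h3 : (desc l j (α i)).card ≤ 2 ^ (l * m) :=
          h1.trans (Nat.pow_le_pow_right (by norm_num) (Nat.mul_le_mul_right m (Nat.sub_le l j)))
        exact_mod_cast h3
      refine h2.trans (le_of_eq ?_)
      rw [show ((l : ℝ) * m) = ((l * m : ℕ) : ℝ) by push_cast; ring, ENNReal.rpow_natCast]
      push_cast
      rfl
    have hpt : ∀ z, G i z ^ (q / 2) ≤ ((2 : ℝ≥0∞) ^ ((l : ℝ) * m) * W) ^ (q / 2 - 1) *
        ∑ a ∈ desc l j (α i), cv (fun y => ‖pc k l f a y‖ₑ ^ q) (bw (2 ^ l)) z := by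
      intro z
      refine (cv_two_le hq.le (desc l j (α i)) (h := fun a y => ‖pc k l f a y‖ₑ)
        (fun a _ => hmeas1 a) (measurable_bw _) (bw_ne_top _) z).trans ?_
      rw [hmass _ hr]
      gcongr
    have hmul : ((2 : ℝ≥0∞) ^ ((l : ℝ) * m) * W) ^ (q / 2 - 1) =
        W ^ (q / 2 - 1) * nf m q l := by
      rw [ENNReal.mul_rpow_of_nonneg _ _ hqq, ← ENNReal.rpow_mul, mul_comm]
      unfold nf
      rw [mul_assoc]
    calc ∫⁻ z, G i z ^ (q / 2) ≤ ∫⁻ z, ((2 : ℝ≥0∞) ^ ((l : ℝ) * m) * W) ^ (q / 2 - 1) *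
        ∑ a ∈ desc l j (α i), cv (fun y => ‖pc k l f a y‖ₑ ^ q) (bw (2 ^ l)) z :=
          lintegral_mono hpt
      _ = ((2 : ℝ≥0∞) ^ ((l : ℝ) * m) * W) ^ (q / 2 - 1) *
        ∑ a ∈ desc l j (α i), (∫⁻ z, ‖pc k l f a z‖ₑ ^ q) * W := by
          rw [lintegral_const_mul _ (Finset.measurable_fun_sum _ fun a _ =>
            measurable_cv (hmeas a q) (measurable_bw _)),
            lintegral_finsetSum _ fun a _ => measurable_cv (hmeas a q) (measurable_bw _)]
          congr 1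
          refine Finset.sum_congr rfl fun a _ => ?_
          rw [lintegral_cv (hmeas a q) (measurable_bw _), hmass _ hr]
      _ ≤ ((2 : ℝ≥0∞) ^ ((l : ℝ) * m) * W) ^ (q / 2 - 1) *
        ∑ a ∈ Lam m l, (∫⁻ z, ‖pc k l f a z‖ₑ ^ q) * W := by
          refine mul_le_mul_right ?_ _
          exact Finset.sum_le_sum_of_subset hsub
      _ = W ^ (q / 2 - 1) * W * (nf m q l * en q l (pc k l f)) := by
          rw [hmul, ← Finset.sum_mul]
          unfold en
          ring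
  have hnf : nf m q l ≤ nf m q k := by
    unfold nf
    refine ENNReal.rpow_le_rpow_of_exponent_le (by norm_num) ?_
    have : (l : ℝ) ≤ k := by exact_mod_cast hlk
    have h2 : (0 : ℝ) ≤ (m : ℝ) * (q / 2 - 1) := by positivity
    exact mul_le_mul_of_nonneg_right this h2
  have hen := en_pc_le hq hlk hf
  have hfin : ∀ i, ∫⁻ z, G i z ^ (q / 2) ≤ W ^ (q / 2 - 1) * W *
      2 ^ (((k - l : ℕ) : ℝ) * (m * (q - 1))) * nf m q k * en q k f := by
    intro i
    refine (hone i).trans ?_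
    calc W ^ (q / 2 - 1) * W * (nf m q l * en q l (pc k l f))
        ≤ W ^ (q / 2 - 1) * W * (nf m q k * (2 ^ (((k - l : ℕ) : ℝ) * (m * (q - 1))) *
          en q k f)) := by gcongr
      _ = _ := by ring
  have hH := ENNReal.lintegral_prod_norm_pow_le (μ := (volume : Measure (V m)))
    (Finset.univ : Finset (Fin (m + 1))) (f := fun i z => G i z ^ (q / 2))
    (fun i _ => ((hGm i).pow_const _).aemeasurable) (p := fun _ => 1 / ((m : ℝ) + 1))
    (by rw [Finset.sum_const, Finset.card_univ, Fintype.card_fin, nsmul_eq_mul]; push_cast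
        field_simp)
    (fun _ _ => by positivity)
  have hAq : Aq q j k l f α = ∫⁻ z, ∏ i : Fin (m + 1),
      (G i z ^ (q / 2)) ^ (1 / ((m : ℝ) + 1)) := by
    unfold Aq
    refine lintegral_congr fun z => Finset.prod_congr rfl fun i _ => ?_
    rw [← ENNReal.rpow_mul]
    congr 1
    field_simp
  rw [hAq]
  refine hH.trans ?_
  set M := W ^ (q / 2 - 1) * W * 2 ^ (((k - l : ℕ) : ℝ) * (m * (q - 1))) * nf m q k * en q k f
    with hM
  calc ∏ i : Fin (m + 1), (∫⁻ z, G i z ^ (q / 2)) ^ (1 / ((m : ℝ) + 1))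
      ≤ ∏ _i : Fin (m + 1), M ^ (1 / ((m : ℝ) + 1)) :=
        Finset.prod_le_prod' fun i _ => ENNReal.rpow_le_rpow (hfin i) (by positivity)
    _ = M := by
      rw [Finset.prod_const, Finset.card_univ, Fintype.card_fin, ← ENNReal.rpow_natCast,
        ← ENNReal.rpow_mul]
      push_cast
      rw [one_div_mul_cancel hn0.ne', ENNReal.rpow_one]

end Pool.LibDC71
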