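import Pool.Agent.LibDC71.MS1
import Pool.Agent.LibDC71.MS2b
import Pool.Agent.LibDC71.MS2c
import Pool.Agent.LibDC71.MS3

/-! MS4 (iteration). κ = kap m q in [0,1/2), Q = nf m q k * en q k f.
Step: Aq l ≤ C 2^(ε' l) nf(l)^κ (Aq (2l))^(1-κ) (D nf(k-l) en)^κ = C 2^(ε' l) (Aq (2l))^(1-κ) (D Q)^κ
(`nf_add`). Claim by induction on i ≤ J: if 2^i l ≤ k then
Aq l ≤ (C 2^(ε' k))^i (Aq (2^i l))^((1-κ)^i) (D Q)^(1-(1-κ)^i)   (C ≥ 1; D is admissible for all levels < k).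
Take l = k / 2^J (so j ≤ l, 2^J l ≤ k < 2^J l + 2^J) and ms_end at level 2^J l: Aq ≤ C 2^(2^J m(q-1)) Q;
then ms_start: the factor 2^(l m q/2) ≤ 2^((m q/2) k/2^J). Everything together:
MB with M = C' 2^(ε' (J) k) 2^((mq/2) k / 2^J) D^(1-(1-κ)^J), choose ε' = ε/(J+1). If Q = ⊤ or 0 the algebra
is easier (for Q = ⊤ the right side is ⊤ unless M = 0: take C ≥ 1 and D ≥ 1; for Q = 0 use the formula). -/

set_option autoImplicit false

noncomputable section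

open MeasureTheory
open scoped ENNReal

namespace Pool.LibDC71

/-- iteration of the step inequality -/
private theorem ms4_iter {κ : ℝ} (hκ0 : 0 ≤ κ) (hκ1 : κ ≤ 1) {B R : ℝ≥0∞} (hB : 1 ≤ B)
    (F : ℕ → ℝ≥0∞) (j k : ℕ)
    (hstep : ∀ l, j ≤ l → 2 * l ≤ k → F l ≤ B * F (2 * l) ^ (1 - κ) * R ^ κ) :
    ∀ (i l : ℕ), j ≤ l → l * 2 ^ i ≤ k →
      F l ≤ B ^ i * F (l * 2 ^ i) ^ ((1 - κ) ^ i) * R ^ (1 - (1 - κ) ^ i) := by
  have h1κ : 0 ≤ 1 - κ := by linarith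
  have hle : ∀ i : ℕ, (1 - κ) ^ i ≤ 1 := fun i => pow_le_one₀ h1κ (by linarith)
  have hnn : ∀ i : ℕ, 0 ≤ (1 - κ) ^ i := fun i => pow_nonneg h1κ i
  intro i
  induction i with
  | zero =>
    intro l _ _
    simp
  | succ i ih =>
    intro l hl hk
    have hk1 : l * 2 ^ i ≤ k := by
      refine le_trans ?_ hk
      exact Nat.mul_le_mul_left l (Nat.pow_le_pow_right (by norm_num) (Nat.le_succ i))
    have hk2 : 2 * (l * 2 ^ i) ≤ k := by
      have : 2 * (l * 2 ^ i) = l * 2 ^ (i + 1) := by ring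
      rw [this]; exact hk
    have hjl : j ≤ l * 2 ^ i := hl.trans (Nat.le_mul_of_pos_right l (by positivity))
    have h1 := ih l hl hk1
    have h2 := hstep (l * 2 ^ i) hjl hk2
    have e2 : 2 * (l * 2 ^ i) = l * 2 ^ (i + 1) := by ring
    rw [e2] at h2
    set G := F (l * 2 ^ (i + 1)) with hG
    have h3 : F (l * 2 ^ i) ^ ((1 - κ) ^ i) ≤
        B * G ^ ((1 - κ) ^ (i + 1)) * R ^ (κ * (1 - κ) ^ i) := by
      calc F (l * 2 ^ i) ^ ((1 - κ) ^ i) ≤ (B * G ^ (1 - κ) * R ^ κ) ^ ((1 - κ) ^ i) :=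
            ENNReal.rpow_le_rpow h2 (hnn i)
        _ = B ^ ((1 - κ) ^ i) * G ^ ((1 - κ) ^ (i + 1)) * R ^ (κ * (1 - κ) ^ i) := by
            rw [ENNReal.mul_rpow_of_nonneg _ _ (hnn i), ENNReal.mul_rpow_of_nonneg _ _ (hnn i),
              ← ENNReal.rpow_mul, ← ENNReal.rpow_mul, pow_succ']
        _ ≤ B * G ^ ((1 - κ) ^ (i + 1)) * R ^ (κ * (1 - κ) ^ i) := by
            gcongr
            calc B ^ ((1 - κ) ^ i) ≤ B ^ (1 : ℝ) :=
                  ENNReal.rpow_le_rpow_of_exponent_le hB (hle i)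
              _ = B := ENNReal.rpow_one B
    calc F l ≤ B ^ i * F (l * 2 ^ i) ^ ((1 - κ) ^ i) * R ^ (1 - (1 - κ) ^ i) := h1
      _ ≤ B ^ i * (B * G ^ ((1 - κ) ^ (i + 1)) * R ^ (κ * (1 - κ) ^ i)) *
            R ^ (1 - (1 - κ) ^ i) := by gcongr
      _ = B ^ (i + 1) * G ^ ((1 - κ) ^ (i + 1)) *
            (R ^ (κ * (1 - κ) ^ i) * R ^ (1 - (1 - κ) ^ i)) := by ring
      _ = B ^ (i + 1) * G ^ ((1 - κ) ^ (i + 1)) * R ^ (1 - (1 - κ) ^ (i + 1)) := by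
            rw [← ENNReal.rpow_add_of_nonneg _ _ (mul_nonneg hκ0 (hnn i))
              (by have := hle i; linarith)]
            congr 2
            rw [pow_succ]
            ring

theorem multiscale (m : ℕ) (hm : 1 ≤ m) (q A b ε : ℝ) (hq : 2 < q) (hq' : q * m < 2 * (m + 2))
    (hA : Real.sqrt m ≤ A) (hb : 0 < b) (hε : 0 < ε) (J : ℕ) :
    ∃ j0 : ℕ, ∀ j, j0 ≤ j → ∃ C : ℝ≥0∞, C ≠ ⊤ ∧ ∀ (k : ℕ) (D : ℝ≥0∞), 1 ≤ D → D ≠ ⊤ →
      1 ≤ j → j * 2 ^ J ≤ k → (∀ k' < k, DB m q A k' D) →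
      MB m q A b j k (C * 2 ^ ((ε + (m * q / 2) / 2 ^ J) * k) * D ^ (1 - (1 - kap m q) ^ J)) := by
  set κ := kap m q with hκ
  have hκ0 : 0 ≤ κ := kap_nonneg hq
  have hκ2 : κ < 1 / 2 := kap_lt hm hq hq'
  have h1κ : 0 ≤ 1 - κ := by linarith
  set lam := (1 - κ) ^ J with hlam
  have hlam0 : 0 ≤ lam := pow_nonneg h1κ J
  have hlam1 : lam ≤ 1 := pow_le_one₀ h1κ (by linarith)
  set ε' := ε / (J + 1) with hε'
  have hJ : (0 : ℝ) < (J : ℝ) + 1 := by positivity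
  have hε'0 : 0 < ε' := div_pos hε hJ
  obtain ⟨j0, C1, hC1, h1⟩ := ms_inflate m hm q A b ε' hq hA hb hε'0
  obtain ⟨C2, hC2, h2⟩ := ms_interp m hm q A hq hq' hA
  obtain ⟨C3, hC3, h3⟩ := ms_end m q A hq hA
  obtain ⟨C4, hC4, h4⟩ := ms_start m q A hq hA
  refine ⟨j0, fun j hj0 => ?_⟩
  set C := max (C1 * C2) 1 with hC
  have hCt : C ≠ ⊤ := by
    rw [hC]
    exact (max_lt (ENNReal.mul_lt_top hC1.lt_top hC2.lt_top) ENNReal.one_lt_top).ne
  set C5 := max (C3 * 2 ^ ((2 : ℝ) ^ J * (m * (q - 1)))) 1 with hC5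
  have hC5t : C5 ≠ ⊤ := by
    rw [hC5]
    refine (max_lt (ENNReal.mul_lt_top hC3.lt_top ?_) ENNReal.one_lt_top).ne
    exact (ENNReal.rpow_ne_top_of_nonneg (by
      have : (0 : ℝ) ≤ q - 1 := by linarith
      positivity) (by norm_num)).lt_top
  refine ⟨C4 * C ^ J * C5, ENNReal.mul_ne_top (ENNReal.mul_ne_top hC4 (ENNReal.pow_ne_top hCt)) hC5t,
    ?_⟩
  intro k D hD1 hDt hj1 hk hDB f hf α hα hTr
  set Q := nf m q k * en q k f with hQ
  set l := k / 2 ^ J with hl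
  have h2J : 0 < 2 ^ J := by positivity
  have hjl : j ≤ l := by
    rw [hl, Nat.le_div_iff_mul_le h2J]; exact hk
  have hlk : l * 2 ^ J ≤ k := Nat.div_mul_le_self k (2 ^ J)
  have hlk' : l ≤ k := (Nat.le_mul_of_pos_right l h2J).trans hlk
  have hkl : k - l * 2 ^ J ≤ 2 ^ J := by
    have := Nat.lt_div_mul_add (a := k) h2J
    rw [← hl] at this
    omega
  have htwo : (1 : ℝ≥0∞) ≤ 2 := by norm_num
  set B := C * 2 ^ (ε' * k) with hB
  have hB1 : 1 ≤ B := by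
    rw [hB]
    have e1 : (1 : ℝ≥0∞) ≤ C := le_max_right _ _
    have e2 : (1 : ℝ≥0∞) ≤ 2 ^ (ε' * k) := by
      have h0 : (0 : ℝ) ≤ ε' * k := by positivity
      simpa using ENNReal.rpow_le_rpow_of_exponent_le htwo h0
    calc (1 : ℝ≥0∞) = 1 * 1 := (one_mul 1).symm
      _ ≤ C * 2 ^ (ε' * k) := mul_le_mul' e1 e2
  have hstep : ∀ l', j ≤ l' → 2 * l' ≤ k →
      Aq q j k l' f α ≤ B * Aq q j k (2 * l') f α ^ (1 - κ) * (D * Q) ^ κ := by
    intro l' hl1 hl2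
    have hl3 : l' ≤ k := by omega
    have a1 := h1 j l' k hj0 hl1 hl3 f hf α hα hTr
    have a2 := h2 j l' k hl1 hl2 f hf α hα D (hDB (k - l') (by omega))
    have a3 : nf m q l' ^ κ * (D * nf m q (k - l') * en q k f) ^ κ = (D * Q) ^ κ := by
      rw [← ENNReal.mul_rpow_of_nonneg _ _ hκ0, hQ]
      congr 1
      have e3 : nf m q k = nf m q l' * nf m q (k - l') := by
        rw [← nf_add]
        congr 1
        omega
      rw [e3]
      ring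
    calc Aq q j k l' f α ≤ C1 * 2 ^ (ε' * l') * nf m q l' ^ κ *
          (C2 * Aq q j k (2 * l') f α ^ (1 - κ) * (D * nf m q (k - l') * en q k f) ^ κ) :=
          a1.trans (mul_le_mul' le_rfl a2)
      _ = (C1 * C2) * 2 ^ (ε' * l') * Aq q j k (2 * l') f α ^ (1 - κ) *
          (nf m q l' ^ κ * (D * nf m q (k - l') * en q k f) ^ κ) := by ring
      _ = (C1 * C2) * 2 ^ (ε' * l') * Aq q j k (2 * l') f α ^ (1 - κ) * (D * Q) ^ κ := by
          rw [a3]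
      _ ≤ B * Aq q j k (2 * l') f α ^ (1 - κ) * (D * Q) ^ κ := by
          rw [hB]
          have e4 : (2 : ℝ≥0∞) ^ (ε' * l') ≤ 2 ^ (ε' * k) := by
            refine ENNReal.rpow_le_rpow_of_exponent_le htwo ?_
            have : (l' : ℝ) ≤ k := by exact_mod_cast hl3
            exact mul_le_mul_of_nonneg_left this hε'0.le
          have e5 : C1 * C2 ≤ C := le_max_left _ _
          gcongr
  have hit := ms4_iter hκ0 (by linarith : κ ≤ 1) hB1 (fun l' => Aq q j k l' f α) j k hstep J l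
    hjl hlk
  have hend : Aq q j k (l * 2 ^ J) f α ≤ C5 * Q := by
    have b1 := h3 j (l * 2 ^ J) k (hjl.trans (Nat.le_mul_of_pos_right l h2J)) hlk f hf α hα
    refine b1.trans ?_
    rw [hQ]
    have e6 : (2 : ℝ≥0∞) ^ (((k - l * 2 ^ J : ℕ) : ℝ) * (m * (q - 1))) ≤
        2 ^ ((2 : ℝ) ^ J * (m * (q - 1))) := by
      refine ENNReal.rpow_le_rpow_of_exponent_le htwo ?_
      have h5 : ((k - l * 2 ^ J : ℕ) : ℝ) ≤ (2 : ℝ) ^ J := by exact_mod_cast hkl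
      have h6 : (0 : ℝ) ≤ m * (q - 1) := by
        have : (0 : ℝ) ≤ q - 1 := by linarith
        positivity
      exact mul_le_mul_of_nonneg_right h5 h6
    have e7 : C3 * 2 ^ ((2 : ℝ) ^ J * (m * (q - 1))) ≤ C5 := le_max_left _ _
    calc C3 * 2 ^ (((k - l * 2 ^ J : ℕ) : ℝ) * (m * (q - 1))) * nf m q k * en q k f
        ≤ C3 * 2 ^ ((2 : ℝ) ^ J * (m * (q - 1))) * nf m q k * en q k f := by gcongr
      _ ≤ C5 * nf m q k * en q k f := by gcongr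
      _ = C5 * (nf m q k * en q k f) := mul_assoc _ _ _
  have hC51 : (1 : ℝ≥0∞) ≤ C5 := le_max_right _ _
  have hAl : Aq q j k l f α ≤ B ^ J * C5 * D ^ (1 - lam) * Q := by
    have c1 : C5 ^ lam ≤ C5 := by
      calc C5 ^ lam ≤ C5 ^ (1 : ℝ) := ENNReal.rpow_le_rpow_of_exponent_le hC51 hlam1
        _ = C5 := ENNReal.rpow_one C5
    have c2 : Q ^ lam * Q ^ (1 - lam) = Q := by
      rw [← ENNReal.rpow_add_of_nonneg _ _ hlam0 (by linarith)]
      rw [show lam + (1 - lam) = 1 by ring, ENNReal.rpow_one]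
    calc Aq q j k l f α ≤ B ^ J * Aq q j k (l * 2 ^ J) f α ^ lam * (D * Q) ^ (1 - lam) := hit
      _ ≤ B ^ J * (C5 * Q) ^ lam * (D * Q) ^ (1 - lam) := by gcongr
      _ = B ^ J * C5 ^ lam * D ^ (1 - lam) * (Q ^ lam * Q ^ (1 - lam)) := by
          rw [ENNReal.mul_rpow_of_nonneg _ _ hlam0,
            ENNReal.mul_rpow_of_nonneg _ _ (by linarith : (0 : ℝ) ≤ 1 - lam)]
          ring
      _ ≤ B ^ J * C5 * D ^ (1 - lam) * Q := by
          rw [c2]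
          gcongr
  have hst := h4 j l k hjl hlk' f hf α hα
  refine hst.trans ?_
  have hBJ : B ^ J ≤ C ^ J * 2 ^ (ε * k) := by
    rw [hB, mul_pow]
    gcongr
    rw [← ENNReal.rpow_natCast, ← ENNReal.rpow_mul]
    refine ENNReal.rpow_le_rpow_of_exponent_le htwo ?_
    have h7 : ε' * J ≤ ε := by
      rw [hε', div_mul_eq_mul_div, div_le_iff₀ hJ]
      nlinarith
    have h8 : (0 : ℝ) ≤ k := Nat.cast_nonneg k
    calc ε' * k * J = (ε' * J) * k := by ring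
      _ ≤ ε * k := mul_le_mul_of_nonneg_right h7 h8
  have hl2 : (2 : ℝ≥0∞) ^ ((l : ℝ) * (m * q / 2)) ≤ 2 ^ ((m * q / 2) / 2 ^ J * (k : ℝ)) := by
    refine ENNReal.rpow_le_rpow_of_exponent_le htwo ?_
    have h9 : (l : ℝ) * 2 ^ J ≤ k := by exact_mod_cast hlk
    have h10 : (0 : ℝ) ≤ m * q / 2 := by positivity
    have h11 : (0 : ℝ) < 2 ^ J := by positivity
    have h12 : (l : ℝ) ≤ k / 2 ^ J := by rwa [le_div_iff₀ h11]
    calc (l : ℝ) * (m * q / 2) ≤ k / 2 ^ J * (m * q / 2) := mul_le_mul_of_nonneg_right h12 h10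
      _ = (m * q / 2) / 2 ^ J * (k : ℝ) := by ring
  calc C4 * 2 ^ ((l : ℝ) * (m * q / 2)) * Aq q j k l f α
      ≤ C4 * 2 ^ ((m * q / 2) / 2 ^ J * (k : ℝ)) *
        (C ^ J * 2 ^ (ε * k) * C5 * D ^ (1 - lam) * Q) := by
        gcongr
        refine hAl.trans ?_
        gcongr
    _ = C4 * C ^ J * C5 * (2 ^ (ε * k) * 2 ^ ((m * q / 2) / 2 ^ J * (k : ℝ))) *
        D ^ (1 - lam) * Q := by ring
    _ = C4 * C ^ J * C5 * 2 ^ ((ε + (m * q / 2) / 2 ^ J) * k) * D ^ (1 - lam) *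
        nf m q k * en q k f := by
        rw [← ENNReal.rpow_add _ _ (by norm_num) (by norm_num), hQ]
        rw [show ε * (k : ℝ) + (m * q / 2) / 2 ^ J * (k : ℝ) = (ε + (m * q / 2) / 2 ^ J) * k by ring]
        ring

end Pool.LibDC71
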