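import Pool.Agent.LibDC71.BN
import Pool.Agent.LibDC71.MS4

/-! BOOT. κ = kap m q < 1/2, λ = (1-κ)^J. Given η > 0 choose J with (m q/2) / 2^J ≤ η λ / 4, possible because
2^(-J)/λ = (2(1-κ))^(-J) → 0; ε = η λ / 4; j1, b, j0 from `broad_narrow`, j2 ≥ max of j0 and of the j0 of
`multiscale` (b, ε, J), j2 ≥ 1, j2 ≥ j1. Strong induction on k: claim DB m q A k (C* 2^(η k)).
* k < j2 2^J: `DB_trivial`, C* ≥ 2^(j2 2^J m q/2).
* k ≥ j2 2^J: D = C* 2^(η (k-1)) is ≥ 1 and admissible for all k' < k (`DB_mono`); M = C1 2^(η λ k/2) D^(1-λ);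
  broad_narrow: DB k (D/2 + C2 M). Need C2 M ≤ D/2·(something): C2 C1 2^(η λ k/2) D^(1-λ) ≤ C* 2^(η k)/2, which
  follows from D ≤ C* 2^(ηk) and 2 C1 C2 2^(ηλk/2) ≤ (C* 2^(ηk))^λ: true if C*^λ ≥ 2 C1 C2. -/

set_option autoImplicit false

noncomputable section

open MeasureTheory
open scoped ENNReal

namespace Pool.LibDC71

/-- the numerical part of the induction step -/
private theorem BOOT_num {C C1 C2 : ℝ≥0∞} {η lam : ℝ} (hη : 0 < η) (hl0 : 0 < lam) (hl1 : lam ≤ 1)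
    (hC : C ≠ ⊤) (hC1 : 1 ≤ C) (hC2 : 2 * (C2 * C1) ≤ C ^ lam) (k : ℝ) (hk : 0 ≤ k)
    (D : ℝ≥0∞) (hD : D ≤ C * 2 ^ (η * k)) (e : ℝ) (he : e ≤ η * lam) :
    D / 2 + C2 * (C1 * 2 ^ (e * k) * D ^ (1 - lam)) ≤ C * 2 ^ (η * k) := by
  set X : ℝ≥0∞ := C * 2 ^ (η * k) with hX
  have hX0 : X ≠ 0 := by
    rw [hX]
    refine mul_ne_zero (by intro h; rw [h] at hC1; simp at hC1) ?_
    simp
  have hXt : X ≠ ⊤ := ENNReal.mul_ne_top hC (ENNReal.rpow_ne_top_of_nonneg (by positivity) (by simp))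
  have h1 : C2 * (C1 * 2 ^ (e * k) * D ^ (1 - lam)) ≤ X / 2 := by
    rw [ENNReal.le_div_iff_mul_le (Or.inl (by norm_num)) (Or.inl (by norm_num))]
    have h2 : (2 : ℝ≥0∞) ^ (e * k) ≤ 2 ^ (η * lam * k) := by
      refine ENNReal.rpow_le_rpow_of_exponent_le (by norm_num) ?_
      gcongr
    have h3 : D ^ (1 - lam) ≤ X ^ (1 - lam) := ENNReal.rpow_le_rpow hD (by linarith)
    have h4 : C ^ lam * 2 ^ (η * lam * k) = X ^ lam := by
      rw [hX, ENNReal.mul_rpow_of_nonneg _ _ hl0.le, ← ENNReal.rpow_mul]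
      congr 2
      ring
    calc C2 * (C1 * 2 ^ (e * k) * D ^ (1 - lam)) * 2
        ≤ C2 * (C1 * 2 ^ (η * lam * k) * X ^ (1 - lam)) * 2 := by gcongr
      _ = (2 * (C2 * C1)) * 2 ^ (η * lam * k) * X ^ (1 - lam) := by ring
      _ ≤ C ^ lam * 2 ^ (η * lam * k) * X ^ (1 - lam) := by gcongr
      _ = X ^ lam * X ^ (1 - lam) := by rw [h4]
      _ = X := by
          rw [← ENNReal.rpow_add _ _ hX0 hXt]
          simp
  calc D / 2 + C2 * (C1 * 2 ^ (e * k) * D ^ (1 - lam)) ≤ X / 2 + X / 2 := by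
        gcongr
    _ = X := ENNReal.add_halves X

theorem bootstrap (m : ℕ) (hm : 1 ≤ m) (q A : ℝ) (hq : 2 < q) (hq' : q * m < 2 * (m + 2))
    (hA : Real.sqrt m ≤ A)
    (hcyl : ∀ A' ε : ℝ, 0 < ε → ∃ C : ℝ≥0∞, C ≠ ⊤ ∧
      ∀ j : ℕ, Cyl m q A' j (C * 2 ^ ((ε + ((m : ℝ) - 1) * (q / 2 - 1)) * j)))
    (η : ℝ) (hη : 0 < η) :
    ∃ C : ℝ≥0∞, C ≠ ⊤ ∧ ∀ k : ℕ, DB m q A k (C * 2 ^ (η * k)) := by
  have hκ0 : 0 ≤ kap m q := kap_nonneg hq
  have hκ1 : kap m q < 1 / 2 := kap_lt hm hq hq'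
  -- the number of steps
  obtain ⟨J, hJ⟩ : ∃ J : ℕ, (m * q / 2) / 2 ^ J ≤ η * (1 - kap m q) ^ J / 2 := by
    have h1 : (1 : ℝ) < 2 * (1 - kap m q) := by linarith
    obtain ⟨J, hJ⟩ := pow_unbounded_of_one_lt (m * q / η) h1
    refine ⟨J, ?_⟩
    rw [mul_pow, div_lt_iff₀ hη] at hJ
    rw [div_le_div_iff₀ (by positivity) (by norm_num)]
    nlinarith
  set lam : ℝ := (1 - kap m q) ^ J with hlam
  have hl0 : 0 < lam := by
    rw [hlam]
    exact pow_pos (by linarith) _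
  have hl1 : lam ≤ 1 := pow_le_one₀ (by linarith) (by linarith)
  obtain ⟨j1, b, j0, hj1, hb, hBN⟩ := broad_narrow m hm q A hq hA hcyl
  obtain ⟨j0', hMS⟩ := multiscale m hm q A b (η * lam / 2) hq hq' hA hb (by positivity) J
  set j2 : ℕ := max (max j0 j0') (max 1 j1) with hj2
  have h1 : j0 ≤ j2 := (le_max_left _ _).trans (le_max_left _ _)
  have h2 : j0' ≤ j2 := (le_max_right _ _).trans (le_max_left _ _)
  have h3 : 1 ≤ j2 := (le_max_left _ _).trans (le_max_right _ _)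
  have h4 : j1 ≤ j2 := (le_max_right _ _).trans (le_max_right _ _)
  obtain ⟨C2, hC2, hBN⟩ := hBN j2 h1
  obtain ⟨C1, hC1, hMS⟩ := hMS j2 h2
  -- the constant
  obtain ⟨C, hCt, hC1', hCa, hCb⟩ : ∃ C : ℝ≥0∞, C ≠ ⊤ ∧ 1 ≤ C ∧ 2 * (C2 * C1) ≤ C ^ lam ∧
      (2 : ℝ≥0∞) ^ (((j2 * 2 ^ J : ℕ) : ℝ) * (m * q / 2)) ≤ C := by
    have hx : (2 * (C2 * C1)) ≠ ⊤ := ENNReal.mul_ne_top (by norm_num) (ENNReal.mul_ne_top hC2 hC1)
    refine ⟨(2 * (C2 * C1)) ^ (1 / lam) + 1 + 2 ^ (((j2 * 2 ^ J : ℕ) : ℝ) * (m * q / 2)), ?_, ?_, ?_, ?_⟩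
    · refine ENNReal.add_ne_top.2 ⟨ENNReal.add_ne_top.2 ⟨?_, ENNReal.one_ne_top⟩, ?_⟩
      · exact ENNReal.rpow_ne_top_of_nonneg (by positivity) hx
      · exact ENNReal.rpow_ne_top_of_nonneg (by positivity) (by norm_num)
    · exact le_add_left le_rfl |>.trans (le_add_right le_rfl)
    · calc 2 * (C2 * C1) = ((2 * (C2 * C1)) ^ (1 / lam)) ^ lam := by
            rw [← ENNReal.rpow_mul, one_div_mul_cancel hl0.ne', ENNReal.rpow_one]
        _ ≤ _ := by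
            refine ENNReal.rpow_le_rpow ?_ hl0.le
            exact (le_add_right le_rfl).trans (le_add_right le_rfl)
    · exact le_add_left le_rfl
  refine ⟨C, hCt, ?_⟩
  intro k
  induction k using Nat.strong_induction_on with
  | _ k ih =>
  have hone : ∀ x : ℝ, 0 ≤ x → (1 : ℝ≥0∞) ≤ 2 ^ x := fun x hx => by
    simpa using ENNReal.rpow_le_rpow_of_exponent_le (by norm_num : (1 : ℝ≥0∞) ≤ 2) hx
  rcases lt_or_ge k (j2 * 2 ^ J) with hk | hk
  · refine DB_mono le_rfl ?_ (DB_trivial m hq A k)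
    calc (2 : ℝ≥0∞) ^ ((k : ℝ) * (m * q / 2)) ≤ 2 ^ (((j2 * 2 ^ J : ℕ) : ℝ) * (m * q / 2)) := by
          refine ENNReal.rpow_le_rpow_of_exponent_le (by norm_num) ?_
          have h5 : (k : ℝ) ≤ ((j2 * 2 ^ J : ℕ) : ℝ) := by exact_mod_cast hk.le
          gcongr
      _ ≤ C := hCb
      _ = C * 1 := (mul_one _).symm
      _ ≤ C * 2 ^ (η * k) := by
          gcongr
          exact hone _ (by positivity)
  · have hkj : j2 ≤ k := le_trans (Nat.le_mul_of_pos_right _ (by positivity)) hk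
    have hk1 : 1 ≤ k := h3.trans hkj
    set D : ℝ≥0∞ := C * 2 ^ (η * ((k - 1 : ℕ) : ℝ)) with hD
    have hDk : ∀ k' < k, DB m q A k' D := by
      intro k' hk'
      refine DB_mono le_rfl ?_ (ih k' hk')
      rw [hD]
      gcongr
      · norm_num
      · have h5 : k' ≤ k - 1 := by omega
        exact h5
    have hD1 : 1 ≤ D := by
      calc (1 : ℝ≥0∞) = 1 * 1 := (one_mul 1).symm
        _ ≤ D := by
          rw [hD]
          gcongr
          exact hone _ (by positivity)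
    have hDt : D ≠ ⊤ :=
      ENNReal.mul_ne_top hCt (ENNReal.rpow_ne_top_of_nonneg (by positivity) (by norm_num))
    have hM := hMS k D hD1 hDt h3 hk hDk
    have hfin := hBN k D _ (h4.trans hkj) hkj (hDk _ (by omega)) (hDk _ (by omega)) hM
    refine DB_mono le_rfl ?_ hfin
    rw [← hlam]
    refine BOOT_num hη hl0 hl1 hCt hC1' hCa k (by positivity) D ?_ _ ?_
    · rw [hD]
      gcongr
      · norm_num
      · exact Nat.sub_le _ _
    · linarith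

end Pool.LibDC71
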