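import Mathlib

set_option autoImplicit false

noncomputable section

open MeasureTheory
open scoped ENNReal

namespace Pool.LibDC71

/-- the parameter space of the paraboloid -/
abbrev E (m : ℕ) := EuclideanSpace ℝ (Fin m)

/-- the space `R^m x R` which contains the paraboloid; its norm is the maximum norm -/
abbrev V (m : ℕ) := E m × ℝ

/-- the character `exp (2 pi i (<x,ξ> + t τ))` -/
def ch {m : ℕ} (z ζ : V m) : ℂ :=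
  Complex.exp (2 * (Real.pi : ℂ) * Complex.I * ((inner ℝ z.1 ζ.1 + z.2 * ζ.2 : ℝ) : ℂ))

/-- `f` is an (absolutely convergent) superposition of characters with frequencies in `U` -/
def Fr {m : ℕ} (U : Set (V m)) (f : V m → ℂ) : Prop :=
  ∃ (S : Type) (_ : MeasurableSpace S) (σ : Measure S) (g : S → V m) (φ : S → ℂ),
    SFinite σ ∧ Measurable g ∧ Integrable φ σ ∧ (∀ s, φ s ≠ 0 → g s ∈ U) ∧
      ∀ z, f z = ∫ s, φ s * ch z (g s) ∂σ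

/-- convolution of nonnegative functions -/
def cv {m : ℕ} (h w : V m → ℝ≥0∞) (z : V m) : ℝ≥0∞ := ∫⁻ y, h (z - y) * w y

/-- the ball weight `r^(-m-1) (1 + |z|/r)^(-m-2)` -/
def bw {m : ℕ} (r : ℝ) (z : V m) : ℝ≥0∞ :=
  ENNReal.ofReal ((r ^ (m + 1))⁻¹ * ((1 + ‖z‖ / r) ^ (m + 2))⁻¹)

/-- the plank weight: plank of width `1/ρ` and length `1/ρ^2` in the direction `(-2c, 1)` -/
def tw {m : ℕ} (ρ : ℝ) (c : E m) (z : V m) : ℝ≥0∞ :=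
  ENNReal.ofReal (ρ ^ (m + 2) *
    ((1 + ‖((ρ • (z.1 + (2 * z.2) • c), ρ ^ 2 * z.2) : V m)‖) ^ (2 * (m + 2)))⁻¹)

/-- the labels of level `k` -/
def Lam (m k : ℕ) : Finset (Fin m → ℤ) := Fintype.piFinset fun _ => Finset.Ico (0 : ℤ) (2 ^ k)

/-- the point of level `k` with label `a` -/
def ctr {m : ℕ} (k : ℕ) (a : Fin m → ℤ) : E m := WithLp.toLp 2 (fun i => (a i : ℝ) / 2 ^ k)

/-- the ancestor `j` levels up -/
def par {m : ℕ} (j : ℕ) (a : Fin m → ℤ) : Fin m → ℤ := fun i => a i / 2 ^ j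

/-- the frequency region of the label `a` of level `k` -/
def reg {m : ℕ} (A : ℝ) (k : ℕ) (a : Fin m → ℤ) : Set (V m) :=
  {ζ | ‖ζ.1 - ctr k a‖ ≤ A / 2 ^ k ∧ |ζ.2 - ‖ζ.1‖ ^ 2| ≤ A / 4 ^ k}

/-- the labels of level `k` below the label `a` of level `l` (`l ≤ k`) -/
def desc {m : ℕ} (k l : ℕ) (a : Fin m → ℤ) : Finset (Fin m → ℤ) :=
  (Lam m k).filter (fun b => par (k - l) b = a)

/-- the part of the family `f` (of level `k`) below the label `a` of level `l` -/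
def pc {m : ℕ} (k l : ℕ) (f : (Fin m → ℤ) → V m → ℂ) (a : Fin m → ℤ) (z : V m) : ℂ :=
  ∑ b ∈ desc k l a, f b z

/-- `f` is an admissible family of level `k` -/
def Fam {m : ℕ} (A : ℝ) (k : ℕ) (f : (Fin m → ℤ) → V m → ℂ) : Prop :=
  ∀ a ∈ Lam m k, Fr (reg A k a) (f a)

/-- the sum of the q-th powers of the norms -/
def en {m : ℕ} (q : ℝ) (k : ℕ) (f : (Fin m → ℤ) → V m → ℂ) : ℝ≥0∞ :=
  ∑ a ∈ Lam m k, ∫⁻ z, ‖f a z‖ₑ ^ q

/-- the factor `N^(q/2-1)`, `N = 2^(k m)` the number of labels of level `k` -/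
def nf (m : ℕ) (q : ℝ) (k : ℕ) : ℝ≥0∞ := (2 : ℝ≥0∞) ^ ((k : ℝ) * ((m : ℝ) * (q / 2 - 1)))

/-- decoupling at level `k` with constant `D` (q-th powers, normalised) -/
def DB (m : ℕ) (q A : ℝ) (k : ℕ) (D : ℝ≥0∞) : Prop :=
  ∀ f : (Fin m → ℤ) → V m → ℂ, Fam A k f →
    ∫⁻ z, ‖∑ a ∈ Lam m k, f a z‖ₑ ^ q ≤ D * nf m q k * en q k f

/-- the direction of the planks over `c` -/
def vec {m : ℕ} (c : E m) : V m := ((-2 : ℝ) • c, 1)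

/-- quantitative transversality of `m + 1` points -/
def Tr {m : ℕ} (b : ℝ) (ξ : Fin (m + 1) → E m) : Prop :=
  ∀ c : Fin (m + 1) → ℝ, b * ‖c‖ ≤ ‖∑ j, c j • vec (ξ j)‖

/-- the multilinear inequality at level `k` for transversal labels of level `j` -/
def MB (m : ℕ) (q A b : ℝ) (j k : ℕ) (M : ℝ≥0∞) : Prop :=
  ∀ f : (Fin m → ℤ) → V m → ℂ, Fam A k f →
    ∀ α : Fin (m + 1) → (Fin m → ℤ), (∀ i, α i ∈ Lam m j) → Tr b (fun i => ctr j (α i)) →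
      ∫⁻ z, ∏ i, (cv (fun y => ‖pc k j f (α i) y‖ₑ) (bw (2 ^ j)) z) ^ (q / ((m : ℝ) + 1)) ≤
        M * nf m q k * en q k f

/-- decoupling along a hyperplane: frequencies over the slab `|<ω,ξ> - t| ≤ A/4^j` are decoupled
into the labels of level `j` with constant `Γ` -/
def Cyl (m : ℕ) (q A : ℝ) (j : ℕ) (Γ : ℝ≥0∞) : Prop :=
  ∀ (ω : E m) (t : ℝ), ‖ω‖ = 1 → ∀ (B : Finset (Fin m → ℤ)) (g : (Fin m → ℤ) → V m → ℂ),
    B ⊆ Lam m j →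
    (∀ β ∈ B, Fr {ζ | ‖ζ.1 - ctr j β‖ ≤ A / 2 ^ j ∧ |inner ℝ ω ζ.1 - t| ≤ A / 4 ^ j ∧
      |ζ.2 - ‖ζ.1‖ ^ 2| ≤ A / 4 ^ j} (g β)) →
    ∫⁻ z, ‖∑ β ∈ B, g β z‖ₑ ^ q ≤ Γ * ∑ β ∈ B, ∫⁻ z, ‖g β z‖ₑ ^ q

/-- the exponent of the ball inflation -/
def sx (m : ℕ) (q : ℝ) : ℝ := max 2 (q * m / (m + 1))

/-- the interpolation parameter, `1 / s = (1 - κ) / 2 + κ / q` -/
def kap (m : ℕ) (q : ℝ) : ℝ := (1 / 2 - 1 / sx m q) / (1 / 2 - 1 / q)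

/-- the multilinear quantity of level `l` -/
def Aq {m : ℕ} (q : ℝ) (j k l : ℕ) (f : (Fin m → ℤ) → V m → ℂ)
    (α : Fin (m + 1) → (Fin m → ℤ)) : ℝ≥0∞ :=
  ∫⁻ z, ∏ i, (∑ a ∈ desc l j (α i), cv (fun y => ‖pc k l f a y‖ₑ ^ (2 : ℝ)) (bw (2 ^ l)) z) ^
    (q / (2 * ((m : ℝ) + 1)))

end Pool.LibDC71
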