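import Pool.Agent.LibDC71.Defs

/-! F1 (the class `Fr`). Everything from the definition:
* add: parameter space `S ⊕ S'`, measure `σ.map Sum.inl + σ'.map Sum.inr` (or `Measure.sum` over Bool);
* mul: `S × S'`, `σ.prod σ'`, `g s + g' s'`, `φ s * φ' s'` (`integral_prod_mul`, `Integrable.mul_prod`);
* zero: `S = Empty` or φ = 0; translate: φ' s = φ s * ch w (g s); modulate: g' s = g s + c;
* density: `S = V m`, `g = id`, σ = volume; of_empty: φ = 0 everywhere. -/

set_option autoImplicit false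

noncomputable section

open MeasureTheory
open scoped ENNReal Pointwise

namespace Pool.LibDC71

theorem norm_ch {m : ℕ} (z ζ : V m) : ‖ch z ζ‖ = 1 := by
  unfold ch
  have h : (2 * (Real.pi : ℂ) * Complex.I * ((inner ℝ z.1 ζ.1 + z.2 * ζ.2 : ℝ) : ℂ)) =
      ((2 * Real.pi * (inner ℝ z.1 ζ.1 + z.2 * ζ.2) : ℝ) : ℂ) * Complex.I := by
    push_cast; ring
  rw [h, Complex.norm_exp_ofReal_mul_I]

theorem ch_add_left {m : ℕ} (z w ζ : V m) : ch (z + w) ζ = ch z ζ * ch w ζ := by
  unfold ch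
  rw [← Complex.exp_add]
  congr 1
  rw [Prod.fst_add, Prod.snd_add, inner_add_left]
  push_cast; ring

theorem ch_add_right {m : ℕ} (z ζ ζ' : V m) : ch z (ζ + ζ') = ch z ζ * ch z ζ' := by
  unfold ch
  rw [← Complex.exp_add]
  congr 1
  rw [Prod.fst_add, Prod.snd_add, inner_add_right]
  push_cast; ring

theorem continuous_ch {m : ℕ} : Continuous fun p : V m × V m => ch p.1 p.2 := by
  unfold ch
  fun_prop

private theorem measurable_ch_comp {m : ℕ} {S : Type} [MeasurableSpace S] {a b : S → V m}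
    (ha : Measurable a) (hb : Measurable b) : Measurable (fun s => ch (a s) (b s)) := by
  have h := (continuous_ch (m := m)).measurable
  have h2 := h.comp (ha.prodMk hb)
  exact h2

private theorem integrable_mul_bdd' {S : Type} [MeasurableSpace S] {σ : Measure S}
    {φ u : S → ℂ} (hφ : Integrable φ σ) (hu : AEStronglyMeasurable u σ) (h1 : ∀ s, ‖u s‖ = 1) :
    Integrable (fun s => φ s * u s) σ := by
  refine Integrable.mono' hφ.norm (hφ.aestronglyMeasurable.mul hu) (ae_of_all _ fun s => ?_)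
  rw [norm_mul, h1, mul_one]

private theorem integrable_mul_ch {m : ℕ} {S : Type} [MeasurableSpace S] {σ : Measure S}
    {g : S → V m} {φ : S → ℂ} (hg : Measurable g) (hφ : Integrable φ σ) (z : V m) :
    Integrable (fun s => φ s * ch z (g s)) σ :=
  integrable_mul_bdd' hφ (measurable_ch_comp measurable_const hg).aestronglyMeasurable
    (fun _ => norm_ch _ _)

theorem Fr.mono {m : ℕ} {U U' : Set (V m)} {f : V m → ℂ} (hf : Fr U f) (h : U ⊆ U') : Fr U' f := by
  obtain ⟨S, mS, σ, g, φ, hσ, hg, hφ, hU, hf⟩ := hf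
  exact ⟨S, mS, σ, g, φ, hσ, hg, hφ, fun s hs => h (hU s hs), hf⟩

theorem Fr.zero {m : ℕ} (U : Set (V m)) : Fr U (fun _ => (0 : ℂ)) := by
  refine ⟨Unit, inferInstance, 0, fun _ => 0, fun _ => 0, inferInstance, measurable_const,
    integrable_zero_measure, fun s hs => absurd rfl hs, fun z => ?_⟩
  simp

theorem Fr.of_empty {m : ℕ} {f : V m → ℂ} (hf : Fr (∅ : Set (V m)) f) (z : V m) : f z = 0 := by
  obtain ⟨S, mS, σ, g, φ, hσ, hg, hφ, hU, hf⟩ := hf
  have h : ∀ s, φ s = 0 := fun s => by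
    by_contra hs
    exact hU s hs
  rw [hf z]
  simp [h]

theorem Fr.add {m : ℕ} {U : Set (V m)} {f g : V m → ℂ} (hf : Fr U f) (hg : Fr U g) :
    Fr U (fun z => f z + g z) := by
  obtain ⟨S, mS, σ, a, φ, hσ, ha, hφ, hU, hf⟩ := hf
  obtain ⟨S', mS', σ', a', φ', hσ', ha', hφ', hU', hg⟩ := hg
  have e1 : MeasurableEmbedding (Sum.inl : S → S ⊕ S') := 
    ⟨Sum.inl_injective, measurable_inl, fun _ h => measurableSet_inl_image.2 h⟩
  have e2 : MeasurableEmbedding (Sum.inr : S' → S ⊕ S') := 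
    ⟨Sum.inr_injective, measurable_inr, fun _ h => measurableSet_inr_image.2 h⟩
  refine ⟨S ⊕ S', inferInstance, σ.map Sum.inl + σ'.map Sum.inr, Sum.elim a a', Sum.elim φ φ',
    inferInstance, ha.sumElim ha', ?_, ?_, fun z => ?_⟩
  · refine Integrable.add_measure ?_ ?_
    · rw [e1.integrable_map_iff]
      exact hφ
    · rw [e2.integrable_map_iff]
      exact hφ'
  · rintro (s | s) hs
    · exact hU s hs
    · exact hU' s hs
  · beta_reduce
    rw [integral_add_measure, e1.integral_map, e2.integral_map, hf z, hg z]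
    · rfl
    · rw [e1.integrable_map_iff]
      exact integrable_mul_ch ha hφ z
    · rw [e2.integrable_map_iff]
      exact integrable_mul_ch ha' hφ' z

theorem Fr.const_mul {m : ℕ} {U : Set (V m)} {f : V m → ℂ} (hf : Fr U f) (c : ℂ) :
    Fr U (fun z => c * f z) := by
  obtain ⟨S, mS, σ, g, φ, hσ, hg, hφ, hU, hf⟩ := hf
  refine ⟨S, mS, σ, g, fun s => c * φ s, hσ, hg, hφ.const_mul c, fun s hs => hU s ?_, fun z => ?_⟩
  · exact right_ne_zero_of_mul hs
  · beta_reduce
    rw [hf z, ← integral_const_mul]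
    refine integral_congr_ae (ae_of_all _ fun s => ?_)
    simp only
    ring

theorem Fr.sum {m : ℕ} {U : Set (V m)} {ι : Type} (s : Finset ι) {f : ι → V m → ℂ}
    (hf : ∀ i ∈ s, Fr U (f i)) : Fr U (fun z => ∑ i ∈ s, f i z) := by
  classical
  induction s using Finset.induction_on with
  | empty =>
    simp only [Finset.sum_empty]
    exact Fr.zero U
  | insert i s hi ih =>
    simp only [Finset.sum_insert hi]
    exact Fr.add (hf i (Finset.mem_insert_self i s))
      (ih fun j hj => hf j (Finset.mem_insert_of_mem hj))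

theorem Fr.translate {m : ℕ} {U : Set (V m)} {f : V m → ℂ} (hf : Fr U f) (w : V m) :
    Fr U (fun z => f (z + w)) := by
  obtain ⟨S, mS, σ, g, φ, hσ, hg, hφ, hU, hf⟩ := hf
  refine ⟨S, mS, σ, g, fun s => φ s * ch w (g s), hσ, hg, integrable_mul_ch hg hφ w,
    fun s hs => hU s (left_ne_zero_of_mul hs), fun z => ?_⟩
  beta_reduce
  rw [hf (z + w)]
  refine integral_congr_ae (ae_of_all _ fun s => ?_)
  simp only
  rw [ch_add_left]
  ring

theorem Fr.mul {m : ℕ} {U U' : Set (V m)} {f g : V m → ℂ} (hf : Fr U f) (hg : Fr U' g) :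
    Fr (U + U') (fun z => f z * g z) := by
  obtain ⟨S, mS, σ, a, φ, hσ, ha, hφ, hU, hf⟩ := hf
  obtain ⟨S', mS', σ', a', φ', hσ', ha', hφ', hU', hg⟩ := hg
  refine ⟨S × S', inferInstance, σ.prod σ', fun p => a p.1 + a' p.2, fun p => φ p.1 * φ' p.2,
    inferInstance, ?_, hφ.mul_prod hφ', ?_, fun z => ?_⟩
  · exact (ha.comp measurable_fst).add (ha'.comp measurable_snd)
  · intro s hs
    exact Set.add_mem_add (hU _ (left_ne_zero_of_mul hs)) (hU' _ (right_ne_zero_of_mul hs))
  · beta_reduce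
    rw [hf z, hg z, ← integral_prod_mul]
    refine integral_congr_ae (ae_of_all _ fun s => ?_)
    simp only
    rw [ch_add_right]
    ring

theorem Fr.modulate {m : ℕ} {U : Set (V m)} {f : V m → ℂ} (hf : Fr U f) (c : V m) :
    Fr {ζ | ζ - c ∈ U} (fun z => ch z c * f z) := by
  obtain ⟨S, mS, σ, g, φ, hσ, hg, hφ, hU, hf⟩ := hf
  refine ⟨S, mS, σ, fun s => g s + c, φ, hσ, hg.add_const c, hφ, fun s hs => ?_, fun z => ?_⟩
  · show g s + c - c ∈ U
    rw [add_sub_cancel_right]
    exact hU s hs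
  · beta_reduce
    rw [hf z, ← integral_const_mul]
    refine integral_congr_ae (ae_of_all _ fun s => ?_)
    simp only
    rw [ch_add_right]
    ring

theorem Fr.continuous {m : ℕ} {U : Set (V m)} {f : V m → ℂ} (hf : Fr U f) : Continuous f := by
  obtain ⟨S, mS, σ, g, φ, hσ, hg, hφ, hU, hf⟩ := hf
  have h : f = fun z => ∫ s, φ s * ch z (g s) ∂σ := funext hf
  rw [h]
  refine continuous_of_dominated (bound := fun s => ‖φ s‖)
    (fun z => (integrable_mul_ch hg hφ z).aestronglyMeasurable) (fun z => ae_of_all _ fun s => ?_)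
    hφ.norm (ae_of_all _ fun s => ?_)
  · rw [norm_mul, norm_ch, mul_one]
  · have h1 : Continuous (fun z : V m => (z, g s)) := continuous_id.prodMk continuous_const
    have h2 := (continuous_ch (m := m)).comp h1
    have h3 : Continuous (fun z : V m => ch z (g s)) := h2
    exact continuous_const.mul h3

theorem Fr.bounded {m : ℕ} {U : Set (V m)} {f : V m → ℂ} (hf : Fr U f) :
    ∃ C : ℝ, ∀ z, ‖f z‖ ≤ C := by
  obtain ⟨S, mS, σ, g, φ, hσ, hg, hφ, hU, hf⟩ := hf
  refine ⟨∫ s, ‖φ s‖ ∂σ, fun z => ?_⟩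
  rw [hf z]
  refine (norm_integral_le_integral_norm _).trans (le_of_eq ?_)
  refine integral_congr_ae (ae_of_all _ fun s => ?_)
  simp only
  rw [norm_mul, norm_ch, mul_one]

theorem Fr.measurable_enorm {m : ℕ} {U : Set (V m)} {f : V m → ℂ} (hf : Fr U f) (p : ℝ) :
    Measurable (fun z => ‖f z‖ₑ ^ p) := by
  exact hf.continuous.enorm.measurable.pow_const p

/-- the density form -/
theorem Fr.of_density {m : ℕ} {U : Set (V m)} {φ : V m → ℂ} (hφ : Integrable φ)
    (hU : ∀ ζ, φ ζ ≠ 0 → ζ ∈ U) : Fr U (fun z => ∫ ζ, φ ζ * ch z ζ) := by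
  exact ⟨V m, inferInstance, volume, id, φ, inferInstance, measurable_id, hφ, hU, fun _ => rfl⟩

/-- reproducing formula -/
theorem Fr.reproduce {m : ℕ} {U : Set (V m)} {f : V m → ℂ} (hf : Fr U f) {κ : V m → ℂ}
    (hκ : Integrable κ) (h1 : ∀ ζ ∈ U, ∫ y, κ y * ch (-y) ζ = 1) (z : V m) :
    f z = ∫ y, κ y * f (z - y) := by
  obtain ⟨S, mS, σ, g, φ, hσ, hg, hφ, hU, hf⟩ := hf
  have hi : Integrable (fun p : V m × S => κ p.1 * φ p.2) ((volume : Measure (V m)).prod σ) :=
    hκ.mul_prod hφ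
  have hc : Measurable (fun p : V m × S => ch (z - p.1) (g p.2)) :=
    measurable_ch_comp (measurable_const.sub measurable_fst) (hg.comp measurable_snd)
  have hint : Integrable (fun p : V m × S => κ p.1 * φ p.2 * ch (z - p.1) (g p.2))
      ((volume : Measure (V m)).prod σ) :=
    integrable_mul_bdd' hi hc.aestronglyMeasurable (fun p => norm_ch _ _)
  have hunc : (Function.uncurry fun (y : V m) (s : S) => κ y * (φ s * ch (z - y) (g s))) =
      (fun p : V m × S => κ p.1 * φ p.2 * ch (z - p.1) (g p.2)) := by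
    funext p
    simp only [Function.uncurry]
    ring
  have hsw : ∫ y, (∫ s, κ y * (φ s * ch (z - y) (g s)) ∂σ) =
      ∫ s, (∫ y, κ y * (φ s * ch (z - y) (g s))) ∂σ :=
    integral_integral_swap (f := fun (y : V m) (s : S) => κ y * (φ s * ch (z - y) (g s)))
      (hunc ▸ hint)
  have h2 : ∀ s, ∫ y, κ y * (φ s * ch (z - y) (g s)) = φ s * ch z (g s) := by
    intro s
    by_cases hs : φ s = 0
    · simp [hs]
    · have h3 : ∀ y, κ y * (φ s * ch (z - y) (g s)) =
          φ s * ch z (g s) * (κ y * ch (-y) (g s)) := by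
        intro y
        rw [sub_eq_add_neg, ch_add_left]
        ring
      simp only [h3]
      rw [integral_const_mul, h1 _ (hU s hs), mul_one]
  calc f z = ∫ s, φ s * ch z (g s) ∂σ := hf z
    _ = ∫ s, (∫ y, κ y * (φ s * ch (z - y) (g s))) ∂σ := by simp only [h2]
    _ = ∫ y, (∫ s, κ y * (φ s * ch (z - y) (g s)) ∂σ) := hsw.symm
    _ = ∫ y, κ y * f (z - y) := by
        refine integral_congr_ae (ae_of_all _ fun y => ?_)
        simp only
        rw [integral_const_mul, hf (z - y)]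

theorem Fr.le_cv {m : ℕ} {U : Set (V m)} {f : V m → ℂ} (hf : Fr U f) {κ : V m → ℂ}
    (hκ : Integrable κ) (h1 : ∀ ζ ∈ U, ∫ y, κ y * ch (-y) ζ = 1) (z : V m) :
    ‖f z‖ₑ ≤ cv (fun y => ‖f y‖ₑ) (fun y => ‖κ y‖ₑ) z := by
  rw [hf.reproduce hκ h1 z]
  refine (enorm_integral_le_lintegral_enorm _).trans (le_of_eq ?_)
  unfold cv
  refine lintegral_congr fun y => ?_
  rw [enorm_mul, mul_comm]

end Pool.LibDC71
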