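import Pool.Agent.LibDC71.F1

/-! F3 (parabolic maps). Frequency side: Φ(η,τ) = (λ(η-c), λ^2 (τ - 2<c,η> + |c|^2)), which maps
`cap ξ r h` into `cap (λ(ξ-c)) (λ r) (λ^2 h)` because λ^2(τ-2<c,η>+|c|^2) - |λ(η-c)|^2 = λ^2 (τ-|η|^2).
Space side: ch (x,t) (Φ(η,τ)) = phase * ch (S(x,t)) (η,τ), S(x,t) = (λx - 2λ^2 t c, λ^2 t),
phase = exp(2 pi i (-λ<x,c> + λ^2 t |c|^2)). -/

set_option autoImplicit false

noncomputable section

open MeasureTheory
open scoped ENNReal

namespace Pool.LibDC71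

/-- neighbourhood of the cap of centre `ξ`, radius `r`, thickness `h` -/
def cap {m : ℕ} (ξ : E m) (r h : ℝ) : Set (V m) :=
  {ζ | ‖ζ.1 - ξ‖ ≤ r ∧ |ζ.2 - ‖ζ.1‖ ^ 2| ≤ h}

theorem reg_eq {m : ℕ} (A : ℝ) (k : ℕ) (a : Fin m → ℤ) :
    reg A k a = cap (ctr k a) (A / 2 ^ k) (A / 4 ^ k) := rfl

/-- the parabolic change of variables -/
def gal {m : ℕ} (lam : ℝ) (c : E m) (f : V m → ℂ) (z : V m) : ℂ :=
  Complex.exp (2 * (Real.pi : ℂ) * Complex.I *
    ((-(lam * inner ℝ z.1 c) + lam ^ 2 * z.2 * ‖c‖ ^ 2 : ℝ) : ℂ)) *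
    f (lam • z.1 - (2 * lam ^ 2 * z.2) • c, lam ^ 2 * z.2)

theorem gal_sum {m : ℕ} (lam : ℝ) (c : E m) {ι : Type} (s : Finset ι) (f : ι → V m → ℂ) (z : V m) :
    gal lam c (fun y => ∑ i ∈ s, f i y) z = ∑ i ∈ s, gal lam c (f i) z := by
  unfold gal
  rw [Finset.mul_sum]

private theorem aux_phase {m : ℕ} (lam : ℝ) (c : E m) (z ζ : V m) :
    Complex.exp (2 * (Real.pi : ℂ) * Complex.I *
      ((-(lam * inner ℝ z.1 c) + lam ^ 2 * z.2 * ‖c‖ ^ 2 : ℝ) : ℂ)) *
      ch ((lam • z.1 - (2 * lam ^ 2 * z.2) • c, lam ^ 2 * z.2) : V m) ζ =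
    ch z ((lam • (ζ.1 - c), lam ^ 2 * (ζ.2 - 2 * inner ℝ c ζ.1 + ‖c‖ ^ 2)) : V m) := by
  unfold ch
  rw [← Complex.exp_add]
  congr 1
  rw [← mul_add, ← Complex.ofReal_add]
  congr 2
  simp only [inner_smul_right, inner_sub_right, inner_sub_left, inner_smul_left]
  simp
  ring

theorem Fr_gal {m : ℕ} {lam : ℝ} (hl : 0 < lam) (c ξ : E m) {r h : ℝ} {f : V m → ℂ}
    (hf : Fr (cap ξ r h) f) : Fr (cap (lam • (ξ - c)) (lam * r) (lam ^ 2 * h)) (gal lam c f) := by
  obtain ⟨S, _, σ, g, φ, hσ, hg, hφ, hU, hrep⟩ := hf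
  have hcont : Continuous fun ζ : V m =>
      ((lam • (ζ.1 - c), lam ^ 2 * (ζ.2 - 2 * inner ℝ c ζ.1 + ‖c‖ ^ 2)) : V m) := by
    fun_prop
  refine ⟨S, _, σ, fun s => ((lam • ((g s).1 - c),
    lam ^ 2 * ((g s).2 - 2 * inner ℝ c (g s).1 + ‖c‖ ^ 2)) : V m), φ, hσ,
    hcont.measurable.comp hg, hφ, ?_, ?_⟩
  · intro s hs
    obtain ⟨h1, h2⟩ := hU s hs
    constructor
    · show ‖lam • ((g s).1 - c) - lam • (ξ - c)‖ ≤ lam * r
      rw [← smul_sub, norm_smul, Real.norm_of_nonneg hl.le, sub_sub_sub_cancel_right]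
      exact mul_le_mul_of_nonneg_left h1 hl.le
    · show |lam ^ 2 * ((g s).2 - 2 * inner ℝ c (g s).1 + ‖c‖ ^ 2) -
        ‖lam • ((g s).1 - c)‖ ^ 2| ≤ lam ^ 2 * h
      have h3 : lam ^ 2 * ((g s).2 - 2 * inner ℝ c (g s).1 + ‖c‖ ^ 2) -
          ‖lam • ((g s).1 - c)‖ ^ 2 = lam ^ 2 * ((g s).2 - ‖(g s).1‖ ^ 2) := by
        rw [norm_smul, Real.norm_of_nonneg hl.le, mul_pow, @norm_sub_sq ℝ,
          real_inner_comm]
        simp only [RCLike.re_to_real]
        ring
      rw [h3, abs_mul, abs_of_nonneg (by positivity : (0 : ℝ) ≤ lam ^ 2)]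
      exact mul_le_mul_of_nonneg_left h2 (by positivity)
  · intro z
    unfold gal
    rw [hrep, ← integral_const_mul]
    refine integral_congr_ae (Filter.Eventually.of_forall fun s => ?_)
    show _ * (φ s * _) = _
    rw [mul_left_comm, aux_phase]

/-- the shear -/
private def shear {m : ℕ} (c : E m) : V m ≃ₜ V m where
  toFun z := (z.1 - z.2 • c, z.2)
  invFun z := (z.1 + z.2 • c, z.2)
  left_inv z := by simp
  right_inv z := by simp
  continuous_toFun := by fun_prop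
  continuous_invFun := by fun_prop

/-- the dilation -/
private def dil {m : ℕ} {lam : ℝ} (hl : lam ≠ 0) : V m ≃ₜ V m :=
  (Homeomorph.smulOfNeZero lam hl).prodCongr (Homeomorph.smulOfNeZero (lam ^ 2) (pow_ne_zero 2 hl))

private theorem map_shear {m : ℕ} (c : E m) :
    Measure.map (shear c) (volume : Measure (V m)) = volume := by
  have h1 : MeasurePreserving (fun p : ℝ × E m => (p.1, p.2 - p.1 • c))
      ((volume : Measure ℝ).prod (volume : Measure (E m)))
      ((volume : Measure ℝ).prod (volume : Measure (E m))) := by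
    refine MeasurePreserving.skew_product (g := fun (t : ℝ) (x : E m) => x - t • c)
      (MeasurePreserving.id _) ?_ ?_
    · apply Continuous.measurable
      unfold Function.uncurry
      fun_prop
    · refine Filter.Eventually.of_forall fun t => ?_
      exact (measurePreserving_sub_right (volume : Measure (E m)) (t • c)).map_eq
  have h2 := Measure.measurePreserving_swap (μ := (volume : Measure (E m)))
    (ν := (volume : Measure ℝ))
  have h3 := Measure.measurePreserving_swap (μ := (volume : Measure ℝ))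
    (ν := (volume : Measure (E m)))
  have h4 := h3.comp (h1.comp h2)
  exact h4.map_eq

private theorem map_dil {m : ℕ} {lam : ℝ} (hl : 0 < lam) :
    Measure.map (dil hl.ne') (volume : Measure (V m)) =
      ENNReal.ofReal ((lam ^ (m + 2))⁻¹) • (volume : Measure (V m)) := by
  have h1 : Measure.map (Prod.map (fun x : E m => lam • x) (fun t : ℝ => lam ^ 2 • t))
      ((volume : Measure (E m)).prod (volume : Measure ℝ)) =
      ENNReal.ofReal ((lam ^ (m + 2))⁻¹) • ((volume : Measure (E m)).prod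
        (volume : Measure ℝ)) := by
    rw [← Measure.map_prod_map _ _ (by fun_prop) (by fun_prop),
      Measure.map_addHaar_smul _ hl.ne',
      Measure.map_addHaar_smul _ (pow_ne_zero 2 hl.ne')]
    simp only [finrank_euclideanSpace, Fintype.card_fin, Module.finrank_self, pow_one]
    rw [Measure.prod_smul_left, Measure.prod_smul_right, smul_smul,
      ← ENNReal.ofReal_mul (abs_nonneg _)]
    congr 2
    rw [← abs_mul, abs_of_pos (by positivity), ← mul_inv, ← pow_add]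
  exact h1

/-- change of variables: the map S has determinant λ^(m+2) -/
theorem lintegral_gal {m : ℕ} {lam : ℝ} (hl : 0 < lam) (c : E m) (f : V m → ℂ) (q : ℝ) :
    ∫⁻ z, ‖gal lam c f z‖ₑ ^ q = ENNReal.ofReal ((lam ^ (m + 2))⁻¹) * ∫⁻ z, ‖f z‖ₑ ^ q := by
  have h1 : ∀ z : V m, ‖gal lam c f z‖ₑ = ‖f (dil hl.ne' (shear ((2 * lam) • c) z))‖ₑ := by
    intro z
    have h2 : (dil hl.ne' (shear ((2 * lam) • c) z) : V m) =
        (lam • z.1 - (2 * lam ^ 2 * z.2) • c, lam ^ 2 * z.2) := by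
      show ((lam • (z.1 - z.2 • ((2 * lam) • c)), lam ^ 2 • z.2) : V m) = _
      rw [smul_sub, smul_smul, smul_smul, smul_eq_mul]
      congr 3
      ring
    rw [h2]
    unfold gal
    rw [enorm_mul]
    have h3 : ‖Complex.exp (2 * (Real.pi : ℂ) * Complex.I *
        ((-(lam * inner ℝ z.1 c) + lam ^ 2 * z.2 * ‖c‖ ^ 2 : ℝ) : ℂ))‖ₑ = 1 := by
      have h4 : 2 * (Real.pi : ℂ) * Complex.I *
          ((-(lam * inner ℝ z.1 c) + lam ^ 2 * z.2 * ‖c‖ ^ 2 : ℝ) : ℂ) =
          ((2 * Real.pi * (-(lam * inner ℝ z.1 c) + lam ^ 2 * z.2 * ‖c‖ ^ 2) : ℝ) : ℂ) *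
            Complex.I := by
        push_cast
        ring
      rw [h4, ← ofReal_norm, Complex.norm_exp_ofReal_mul_I]
      simp
    rw [h3, one_mul]
  simp only [h1]
  have h5 := lintegral_map_equiv (μ := (volume : Measure (V m)))
    (fun z : V m => ‖f (dil hl.ne' z)‖ₑ ^ q) (shear ((2 * lam) • c)).toMeasurableEquiv
  have h6 := lintegral_map_equiv (μ := (volume : Measure (V m)))
    (fun z : V m => ‖f z‖ₑ ^ q) (dil (m := m) hl.ne').toMeasurableEquiv
  have h7 : Measure.map ((shear ((2 * lam) • c)).toMeasurableEquiv) (volume : Measure (V m)) =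
      volume := map_shear _
  have h8 : Measure.map ((dil (m := m) hl.ne').toMeasurableEquiv) (volume : Measure (V m)) =
      ENNReal.ofReal ((lam ^ (m + 2))⁻¹) • (volume : Measure (V m)) := map_dil hl
  rw [h7] at h5
  rw [h8, lintegral_smul_measure] at h6
  exact (h5.symm.trans h6.symm)

end Pool.LibDC71
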