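import Pool.Agent.LibDC71.F1

/-! G1 (labels). Integer division in each coordinate: a i = 2^j (a i / 2^j) + r, 0 ≤ r < 2^j.
`Finset.sum_fiberwise_of_maps_to`, `Int.ediv_ediv_eq_ediv_mul`, `Fintype.card_piFinset`. -/

set_option autoImplicit false

noncomputable section

open MeasureTheory
open scoped ENNReal

namespace Pool.LibDC71

theorem mem_Lam {m k : ℕ} {a : Fin m → ℤ} : a ∈ Lam m k ↔ ∀ i, 0 ≤ a i ∧ a i < 2 ^ k := by
  simp [Lam, Fintype.mem_piFinset]

theorem card_Lam (m k : ℕ) : (Lam m k).card = 2 ^ (k * m) := by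
  unfold Lam
  rw [Fintype.card_piFinset]
  have h : (Finset.Ico (0 : ℤ) (2 ^ k)).card = 2 ^ k := by
    rw [Int.card_Ico]
    have : ((2 : ℤ) ^ k - 0) = ((2 ^ k : ℕ) : ℤ) := by push_cast; ring
    rw [this, Int.toNat_natCast]
  simp only [h, Finset.prod_const, Finset.card_univ, Fintype.card_fin]
  rw [← pow_mul]

theorem par_mem {m k l : ℕ} (hl : l ≤ k) {b : Fin m → ℤ} (hb : b ∈ Lam m k) :
    par (k - l) b ∈ Lam m l := by
  rw [mem_Lam] at hb ⊢
  intro i
  have h := hb i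
  have h2 : (0 : ℤ) < 2 ^ (k - l) := by positivity
  refine ⟨Int.ediv_nonneg h.1 h2.le, ?_⟩
  show b i / 2 ^ (k - l) < 2 ^ l
  rw [Int.ediv_lt_iff_lt_mul h2, ← pow_add]
  have : l + (k - l) = k := by omega
  rw [this]
  exact h.2

theorem par_zero {m : ℕ} (a : Fin m → ℤ) : par 0 a = a := by
  funext i
  simp [par]

theorem par_par {m : ℕ} (i j : ℕ) (a : Fin m → ℤ) : par i (par j a) = par (j + i) a := by
  funext s
  show a s / 2 ^ j / 2 ^ i = a s / 2 ^ (j + i)
  rw [Int.ediv_ediv_of_nonneg (by positivity), ← pow_add]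

theorem mem_desc {m k l : ℕ} {a b : Fin m → ℤ} :
    b ∈ desc k l a ↔ b ∈ Lam m k ∧ par (k - l) b = a := by
  simp [desc]

/-- descendants of `a`: `b = 2^(k-l) a + c`, `c` a label of level `k - l` -/
theorem desc_eq {m k l : ℕ} (hl : l ≤ k) {a : Fin m → ℤ} (ha : a ∈ Lam m l) :
    desc k l a = (Lam m (k - l)).image (fun c i => 2 ^ (k - l) * a i + c i) := by
  have h2 : (0 : ℤ) < 2 ^ (k - l) := by positivity
  have hk : (2 : ℤ) ^ k = 2 ^ (k - l) * 2 ^ l := by
    rw [← pow_add]; congr 1; omega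
  rw [mem_Lam] at ha
  ext b
  rw [mem_desc, Finset.mem_image]
  constructor
  · rintro ⟨hb, hp⟩
    refine ⟨fun i => b i % 2 ^ (k - l), ?_, ?_⟩
    · rw [mem_Lam]
      intro i
      exact ⟨Int.emod_nonneg _ h2.ne', Int.emod_lt_of_pos _ h2⟩
    · funext i
      have : a i = b i / 2 ^ (k - l) := by rw [← hp]; rfl
      show 2 ^ (k - l) * a i + b i % 2 ^ (k - l) = b i
      rw [this]
      exact Int.mul_ediv_add_emod _ _
  · rintro ⟨c, hc, rfl⟩
    rw [mem_Lam] at hc
    constructor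
    · rw [mem_Lam]
      intro i
      have h1 := ha i
      have h3 := hc i
      constructor
      · have := mul_nonneg h2.le h1.1
        show 0 ≤ 2 ^ (k - l) * a i + c i
        linarith
      · show 2 ^ (k - l) * a i + c i < 2 ^ k
        rw [hk]
        have h4 : a i + 1 ≤ 2 ^ l := h1.2
        have h5 := mul_le_mul_of_nonneg_left h4 h2.le
        nlinarith [h3.2]
    · funext i
      show (2 ^ (k - l) * a i + c i) / 2 ^ (k - l) = a i
      rw [Int.add_comm, Int.add_mul_ediv_left _ _ h2.ne', Int.ediv_eq_zero_of_lt (hc i).1 (hc i).2,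
        zero_add]

theorem card_desc_le {m k l : ℕ} (hl : l ≤ k) (a : Fin m → ℤ) :
    (desc k l a).card ≤ 2 ^ ((k - l) * m) := by
  by_cases ha : a ∈ Lam m l
  · rw [desc_eq hl ha, ← card_Lam m (k - l)]
    exact Finset.card_image_le
  · have : desc k l a = ∅ := by
      rw [Finset.eq_empty_iff_forall_notMem]
      intro b hb
      rw [mem_desc] at hb
      exact ha (hb.2 ▸ par_mem hl hb.1)
    rw [this]
    simp

/-- summation over labels of level k through level l -/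
theorem sum_desc {m k l : ℕ} (hl : l ≤ k) {M : Type} [AddCommMonoid M] (F : (Fin m → ℤ) → M) :
    ∑ a ∈ Lam m l, ∑ b ∈ desc k l a, F b = ∑ b ∈ Lam m k, F b := by
  unfold desc
  exact Finset.sum_fiberwise_of_maps_to (fun b hb => par_mem hl hb) F

theorem sum_desc_desc {m k l l' : ℕ} (hl : l ≤ l') (hl' : l' ≤ k) {M : Type} [AddCommMonoid M]
    (F : (Fin m → ℤ) → M) {a : Fin m → ℤ} (ha : a ∈ Lam m l) :
    ∑ b ∈ desc l' l a, ∑ b' ∈ desc k l' b, F b' = ∑ b' ∈ desc k l a, F b' := by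
  have _ := ha
  have hmap : ∀ b' ∈ desc k l a, par (k - l') b' ∈ desc l' l a := by
    intro b' hb'
    rw [mem_desc] at hb' ⊢
    refine ⟨par_mem hl' hb'.1, ?_⟩
    rw [par_par]
    have : k - l' + (l' - l) = k - l := by omega
    rw [this]
    exact hb'.2
  rw [← Finset.sum_fiberwise_of_maps_to hmap F]
  refine Finset.sum_congr rfl fun b hb => ?_
  refine Finset.sum_congr ?_ fun _ _ => rfl
  ext b'
  rw [Finset.mem_filter, mem_desc, mem_desc]
  rw [mem_desc] at hb
  constructor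
  · rintro ⟨h1, h2⟩
    refine ⟨⟨h1, ?_⟩, h2⟩
    have : k - l = k - l' + (l' - l) := by omega
    rw [this, ← par_par, h2]
    exact hb.2
  · rintro ⟨⟨h1, _⟩, h2⟩
    exact ⟨h1, h2⟩

theorem sum_pc {m k l : ℕ} (hl : l ≤ k) (f : (Fin m → ℤ) → V m → ℂ) (z : V m) :
    ∑ a ∈ Lam m l, pc k l f a z = ∑ b ∈ Lam m k, f b z := by
  unfold pc
  exact sum_desc hl (fun b => f b z)

theorem pc_pc {m k l l' : ℕ} (hl : l ≤ l') (hl' : l' ≤ k) (f : (Fin m → ℤ) → V m → ℂ)
    {a : Fin m → ℤ} (ha : a ∈ Lam m l) (z : V m) :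
    pc k l f a z = ∑ b ∈ desc l' l a, pc k l' f b z := by
  unfold pc
  exact (sum_desc_desc hl hl' (fun b => f b z) ha).symm

theorem pc_self {m k : ℕ} (f : (Fin m → ℤ) → V m → ℂ) {a : Fin m → ℤ} (ha : a ∈ Lam m k)
    (z : V m) : pc k k f a z = f a z := by
  unfold pc
  have : desc k k a = {a} := by
    ext b
    rw [mem_desc, Nat.sub_self, par_zero, Finset.mem_singleton]
    exact ⟨fun h => h.2, fun h => ⟨h ▸ ha, h⟩⟩
  rw [this, Finset.sum_singleton]

end Pool.LibDC71
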