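import Pool.Agent.LibDC71.W1
import Pool.Agent.LibDC71.W2

/-! W3. `bw r * bw R ≤ C bw R` for `r ≤ R`, with the SAME exponent N = m + 2.
Proof: `cv (bw r) (bw R) z = ∫ bw r (z - y) bw R y dy`.
Region A, ‖z - y‖ ≤ ‖z‖/2: then ‖y‖ ≥ ‖z‖/2, bw R y ≤ 2^N bw R z; integral ≤ 2^N bw R z * mass.
Region B, ‖z - y‖ > ‖z‖/2: if ‖z‖ ≤ R: bw R y ≤ R^(-m-1) ≤ 2^N bw R z, integral ≤ 2^N bw R z mass.
If ‖z‖ > R: bw r (z-y) ≤ 2^N r^(-m-1) (‖z‖/r)^(-N) = 2^N r ‖z‖^(-N) ≤ 2^N R ‖z‖^(-N)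
= 2^N R^(-m-1) (‖z‖/R)^(-N) ≤ 4^N bw R z (as 1+‖z‖/R ≤ 2‖z‖/R), integral ≤ 4^N bw R z * mass. -/

set_option autoImplicit false

noncomputable section

open MeasureTheory
open scoped ENNReal

namespace Pool.LibDC71

private theorem haar_V (m : ℕ) : (volume : Measure (V m)).IsAddHaarMeasure :=
  inferInstanceAs (((volume : Measure (E m)).prod (volume : Measure ℝ)).IsAddHaarMeasure)

private theorem bw_eq {m : ℕ} {r : ℝ} (hr : 0 < r) (z : V m) :
    bw r z = ENNReal.ofReal (r / (r + ‖z‖) ^ (m + 2)) := by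
  unfold bw
  congr 1
  have h0 : 0 ≤ ‖z‖ := norm_nonneg z
  have h1 : 1 + ‖z‖ / r = (r + ‖z‖) / r := by field_simp
  rw [h1, div_pow]
  have h2 : r + ‖z‖ ≠ 0 := by positivity
  have h3 : (r + ‖z‖) ^ (m + 2) ≠ 0 := pow_ne_zero _ h2
  have h4 : r ^ (m + 1) ≠ 0 := pow_ne_zero _ hr.ne'
  rw [inv_div, ← div_eq_inv_mul, div_div, div_eq_div_iff (mul_ne_zero h3 h4) h3, pow_succ r (m + 1)]
  ring

private theorem cmp (m : ℕ) {r R x y : ℝ} (hr : 0 < r) (hrR : r ≤ R) (hx : 0 ≤ x)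
    (h : R + x ≤ 4 * (r + y)) (hy : 0 ≤ y) :
    r / (r + y) ^ (m + 2) ≤ 4 ^ (m + 2) * (R / (R + x) ^ (m + 2)) := by
  have hR : 0 < R := lt_of_lt_of_le hr hrR
  rw [← mul_div_assoc, div_le_div_iff₀ (by positivity) (by positivity)]
  have h1 : (R + x) ^ (m + 2) ≤ (4 * (r + y)) ^ (m + 2) := by gcongr
  calc r * (R + x) ^ (m + 2) ≤ R * (4 * (r + y)) ^ (m + 2) := by gcongr
    _ = _ := by rw [mul_pow]; ring

private theorem cmpE {m : ℕ} {r R : ℝ} (hr : 0 < r) (hrR : r ≤ R) (z w : V m)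
    (h : R + ‖z‖ ≤ 4 * (r + ‖w‖)) :
    bw r w ≤ ENNReal.ofReal (4 ^ (m + 2)) * bw R z := by
  have hR : 0 < R := lt_of_lt_of_le hr hrR
  rw [bw_eq hr, bw_eq hR, ← ENNReal.ofReal_mul (by positivity)]
  exact ENNReal.ofReal_le_ofReal (cmp m hr hrR (norm_nonneg z) h (norm_nonneg w))

private theorem ptw {m : ℕ} {r R : ℝ} (hr : 0 < r) (hrR : r ≤ R) (z y : V m) :
    bw r (z - y) * bw R y ≤
      (ENNReal.ofReal (4 ^ (m + 2)) * bw R z) * bw r (z - y) + (ENNReal.ofReal (4 ^ (m + 2)) * bw R z) * bw R y := by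
  have hR : 0 < R := lt_of_lt_of_le hr hrR
  have h0 : 0 ≤ ‖z‖ := norm_nonneg z
  have h1 : 0 ≤ ‖y‖ := norm_nonneg y
  have h2 : ‖z‖ ≤ ‖z - y‖ + ‖y‖ := by
    have := norm_add_le (z - y) y
    rwa [sub_add_cancel] at this
  by_cases hc : R + ‖z‖ ≤ 4 * (R + ‖y‖)
  · have h3 := cmpE hR le_rfl z y hc
    calc bw r (z - y) * bw R y ≤ bw r (z - y) * (ENNReal.ofReal (4 ^ (m + 2)) * bw R z) := by gcongr
      _ = (ENNReal.ofReal (4 ^ (m + 2)) * bw R z) * bw r (z - y) := mul_comm _ _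
      _ ≤ _ := le_self_add
  · have h4 : R + ‖z‖ ≤ 4 * (r + ‖z - y‖) := by
      push Not at hc
      linarith
    have h3 := cmpE hr hrR z (z - y) h4
    calc bw r (z - y) * bw R y ≤ (ENNReal.ofReal (4 ^ (m + 2)) * bw R z) * bw R y := by gcongr
      _ ≤ _ := le_add_self

theorem cv_bw_bw (m : ℕ) : ∃ C : ℝ≥0∞, C ≠ ⊤ ∧ ∀ r R : ℝ, 0 < r → r ≤ R → ∀ z : V m,
    cv (bw r) (bw R) z ≤ C * bw R z := by
  obtain ⟨M, hM, -, hm⟩ := mass_bw m
  refine ⟨ENNReal.ofReal (4 ^ (m + 2)) * (M + M), ENNReal.mul_ne_top ENNReal.ofReal_ne_top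
    (ENNReal.add_ne_top.2 ⟨hM, hM⟩), ?_⟩
  intro r R hr hrR z
  have hR : 0 < R := lt_of_lt_of_le hr hrR
  have hcz : ENNReal.ofReal (4 ^ (m + 2)) * bw R z ≠ ⊤ := ENNReal.mul_ne_top ENNReal.ofReal_ne_top (bw_ne_top R z)
  have := haar_V m
  unfold cv
  calc ∫⁻ y, bw r (z - y) * bw R y ≤ ∫⁻ y, ((ENNReal.ofReal (4 ^ (m + 2)) * bw R z) * bw r (z - y) +
        (ENNReal.ofReal (4 ^ (m + 2)) * bw R z) * bw R y) := lintegral_mono fun y => ptw hr hrR z y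
    _ = (ENNReal.ofReal (4 ^ (m + 2)) * bw R z) * (∫⁻ y, bw r (z - y)) +
        (ENNReal.ofReal (4 ^ (m + 2)) * bw R z) * (∫⁻ y : V m, bw R y) := by
        rw [lintegral_add_right _ ((measurable_bw R).const_mul _), lintegral_const_mul' _ _ hcz,
          lintegral_const_mul' _ _ hcz]
    _ = (ENNReal.ofReal (4 ^ (m + 2)) * bw R z) * M + (ENNReal.ofReal (4 ^ (m + 2)) * bw R z) * M := by
        rw [lintegral_sub_left_eq_self (fun y : V m => bw r y) z, hm r hr, hm R hR]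
    _ = _ := by ring

/-- `bw R ≤ C (bw r * bw R)` for `r ≤ R` (restrict the integral to ‖y‖ ≤ r) -/
theorem bw_le_cv (m : ℕ) : ∃ C : ℝ≥0∞, C ≠ ⊤ ∧ ∀ r R : ℝ, 0 < r → r ≤ R → ∀ z : V m,
    bw R z ≤ C * cv (bw r) (bw R) z := by
  have := haar_V m
  obtain ⟨U, hU⟩ : ∃ U : ℝ≥0∞, U = volume (Metric.ball (0 : V m) 1) := ⟨_, rfl⟩
  have hU0 : U ≠ 0 := by
    rw [hU]
    exact (Metric.measure_ball_pos volume (0 : V m) one_pos).ne'
  have hUt : U ≠ ⊤ := by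
    rw [hU]
    exact measure_ball_lt_top.ne
  obtain ⟨c, hc⟩ : ∃ c : ℝ, c = 2 ^ (m + 2) := ⟨_, rfl⟩
  have hc0 : 0 < c := by rw [hc]; positivity
  refine ⟨U⁻¹ * (ENNReal.ofReal c * ENNReal.ofReal c), ENNReal.mul_ne_top (ENNReal.inv_ne_top.2 hU0)
    (ENNReal.mul_ne_top ENNReal.ofReal_ne_top ENNReal.ofReal_ne_top), ?_⟩
  intro r R hr hrR z
  have hR : 0 < R := lt_of_lt_of_le hr hrR
  have hpt : ∀ y ∈ Metric.closedBall z r, ENNReal.ofReal (r ^ (m + 1))⁻¹ * bw R z ≤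
      (ENNReal.ofReal c * ENNReal.ofReal c) * (bw r (z - y) * bw R y) := by
    intro y hy
    have h1 : ‖z - y‖ ≤ r := by
      rw [Metric.mem_closedBall, dist_comm, dist_eq_norm] at hy
      exact hy
    have h2 := le_bw hr (z - y) h1
    have h3 : bw R z ≤ ENNReal.ofReal c * bw R y := by
      have h4 := bw_translate hR y (z - y)
      rw [add_sub_cancel] at h4
      refine h4.trans ?_
      gcongr
      rw [hc]
      have h5 : ‖z - y‖ / R ≤ 1 := by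
        rw [div_le_one hR]
        exact h1.trans hrR
      have h6 : 0 ≤ ‖z - y‖ / R := by positivity
      gcongr
      linarith
    have h4 : ENNReal.ofReal (r ^ (m + 1))⁻¹ ≤ ENNReal.ofReal c * bw r (z - y) := by
      calc ENNReal.ofReal (r ^ (m + 1))⁻¹ = ENNReal.ofReal c *
            ENNReal.ofReal ((2 ^ (m + 2))⁻¹ * (r ^ (m + 1))⁻¹) := by
              rw [← ENNReal.ofReal_mul hc0.le, hc]
              congr 1
              field_simp
        _ ≤ _ := by gcongr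
    calc ENNReal.ofReal (r ^ (m + 1))⁻¹ * bw R z ≤ (ENNReal.ofReal c * bw r (z - y)) * (ENNReal.ofReal c * bw R y) :=
          mul_le_mul' h4 h3
      _ = _ := by ring
  have hvol : volume (Metric.closedBall z r) = ENNReal.ofReal (r ^ (m + 1)) * U := by
    rw [Measure.addHaar_closedBall volume z hr.le, finrank_V, hU]
  have h1 : ENNReal.ofReal (r ^ (m + 1))⁻¹ * bw R z * volume (Metric.closedBall z r) ≤
      (ENNReal.ofReal c * ENNReal.ofReal c) * cv (bw r) (bw R) z := by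
    rw [← setLIntegral_const]
    calc ∫⁻ _ in Metric.closedBall z r, ENNReal.ofReal (r ^ (m + 1))⁻¹ * bw R z ≤
        ∫⁻ y in Metric.closedBall z r, (ENNReal.ofReal c * ENNReal.ofReal c) * (bw r (z - y) * bw R y) :=
          setLIntegral_mono' Metric.isClosed_closedBall.measurableSet hpt
      _ ≤ ∫⁻ y, (ENNReal.ofReal c * ENNReal.ofReal c) * (bw r (z - y) * bw R y) := setLIntegral_le_lintegral _ _
      _ = _ := by
        rw [lintegral_const_mul' _ _ (ENNReal.mul_ne_top ENNReal.ofReal_ne_top ENNReal.ofReal_ne_top)]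
        rfl
  rw [hvol] at h1
  have h2 : ENNReal.ofReal (r ^ (m + 1))⁻¹ * bw R z * (ENNReal.ofReal (r ^ (m + 1)) * U) = U * bw R z := by
    have h3 : ENNReal.ofReal (r ^ (m + 1))⁻¹ * ENNReal.ofReal (r ^ (m + 1)) = 1 := by
      rw [← ENNReal.ofReal_mul (by positivity), inv_mul_cancel₀ (by positivity), ENNReal.ofReal_one]
    calc ENNReal.ofReal (r ^ (m + 1))⁻¹ * bw R z * (ENNReal.ofReal (r ^ (m + 1)) * U) =
        (ENNReal.ofReal (r ^ (m + 1))⁻¹ * ENNReal.ofReal (r ^ (m + 1))) * (U * bw R z) := by ring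
      _ = _ := by rw [h3, one_mul]
  rw [h2] at h1
  calc bw R z = U⁻¹ * (U * bw R z) := by
        rw [← mul_assoc, ENNReal.inv_mul_cancel hU0 hUt, one_mul]
    _ ≤ U⁻¹ * ((ENNReal.ofReal c * ENNReal.ofReal c) * cv (bw r) (bw R) z) := by gcongr
    _ = _ := by ring

/-- a function is bounded by `C (1+‖z‖/r)^(m+2)` times its average at the origin:
`cv h (bw r) z ≤ (1 + ‖z - w‖/r)^(m+2) cv h (bw r) w` -/
theorem cv_bw_move {m : ℕ} {r : ℝ} (hr : 0 < r) (h : V m → ℝ≥0∞) (z w : V m) :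
    cv h (bw r) z ≤ ENNReal.ofReal ((1 + ‖z - w‖ / r) ^ (m + 2)) * cv h (bw r) w := by
  have := haar_V m
  unfold cv
  rw [← lintegral_const_mul' _ _ ENNReal.ofReal_ne_top,
    ← lintegral_add_right_eq_self (fun y => h (z - y) * bw r y) (z - w)]
  refine lintegral_mono fun y => ?_
  have h1 : z - (y + (z - w)) = w - y := by abel
  change h (z - (y + (z - w))) * bw r (y + (z - w)) ≤ _
  rw [h1]
  calc h (w - y) * bw r (y + (z - w)) ≤ h (w - y) * (ENNReal.ofReal ((1 + ‖z - w‖ / r) ^ (m + 2)) * bw r y) := by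
        gcongr
        exact bw_translate hr y (z - w)
    _ = _ := by ring

end Pool.LibDC71
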