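import Pool.Agent.LibDC71.F1
import Pool.Agent.LibDC71.K1
import Pool.Agent.LibDC71.W3

/-! K3 (local L2 orthogonality). w of `exists_weight`, w_R(y) = w(y/R): ∫ w_R(y) ch y ζ dy = 0 for
‖ζ‖ ≥ 1/R. For z0 in V m: ∫ |∑ f_i|^2 w_R(· - z0) = ∑_{i,j} ∫ f_i conj(f_j) w_R(· - z0); the (i,j)
term is ∬ φ_i(s) conj φ_j(s') ch z0 (..) [∫ w_R(y) ch y (g_i s - g_j s') dy] (Fubini, bounded times
integrable) and vanishes if ‖c_i - c_j‖ > (2A+1)/R. The remaining terms: |f_i f_j| ≤ (|f_i|^2+|f_j|^2)/2,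
so ≤ L ∑ ∫ |f_i|^2 w_R(· - z0). Hence ∫_{‖y-z0‖ ≤ R} |∑ f|^2 ≤ C L R^(m+1) ∑ cv |f_i|^2 (bw R) z0.
Then cv |F|^2 (bw R) z ≤ C ∫ bw R (z - y) R^(-m-1) ∫_{‖u-y‖ ≤ R} |F u|^2 du dy
≤ C' L ∑ cv (cv |f_i|^2 (bw R)) (bw R) z ≤ C'' L ∑ cv |f_i|^2 (bw R) z. -/

set_option autoImplicit false

noncomputable section

open MeasureTheory
open scoped ENNReal

namespace Pool.LibDC71

private theorem K3_haar (m : ℕ) : (volume : Measure (V m)).IsAddHaarMeasure := by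
  rw [volume_V]
  infer_instance

private theorem K3_ch_neg {m : ℕ} (z ζ : V m) : ch z (-ζ) = (starRingEnd ℂ) (ch z ζ) := by
  unfold ch
  rw [← Complex.exp_conj]
  congr 1
  rw [map_mul, map_mul, map_mul, Complex.conj_I, Complex.conj_ofReal, Complex.conj_ofReal, map_ofNat,
    Prod.fst_neg, Prod.snd_neg, inner_neg_right]
  push_cast
  ring

private theorem K3_conj {m : ℕ} {U : Set (V m)} {f : V m → ℂ} (hf : Fr U f) :
    Fr {ζ | -ζ ∈ U} (fun z => (starRingEnd ℂ) (f z)) := by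
  obtain ⟨S, mS, σ, g, φ, hσ, hg, hφ, hU, hf⟩ := hf
  refine ⟨S, mS, σ, fun s => -g s, fun s => (starRingEnd ℂ) (φ s), hσ, hg.neg, ?_, ?_, ?_⟩
  · exact (Complex.conjCLE.toContinuousLinearMap.integrable_comp hφ)
  · intro s hs
    show - -g s ∈ U
    rw [neg_neg]
    refine hU s fun h => hs ?_
    show (starRingEnd ℂ) (φ s) = 0
    rw [h, map_zero]
  · intro z
    show (starRingEnd ℂ) (f z) = _
    rw [hf z, ← integral_conj]
    refine integral_congr_ae (Filter.Eventually.of_forall fun s => ?_)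
    show (starRingEnd ℂ) (φ s * ch z (g s)) = (starRingEnd ℂ) (φ s) * ch z (-g s)
    rw [map_mul, K3_ch_neg]

private theorem K3_prod0 {X S : Type} [MeasurableSpace X] [MeasurableSpace S] {μ : Measure X} [SFinite μ]
    {σ : Measure S} [SFinite σ] {φ : S → ℂ} (hφ : Integrable φ σ) {W : X → ℂ} (hW : Integrable W μ)
    {c : X → S → ℂ} (hc : Measurable fun p : X × S => c p.1 p.2) (h1 : ∀ x s, ‖c x s‖ = 1) :
    Integrable (fun p : X × S => W p.1 * (φ p.2 * c p.1 p.2)) (μ.prod σ) := by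
  have h2 : Integrable (fun p : X × S => W p.1 * φ p.2) (μ.prod σ) := hW.mul_prod hφ
  have h4 : AEStronglyMeasurable (fun p : X × S => W p.1 * (φ p.2 * c p.1 p.2)) (μ.prod σ) := by
    have h5 := h2.aestronglyMeasurable.mul hc.aestronglyMeasurable
    refine h5.congr (Filter.Eventually.of_forall fun p => ?_)
    show W p.1 * φ p.2 * c p.1 p.2 = W p.1 * (φ p.2 * c p.1 p.2)
    rw [mul_assoc]
  refine Integrable.mono' h2.norm h4 (Filter.Eventually.of_forall fun p => ?_)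
  rw [norm_mul, norm_mul, norm_mul, h1, mul_one]

private theorem K3_prod1 {m : ℕ} {S : Type} [MeasurableSpace S] {g : S → V m} (hg : Measurable g) :
    Measurable fun p : V m × S => ch p.1 (g p.2) := by
  have h : Measurable fun q : V m × V m => ch q.1 q.2 := (continuous_ch (m := m)).measurable
  have h2 : Measurable fun p : V m × S => (p.1, g p.2) :=
    measurable_fst.prodMk (hg.comp measurable_snd)
  exact Measurable.comp (g := fun q : V m × V m => ch q.1 q.2)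
    (f := fun p : V m × S => (p.1, g p.2)) h h2

private theorem K3_swap {m : ℕ} {S : Type} [MeasurableSpace S] {σ : Measure S} [SFinite σ] {g : S → V m}
    {φ : S → ℂ} (hg : Measurable g) (hφ : Integrable φ σ) {W : V m → ℂ} (hW : Integrable W) :
    ∫ y, ∫ s, W y * (φ s * ch y (g s)) ∂σ = ∫ s, (∫ y, W y * (φ s * ch y (g s))) ∂σ :=
  integral_integral_swap (f := fun y s => W y * (φ s * ch y (g s)))
    (K3_prod0 (c := fun y s => ch y (g s)) hφ hW (K3_prod1 hg) fun y s => norm_ch y (g s))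

private theorem K3_zero {m : ℕ} {U : Set (V m)} {f : V m → ℂ} (hf : Fr U f) {W : V m → ℂ}
    (hW : Integrable W) (h0 : ∀ ζ ∈ U, ∫ y, W y * ch y ζ = 0) : ∫ y, f y * W y = 0 := by
  obtain ⟨S, mS, σ, g, φ, hσ, hg, hφ, hU, hf⟩ := hf
  have := hσ
  have h1 : ∫ y, f y * W y = ∫ y, ∫ s, W y * (φ s * ch y (g s)) ∂σ := by
    refine integral_congr_ae (Filter.Eventually.of_forall fun y => ?_)
    show f y * W y = ∫ s, W y * (φ s * ch y (g s)) ∂σ
    rw [hf y, integral_const_mul, mul_comm]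
  rw [h1, K3_swap hg hφ hW]
  have h2 : ∀ s, ∫ y, W y * (φ s * ch y (g s)) = 0 := by
    intro s
    by_cases hs : φ s = 0
    · simp [hs]
    · have h3 : ∀ y, W y * (φ s * ch y (g s)) = φ s * (W y * ch y (g s)) := fun y => by ring
      simp_rw [h3]
      rw [integral_const_mul, h0 _ (hU s hs), mul_zero]
  simp_rw [h2]
  exact integral_zero _ _

open scoped Pointwise in
private theorem K3_cross {m : ℕ} {U U' : Set (V m)} {f g : V m → ℂ} (hf : Fr U f) (hg : Fr U' g)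
    {W : V m → ℂ} (hW : Integrable W) (h0 : ∀ ζ ∈ U, ∀ ζ' ∈ U', ∫ y, W y * ch y (ζ - ζ') = 0) :
    ∫ y, f y * (starRingEnd ℂ) (g y) * W y = 0 := by
  refine K3_zero (hf.mul (K3_conj hg)) hW ?_
  rintro _ ⟨ζ, hζ, ζ', hζ', rfl⟩
  have h := h0 ζ hζ (-ζ') hζ'
  rw [sub_neg_eq_add] at h
  exact h

private theorem K3_int {m : ℕ} {W : V m → ℂ} (hW : Integrable W) {g : V m → ℂ} (hg : Continuous g)
    {C : ℝ} (hb : ∀ y, ‖g y‖ ≤ C) : Integrable (fun y => g y * W y) := by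
  refine Integrable.mono' (hW.norm.const_mul C) (hg.aestronglyMeasurable.mul hW.aestronglyMeasurable)
    (Filter.Eventually.of_forall fun y => ?_)
  rw [norm_mul]
  exact mul_le_mul_of_nonneg_right (hb y) (norm_nonneg _)

private theorem K3_intr {m : ℕ} {W : V m → ℝ} (hW : Integrable W) {g : V m → ℝ} (hg : Continuous g)
    {C : ℝ} (hb : ∀ y, ‖g y‖ ≤ C) : Integrable (fun y => g y * W y) := by
  refine Integrable.mono' (hW.norm.const_mul C) (hg.aestronglyMeasurable.mul hW.aestronglyMeasurable)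
    (Filter.Eventually.of_forall fun y => ?_)
  rw [norm_mul]
  exact mul_le_mul_of_nonneg_right (hb y) (norm_nonneg _)

private theorem K3_sum {ι : Type} (s : Finset ι) (N : ι → ι → Prop) [∀ i j, Decidable (N i j)]
    (hN : ∀ i j, N i j → N j i) (L : ℕ) (hL : ∀ i ∈ s, (s.filter (N i)).card ≤ L) (J : ι → ℝ)
    (hJ : ∀ i ∈ s, 0 ≤ J i) (I : ι → ι → ℝ) (hI : ∀ i ∈ s, ∀ j ∈ s, I i j ≤ (J i + J j) / 2)
    (h0 : ∀ i ∈ s, ∀ j ∈ s, ¬ N i j → I i j = 0) :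
    ∑ i ∈ s, ∑ j ∈ s, I i j ≤ L * ∑ i ∈ s, J i := by
  have h1 : ∑ i ∈ s, ∑ j ∈ s, (if N i j then J i else 0) ≤ L * ∑ i ∈ s, J i := by
    rw [Finset.mul_sum]
    refine Finset.sum_le_sum fun i hi => ?_
    rw [← Finset.sum_filter, Finset.sum_const, nsmul_eq_mul]
    exact mul_le_mul_of_nonneg_right (by exact_mod_cast hL i hi) (hJ i hi)
  have h2 : ∑ i ∈ s, ∑ j ∈ s, (if N i j then J j else 0) ≤ L * ∑ i ∈ s, J i := by
    rw [Finset.sum_comm]
    refine le_trans (le_of_eq ?_) h1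
    refine Finset.sum_congr rfl fun j _ => Finset.sum_congr rfl fun i _ => ?_
    by_cases h : N i j
    · rw [if_pos h, if_pos (hN i j h)]
    · rw [if_neg h, if_neg fun h' => h (hN j i h')]
  have h3 : ∑ i ∈ s, ∑ j ∈ s, I i j ≤
      ∑ i ∈ s, ∑ j ∈ s, ((if N i j then J i else 0) / 2 + (if N i j then J j else 0) / 2) := by
    refine Finset.sum_le_sum fun i hi => Finset.sum_le_sum fun j hj => ?_
    by_cases h : N i j
    · rw [if_pos h, if_pos h]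
      have := hI i hi j hj
      linarith
    · rw [if_neg h, if_neg h, h0 i hi j hj h]
      simp
  refine h3.trans ?_
  have h4 : ∑ i ∈ s, ∑ j ∈ s, ((if N i j then J i else 0) / 2 + (if N i j then J j else 0) / 2) =
      (∑ i ∈ s, ∑ j ∈ s, (if N i j then J i else 0)) / 2 +
        (∑ i ∈ s, ∑ j ∈ s, (if N i j then J j else 0)) / 2 := by
    simp only [Finset.sum_add_distrib, Finset.sum_div]
  rw [h4]
  linarith

/-- the inequality with a weight, real form -/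
private theorem K3_real {m : ℕ} {ι : Type} (s : Finset ι) (U : ι → Set (V m)) (f : ι → V m → ℂ)
    (hf : ∀ i ∈ s, Fr (U i) (f i)) (N : ι → ι → Prop) [∀ i j, Decidable (N i j)]
    (hN : ∀ i j, N i j → N j i) (L : ℕ) (hL : ∀ i ∈ s, (s.filter (N i)).card ≤ L) (W : V m → ℝ)
    (hW : Integrable W) (hW0 : ∀ y, 0 ≤ W y)
    (h0 : ∀ i ∈ s, ∀ j ∈ s, ¬ N i j → ∀ ζ ∈ U i, ∀ ζ' ∈ U j, ∫ y, (W y : ℂ) * ch y (ζ - ζ') = 0) :
    ∫ y, ‖∑ i ∈ s, f i y‖ ^ 2 * W y ≤ L * ∑ i ∈ s, ∫ y, ‖f i y‖ ^ 2 * W y := by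
  have hWc : Integrable fun y => (W y : ℂ) := hW.ofReal
  have hb : ∀ i ∈ s, ∃ C : ℝ, 0 ≤ C ∧ ∀ y, ‖f i y‖ ≤ C := by
    intro i hi
    obtain ⟨C, hC⟩ := (hf i hi).bounded
    exact ⟨C, (norm_nonneg _).trans (hC 0), hC⟩
  have hint2 : ∀ i ∈ s, Integrable fun y => ‖f i y‖ ^ 2 * W y := by
    intro i hi
    obtain ⟨C, hC0, hC⟩ := hb i hi
    refine K3_intr hW ((hf i hi).continuous.norm.pow 2) (C := C ^ 2) fun y => ?_
    rw [Real.norm_eq_abs, abs_of_nonneg (by positivity)]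
    exact pow_le_pow_left₀ (norm_nonneg _) (hC y) 2
  have hintc : ∀ i ∈ s, ∀ j ∈ s, Integrable fun y => f i y * (starRingEnd ℂ) (f j y) * (W y : ℂ) := by
    intro i hi j hj
    obtain ⟨C, hC0, hC⟩ := hb i hi
    obtain ⟨C', hC0', hC'⟩ := hb j hj
    refine K3_int hWc ((hf i hi).continuous.mul (Complex.continuous_conj.comp (hf j hj).continuous))
      (C := C * C') fun y => ?_
    rw [norm_mul, RCLike.norm_conj]
    exact mul_le_mul (hC y) (hC' y) (norm_nonneg _) hC0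
  have h1 : ∀ y, ((‖∑ i ∈ s, f i y‖ ^ 2 * W y : ℝ) : ℂ) =
      ∑ i ∈ s, ∑ j ∈ s, f i y * (starRingEnd ℂ) (f j y) * (W y : ℂ) := by
    intro y
    push_cast
    rw [← Complex.mul_conj', map_sum, Finset.sum_mul_sum, Finset.sum_mul]
    refine Finset.sum_congr rfl fun i _ => ?_
    rw [Finset.sum_mul]
  have h2 : ((∫ y, ‖∑ i ∈ s, f i y‖ ^ 2 * W y : ℝ) : ℂ) =
      ∑ i ∈ s, ∑ j ∈ s, ∫ y, f i y * (starRingEnd ℂ) (f j y) * (W y : ℂ) := by
    rw [← integral_complex_ofReal]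
    have h3 : (∫ y, ((‖∑ i ∈ s, f i y‖ ^ 2 * W y : ℝ) : ℂ)) =
        ∫ y, ∑ i ∈ s, ∑ j ∈ s, f i y * (starRingEnd ℂ) (f j y) * (W y : ℂ) :=
      integral_congr_ae (Filter.Eventually.of_forall h1)
    refine h3.trans ?_
    rw [integral_finsetSum s fun i hi => integrable_finsetSum s fun j hj => hintc i hi j hj]
    refine Finset.sum_congr rfl fun i hi => ?_
    rw [integral_finsetSum s fun j hj => hintc i hi j hj]
  have h4 : ∫ y, ‖∑ i ∈ s, f i y‖ ^ 2 * W y =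
      ∑ i ∈ s, ∑ j ∈ s, (∫ y, f i y * (starRingEnd ℂ) (f j y) * (W y : ℂ)).re := by
    have h5 := congrArg Complex.re h2
    rw [Complex.ofReal_re, Complex.re_sum] at h5
    rw [h5]
    refine Finset.sum_congr rfl fun i _ => ?_
    rw [Complex.re_sum]
  rw [h4]
  refine K3_sum s N hN L hL (fun i => ∫ y, ‖f i y‖ ^ 2 * W y) ?_ _ ?_ ?_
  · intro i _
    exact integral_nonneg fun y => mul_nonneg (by positivity) (hW0 y)
  · intro i hi j hj
    refine (Complex.re_le_norm _).trans ((norm_integral_le_integral_norm _).trans ?_)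
    rw [← integral_add (hint2 i hi) (hint2 j hj), ← integral_div]
    refine integral_mono (hintc i hi j hj).norm (((hint2 i hi).add (hint2 j hj)).div_const 2) fun y => ?_
    show ‖f i y * (starRingEnd ℂ) (f j y) * (W y : ℂ)‖ ≤ (‖f i y‖ ^ 2 * W y + ‖f j y‖ ^ 2 * W y) / 2
    rw [norm_mul, norm_mul, RCLike.norm_conj, Complex.norm_real, Real.norm_eq_abs, abs_of_nonneg (hW0 y)]
    have h5 : ‖f i y‖ * ‖f j y‖ ≤ (‖f i y‖ ^ 2 + ‖f j y‖ ^ 2) / 2 := by
      nlinarith [sq_nonneg (‖f i y‖ - ‖f j y‖)]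
    have h6 := mul_le_mul_of_nonneg_right h5 (hW0 y)
    linarith
  · intro i hi j hj hij
    rw [K3_cross (hf i hi) (hf j hj) hWc (h0 i hi j hj hij), Complex.zero_re]

private theorem K3_lint {m : ℕ} {g : V m → ℂ} (hg : Continuous g) {C : ℝ} (hb : ∀ y, ‖g y‖ ≤ C)
    {W : V m → ℝ} (hW : Integrable W) (hW0 : ∀ y, 0 ≤ W y) :
    ∫⁻ y, ‖g y‖ₑ ^ (2 : ℝ) * ENNReal.ofReal (W y) = ENNReal.ofReal (∫ y, ‖g y‖ ^ 2 * W y) := by
  have hC0 : 0 ≤ C := (norm_nonneg _).trans (hb 0)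
  have h1 : Integrable fun y => ‖g y‖ ^ 2 * W y := by
    refine K3_intr hW (hg.norm.pow 2) (C := C ^ 2) fun y => ?_
    rw [Real.norm_eq_abs, abs_of_nonneg (by positivity)]
    exact pow_le_pow_left₀ (norm_nonneg _) (hb y) 2
  rw [ofReal_integral_eq_lintegral_ofReal h1
    (Filter.Eventually.of_forall fun y => mul_nonneg (by positivity) (hW0 y))]
  refine lintegral_congr fun y => ?_
  rw [ENNReal.ofReal_mul (by positivity), ENNReal.ofReal_pow (norm_nonneg _), ofReal_norm]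
  congr 1
  rw [show (2 : ℝ) = ((2 : ℕ) : ℝ) by norm_num, ENNReal.rpow_natCast]

/-- the inequality with a weight -/
private theorem K3_weight {m : ℕ} {ι : Type} (s : Finset ι) (U : ι → Set (V m)) (f : ι → V m → ℂ)
    (hf : ∀ i ∈ s, Fr (U i) (f i)) (N : ι → ι → Prop) [∀ i j, Decidable (N i j)]
    (hN : ∀ i j, N i j → N j i) (L : ℕ) (hL : ∀ i ∈ s, (s.filter (N i)).card ≤ L) (W : V m → ℝ)
    (hW : Integrable W) (hW0 : ∀ y, 0 ≤ W y)
    (h0 : ∀ i ∈ s, ∀ j ∈ s, ¬ N i j → ∀ ζ ∈ U i, ∀ ζ' ∈ U j, ∫ y, (W y : ℂ) * ch y (ζ - ζ') = 0) :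
    ∫⁻ y, ‖∑ i ∈ s, f i y‖ₑ ^ (2 : ℝ) * ENNReal.ofReal (W y) ≤
      L * ∑ i ∈ s, ∫⁻ y, ‖f i y‖ₑ ^ (2 : ℝ) * ENNReal.ofReal (W y) := by
  have hs : Fr Set.univ (fun y => ∑ i ∈ s, f i y) :=
    Fr.sum s fun i hi => (hf i hi).mono (Set.subset_univ _)
  obtain ⟨C, hC⟩ := hs.bounded
  rw [K3_lint hs.continuous hC hW hW0]
  have h1 : ∑ i ∈ s, ∫⁻ y, ‖f i y‖ₑ ^ (2 : ℝ) * ENNReal.ofReal (W y) =
      ∑ i ∈ s, ENNReal.ofReal (∫ y, ‖f i y‖ ^ 2 * W y) := by
    refine Finset.sum_congr rfl fun i hi => ?_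
    obtain ⟨C', hC'⟩ := (hf i hi).bounded
    exact K3_lint (hf i hi).continuous hC' hW hW0
  rw [h1, ← ENNReal.ofReal_sum_of_nonneg fun i _ =>
    integral_nonneg fun y => mul_nonneg (by positivity) (hW0 y), ← ENNReal.ofReal_natCast,
    ← ENNReal.ofReal_mul (Nat.cast_nonneg L)]
  exact ENNReal.ofReal_le_ofReal (K3_real s U f hf N hN L hL W hW hW0 h0)

private theorem K3_ch_smul {m : ℕ} {R : ℝ} (hR : R ≠ 0) (y ζ : V m) :
    ch (R⁻¹ • y) (R • ζ) = ch y ζ := by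
  unfold ch
  congr 3
  rw [Prod.smul_fst, Prod.smul_fst, Prod.smul_snd, Prod.smul_snd, real_inner_smul_left,
    real_inner_smul_right, smul_eq_mul, smul_eq_mul]
  field_simp

/-- vanishing of the dilated and translated weight -/
private theorem K3_van {m : ℕ} {w : V m → ℝ} (hw : ∀ ζ : V m, 1 ≤ ‖ζ‖ → ∫ y, (w y : ℂ) * ch y ζ = 0)
    {R : ℝ} (hR : 0 < R) (z0 ζ : V m) (hζ : 1 / R ≤ ‖ζ‖) :
    ∫ y, (w (R⁻¹ • (y - z0)) : ℂ) * ch y ζ = 0 := by
  have := K3_haar m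
  have h1 : ∀ y, (w (R⁻¹ • (y - z0)) : ℂ) * ch y ζ =
      ch z0 ζ * ((fun x => (w (R⁻¹ • x) : ℂ) * ch x ζ) (y - z0)) := by
    intro y
    have h2 : ch y ζ = ch (y - z0) ζ * ch z0 ζ := by rw [← ch_add_left, sub_add_cancel]
    rw [h2]
    ring
  simp_rw [h1]
  rw [integral_const_mul, integral_sub_right_eq_self (fun x => (w (R⁻¹ • x) : ℂ) * ch x ζ) z0]
  have h3 : ∀ x : V m, (w (R⁻¹ • x) : ℂ) * ch x ζ =
      (fun u => (w u : ℂ) * ch u (R • ζ)) (R⁻¹ • x) := by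
    intro x
    show _ = (w (R⁻¹ • x) : ℂ) * ch (R⁻¹ • x) (R • ζ)
    rw [K3_ch_smul hR.ne']
  simp_rw [h3]
  rw [Measure.integral_comp_smul volume (fun u => (w u : ℂ) * ch u (R • ζ)) R⁻¹, hw, smul_zero, mul_zero]
  rw [norm_smul, Real.norm_eq_abs, abs_of_pos hR]
  rw [div_le_iff₀ hR] at hζ
  linarith

private theorem K3_winteg {m : ℕ} {w : V m → ℝ} (hc : Continuous w) (h0 : ∀ z, 0 ≤ w z) {C : ℝ}
    (hC : ∀ z, w z ≤ C * ((1 + ‖z‖) ^ (m + 2))⁻¹) : Integrable w := by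
  refine ⟨hc.aestronglyMeasurable, ?_⟩
  obtain ⟨M, hM, -, hM2⟩ := mass_bw m
  have hC0 : 0 ≤ C := by
    have h1 := (h0 0).trans (hC 0)
    simpa using h1
  have h1 : ∀ z, ‖w z‖ₑ ≤ ENNReal.ofReal C * bw 1 z := by
    intro z
    rw [← ofReal_norm, Real.norm_eq_abs, abs_of_nonneg (h0 z), bw,
      ← ENNReal.ofReal_mul hC0]
    refine ENNReal.ofReal_le_ofReal ((hC z).trans (le_of_eq ?_))
    rw [one_pow, inv_one, one_mul, div_one]
  refine lt_of_le_of_lt (lintegral_mono h1) ?_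
  rw [lintegral_const_mul' _ _ ENNReal.ofReal_ne_top, hM2 1 one_pos]
  exact ENNReal.mul_lt_top ENNReal.ofReal_lt_top hM.lt_top

theorem l2_orth (m : ℕ) (A : ℝ) : ∃ C : ℝ≥0∞, C ≠ ⊤ ∧ ∀ (R : ℝ) (ι : Type) (s : Finset ι)
    (c : ι → V m) (f : ι → V m → ℂ) (L : ℕ), 0 < R →
    (∀ i ∈ s, Fr (Metric.closedBall (c i) (A / R)) (f i)) →
    (∀ i ∈ s, {j | j ∈ s ∧ ‖c j - c i‖ ≤ (2 * A + 1) / R}.ncard ≤ L) →
    ∀ z, cv (fun y => ‖∑ i ∈ s, f i y‖ₑ ^ (2 : ℝ)) (bw R) z ≤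
      C * L * ∑ i ∈ s, cv (fun y => ‖f i y‖ₑ ^ (2 : ℝ)) (bw R) z := by
  classical
  have hhaar := K3_haar m
  obtain ⟨w, hwc, hw0, hw1, ⟨Cw, hCw⟩, hwz⟩ := exists_weight m
  have hwi := K3_winteg hwc hw0 hCw
  have hCw0 : 0 ≤ Cw := by
    have h1 := (hw0 0).trans (hCw 0)
    simpa using h1
  obtain ⟨C3, hC3, hC3'⟩ := cv_bw_bw m
  obtain ⟨μ, hμ⟩ : ∃ μ : ℝ≥0∞, μ = volume (Metric.ball (0 : V m) 1) := ⟨_, rfl⟩
  have hμ0 : μ ≠ 0 := by
    rw [hμ]
    exact (Metric.measure_ball_pos volume 0 one_pos).ne'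
  have hμt : μ ≠ ⊤ := by
    rw [hμ]
    exact measure_ball_lt_top.ne
  refine ⟨ENNReal.ofReal (2 ^ (m + 2)) * μ⁻¹ * (ENNReal.ofReal Cw * C3), ?_, ?_⟩
  · exact ENNReal.mul_ne_top (ENNReal.mul_ne_top ENNReal.ofReal_ne_top (ENNReal.inv_ne_top.2 hμ0))
      (ENNReal.mul_ne_top ENNReal.ofReal_ne_top hC3)
  intro R ι s c f L hR hf hL z
  -- the normalised weight
  obtain ⟨Wf, hWf⟩ : ∃ Wf : V m → ℝ≥0∞, ∀ y, Wf y =
      ENNReal.ofReal ((R ^ (m + 1))⁻¹) * ENNReal.ofReal (w (R⁻¹ • (-y))) := ⟨_, fun y => rfl⟩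
  have hWm : Measurable Wf := by
    have h1 : Wf = fun y => ENNReal.ofReal ((R ^ (m + 1))⁻¹) * ENNReal.ofReal (w (R⁻¹ • (-y))) :=
      funext hWf
    rw [h1]
    exact ((hwc.comp (continuous_neg.const_smul R⁻¹)).measurable.ennreal_ofReal).const_mul _
  have hRm : 0 < R ^ (m + 1) := pow_pos hR _
  -- Step A
  have hA : ∀ z0, cv (fun y => ‖∑ i ∈ s, f i y‖ₑ ^ (2 : ℝ)) Wf z0 ≤
      L * ∑ i ∈ s, cv (fun y => ‖f i y‖ₑ ^ (2 : ℝ)) Wf z0 := by
    intro z0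
    have h1 : ∀ h : V m → ℝ≥0∞, cv h Wf z0 = ENNReal.ofReal ((R ^ (m + 1))⁻¹) *
        ∫⁻ y, h y * ENNReal.ofReal (w (R⁻¹ • (y - z0))) := by
      intro h
      rw [cv_comm]
      show ∫⁻ y, Wf (z0 - y) * h y = _
      rw [← lintegral_const_mul' _ _ ENNReal.ofReal_ne_top]
      refine lintegral_congr fun y => ?_
      rw [hWf, neg_sub, mul_assoc, mul_comm (h y)]
    rw [h1, Finset.sum_congr rfl fun i _ => h1 _, ← Finset.mul_sum, mul_left_comm]
    refine mul_le_mul_right ?_ _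
    have h2 : Integrable fun y => w (R⁻¹ • (y - z0)) := by
      have h3 : Integrable fun x => w (R⁻¹ • x) := hwi.comp_smul (inv_ne_zero hR.ne')
      exact h3.comp_sub_right z0
    refine K3_weight s (fun i => Metric.closedBall (c i) (A / R)) f hf
      (fun i j => ‖c j - c i‖ ≤ (2 * A + 1) / R) ?_ L ?_ (fun y => w (R⁻¹ • (y - z0))) h2
      (fun y => hw0 _) ?_
    · intro i j hij
      rw [norm_sub_rev]
      exact hij
    · intro i hi
      have h3 := hL i hi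
      have h4 : {j | j ∈ s ∧ ‖c j - c i‖ ≤ (2 * A + 1) / R} =
          ((s.filter fun j => ‖c j - c i‖ ≤ (2 * A + 1) / R : Finset ι) : Set ι) := by
        ext j
        simp
      rw [h4, Set.ncard_coe_finset] at h3
      exact h3
    · intro i hi j hj hij ζ hζ ζ' hζ'
      apply K3_van hwz hR
      rw [Metric.mem_closedBall, dist_eq_norm] at hζ hζ'
      rw [not_le] at hij
      have h3 : ‖c j - c i‖ ≤ ‖ζ - ζ'‖ + (‖ζ - c i‖ + ‖ζ' - c j‖) := by
        have h4 : c j - c i = -(ζ - ζ') + ((ζ - c i) - (ζ' - c j)) := by abel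
        rw [h4]
        refine (norm_add_le _ _).trans ?_
        rw [norm_neg]
        exact add_le_add le_rfl (norm_sub_le _ _)
      have h5 : (2 * A + 1) / R = A / R + A / R + 1 / R := by ring
      linarith
  -- Step C
  have hF : Measurable fun y => ‖∑ i ∈ s, f i y‖ₑ ^ (2 : ℝ) :=
    (Fr.sum s fun i hi => (hf i hi).mono (Set.subset_univ _)).measurable_enorm 2
  have hfi : ∀ i ∈ s, Measurable fun y => ‖f i y‖ₑ ^ (2 : ℝ) := fun i hi =>
    (hf i hi).measurable_enorm 2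
  have hbm : Measurable (bw R : V m → ℝ≥0∞) := measurable_bw R
  have hlow : ∀ y, bw R y ≤ ENNReal.ofReal (2 ^ (m + 2)) * μ⁻¹ * cv Wf (bw R) y := by
    intro y
    have h1 : bw R y * μ ≤ ENNReal.ofReal (2 ^ (m + 2)) * cv Wf (bw R) y := by
      show _ ≤ ENNReal.ofReal (2 ^ (m + 2)) * ∫⁻ x, Wf (y - x) * bw R x
      rw [← lintegral_const_mul' _ _ ENNReal.ofReal_ne_top]
      refine le_trans ?_ (setLIntegral_le_lintegral (Metric.closedBall y R) _)
      have h2 : ∀ x ∈ Metric.closedBall y R, ENNReal.ofReal ((R ^ (m + 1))⁻¹) * bw R y ≤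
          ENNReal.ofReal (2 ^ (m + 2)) * (Wf (y - x) * bw R x) := by
        intro x hx
        rw [Metric.mem_closedBall, dist_eq_norm] at hx
        have h3 : (1 : ℝ) ≤ w (R⁻¹ • (-(y - x))) := by
          apply hw1
          rw [norm_smul, norm_neg, norm_sub_rev, Real.norm_eq_abs, abs_of_pos (inv_pos.2 hR),
            inv_mul_le_iff₀ hR, mul_one]
          exact hx
        have h4 : ENNReal.ofReal ((R ^ (m + 1))⁻¹) ≤ Wf (y - x) := by
          rw [hWf]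
          refine le_mul_of_one_le_right zero_le ?_
          rw [← ENNReal.ofReal_one]
          exact ENNReal.ofReal_le_ofReal h3
        have h5 : bw R y ≤ ENNReal.ofReal (2 ^ (m + 2)) * bw R x := by
          have h6 := bw_translate hR x (y - x)
          rw [add_sub_cancel] at h6
          refine h6.trans (mul_le_mul_left ?_ _)
          refine ENNReal.ofReal_le_ofReal (pow_le_pow_left₀ (by positivity) ?_ _)
          have h7 : ‖y - x‖ / R ≤ 1 := by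
            rw [div_le_one hR, norm_sub_rev]
            exact hx
          linarith
        calc ENNReal.ofReal ((R ^ (m + 1))⁻¹) * bw R y
            ≤ Wf (y - x) * (ENNReal.ofReal (2 ^ (m + 2)) * bw R x) := mul_le_mul' h4 h5
          _ = _ := by rw [mul_left_comm]
      refine le_trans ?_ (setLIntegral_mono' Metric.isClosed_closedBall.measurableSet h2)
      rw [setLIntegral_const, Measure.addHaar_closedBall volume y hR.le, finrank_V, ← hμ]
      have h3 : ENNReal.ofReal ((R ^ (m + 1))⁻¹) * ENNReal.ofReal (R ^ (m + 1)) = 1 := by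
        rw [← ENNReal.ofReal_mul (by positivity), inv_mul_cancel₀ hRm.ne', ENNReal.ofReal_one]
      have h4 : ENNReal.ofReal ((R ^ (m + 1))⁻¹) * bw R y * (ENNReal.ofReal (R ^ (m + 1)) * μ) =
          (ENNReal.ofReal ((R ^ (m + 1))⁻¹) * ENNReal.ofReal (R ^ (m + 1))) * (bw R y * μ) := by ring
      rw [h4, h3, one_mul]
    calc bw R y = bw R y * μ * μ⁻¹ := by
          rw [mul_assoc, ENNReal.mul_inv_cancel hμ0 hμt, mul_one]
      _ ≤ ENNReal.ofReal (2 ^ (m + 2)) * cv Wf (bw R) y * μ⁻¹ := mul_le_mul_left h1 _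
      _ = _ := by ring
  have hup : ∀ y, Wf y ≤ ENNReal.ofReal Cw * bw R y := by
    intro y
    rw [hWf, bw, ← ENNReal.ofReal_mul (by positivity), ← ENNReal.ofReal_mul hCw0]
    refine ENNReal.ofReal_le_ofReal ?_
    have h1 := hCw (R⁻¹ • (-y))
    rw [norm_smul, norm_neg, Real.norm_eq_abs, abs_of_pos (inv_pos.2 hR)] at h1
    have h2 : R⁻¹ * ‖y‖ = ‖y‖ / R := by rw [div_eq_inv_mul]
    rw [h2] at h1
    calc (R ^ (m + 1))⁻¹ * w (R⁻¹ • (-y)) ≤ (R ^ (m + 1))⁻¹ * (Cw * ((1 + ‖y‖ / R) ^ (m + 2))⁻¹) :=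
          mul_le_mul_of_nonneg_left h1 (by positivity)
      _ = _ := by ring
  have hcvm : Measurable (cv Wf (bw R)) := measurable_cv hWm hbm
  calc cv (fun y => ‖∑ i ∈ s, f i y‖ₑ ^ (2 : ℝ)) (bw R) z
      ≤ cv (fun y => ‖∑ i ∈ s, f i y‖ₑ ^ (2 : ℝ))
        (fun y => ENNReal.ofReal (2 ^ (m + 2)) * μ⁻¹ * cv Wf (bw R) y) z :=
        cv_mono (fun _ => le_rfl) hlow z
    _ = ENNReal.ofReal (2 ^ (m + 2)) * μ⁻¹ *
        cv (fun y => ‖∑ i ∈ s, f i y‖ₑ ^ (2 : ℝ)) (cv Wf (bw R)) z :=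
        cv_mul_const _ (ENNReal.mul_ne_top ENNReal.ofReal_ne_top (ENNReal.inv_ne_top.2 hμ0)) _ _ z
    _ = ENNReal.ofReal (2 ^ (m + 2)) * μ⁻¹ *
        cv (cv (fun y => ‖∑ i ∈ s, f i y‖ₑ ^ (2 : ℝ)) Wf) (bw R) z := by
        rw [cv_assoc hF hWm hbm]
    _ ≤ ENNReal.ofReal (2 ^ (m + 2)) * μ⁻¹ *
        cv (fun y => (L : ℝ≥0∞) * ∑ i ∈ s, cv (fun y => ‖f i y‖ₑ ^ (2 : ℝ)) Wf y) (bw R) z :=
        mul_le_mul_right (cv_mono hA (fun _ => le_rfl) z) _
    _ = ENNReal.ofReal (2 ^ (m + 2)) * μ⁻¹ * (L *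
        ∑ i ∈ s, cv (cv (fun y => ‖f i y‖ₑ ^ (2 : ℝ)) Wf) (bw R) z) := by
        rw [cv_const_mul _ (ENNReal.natCast_ne_top L), cv_sum s
          (fun i => cv (fun y => ‖f i y‖ₑ ^ (2 : ℝ)) Wf) (bw R)
          (fun i hi => measurable_cv (hfi i hi) hWm) hbm z]
    _ ≤ ENNReal.ofReal (2 ^ (m + 2)) * μ⁻¹ * (L *
        ∑ i ∈ s, (ENNReal.ofReal Cw * C3) * cv (fun y => ‖f i y‖ₑ ^ (2 : ℝ)) (bw R) z) := by
        refine mul_le_mul_right (mul_le_mul_right (Finset.sum_le_sum fun i hi => ?_) _) _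
        rw [cv_assoc (hfi i hi) hWm hbm, ← cv_mul_const _ (ENNReal.mul_ne_top ENNReal.ofReal_ne_top hC3)]
        refine cv_mono (fun _ => le_rfl) (fun y => ?_) z
        calc cv Wf (bw R) y ≤ cv (fun x => ENNReal.ofReal Cw * bw R x) (bw R) y :=
              cv_mono hup (fun _ => le_rfl) y
          _ = ENNReal.ofReal Cw * cv (bw R) (bw R) y := cv_const_mul _ ENNReal.ofReal_ne_top _ _ y
          _ ≤ ENNReal.ofReal Cw * (C3 * bw R y) := mul_le_mul_right (hC3' R R hR le_rfl y) _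
          _ = _ := by rw [mul_assoc]
    _ = _ := by
        rw [← Finset.mul_sum]
        ring

end Pool.LibDC71
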