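import Mathlib
import Pool.Agent.LibDC71.W4

/-! KK (ball inflation = iterated averaged Loomis-Whitney), complete proof following the plan of the
chief: Loomis-Whitney for probability measures, one step by averaging over parallelepipeds,
averages of the ball weight, translation along the directions of the planks, iteration. -/

set_option autoImplicit false

noncomputable section

open MeasureTheory Finset Function
open scoped ENNReal

namespace Pool.LibDC71

section LW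

/-- Loomis-Whitney, some of the variables integrated. -/
private theorem kk_lw_marginal {n : ℕ} (μ : Fin n → Measure ℝ) [∀ i, SigmaFinite (μ i)]
    (hn : 2 ≤ n) (F : Fin n → (Fin n → ℝ) → ℝ≥0∞)
    (hF : ∀ j, Measurable (F j)) (hdep : ∀ j x t, F j (update x j t) = F j x) (s : Finset (Fin n))
    (x : Fin n → ℝ) :
    (∫⋯∫⁻_s, (fun x => ∏ j, F j x ^ (1 / ((n : ℝ) - 1))) ∂μ) x ≤
      ∏ j, ((∫⋯∫⁻_(s.erase j), F j ∂μ) x) ^ (1 / ((n : ℝ) - 1)) := by
  have hc : (0 : ℝ) < (n : ℝ) - 1 := by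
    have : (2 : ℝ) ≤ (n : ℝ) := by exact_mod_cast hn
    linarith
  set p : ℝ := 1 / ((n : ℝ) - 1) with hp
  have hp0 : 0 ≤ p := by positivity
  have hG : Measurable fun x => ∏ j, F j x ^ p :=
    Finset.measurable_fun_prod _ fun j _ => (hF j).pow_const _
  induction s using Finset.induction generalizing x with
  | empty => simp
  | insert i s hi ih =>
    rw [lmarginal_insert _ hG hi]
    calc ∫⁻ t, (∫⋯∫⁻_s, (fun x => ∏ j, F j x ^ p) ∂μ) (update x i t) ∂μ i
        ≤ ∫⁻ t, ∏ j, ((∫⋯∫⁻_(s.erase j), F j ∂μ) (update x i t)) ^ p ∂μ i :=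
          lintegral_mono fun t => ih _
      _ = ∫⁻ t, ((∫⋯∫⁻_s, F i ∂μ) x) ^ p *
            ∏ j ∈ univ.erase i, ((∫⋯∫⁻_(s.erase j), F j ∂μ) (update x i t)) ^ p ∂μ i := by
          refine lintegral_congr fun t => ?_
          rw [← Finset.mul_prod_erase univ _ (mem_univ i)]
          congr 2
          rw [Finset.erase_eq_of_notMem hi, lmarginal_update_of_notMem (hF i) hi]
          congr 1
          funext y
          exact hdep i y t
      _ = ((∫⋯∫⁻_s, F i ∂μ) x) ^ p *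
            ∫⁻ t, ∏ j ∈ univ.erase i, ((∫⋯∫⁻_(s.erase j), F j ∂μ) (update x i t)) ^ p ∂μ i := by
          rw [lintegral_const_mul]
          refine Finset.measurable_fun_prod _ fun j _ => ?_
          exact (((hF j).lmarginal μ).comp (measurable_update _)).pow_const _
      _ ≤ ((∫⋯∫⁻_s, F i ∂μ) x) ^ p *
            ∏ j ∈ univ.erase i, (∫⁻ t, (∫⋯∫⁻_(s.erase j), F j ∂μ) (update x i t) ∂μ i) ^ p := by
          gcongr
          apply ENNReal.lintegral_prod_norm_pow_le
          · intro j _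
            exact (((hF j).lmarginal μ).comp (measurable_update _)).aemeasurable
          · rw [Finset.sum_const, Finset.card_erase_of_mem (mem_univ i), Finset.card_univ,
              Fintype.card_fin, nsmul_eq_mul, Nat.cast_sub (by omega), Nat.cast_one, hp]
            field_simp
          · intro j _
            exact hp0
      _ = ∏ j, ((∫⋯∫⁻_((insert i s).erase j), F j ∂μ) x) ^ p := by
          rw [← Finset.mul_prod_erase univ _ (mem_univ i)]
          rw [Finset.erase_insert hi]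
          congr 1
          refine Finset.prod_congr rfl fun j hj => ?_
          have hji : j ≠ i := (Finset.mem_erase.mp hj).1
          rw [Finset.erase_insert_of_ne hji.symm, lmarginal_insert _ (hF j)]
          intro h
          exact hi (Finset.mem_of_mem_erase h)

/-- Loomis-Whitney for probability measures, exponents `p ≤ 1 / (n - 1)`. -/
private theorem kk_lw_prob {n : ℕ} (P : Fin n → Measure ℝ) [∀ i, IsProbabilityMeasure (P i)]
    (hn : 2 ≤ n) {p : ℝ} (hp : 0 < p) (hp' : p * ((n : ℝ) - 1) ≤ 1)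
    (F : Fin n → (Fin n → ℝ) → ℝ≥0∞)
    (hF : ∀ j, Measurable (F j)) (hdep : ∀ j x t, F j (update x j t) = F j x) :
    ∫⁻ u, ∏ j, F j u ^ p ∂(Measure.pi P) ≤ ∏ j, (∫⁻ u, F j u ∂(Measure.pi P)) ^ p := by
  have hc : (0 : ℝ) < (n : ℝ) - 1 := by
    have : (2 : ℝ) ≤ (n : ℝ) := by exact_mod_cast hn
    linarith
  set θ : ℝ := p * ((n : ℝ) - 1) with hθ
  have hθ0 : 0 < θ := by positivity
  have hpθ : 1 / ((n : ℝ) - 1) * θ = p := by
    rw [hθ]
    field_simp
  have h1 := kk_lw_marginal P hn F hF hdep univ 0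
  rw [← lintegral_eq_lmarginal_univ] at h1
  have h2 : ∀ j, (∫⋯∫⁻_(univ.erase j), F j ∂P) 0 = ∫⁻ u, F j u ∂(Measure.pi P) := by
    intro j
    have h3 := lmarginal_erase (μ := P) (F j) (hF j) (mem_univ j) (0 : Fin n → ℝ)
    rw [← lintegral_eq_lmarginal_univ] at h3
    rw [h3]
    have h4 : ∀ t, (∫⋯∫⁻_(univ.erase j), F j ∂P) (update 0 j t)
        = (∫⋯∫⁻_(univ.erase j), F j ∂P) 0 := by
      intro t
      rw [lmarginal_update_of_notMem (hF j) (Finset.notMem_erase j univ)]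
      congr 1
      funext y
      exact hdep j y t
    simp_rw [h4]
    rw [lintegral_const, measure_univ, mul_one]
  simp_rw [h2] at h1
  have hm : Measurable fun u => ∏ j, F j u ^ (1 / ((n : ℝ) - 1)) :=
    Finset.measurable_fun_prod _ fun j _ => (hF j).pow_const _
  calc ∫⁻ u, ∏ j, F j u ^ p ∂(Measure.pi P)
      = ∫⁻ u, (∏ j, F j u ^ (1 / ((n : ℝ) - 1))) ^ θ * (1 : ℝ≥0∞) ^ (1 - θ) ∂(Measure.pi P) := by
        refine lintegral_congr fun u => ?_
        rw [ENNReal.one_rpow, mul_one, ← ENNReal.prod_rpow_of_nonneg hθ0.le]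
        refine Finset.prod_congr rfl fun j _ => ?_
        rw [← ENNReal.rpow_mul, hpθ]
    _ ≤ (∫⁻ u, ∏ j, F j u ^ (1 / ((n : ℝ) - 1)) ∂(Measure.pi P)) ^ θ *
          (∫⁻ _, (1 : ℝ≥0∞) ∂(Measure.pi P)) ^ (1 - θ) := by
        apply ENNReal.lintegral_mul_norm_pow_le
        · exact hm.aemeasurable
        · exact aemeasurable_const
        · exact hθ0.le
        · linarith
        · ring
    _ = (∫⁻ u, ∏ j, F j u ^ (1 / ((n : ℝ) - 1)) ∂(Measure.pi P)) ^ θ := by
        rw [lintegral_const, measure_univ, mul_one, ENNReal.one_rpow, mul_one]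
    _ ≤ (∏ j, (∫⁻ u, F j u ∂(Measure.pi P)) ^ (1 / ((n : ℝ) - 1))) ^ θ := by
        gcongr
    _ = ∏ j, (∫⁻ u, F j u ∂(Measure.pi P)) ^ p := by
        rw [← ENNReal.prod_rpow_of_nonneg hθ0.le]
        refine Finset.prod_congr rfl fun j _ => ?_
        rw [← ENNReal.rpow_mul, hpθ]

end LW

/-- The uniform distribution on the unit cube. -/
private def uQ (n : ℕ) : Measure (Fin n → ℝ) :=
  Measure.pi fun _ => volume.restrict (Set.Icc (0 : ℝ) 1)

private instance kk_prob1 : IsProbabilityMeasure (volume.restrict (Set.Icc (0 : ℝ) 1)) := by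
  refine ⟨?_⟩
  rw [Measure.restrict_apply_univ, Real.volume_Icc]
  norm_num

private instance kk_prob (n : ℕ) : IsProbabilityMeasure (uQ n) := by
  unfold uQ
  infer_instance

private theorem uQ_eq (n : ℕ) :
    uQ n = (volume : Measure (Fin n → ℝ)).restrict (Set.pi Set.univ fun _ => Set.Icc (0 : ℝ) 1) := by
  unfold uQ
  rw [volume_pi, Measure.restrict_pi_pi]

private theorem uQ_ae (n : ℕ) : ∀ᵐ u ∂(uQ n), ∀ i, u i ∈ Set.Icc (0 : ℝ) 1 := by
  rw [uQ_eq]
  filter_upwards [ae_restrict_mem (MeasurableSet.univ_pi fun _ => measurableSet_Icc)] with u hu i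
  exact hu i (Set.mem_univ i)

private instance kk_haar (m : ℕ) : (volume : Measure (V m)).IsAddHaarMeasure :=
  inferInstanceAs ((volume : Measure (E m)).prod (volume : Measure ℝ)).IsAddHaarMeasure

/-- Averages over parallelepipeds. -/
private def av {m : ℕ} (r : ℝ) (v : Fin (m + 1) → V m) (F : V m → ℝ≥0∞) (z : V m) : ℝ≥0∞ :=
  ∫⁻ u, F (z + r • ∑ i, u i • v i) ∂(uQ (m + 1))

private theorem kk_meas_shift {m : ℕ} (r : ℝ) (v : Fin (m + 1) → V m) :
    Measurable fun z : (V m) × (Fin (m + 1) → ℝ) => z.1 + r • ∑ i, z.2 i • v i := by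
  have h : Continuous fun z : (V m) × (Fin (m + 1) → ℝ) => z.1 + r • ∑ i, z.2 i • v i := by
    fun_prop
  exact h.measurable

private theorem lintegral_av {m : ℕ} (r : ℝ) (v : Fin (m + 1) → V m) {F : V m → ℝ≥0∞}
    (hF : Measurable F) : ∫⁻ z, av r v F z = ∫⁻ z, F z := by
  unfold av
  have hm : Measurable (uncurry fun (z : V m) (u : Fin (m + 1) → ℝ) =>
      F (z + r • ∑ i, u i • v i)) := hF.comp (kk_meas_shift r v)
  rw [lintegral_lintegral_swap hm.aemeasurable]
  have h : ∀ u : Fin (m + 1) → ℝ, ∫⁻ z, F (z + r • ∑ i, u i • v i) = ∫⁻ z, F z := fun u =>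
    lintegral_add_right_eq_self F _
  simp_rw [h]
  rw [lintegral_const, measure_univ, mul_one]

private theorem av_measurable {m : ℕ} (r : ℝ) (v : Fin (m + 1) → V m) {F : V m → ℝ≥0∞}
    (hF : Measurable F) : Measurable (av r v F) :=
  (hF.comp (kk_meas_shift r v)).lintegral_prod_right'

/-- One step. -/
private theorem kk_one_step {m : ℕ} (hm : 1 ≤ m) {p r : ℝ} (hp : 0 < p) (hp' : p * m ≤ 1)
    (v : Fin (m + 1) → V m) (G : Fin (m + 1) → V m → ℝ≥0∞) (hG : ∀ j, Measurable (G j))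
    (Λ : ℝ≥0∞) (hr : 0 ≤ r) (hΛ : ∀ j z τ, |τ| ≤ r → G j (z + τ • v j) ≤ Λ * G j z) :
    ∫⁻ z, ∏ j, G j z ^ p ≤
      (Λ ^ p) ^ (m + 1) * (Λ ^ p) ^ (m + 1) * ∫⁻ z, ∏ j, av r v (G j) z ^ p := by
  have hGm : Measurable fun z => ∏ j, G j z ^ p :=
    Finset.measurable_fun_prod _ fun j _ => (hG j).pow_const _
  have hAm : Measurable fun z => ∏ j, av r v (G j) z ^ p :=
    Finset.measurable_fun_prod _ fun j _ => (av_measurable r v (hG j)).pow_const _
  rw [← lintegral_av r v hGm, ← lintegral_const_mul _ hAm]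
  refine lintegral_mono fun z => ?_
  -- the functions which do not depend on `u j`
  let F : Fin (m + 1) → (Fin (m + 1) → ℝ) → ℝ≥0∞ := fun j u =>
    G j (z + r • ∑ i ∈ univ.erase j, u i • v i)
  have hFm : ∀ j, Measurable (F j) := by
    intro j
    have h : Continuous fun u : Fin (m + 1) → ℝ => z + r • ∑ i ∈ univ.erase j, u i • v i := by
      fun_prop
    exact (hG j).comp h.measurable
  have hdep : ∀ j u t, F j (update u j t) = F j u := by
    intro j u t
    change G j _ = G j _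
    congr 3
    refine Finset.sum_congr rfl fun i hi => ?_
    rw [update_of_ne (Finset.mem_erase.mp hi).1]
  have hsplit : ∀ (j : Fin (m + 1)) (u : Fin (m + 1) → ℝ),
      z + r • ∑ i, u i • v i
        = (z + r • ∑ i ∈ univ.erase j, u i • v i) + (r * u j) • v j := by
    intro j u
    rw [← Finset.add_sum_erase univ _ (mem_univ j), smul_add, smul_smul]
    abel
  have hle : ∀ (j : Fin (m + 1)) (u : Fin (m + 1) → ℝ), (∀ i, u i ∈ Set.Icc (0 : ℝ) 1) →
      G j (z + r • ∑ i, u i • v i) ≤ Λ * F j u := by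
    intro j u hu
    rw [hsplit j u]
    apply hΛ
    rw [abs_of_nonneg (mul_nonneg hr (hu j).1)]
    nlinarith [(hu j).2]
  have hge : ∀ (j : Fin (m + 1)) (u : Fin (m + 1) → ℝ), (∀ i, u i ∈ Set.Icc (0 : ℝ) 1) →
      F j u ≤ Λ * G j (z + r • ∑ i, u i • v i) := by
    intro j u hu
    have h1 : F j u = G j ((z + r • ∑ i, u i • v i) + (-(r * u j)) • v j) := by
      change G j _ = G j _
      rw [hsplit j u]
      congr 1
      rw [neg_smul]
      abel
    rw [h1]
    apply hΛ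
    rw [abs_neg, abs_of_nonneg (mul_nonneg hr (hu j).1)]
    nlinarith [(hu j).2]
  have hcast : ((m + 1 : ℕ) : ℝ) - 1 = m := by push_cast; ring
  have hLW := kk_lw_prob (fun _ : Fin (m + 1) => volume.restrict (Set.Icc (0 : ℝ) 1))
    (by omega) hp (by rw [hcast]; exact hp') F hFm hdep
  calc av r v (fun z => ∏ j, G j z ^ p) z
      ≤ ∫⁻ u, ∏ j, (Λ ^ p * F j u ^ p) ∂(uQ (m + 1)) := by
        unfold av
        refine lintegral_mono_ae ?_
        filter_upwards [uQ_ae (m + 1)] with u hu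
        refine Finset.prod_le_prod' fun j _ => ?_
        rw [← ENNReal.mul_rpow_of_nonneg _ _ hp.le]
        exact ENNReal.rpow_le_rpow (hle j u hu) hp.le
    _ = (Λ ^ p) ^ (m + 1) * ∫⁻ u, ∏ j, F j u ^ p ∂(uQ (m + 1)) := by
        simp_rw [Finset.prod_mul_distrib, Finset.prod_const, Finset.card_univ, Fintype.card_fin]
        rw [lintegral_const_mul]
        exact Finset.measurable_fun_prod _ fun j _ => (hFm j).pow_const _
    _ ≤ (Λ ^ p) ^ (m + 1) * ∏ j, (∫⁻ u, F j u ∂(uQ (m + 1))) ^ p := by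
        gcongr
        exact hLW
    _ ≤ (Λ ^ p) ^ (m + 1) * ∏ j, (Λ * av r v (G j) z) ^ p := by
        gcongr with j _
        unfold av
        have hm : Measurable fun u : Fin (m + 1) → ℝ => G j (z + r • ∑ i, u i • v i) :=
          (hG j).comp ((kk_meas_shift r v).comp (measurable_const.prodMk measurable_id))
        rw [← lintegral_const_mul _ hm]
        refine lintegral_mono_ae ?_
        filter_upwards [uQ_ae (m + 1)] with u hu
        exact hge j u hu
    _ = _ := by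
        simp_rw [ENNReal.mul_rpow_of_nonneg _ _ hp.le]
        rw [Finset.prod_mul_distrib, Finset.prod_const, Finset.card_univ, Fintype.card_fin,
          ← mul_assoc]

/-- Scaling. -/
private theorem kk_scale (d : ℕ) {c : ℝ} (hc : 0 < c) (f : (Fin d → ℝ) → ℝ≥0∞)
    (hf : Measurable f) :
    ∫⁻ u, f (c • u) = ENNReal.ofReal ((c ^ d)⁻¹) * ∫⁻ u, f u := by
  have h1 := Measure.map_addHaar_smul (volume : Measure (Fin d → ℝ)) hc.ne'
  have h2 : ∫⁻ u, f (c • u) = ∫⁻ u, f u ∂(Measure.map (fun u => c • u) volume) :=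
    (lintegral_map hf (measurable_const_smul c)).symm
  rw [h2, h1, lintegral_smul_measure, Module.finrank_fin_fun, abs_of_pos (by positivity)]
  rfl

/-- The averages of the ball weight. -/
private theorem kk_av_bw (m : ℕ) (b M : ℝ) (hb : 0 < b) (hM : 1 ≤ M) :
    ∃ C : ℝ≥0∞, C ≠ ⊤ ∧ ∀ v : Fin (m + 1) → V m,
      (∀ c : Fin (m + 1) → ℝ, b * ‖c‖ ≤ ‖∑ j, c j • v j‖) → (∀ j, ‖v j‖ ≤ M) →
      ∀ r r' : ℝ, 0 < r → r ≤ r' → ∀ z : V m, av r' v (bw r) z ≤ C * bw r' z := by
  set D : ℝ := (m + 1) * M with hD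
  have hD1 : 1 ≤ D := by
    have : (0 : ℝ) ≤ m := Nat.cast_nonneg m
    nlinarith
  set I : ℝ≥0∞ := ∫⁻ u : Fin (m + 1) → ℝ, ENNReal.ofReal (((1 + ‖u‖) ^ (m + 2))⁻¹) with hI
  have hIfin : I ≠ ⊤ := by
    have h1 := finite_integral_one_add_norm (E := Fin (m + 1) → ℝ) (μ := volume)
      (r := (m : ℝ) + 2) (by rw [Module.finrank_fin_fun]; push_cast; linarith)
    have h2 : I = ∫⁻ u : Fin (m + 1) → ℝ, ENNReal.ofReal ((1 + ‖u‖) ^ (-((m : ℝ) + 2))) := by
      rw [hI]
      refine lintegral_congr fun u => ?_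
      congr 1
      have h3 : ((m : ℝ) + 2) = ((m + 2 : ℕ) : ℝ) := by push_cast; ring
      rw [h3, Real.rpow_neg (by positivity), Real.rpow_natCast]
    rw [h2]
    exact h1.ne
  refine ⟨ENNReal.ofReal (4 ^ (m + 2)) +
    ENNReal.ofReal ((b ^ (m + 1))⁻¹ * (1 + 2 * D) ^ (m + 2)) * I, by finiteness, ?_⟩
  intro v hv hvM r r' hr hrr z
  have hr' : 0 < r' := lt_of_lt_of_le hr hrr
  by_cases hz : 2 * D * r' ≤ ‖z‖
  · -- far
    have hz2 : 2 * r' ≤ ‖z‖ := by nlinarith
    have hz0 : 0 < ‖z‖ := by linarith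
    have hpt : ∀ u : Fin (m + 1) → ℝ, (∀ i, u i ∈ Set.Icc (0 : ℝ) 1) →
        bw r (z + r' • ∑ i, u i • v i) ≤ ENNReal.ofReal (4 ^ (m + 2)) * bw r' z := by
      intro u hu
      have h1 : ‖∑ i, u i • v i‖ ≤ D := by
        calc ‖∑ i, u i • v i‖ ≤ ∑ i : Fin (m + 1), ‖u i • v i‖ := norm_sum_le _ _
          _ ≤ ∑ i : Fin (m + 1), M := by
            refine Finset.sum_le_sum fun i _ => ?_
            rw [norm_smul, Real.norm_eq_abs, abs_of_nonneg (hu i).1]
            calc u i * ‖v i‖ ≤ 1 * M :=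
                  mul_le_mul (hu i).2 (hvM i) (norm_nonneg _) zero_le_one
              _ = M := one_mul M
          _ = D := by
            rw [Finset.sum_const, Finset.card_univ, Fintype.card_fin, nsmul_eq_mul, hD]
            push_cast
            ring
      have h2 : ‖z‖ / 2 ≤ ‖z + r' • ∑ i, u i • v i‖ := by
        have h3 : ‖z‖ ≤ ‖z + r' • ∑ i, u i • v i‖ + ‖r' • ∑ i, u i • v i‖ := by
          have := norm_sub_le (z + r' • ∑ i, u i • v i) (r' • ∑ i, u i • v i)
          simpa using this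
        have h4 : ‖r' • ∑ i, u i • v i‖ ≤ r' * D := by
          rw [norm_smul, Real.norm_eq_abs, abs_of_pos hr']
          exact mul_le_mul_of_nonneg_left h1 hr'.le
        nlinarith
      unfold bw
      rw [← ENNReal.ofReal_mul (by positivity)]
      apply ENNReal.ofReal_le_ofReal
      set y : ℝ := ‖z + r' • ∑ i, u i • v i‖ with hy
      have h5 : (‖z‖ / (2 * r)) ^ (m + 2) ≤ (1 + y / r) ^ (m + 2) := by
        refine pow_le_pow_left₀ (by positivity) ?_ _
        have h6 : ‖z‖ / (2 * r) = (‖z‖ / 2) / r := by field_simp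
        rw [h6]
        have h7 : (‖z‖ / 2) / r ≤ y / r := by gcongr
        linarith
      have h8 : (1 + ‖z‖ / r') ^ (m + 2) ≤ (2 * ‖z‖ / r') ^ (m + 2) := by
        refine pow_le_pow_left₀ (by positivity) ?_ _
        have h9 : 1 ≤ ‖z‖ / r' := by
          rw [le_div_iff₀ hr']
          linarith
        have h10 : 2 * ‖z‖ / r' = ‖z‖ / r' + ‖z‖ / r' := by ring
        rw [h10]
        linarith
      calc (r ^ (m + 1))⁻¹ * ((1 + y / r) ^ (m + 2))⁻¹
          ≤ (r ^ (m + 1))⁻¹ * ((‖z‖ / (2 * r)) ^ (m + 2))⁻¹ := by gcongr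
        _ = r * (2 ^ (m + 2) / ‖z‖ ^ (m + 2)) := by
          rw [div_pow, mul_pow, pow_succ r (m + 1)]
          field_simp
        _ ≤ r' * (2 ^ (m + 2) / ‖z‖ ^ (m + 2)) := by gcongr
        _ = 4 ^ (m + 2) * ((r' ^ (m + 1))⁻¹ * ((2 * ‖z‖ / r') ^ (m + 2))⁻¹) := by
          rw [div_pow, mul_pow, pow_succ r' (m + 1)]
          have h4 : (4 : ℝ) ^ (m + 2) = 2 ^ (m + 2) * 2 ^ (m + 2) := by
            rw [← mul_pow]
            norm_num
          rw [h4]
          field_simp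
        _ ≤ 4 ^ (m + 2) * ((r' ^ (m + 1))⁻¹ * ((1 + ‖z‖ / r') ^ (m + 2))⁻¹) := by gcongr
    calc av r' v (bw r) z ≤ ∫⁻ _, ENNReal.ofReal (4 ^ (m + 2)) * bw r' z ∂(uQ (m + 1)) := by
          unfold av
          refine lintegral_mono_ae ?_
          filter_upwards [uQ_ae (m + 1)] with u hu
          exact hpt u hu
      _ = ENNReal.ofReal (4 ^ (m + 2)) * bw r' z := by
          rw [lintegral_const, measure_univ, mul_one]
      _ ≤ _ := by
          gcongr
          exact le_self_add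
  · -- near
    push Not at hz
    -- surjectivity
    have hlin : ∃ Φ : (Fin (m + 1) → ℝ) →ₗ[ℝ] V m, ∀ c, Φ c = ∑ j, c j • v j := by
      refine ⟨Fintype.linearCombination ℝ v, fun c => ?_⟩
      rw [Fintype.linearCombination_apply]
    obtain ⟨Φ, hΦ⟩ := hlin
    have hinj : Function.Injective Φ := by
      rw [← LinearMap.ker_eq_bot, LinearMap.ker_eq_bot']
      intro c hc
      have h1 := hv c
      rw [← hΦ, hc, norm_zero] at h1
      have h2 : ‖c‖ ≤ 0 := by
        by_contra h3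
        push Not at h3
        nlinarith [mul_pos hb h3]
      exact norm_le_zero_iff.mp h2
    have hsurj : Function.Surjective Φ := by
      refine (LinearMap.injective_iff_surjective_of_finrank_eq_finrank ?_).mp hinj
      rw [Module.finrank_fin_fun, finrank_V]
    obtain ⟨u0, hu0⟩ := hsurj ((-(1 / r')) • z)
    have hz0 : ∀ u : Fin (m + 1) → ℝ, z + r' • ∑ i, u i • v i = r' • Φ (u - u0) := by
      intro u
      rw [map_sub, hu0, ← hΦ, smul_sub, smul_smul]
      have h1 : r' * -(1 / r') = -1 := by field_simp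
      rw [h1, neg_one_smul, sub_neg_eq_add, add_comm]
    have hcpos : 0 < r' * b / r := by positivity
    have hpt : ∀ u : Fin (m + 1) → ℝ, bw r (z + r' • ∑ i, u i • v i) ≤
        ENNReal.ofReal ((r ^ (m + 1))⁻¹) *
          ENNReal.ofReal (((1 + ‖(r' * b / r) • (u - u0)‖) ^ (m + 2))⁻¹) := by
      intro u
      rw [hz0 u]
      unfold bw
      rw [← ENNReal.ofReal_mul (by positivity)]
      apply ENNReal.ofReal_le_ofReal
      gcongr
      rw [norm_smul, norm_smul, Real.norm_eq_abs, Real.norm_eq_abs, abs_of_pos hr',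
        abs_of_pos hcpos]
      have h1 := hv (u - u0)
      rw [← hΦ] at h1
      calc r' * b / r * ‖u - u0‖ = r' * (b * ‖u - u0‖) / r := by ring
        _ ≤ r' * ‖Φ (u - u0)‖ / r := by gcongr
    have hmeas : Measurable fun u : Fin (m + 1) → ℝ =>
        ENNReal.ofReal (((1 + ‖u‖) ^ (m + 2))⁻¹) := by fun_prop
    calc av r' v (bw r) z
        ≤ ∫⁻ u, ENNReal.ofReal ((r ^ (m + 1))⁻¹) *
          ENNReal.ofReal (((1 + ‖(r' * b / r) • (u - u0)‖) ^ (m + 2))⁻¹) ∂(uQ (m + 1)) := by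
          unfold av
          exact lintegral_mono fun u => hpt u
      _ ≤ ∫⁻ u, ENNReal.ofReal ((r ^ (m + 1))⁻¹) *
          ENNReal.ofReal (((1 + ‖(r' * b / r) • (u - u0)‖) ^ (m + 2))⁻¹) := by
          rw [uQ_eq]
          exact setLIntegral_le_lintegral _ _
      _ = ENNReal.ofReal ((r ^ (m + 1))⁻¹) * (ENNReal.ofReal (((r' * b / r) ^ (m + 1))⁻¹) * I) := by
          rw [lintegral_const_mul' _ _ ENNReal.ofReal_ne_top]
          congr 1
          rw [lintegral_sub_right_eq_self (fun u : Fin (m + 1) → ℝ =>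
            ENNReal.ofReal (((1 + ‖(r' * b / r) • u‖) ^ (m + 2))⁻¹)) u0]
          exact kk_scale (m + 1) hcpos _ hmeas
      _ = ENNReal.ofReal ((b ^ (m + 1))⁻¹ * (1 + 2 * D) ^ (m + 2)) * I *
            ENNReal.ofReal ((r' ^ (m + 1))⁻¹ * ((1 + 2 * D) ^ (m + 2))⁻¹) := by
          rw [← mul_assoc, ← ENNReal.ofReal_mul (by positivity), mul_right_comm,
            ← ENNReal.ofReal_mul (by positivity)]
          congr 2
          rw [div_pow, mul_pow]
          field_simp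
      _ ≤ ENNReal.ofReal ((b ^ (m + 1))⁻¹ * (1 + 2 * D) ^ (m + 2)) * I * bw r' z := by
          gcongr
          unfold bw
          apply ENNReal.ofReal_le_ofReal
          gcongr
          rw [div_le_iff₀ hr']
          exact hz.le
      _ ≤ _ := by
          gcongr
          exact le_add_self

/-- Averages of a convolution. -/
private theorem kk_av_cv {m : ℕ} {r : ℝ} (v : Fin (m + 1) → V m) {H w : V m → ℝ≥0∞}
    (hH : Measurable H) (hw : Measurable w) (z : V m) :
    av r v (cv H w) z = cv H (av r v w) z := by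
  unfold av
  have h1 : ∀ u : Fin (m + 1) → ℝ, cv H w (z + r • ∑ i, u i • v i)
      = ∫⁻ y, H (z - y) * w (y + r • ∑ i, u i • v i) := fun u =>
    (cv_translate H w (r • ∑ i, u i • v i) z).2
  simp_rw [h1]
  have hm : Measurable (uncurry fun (u : Fin (m + 1) → ℝ) (y : V m) =>
      H (z - y) * w (y + r • ∑ i, u i • v i)) := by
    refine Measurable.mul ?_ ?_
    · exact hH.comp (measurable_const.sub measurable_snd)
    · exact hw.comp ((kk_meas_shift r v).comp (measurable_snd.prodMk measurable_fst))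
  rw [lintegral_lintegral_swap hm.aemeasurable]
  unfold cv
  refine lintegral_congr fun y => ?_
  rw [lintegral_const_mul]
  exact hw.comp ((kk_meas_shift r v).comp (measurable_const.prodMk measurable_id))

/-- The sums of averages. -/
private def GG {m : ℕ} {ι : Type} (T : Finset ι) (k : ℕ) (c : ι → E m) (h : ι → V m → ℝ≥0∞)
    (r : ℝ) (z : V m) : ℝ≥0∞ :=
  ∑ i ∈ T, cv (cv (h i) (tw (1 / 2 ^ k) (c i))) (bw r) z

private theorem GG_measurable {m : ℕ} {ι : Type} (T : Finset ι) (k : ℕ) (c : ι → E m)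
    {h : ι → V m → ℝ≥0∞} (hh : ∀ i, Measurable (h i)) (r : ℝ) :
    Measurable (GG T k c h r) :=
  Finset.measurable_fun_sum _ fun i _ =>
    measurable_cv (measurable_cv (hh i) (measurable_tw _ _)) (measurable_bw r)

private theorem GG_av {m : ℕ} {ι : Type} (T : Finset ι) (k : ℕ) (c : ι → E m)
    {h : ι → V m → ℝ≥0∞} (hh : ∀ i, Measurable (h i)) {r r' : ℝ} (v : Fin (m + 1) → V m)
    (C : ℝ≥0∞) (hC : C ≠ ⊤) (hav : ∀ z : V m, av r' v (bw r) z ≤ C * bw r' z) (z : V m) :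
    av r' v (GG T k c h r) z ≤ C * GG T k c h r' z := by
  have h0 : av r' v (GG T k c h r) z
      = ∑ i ∈ T, av r' v (cv (cv (h i) (tw (1 / 2 ^ k) (c i))) (bw r)) z := by
    unfold av GG
    rw [lintegral_finsetSum]
    intro i _
    exact (measurable_cv (measurable_cv (hh i) (measurable_tw _ _)) (measurable_bw r)).comp
      ((kk_meas_shift r' v).comp (measurable_const.prodMk measurable_id))
  rw [h0]
  unfold GG
  rw [Finset.mul_sum]
  refine Finset.sum_le_sum fun i _ => ?_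
  rw [kk_av_cv v (measurable_cv (hh i) (measurable_tw _ _)) (measurable_bw r),
    ← cv_mul_const C hC]
  exact cv_mono (fun _ => le_rfl) hav z

/-- Translations along the directions of the planks. -/
private theorem GG_translate {m : ℕ} {ι : Type} (T : Finset ι) (k l : ℕ) (c : ι → E m)
    {h : ι → V m → ℝ≥0∞} {r r' : ℝ} (hr : 0 < r) (hr1 : r' ≤ 2 ^ l * r)
    (hr2 : r' ≤ 4 ^ k) (ξ : E m) (hc : ∀ i ∈ T, ‖c i - ξ‖ ≤ 1 / 2 ^ l) (z : V m) (τ : ℝ)
    (hτ : |τ| ≤ r') :
    GG T k c h r (z + τ • vec ξ) ≤ (3 ^ (m + 2) * 4 ^ (m + 2)) * GG T k c h r z := by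
  unfold GG
  rw [Finset.mul_sum]
  refine Finset.sum_le_sum fun i hi => ?_
  set H : V m → ℝ≥0∞ := cv (h i) (tw (1 / 2 ^ k) (c i)) with hH
  set w : V m := τ • (vec ξ - vec (c i)) with hw
  have hsplit : z + τ • vec ξ = (z + τ • vec (c i)) + w := by
    rw [hw, smul_sub]
    abel
  have hwn : ‖w‖ ≤ 2 * r := by
    have h1 : vec ξ - vec (c i) = ((2 : ℝ) • (c i - ξ), (0 : ℝ)) := by
      unfold vec
      ext1
      · simp only [Prod.fst_sub]
        rw [smul_sub, neg_smul, neg_smul]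
        abel
      · simp
    rw [hw, norm_smul, h1, Prod.norm_mk, norm_zero, norm_smul, max_eq_left (by positivity),
      Real.norm_eq_abs, Real.norm_eq_abs, abs_of_pos (by norm_num : (0 : ℝ) < 2)]
    have h2 := hc i hi
    have h3 : |τ| * (2 * ‖c i - ξ‖) ≤ (2 ^ l * r) * (2 * (1 / 2 ^ l)) := by
      refine mul_le_mul (le_trans hτ hr1) ?_ (by positivity) (by positivity)
      linarith
    have h4 : (2 ^ l * r) * (2 * (1 / 2 ^ l)) = 2 * r := by
      field_simp
    linarith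
  have hbw : ∀ y : V m, bw r (y + w) ≤ 3 ^ (m + 2) * bw r y := by
    intro y
    refine le_trans (bw_translate hr y w) ?_
    gcongr
    have h3 : (3 : ℝ≥0∞) ^ (m + 2) = ENNReal.ofReal (3 ^ (m + 2)) := by
      rw [ENNReal.ofReal_pow (by norm_num)]
      norm_num
    rw [h3]
    apply ENNReal.ofReal_le_ofReal
    refine pow_le_pow_left₀ (by positivity) ?_ _
    have h4 : ‖w‖ / r ≤ 2 := by
      rw [div_le_iff₀ hr]
      exact hwn
    linarith
  have htw : ∀ y : V m, tw (1 / 2 ^ k) (c i) (y + τ • vec (c i))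
      ≤ 4 ^ (m + 2) * tw (1 / 2 ^ k) (c i) y := by
    intro y
    refine tw_translate (by positivity) (c i) τ ?_ y
    have h5 : ((1 : ℝ) / 2 ^ k) ^ 2 = 1 / 4 ^ k := by
      rw [div_pow, one_pow, ← pow_mul, mul_comm k 2, pow_mul]
      norm_num
    rw [h5, mul_one_div, div_le_one (by positivity)]
    exact le_trans hτ hr2
  have hHt : ∀ y : V m, H (y + τ • vec (c i)) ≤ 4 ^ (m + 2) * H y := by
    intro y
    rw [hH, (cv_translate (h i) (tw (1 / 2 ^ k) (c i)) (τ • vec (c i)) y).2,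
      ← cv_mul_const (4 ^ (m + 2)) (by finiteness)]
    exact cv_mono (fun _ => le_rfl) htw y
  calc cv H (bw r) (z + τ • vec ξ)
      = cv H (fun y => bw r (y + w)) (z + τ • vec (c i)) := by
        rw [hsplit]
        exact (cv_translate H (bw r) w (z + τ • vec (c i))).2
    _ ≤ cv H (fun y => 3 ^ (m + 2) * bw r y) (z + τ • vec (c i)) :=
        cv_mono (fun _ => le_rfl) hbw _
    _ = 3 ^ (m + 2) * cv H (bw r) (z + τ • vec (c i)) :=
        cv_mul_const (3 ^ (m + 2)) (by finiteness) H (bw r) _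
    _ = 3 ^ (m + 2) * cv (fun y => H (y + τ • vec (c i))) (bw r) z := by
        rw [(cv_translate H (bw r) (τ • vec (c i)) z).1]
    _ ≤ 3 ^ (m + 2) * cv (fun y => 4 ^ (m + 2) * H y) (bw r) z := by
        gcongr
        exact cv_mono hHt (fun _ => le_rfl) z
    _ = 3 ^ (m + 2) * (4 ^ (m + 2) * cv H (bw r) z) := by
        rw [cv_const_mul (4 ^ (m + 2)) (by finiteness)]
    _ = _ := by ring

theorem ball_inflation (m : ℕ) (hm : 1 ≤ m) (b R0 p ε : ℝ) (hb : 0 < b) (hp : 0 < p)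
    (hp' : p * m ≤ 1) (hε : 0 < ε) :
    ∃ l0 : ℕ, ∃ C : ℝ≥0∞, C ≠ ⊤ ∧ ∀ (k : ℕ) (ξ : Fin (m + 1) → E m), Tr b ξ →
      (∀ j, ‖ξ j‖ ≤ R0) → ∀ (ι : Type) (T : Fin (m + 1) → Finset ι) (c : ι → E m)
      (h : ι → V m → ℝ≥0∞), (∀ i, Measurable (h i)) →
      (∀ j, ∀ i ∈ T j, ‖c i - ξ j‖ ≤ 1 / 2 ^ l0) →
      ∫⁻ z, ∏ j, (∑ i ∈ T j, cv (cv (h i) (tw (1 / 2 ^ k) (c i))) (bw (2 ^ k)) z) ^ p ≤
        C * 2 ^ (ε * k) *
          ∫⁻ z, ∏ j, (∑ i ∈ T j, cv (cv (h i) (tw (1 / 2 ^ k) (c i))) (bw (4 ^ k)) z) ^ p := by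
  obtain ⟨C, hC, hav⟩ := kk_av_bw m b (1 + 2 * |R0|) hb (by linarith [abs_nonneg R0])
  -- the constant of one step
  set Λ : ℝ≥0∞ := 3 ^ (m + 2) * 4 ^ (m + 2) with hΛ
  have hΛt : Λ ≠ ⊤ := by
    rw [hΛ]
    finiteness
  set A : ℝ≥0∞ := (Λ ^ p) ^ (m + 1) * (Λ ^ p) ^ (m + 1) * (C ^ p) ^ (m + 1) with hA
  have hAt : A ≠ ⊤ := by
    rw [hA]
    have h1 : Λ ^ p ≠ ⊤ := ENNReal.rpow_ne_top_of_nonneg hp.le hΛt
    have h2 : C ^ p ≠ ⊤ := ENNReal.rpow_ne_top_of_nonneg hp.le hC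
    finiteness
  -- the choice of `l0`
  obtain ⟨l0, hl1, hl2⟩ : ∃ l0 : ℕ, 1 ≤ l0 ∧ A ≤ (2 : ℝ≥0∞) ^ (ε * l0) := by
    obtain ⟨N, hN⟩ := ENNReal.exists_nat_gt hAt
    obtain ⟨M, hM⟩ := exists_nat_gt ((N : ℝ) / ε)
    refine ⟨M + 1, by omega, ?_⟩
    have h1 : (N : ℝ) ≤ ε * ((M + 1 : ℕ) : ℝ) := by
      rw [div_lt_iff₀ hε] at hM
      push_cast
      nlinarith
    calc A ≤ (N : ℝ≥0∞) := hN.le
      _ ≤ (2 : ℝ≥0∞) ^ N := by exact_mod_cast Nat.lt_two_pow_self.le
      _ = (2 : ℝ≥0∞) ^ (N : ℝ) := (ENNReal.rpow_natCast _ _).symm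
      _ ≤ (2 : ℝ≥0∞) ^ (ε * ((M + 1 : ℕ) : ℝ)) :=
        ENNReal.rpow_le_rpow_of_exponent_le (by norm_num) h1
  refine ⟨l0, A, hAt, ?_⟩
  intro k ξ hTr hξ ι T c h hh hc
  -- one step
  have hstep : ∀ r r' : ℝ, 0 < r → r ≤ r' → r' ≤ 2 ^ l0 * r → r' ≤ 4 ^ k →
      ∫⁻ z, ∏ j, GG (T j) k c h r z ^ p ≤ A * ∫⁻ z, ∏ j, GG (T j) k c h r' z ^ p := by
    intro r r' hr hrr hr1 hr2
    have hvn : ∀ j, ‖vec (ξ j)‖ ≤ 1 + 2 * |R0| := by
      intro j
      unfold vec
      rw [Prod.norm_mk, norm_smul]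
      have h1 : ‖ξ j‖ ≤ |R0| := le_trans (hξ j) (le_abs_self _)
      refine max_le ?_ ?_
      · have h2 : ‖(-2 : ℝ)‖ = 2 := by norm_num
        rw [h2]
        linarith
      · have h2 : ‖(1 : ℝ)‖ = 1 := norm_one
        rw [h2]
        linarith [abs_nonneg R0]
    have h1 := kk_one_step hm (r := r') hp hp' (fun j => vec (ξ j)) (fun j => GG (T j) k c h r)
      (fun j => GG_measurable (T j) k c hh r) Λ (by linarith)
      (fun j z τ hτ => GG_translate (T j) k l0 c hr hr1 hr2 (ξ j) (hc j) z τ hτ)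
    refine le_trans h1 ?_
    have h2 : ∫⁻ z, ∏ j, av r' (fun j => vec (ξ j)) (GG (T j) k c h r) z ^ p
        ≤ (C ^ p) ^ (m + 1) * ∫⁻ z, ∏ j, GG (T j) k c h r' z ^ p := by
      have hm2 : Measurable fun z => ∏ j, GG (T j) k c h r' z ^ p :=
        Finset.measurable_fun_prod _ fun j _ => (GG_measurable (T j) k c hh r').pow_const _
      rw [← lintegral_const_mul _ hm2]
      refine lintegral_mono fun z => ?_
      have h3 : (C ^ p) ^ (m + 1) * ∏ j, GG (T j) k c h r' z ^ p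
          = ∏ j, (C * GG (T j) k c h r' z) ^ p := by
        simp_rw [ENNReal.mul_rpow_of_nonneg _ _ hp.le]
        rw [Finset.prod_mul_distrib, Finset.prod_const, Finset.card_univ, Fintype.card_fin]
      rw [h3]
      refine Finset.prod_le_prod' fun j _ => ENNReal.rpow_le_rpow ?_ hp.le
      exact GG_av (T j) k c hh (fun j => vec (ξ j)) C hC
        (fun z => hav (fun j => vec (ξ j)) hTr hvn r r' hr hrr z) z
    calc (Λ ^ p) ^ (m + 1) * (Λ ^ p) ^ (m + 1) *
          ∫⁻ z, ∏ j, av r' (fun j => vec (ξ j)) (GG (T j) k c h r) z ^ p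
        ≤ (Λ ^ p) ^ (m + 1) * (Λ ^ p) ^ (m + 1) *
          ((C ^ p) ^ (m + 1) * ∫⁻ z, ∏ j, GG (T j) k c h r' z ^ p) := by gcongr
      _ = _ := by rw [hA]; ring
  -- several steps
  have hsteps : ∀ t : ℕ, k + l0 * t ≤ 2 * k →
      ∫⁻ z, ∏ j, GG (T j) k c h (2 ^ k) z ^ p ≤
        A ^ t * ∫⁻ z, ∏ j, GG (T j) k c h (2 ^ (k + l0 * t)) z ^ p := by
    intro t
    induction t with
    | zero => intro _; simp
    | succ t ih =>
      intro ht
      have ht' : k + l0 * t ≤ 2 * k := by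
        have : l0 * (t + 1) = l0 * t + l0 := by ring
        omega
      refine le_trans (ih ht') ?_
      have h1 := hstep (2 ^ (k + l0 * t)) (2 ^ (k + l0 * (t + 1))) (by positivity)
        (pow_le_pow_right₀ (by norm_num) (by nlinarith))
        (by rw [← pow_add]; exact pow_le_pow_right₀ (by norm_num) (by nlinarith))
        (by
          have h2 : (4 : ℝ) ^ k = 2 ^ (2 * k) := by
            rw [pow_mul]
            norm_num
          rw [h2]
          exact pow_le_pow_right₀ (by norm_num) ht)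
      calc A ^ t * ∫⁻ z, ∏ j, GG (T j) k c h (2 ^ (k + l0 * t)) z ^ p
          ≤ A ^ t * (A * ∫⁻ z, ∏ j, GG (T j) k c h (2 ^ (k + l0 * (t + 1))) z ^ p) := by gcongr
        _ = _ := by ring
  have hdiv : l0 * (k / l0) ≤ k := Nat.mul_div_le k l0
  have hdiv2 : k < l0 * (k / l0) + l0 := by
    have := Nat.lt_mul_div_succ k (by omega : 0 < l0)
    nlinarith
  have h1 := hsteps (k / l0) (by omega)
  have h4 : (4 : ℝ) ^ k = 2 ^ (2 * k) := by
    rw [pow_mul]
    norm_num
  have h2 := hstep (2 ^ (k + l0 * (k / l0))) (4 ^ k) (by positivity)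
    (by rw [h4]; exact pow_le_pow_right₀ (by norm_num) (by omega))
    (by rw [h4, ← pow_add]; exact pow_le_pow_right₀ (by norm_num) (by omega)) le_rfl
  have h3 : A ^ (k / l0) ≤ (2 : ℝ≥0∞) ^ (ε * k) := by
    calc A ^ (k / l0) ≤ ((2 : ℝ≥0∞) ^ (ε * l0)) ^ (k / l0) := by gcongr
      _ = (2 : ℝ≥0∞) ^ (ε * l0 * ((k / l0 : ℕ) : ℝ)) := by
        rw [← ENNReal.rpow_natCast, ← ENNReal.rpow_mul]
      _ ≤ (2 : ℝ≥0∞) ^ (ε * k) := by
        apply ENNReal.rpow_le_rpow_of_exponent_le (by norm_num)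
        have h5 : (l0 : ℝ) * ((k / l0 : ℕ) : ℝ) ≤ k := by exact_mod_cast hdiv
        calc ε * l0 * ((k / l0 : ℕ) : ℝ) = ε * ((l0 : ℝ) * ((k / l0 : ℕ) : ℝ)) := by ring
          _ ≤ ε * k := mul_le_mul_of_nonneg_left h5 hε.le
  calc ∫⁻ z, ∏ j, GG (T j) k c h (2 ^ k) z ^ p
      ≤ A ^ (k / l0) * ∫⁻ z, ∏ j, GG (T j) k c h (2 ^ (k + l0 * (k / l0))) z ^ p := h1
    _ ≤ (2 : ℝ≥0∞) ^ (ε * k) * (A * ∫⁻ z, ∏ j, GG (T j) k c h (4 ^ k) z ^ p) := by gcongr
    _ = A * 2 ^ (ε * k) * ∫⁻ z, ∏ j, GG (T j) k c h (4 ^ k) z ^ p := by ring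

end Pool.LibDC71
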