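import Pool.Agent.LibDC71.G3

/-! LD1 (from the grid to arbitrary families). Hypothesis: the grid statement for all A and ε. -/

set_option autoImplicit false

noncomputable section

open MeasureTheory
open scoped ENNReal

namespace Pool.LibDC71

/-- the label of level `k` of a point -/
private def lab {m : ℕ} (k : ℕ) (x : E m) : Fin m → ℤ := fun l => ⌊(2 : ℝ) ^ k * x l⌋

/-- the finer label inside a cell -/
private def sublab {m : ℕ} (k : ℕ) (x : E m) : Fin m → ℤ :=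
  fun l => ⌊((m + 1 : ℕ) : ℝ) * ((2 : ℝ) ^ k * x l)⌋ - ((m + 1 : ℕ) : ℤ) * ⌊(2 : ℝ) ^ k * x l⌋

private theorem lab_mem {m : ℕ} (k : ℕ) (x : E m) (h : ∀ l, 0 ≤ x l ∧ x l < 1) :
    lab k x ∈ Lam m k := by
  rw [mem_Lam]
  intro l
  refine ⟨Int.floor_nonneg.2 (mul_nonneg (by positivity) (h l).1), ?_⟩
  unfold lab
  refine Int.floor_lt.2 ?_
  push_cast
  have h2 : (0 : ℝ) < 2 ^ k := by positivity
  nlinarith [(h l).2]

private theorem norm_le_of_coord {m : ℕ} {x : E m} {d : ℝ} (hd : 0 ≤ d) (h : ∀ l, |x l| ≤ d) :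
    ‖x‖ ≤ Real.sqrt m * d := by
  rw [EuclideanSpace.norm_eq]
  have h1 : ∑ l, ‖x l‖ ^ 2 ≤ m * d ^ 2 := by
    calc ∑ l, ‖x l‖ ^ 2 ≤ ∑ _l : Fin m, d ^ 2 := Finset.sum_le_sum fun l _ => by
            rw [Real.norm_eq_abs]; exact pow_le_pow_left₀ (abs_nonneg _) (h l) 2
      _ = m * d ^ 2 := by simp
  calc Real.sqrt (∑ l, ‖x l‖ ^ 2) ≤ Real.sqrt (m * d ^ 2) := Real.sqrt_le_sqrt h1
    _ = Real.sqrt m * d := by rw [Real.sqrt_mul (Nat.cast_nonneg m), Real.sqrt_sq hd]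

private theorem dist_lab {m : ℕ} (k : ℕ) (x : E m) :
    ‖x - ctr k (lab k x)‖ ≤ Real.sqrt m / 2 ^ k := by
  have h2 : (0 : ℝ) < 2 ^ k := by positivity
  have h := norm_le_of_coord (x := x - ctr k (lab k x)) (d := 1 / 2 ^ k) (by positivity) (by
    intro l
    have h3 : (x - ctr k (lab k x)) l = x l - (⌊(2 : ℝ) ^ k * x l⌋ : ℝ) / 2 ^ k := rfl
    rw [h3, abs_le]
    have h4 := Int.floor_le ((2 : ℝ) ^ k * x l)
    have h5 := Int.lt_floor_add_one ((2 : ℝ) ^ k * x l)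
    constructor
    · have : (⌊(2 : ℝ) ^ k * x l⌋ : ℝ) / 2 ^ k ≤ x l := by
        rw [div_le_iff₀ h2]; linarith
      have h6 : (0 : ℝ) < 1 / 2 ^ k := by positivity
      linarith
    · rw [sub_le_iff_le_add, ← add_div, le_div_iff₀ h2]
      linarith)
  calc ‖x - ctr k (lab k x)‖ ≤ Real.sqrt m * (1 / 2 ^ k) := h
    _ = Real.sqrt m / 2 ^ k := by ring

private theorem sublab_mem {m : ℕ} (k : ℕ) (x : E m) :
    sublab k x ∈ Fintype.piFinset (fun _ : Fin m => Finset.Ico (0 : ℤ) ((m + 1 : ℕ) : ℤ)) := by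
  rw [Fintype.mem_piFinset]
  intro l
  rw [Finset.mem_Ico]
  unfold sublab
  set y : ℝ := (2 : ℝ) ^ k * x l
  have hN : (0 : ℝ) < ((m + 1 : ℕ) : ℝ) := by positivity
  have h4 := Int.floor_le y
  have h5 := Int.lt_floor_add_one y
  constructor
  · have : ((m + 1 : ℕ) : ℤ) * ⌊y⌋ ≤ ⌊((m + 1 : ℕ) : ℝ) * y⌋ := by
      refine Int.le_floor.2 ?_
      push_cast at hN ⊢
      exact mul_le_mul_of_nonneg_left h4 hN.le
    linarith
  · have : ⌊((m + 1 : ℕ) : ℝ) * y⌋ < ((m + 1 : ℕ) : ℤ) * (⌊y⌋ + 1) := by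
      refine Int.floor_lt.2 ?_
      push_cast at hN ⊢
      exact mul_lt_mul_of_pos_left h5 hN
    linarith

private theorem near_of_labels {m : ℕ} (k : ℕ) (x y : E m) (h1 : lab k x = lab k y)
    (h2 : sublab k x = sublab k y) : ‖x - y‖ ≤ 1 / 2 ^ k := by
  have h2k : (0 : ℝ) < 2 ^ k := by positivity
  have hN : (0 : ℝ) < ((m + 1 : ℕ) : ℝ) := by positivity
  have h := norm_le_of_coord (x := x - y) (d := 1 / (((m + 1 : ℕ) : ℝ) * 2 ^ k)) (by positivity) (by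
    intro l
    have e1 := congrFun h1 l
    have e2 := congrFun h2 l
    unfold lab at e1
    unfold sublab at e2
    have e3 : ⌊((m + 1 : ℕ) : ℝ) * ((2 : ℝ) ^ k * x l)⌋ = ⌊((m + 1 : ℕ) : ℝ) * ((2 : ℝ) ^ k * y l)⌋ := by
      rw [e1] at e2
      linarith
    have h3 : (x - y) l = x l - y l := rfl
    rw [h3]
    have a1 := Int.floor_le (((m + 1 : ℕ) : ℝ) * ((2 : ℝ) ^ k * x l))
    have a2 := Int.lt_floor_add_one (((m + 1 : ℕ) : ℝ) * ((2 : ℝ) ^ k * x l))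
    have b1 := Int.floor_le (((m + 1 : ℕ) : ℝ) * ((2 : ℝ) ^ k * y l))
    have b2 := Int.lt_floor_add_one (((m + 1 : ℕ) : ℝ) * ((2 : ℝ) ^ k * y l))
    rw [e3] at a1 a2
    rw [abs_le]
    have hpos : (0 : ℝ) < ((m + 1 : ℕ) : ℝ) * 2 ^ k := by positivity
    constructor
    · rw [neg_le_sub_iff_le_add, ← sub_le_iff_le_add', le_div_iff₀ hpos]
      nlinarith
    · rw [sub_le_iff_le_add, ← sub_le_iff_le_add, le_div_iff₀ hpos]
      nlinarith)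
  refine h.trans ?_
  have h6 : Real.sqrt m ≤ ((m + 1 : ℕ) : ℝ) := by
    rw [Real.sqrt_le_left (by positivity)]
    push_cast
    nlinarith [Nat.cast_nonneg (α := ℝ) m]
  rw [mul_one_div, div_le_div_iff₀ (by positivity) h2k]
  nlinarith

private theorem card_label {m : ℕ} (k : ℕ) {ι : Type} (s : Finset ι) (ξ : ι → E m) (L : ℕ)
    (hL : ∀ i ∈ s, {j | j ∈ s ∧ ‖ξ j - ξ i‖ ≤ 1 / 2 ^ k}.ncard ≤ L) (a : Fin m → ℤ) :
    (s.filter (fun i => lab k (ξ i) = a)).card ≤ L * (m + 1) ^ m := by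
  have hcard : (Fintype.piFinset (fun _ : Fin m => Finset.Ico (0 : ℤ) ((m + 1 : ℕ) : ℤ))).card =
      (m + 1) ^ m := by
    rw [Fintype.card_piFinset]
    simp
  rw [← hcard]
  refine Finset.card_le_mul_card_image_of_maps_to (f := fun i => sublab k (ξ i))
    (fun i _ => sublab_mem k (ξ i)) L ?_
  intro b _
  rcases Finset.eq_empty_or_nonempty
    ((s.filter (fun i => lab k (ξ i) = a)).filter (fun i => sublab k (ξ i) = b)) with h | ⟨i0, hi0⟩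
  · rw [h]; simp
  · rw [Finset.mem_filter, Finset.mem_filter] at hi0
    obtain ⟨⟨hs0, ha0⟩, hb0⟩ := hi0
    refine le_trans ?_ (hL i0 hs0)
    rw [← Set.ncard_coe_finset]
    refine Set.ncard_le_ncard ?_ (s.finite_toSet.subset fun j hj => hj.1)
    intro j hj
    rw [Finset.mem_coe, Finset.mem_filter, Finset.mem_filter] at hj
    obtain ⟨⟨hs1, ha1⟩, hb1⟩ := hj
    exact ⟨hs1, near_of_labels k _ _ (ha1.trans ha0.symm) (hb1.trans hb0.symm)⟩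

private theorem power_mean {m : ℕ} {q : ℝ} (hq : 2 < q) {ι : Type} (s : Finset ι)
    (f : ι → V m → ℂ) (hm : ∀ i ∈ s, Measurable (fun z => ‖f i z‖ₑ ^ q)) (N : ℝ≥0∞)
    (hN : (s.card : ℝ≥0∞) ≤ N) :
    ∫⁻ z, ‖∑ i ∈ s, f i z‖ₑ ^ q ≤ N ^ (q - 1) * ∑ i ∈ s, ∫⁻ z, ‖f i z‖ₑ ^ q := by
  have h1 : ∀ z, ‖∑ i ∈ s, f i z‖ₑ ^ q ≤ N ^ (q - 1) * ∑ i ∈ s, ‖f i z‖ₑ ^ q := by
    intro z
    calc ‖∑ i ∈ s, f i z‖ₑ ^ q ≤ (∑ i ∈ s, ‖f i z‖ₑ) ^ q :=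
          ENNReal.rpow_le_rpow (enorm_sum_le _ _) (by linarith)
      _ ≤ (s.card : ℝ≥0∞) ^ (q - 1) * ∑ i ∈ s, ‖f i z‖ₑ ^ q :=
          ENNReal.rpow_sum_le_const_mul_sum_rpow s _ (by linarith)
      _ ≤ N ^ (q - 1) * ∑ i ∈ s, ‖f i z‖ₑ ^ q := by
          gcongr
          linarith
  refine (lintegral_mono h1).trans ?_
  rw [lintegral_const_mul _ (Finset.measurable_fun_sum s hm), lintegral_finsetSum' s
    (fun i hi => (hm i hi).aemeasurable)]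

private theorem unit_case {m : ℕ} {q : ℝ} (hq : 2 < q) (A : ℝ) (L : ℕ) (k : ℕ) (D : ℝ≥0∞)
    (hD : DB m q (|A| + Real.sqrt m) k D) {ι : Type} (s : Finset ι) (ξ : ι → E m)
    (f : ι → V m → ℂ) (h01 : ∀ i ∈ s, ∀ l, 0 ≤ ξ i l ∧ ξ i l < 1)
    (hL : ∀ i ∈ s, {j | j ∈ s ∧ ‖ξ j - ξ i‖ ≤ 1 / 2 ^ k}.ncard ≤ L)
    (hf : ∀ i ∈ s, Fr {ζ | ‖ζ.1 - ξ i‖ ≤ A / 2 ^ k ∧ |ζ.2 - ‖ζ.1‖ ^ 2| ≤ A / 4 ^ k} (f i)) :
    ∫⁻ z, ‖∑ i ∈ s, f i z‖ₑ ^ q ≤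
      D * nf m q k * (((L * (m + 1) ^ m : ℕ) : ℝ≥0∞) ^ (q - 1) *
        ∑ i ∈ s, ∫⁻ z, ‖f i z‖ₑ ^ q) := by
  set g : (Fin m → ℤ) → V m → ℂ := fun a z => ∑ i ∈ s.filter (fun i => lab k (ξ i) = a), f i z
    with hg
  have hfam : Fam (|A| + Real.sqrt m) k g := by
    intro a _
    refine Fr.sum _ fun i hi => ?_
    rw [Finset.mem_filter] at hi
    refine (hf i hi.1).mono ?_
    rintro ζ ⟨h1, h2⟩
    have h2k : (0 : ℝ) < 2 ^ k := by positivity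
    have h4k : (0 : ℝ) < 4 ^ k := by positivity
    refine ⟨?_, h2.trans ?_⟩
    · have h3 := dist_lab k (ξ i)
      rw [hi.2] at h3
      calc ‖ζ.1 - ctr k a‖ = ‖(ζ.1 - ξ i) + (ξ i - ctr k a)‖ := by congr 1; abel
        _ ≤ ‖ζ.1 - ξ i‖ + ‖ξ i - ctr k a‖ := norm_add_le _ _
        _ ≤ A / 2 ^ k + Real.sqrt m / 2 ^ k := add_le_add h1 h3
        _ ≤ |A| / 2 ^ k + Real.sqrt m / 2 ^ k := by gcongr; exact le_abs_self A
        _ = (|A| + Real.sqrt m) / 2 ^ k := by ring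
    · gcongr
      linarith [le_abs_self A, Real.sqrt_nonneg (m : ℝ)]
  have h1 := hD g hfam
  have h2 : ∀ z, ∑ a ∈ Lam m k, g a z = ∑ i ∈ s, f i z := fun z =>
    Finset.sum_fiberwise_of_maps_to (fun i hi => lab_mem k (ξ i) (h01 i hi)) _
  have h3 : en q k g ≤ ((L * (m + 1) ^ m : ℕ) : ℝ≥0∞) ^ (q - 1) *
      ∑ i ∈ s, ∫⁻ z, ‖f i z‖ₑ ^ q := by
    have h4 : ∑ i ∈ s, ∫⁻ z, ‖f i z‖ₑ ^ q =
        ∑ a ∈ Lam m k, ∑ i ∈ s.filter (fun i => lab k (ξ i) = a), ∫⁻ z, ‖f i z‖ₑ ^ q :=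
      (Finset.sum_fiberwise_of_maps_to (fun i hi => lab_mem k (ξ i) (h01 i hi)) _).symm
    rw [h4, Finset.mul_sum]
    refine Finset.sum_le_sum fun a _ => ?_
    refine power_mean hq _ _ (fun i hi => ?_) _ ?_
    · rw [Finset.mem_filter] at hi
      exact (hf i hi.1).measurable_enorm q
    · exact_mod_cast card_label k s ξ L hL a
  simp only [h2] at h1
  exact h1.trans (mul_le_mul_right h3 _)

/-- the integer part -/
private def ipart {m : ℕ} (x : E m) : Fin m → ℤ := fun l => ⌊x l⌋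

theorem family_of_grid (m : ℕ) (q : ℝ) (hq : 2 < q)
    (H : ∀ A ε : ℝ, 0 < ε → ∃ C : ℝ≥0∞, C ≠ ⊤ ∧ ∀ k : ℕ, DB m q A k (C * 2 ^ (ε * k)))
    (A R0 ε : ℝ) (L : ℕ) (hε : 0 < ε) :
    ∃ C : ℝ≥0∞, C ≠ ⊤ ∧ ∀ (k : ℕ) (ι : Type) (s : Finset ι) (ξ : ι → E m) (f : ι → V m → ℂ),
      (∀ i ∈ s, ‖ξ i‖ ≤ R0) →
      (∀ i ∈ s, {j | j ∈ s ∧ ‖ξ j - ξ i‖ ≤ 1 / 2 ^ k}.ncard ≤ L) →
      (∀ i ∈ s, Fr {ζ | ‖ζ.1 - ξ i‖ ≤ A / 2 ^ k ∧ |ζ.2 - ‖ζ.1‖ ^ 2| ≤ A / 4 ^ k} (f i)) →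
      ∫⁻ z, ‖∑ i ∈ s, f i z‖ₑ ^ q ≤
        C * 2 ^ ((ε + m * (q / 2 - 1)) * k) * ∑ i ∈ s, ∫⁻ z, ‖f i z‖ₑ ^ q := by
  obtain ⟨C0, hC0, hDB⟩ := H (|A| + Real.sqrt m) ε hε
  set T : Finset (Fin m → ℤ) :=
    Fintype.piFinset (fun _ : Fin m => Finset.Icc (-⌈|R0|⌉ - 1) (⌈|R0|⌉ + 1)) with hT
  set N : ℝ≥0∞ := ((L * (m + 1) ^ m : ℕ) : ℝ≥0∞) ^ (q - 1) with hN
  set P : ℝ≥0∞ := ((T.card : ℕ) : ℝ≥0∞) ^ (q - 1) with hP
  have hNtop : N ≠ ⊤ := ENNReal.rpow_ne_top_of_nonneg (by linarith) (ENNReal.natCast_ne_top _)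
  have hPtop : P ≠ ⊤ := ENNReal.rpow_ne_top_of_nonneg (by linarith) (ENNReal.natCast_ne_top _)
  refine ⟨P * (C0 * N), ENNReal.mul_ne_top hPtop (ENNReal.mul_ne_top hC0 hNtop), ?_⟩
  intro k ι s ξ f hξ hL hf
  have hmaps : ∀ i ∈ s, ipart (ξ i) ∈ T := by
    intro i hi
    rw [hT, Fintype.mem_piFinset]
    intro l
    rw [Finset.mem_Icc]
    have h1 : |ξ i l| ≤ |R0| := by
      have h2 : ‖ξ i l‖ ≤ ‖ξ i‖ := PiLp.norm_apply_le (ξ i) l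
      rw [Real.norm_eq_abs] at h2
      exact h2.trans ((hξ i hi).trans (le_abs_self R0))
    rw [abs_le] at h1
    have h3 : |R0| ≤ ⌈|R0|⌉ := Int.le_ceil _
    constructor
    · refine Int.le_floor.2 ?_
      push_cast
      linarith [h1.1]
    · have : (⌊ξ i l⌋ : ℝ) ≤ ((⌈|R0|⌉ : ℤ) : ℝ) + 1 := by
        have := Int.floor_le (ξ i l)
        linarith [h1.2]
      exact_mod_cast this
  have hmeas : ∀ i ∈ s, Measurable (fun z => ‖f i z‖ₑ ^ q) := fun i hi =>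
    (hf i hi).measurable_enorm q
  -- one class
  have hone : ∀ n ∈ T, ∫⁻ z, ‖∑ i ∈ s.filter (fun i => ipart (ξ i) = n), f i z‖ₑ ^ q ≤
      C0 * 2 ^ (ε * k) * nf m q k * (N *
        ∑ i ∈ s.filter (fun i => ipart (ξ i) = n), ∫⁻ z, ‖f i z‖ₑ ^ q) := by
    intro n _
    set c : E m := WithLp.toLp 2 (fun l => (n l : ℝ)) with hc
    have hgal : ∀ F : V m → ℂ, ∫⁻ z, ‖gal 1 c F z‖ₑ ^ q = ∫⁻ z, ‖F z‖ₑ ^ q := by
      intro F
      rw [lintegral_gal one_pos]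
      simp
    have h1 := unit_case hq A L k (C0 * 2 ^ (ε * k)) (hDB k)
      (s.filter (fun i => ipart (ξ i) = n)) (fun i => ξ i - c) (fun i => gal 1 c (f i)) ?_ ?_ ?_
    · rw [← hgal]
      simp only [gal_sum]
      simp only [hgal] at h1
      exact h1
    · intro i hi l
      rw [Finset.mem_filter] at hi
      have h2 : (ξ i - c) l = ξ i l - (⌊ξ i l⌋ : ℝ) := by
        have h3 : (ξ i - c) l = ξ i l - (n l : ℝ) := rfl
        rw [h3, ← hi.2]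
        rfl
      rw [h2]
      constructor
      · linarith [Int.floor_le (ξ i l)]
      · linarith [Int.lt_floor_add_one (ξ i l)]
    · intro i hi
      refine le_trans (Set.ncard_le_ncard ?_ (s.finite_toSet.subset fun j hj => hj.1))
        (hL i (Finset.mem_filter.1 hi).1)
      rintro j ⟨hj1, hj2⟩
      refine ⟨(Finset.mem_filter.1 hj1).1, ?_⟩
      have : ξ j - c - (ξ i - c) = ξ j - ξ i := by abel
      rwa [this] at hj2
    · intro i hi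
      have h2 := Fr_gal (lam := 1) one_pos c (ξ i) (r := A / 2 ^ k) (h := A / 4 ^ k)
        (f := f i) (hf i (Finset.mem_filter.1 hi).1)
      rw [one_smul, one_mul, one_pow, one_mul] at h2
      exact h2
  have hsum : ∀ z, ∑ n ∈ T, ∑ i ∈ s.filter (fun i => ipart (ξ i) = n), f i z = ∑ i ∈ s, f i z :=
    fun z => Finset.sum_fiberwise_of_maps_to hmaps _
  have hmeas' : ∀ n ∈ T, Measurable
      (fun z => ‖∑ i ∈ s.filter (fun i => ipart (ξ i) = n), f i z‖ₑ ^ q) := by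
    intro n _
    refine Fr.measurable_enorm (U := Set.univ)
      (f := fun z => ∑ i ∈ s.filter (fun i => ipart (ξ i) = n), f i z) ?_ q
    exact Fr.sum _ fun i hi => (hf i (Finset.mem_filter.1 hi).1).mono (Set.subset_univ _)
  have hfin := power_mean hq T (fun n z => ∑ i ∈ s.filter (fun i => ipart (ξ i) = n), f i z)
    hmeas' ((T.card : ℕ) : ℝ≥0∞) le_rfl
  simp only [hsum] at hfin
  have hpow : (2 : ℝ≥0∞) ^ ((ε + m * (q / 2 - 1)) * k) = 2 ^ (ε * k) * nf m q k := by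
    unfold nf
    rw [← ENNReal.rpow_add _ _ (by norm_num) (by norm_num)]
    congr 1
    ring
  calc ∫⁻ z, ‖∑ i ∈ s, f i z‖ₑ ^ q ≤ P * ∑ n ∈ T,
        ∫⁻ z, ‖∑ i ∈ s.filter (fun i => ipart (ξ i) = n), f i z‖ₑ ^ q := hfin
    _ ≤ P * ∑ n ∈ T, C0 * 2 ^ (ε * k) * nf m q k * (N *
        ∑ i ∈ s.filter (fun i => ipart (ξ i) = n), ∫⁻ z, ‖f i z‖ₑ ^ q) := by
        gcongr with n hn
        exact hone n hn
    _ = P * (C0 * N) * 2 ^ ((ε + m * (q / 2 - 1)) * k) * ∑ i ∈ s, ∫⁻ z, ‖f i z‖ₑ ^ q := by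
        rw [← Finset.mul_sum, ← Finset.mul_sum, Finset.sum_fiberwise_of_maps_to hmaps, hpow]
        ring

end Pool.LibDC71
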