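import Pool.Agent.LibDC71.K2
import Pool.Agent.LibDC71.G2
import Pool.Agent.LibDC71.J1

/-! MS1 (start of the iteration). j ≤ l ≤ k. For each i: pc k j f (α i) = ∑_{a in desc l j (α i)} pc k l f a
(`pc_pc`), at most 2^(l m) terms, so
(cv ‖pc k j f (α i)‖ (bw 2^j))^2 ≤ 2^(l m) ∑_a (cv ‖F_a‖ (bw 2^j))^2 ≤ 2^(l m) C ∑_a cv (‖F_a‖^2) (bw 2^j)
(`cv_jensen` with s = 2), ‖F_a‖^2 ≤ C cv ‖F_a‖^2 (bw 2^l) (`lc_ball` with s = 2, r = 2^l, `reg_subset_ball`),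
cv (bw 2^l) (bw 2^j) ≤ C bw 2^l (`cv_bw_bw` with r = 2^j ≤ R = 2^l and `cv_comm`). Raise to the power
q/(2(m+1)) and take the product over the m+1 indices: (C 2^(l m))^(q/2). -/

set_option autoImplicit false

noncomputable section

open MeasureTheory
open scoped ENNReal

namespace Pool.LibDC71

private theorem MS1_pt (m : ℕ) (A : ℝ) (hA : Real.sqrt m ≤ A) : ∃ C : ℝ≥0∞, C ≠ ⊤ ∧
    ∀ (j l k : ℕ), j ≤ l → l ≤ k → ∀ (f : (Fin m → ℤ) → V m → ℂ), Fam A k f →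
      ∀ α : Fin m → ℤ, α ∈ Lam m j → ∀ z : V m,
      (cv (fun y => ‖pc k j f α y‖ₑ) (bw (2 ^ j)) z) ^ (2 : ℝ) ≤
        C * (2 : ℝ≥0∞) ^ (l * m) *
          ∑ a ∈ desc l j α, cv (fun y => ‖pc k l f a y‖ₑ ^ (2 : ℝ)) (bw (2 ^ l)) z := by
  obtain ⟨M, hM, -, hm⟩ := mass_bw m
  obtain ⟨C1, hC1, h1⟩ := lc_ball m ((A + 1) * (A + 1 + 2 * Real.sqrt m)) 2 (by norm_num)
  obtain ⟨C2, hC2, h2⟩ := cv_bw_bw m
  refine ⟨M * (C1 * C2), ENNReal.mul_ne_top hM (ENNReal.mul_ne_top hC1 hC2), ?_⟩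
  intro j l k hjl hlk f hf α hα z
  have hA0 : 0 ≤ A := (Real.sqrt_nonneg _).trans hA
  have hFa : ∀ a, Fr (reg A l a) (pc k l f a) := fun a => Fr_pc hA hlk hf a
  have hF : Fr (reg A j α) (pc k j f α) := Fr_pc hA (hjl.trans hlk) hf α
  have ma : ∀ a, Measurable fun y => ‖pc k l f a y‖ₑ ^ (2 : ℝ) := fun a => (hFa a).measurable_enorm 2
  have mF : Measurable fun y => ‖pc k j f α y‖ₑ := hF.continuous.measurable.enorm
  have s1 := cv_jensen (s := 2) (by norm_num) mF (measurable_bw (2 ^ j)) (fun z => bw_ne_top _ z) z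
  rw [hm _ (by positivity), show (2 : ℝ) - 1 = 1 by norm_num, ENNReal.rpow_one] at s1
  have hcard : ((desc l j α).card : ℝ≥0∞) ≤ (2 : ℝ≥0∞) ^ (l * m) := by
    have c1 := card_desc_le hjl α
    have c2 : 2 ^ ((l - j) * m) ≤ 2 ^ (l * m) :=
      Nat.pow_le_pow_right (by norm_num) (Nat.mul_le_mul_right m (Nat.sub_le l j))
    have c3 : (desc l j α).card ≤ 2 ^ (l * m) := c1.trans c2
    exact_mod_cast c3
  have s2 : ∀ y, ‖pc k j f α y‖ₑ ^ (2 : ℝ) ≤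
      (2 : ℝ≥0∞) ^ (l * m) * ∑ a ∈ desc l j α, ‖pc k l f a y‖ₑ ^ (2 : ℝ) := by
    intro y
    rw [pc_pc hjl hlk f hα y]
    refine le_trans (ENNReal.rpow_le_rpow (enorm_sum_le _ _) (by norm_num)) ?_
    refine le_trans (ENNReal.rpow_sum_le_const_mul_sum_rpow _ _ (by norm_num)) ?_
    rw [show (2 : ℝ) - 1 = 1 by norm_num, ENNReal.rpow_one]
    gcongr
  have s3 : ∀ a ∈ desc l j α, cv (fun y => ‖pc k l f a y‖ₑ ^ (2 : ℝ)) (bw (2 ^ j)) z ≤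
      C1 * C2 * cv (fun y => ‖pc k l f a y‖ₑ ^ (2 : ℝ)) (bw (2 ^ l)) z := by
    intro a ha
    have ha' := (mem_desc.1 ha).1
    have hball := (hFa a).mono (reg_subset_ball hA0 ha')
    have e1 := h1 (2 ^ l) _ _ (by positivity) hball
    have hjl2 : (2 : ℝ) ^ j ≤ 2 ^ l := pow_le_pow_right₀ (by norm_num) hjl
    calc cv (fun y => ‖pc k l f a y‖ₑ ^ (2 : ℝ)) (bw (2 ^ j)) z
        ≤ cv (fun y => C1 * cv (fun y => ‖pc k l f a y‖ₑ ^ (2 : ℝ)) (bw (2 ^ l)) y) (bw (2 ^ j)) z :=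
          cv_mono e1 (fun _ => le_rfl) z
      _ = C1 * cv (cv (fun y => ‖pc k l f a y‖ₑ ^ (2 : ℝ)) (bw (2 ^ l))) (bw (2 ^ j)) z :=
          cv_const_mul C1 hC1 _ _ z
      _ = C1 * cv (fun y => ‖pc k l f a y‖ₑ ^ (2 : ℝ)) (cv (bw (2 ^ l)) (bw (2 ^ j))) z := by
          rw [cv_assoc (ma a) (measurable_bw _) (measurable_bw _)]
      _ ≤ C1 * cv (fun y => ‖pc k l f a y‖ₑ ^ (2 : ℝ)) (fun y => C2 * bw (2 ^ l) y) z := by
          refine mul_le_mul' le_rfl (cv_mono (fun _ => le_rfl) (fun y => ?_) z)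
          rw [cv_comm]
          exact h2 (2 ^ j) (2 ^ l) (by positivity) hjl2 y
      _ = C1 * C2 * cv (fun y => ‖pc k l f a y‖ₑ ^ (2 : ℝ)) (bw (2 ^ l)) z := by
          rw [cv_mul_const C2 hC2, mul_assoc]
  have hN : (2 : ℝ≥0∞) ^ (l * m) ≠ ⊤ := ENNReal.pow_ne_top (by norm_num)
  calc (cv (fun y => ‖pc k j f α y‖ₑ) (bw (2 ^ j)) z) ^ (2 : ℝ)
      ≤ M * cv (fun y => ‖pc k j f α y‖ₑ ^ (2 : ℝ)) (bw (2 ^ j)) z := s1
    _ ≤ M * cv (fun y => (2 : ℝ≥0∞) ^ (l * m) * ∑ a ∈ desc l j α, ‖pc k l f a y‖ₑ ^ (2 : ℝ))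
          (bw (2 ^ j)) z := mul_le_mul' le_rfl (cv_mono s2 (fun _ => le_rfl) z)
    _ = M * ((2 : ℝ≥0∞) ^ (l * m) *
          ∑ a ∈ desc l j α, cv (fun y => ‖pc k l f a y‖ₑ ^ (2 : ℝ)) (bw (2 ^ j)) z) := by
        rw [cv_const_mul _ hN, cv_sum _ _ _ (fun a _ => ma a) (measurable_bw _)]
    _ ≤ M * ((2 : ℝ≥0∞) ^ (l * m) *
          ∑ a ∈ desc l j α, C1 * C2 * cv (fun y => ‖pc k l f a y‖ₑ ^ (2 : ℝ)) (bw (2 ^ l)) z) :=
        mul_le_mul' le_rfl (mul_le_mul' le_rfl (Finset.sum_le_sum s3))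
    _ = _ := by
        rw [← Finset.mul_sum]
        ring

theorem ms_start (m : ℕ) (q A : ℝ) (hq : 2 < q) (hA : Real.sqrt m ≤ A) : ∃ C : ℝ≥0∞, C ≠ ⊤ ∧
    ∀ (j l k : ℕ), j ≤ l → l ≤ k → ∀ (f : (Fin m → ℤ) → V m → ℂ), Fam A k f →
      ∀ α : Fin (m + 1) → (Fin m → ℤ), (∀ i, α i ∈ Lam m j) →
      ∫⁻ z, ∏ i, (cv (fun y => ‖pc k j f (α i) y‖ₑ) (bw (2 ^ j)) z) ^ (q / ((m : ℝ) + 1)) ≤
        C * 2 ^ ((l : ℝ) * (m * q / 2)) * Aq q j k l f α := by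
  obtain ⟨K, hK, hp⟩ := MS1_pt m A hA
  refine ⟨K ^ (q / 2), ENNReal.rpow_ne_top_of_nonneg (by linarith) hK, ?_⟩
  intro j l k hjl hlk f hf α hα
  have hm1 : (0 : ℝ) < (m : ℝ) + 1 := by positivity
  have hq0 : 0 < q := by linarith
  have hN : (2 : ℝ≥0∞) ^ (l * m) ≠ ⊤ := ENNReal.pow_ne_top (by norm_num)
  have he : (0 : ℝ) ≤ q / (2 * ((m : ℝ) + 1)) := by positivity
  have hconst : ((K * (2 : ℝ≥0∞) ^ (l * m)) ^ (q / (2 * ((m : ℝ) + 1)))) ^ (m + 1) =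
      K ^ (q / 2) * 2 ^ ((l : ℝ) * (m * q / 2)) := by
    rw [← ENNReal.rpow_natCast, ← ENNReal.rpow_mul]
    have h1 : q / (2 * ((m : ℝ) + 1)) * ((m + 1 : ℕ) : ℝ) = q / 2 := by
      push_cast
      field_simp
    rw [h1, ENNReal.mul_rpow_of_nonneg _ _ (by linarith), ← ENNReal.rpow_natCast 2 (l * m), ← ENNReal.rpow_mul]
    congr 2
    push_cast
    ring
  have hpt : ∀ z : V m, ∏ i, (cv (fun y => ‖pc k j f (α i) y‖ₑ) (bw (2 ^ j)) z) ^ (q / ((m : ℝ) + 1)) ≤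
      K ^ (q / 2) * 2 ^ ((l : ℝ) * (m * q / 2)) *
        ∏ i, (∑ a ∈ desc l j (α i), cv (fun y => ‖pc k l f a y‖ₑ ^ (2 : ℝ)) (bw (2 ^ l)) z) ^
          (q / (2 * ((m : ℝ) + 1))) := by
    intro z
    have h2 : ∀ i : Fin (m + 1), (cv (fun y => ‖pc k j f (α i) y‖ₑ) (bw (2 ^ j)) z) ^ (q / ((m : ℝ) + 1)) ≤
        (K * (2 : ℝ≥0∞) ^ (l * m)) ^ (q / (2 * ((m : ℝ) + 1))) *
          (∑ a ∈ desc l j (α i), cv (fun y => ‖pc k l f a y‖ₑ ^ (2 : ℝ)) (bw (2 ^ l)) z) ^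
            (q / (2 * ((m : ℝ) + 1))) := by
      intro i
      have h3 := ENNReal.rpow_le_rpow (hp j l k hjl hlk f hf (α i) (hα i) z) he
      rw [← ENNReal.rpow_mul, ENNReal.mul_rpow_of_nonneg _ _ he] at h3
      have h4 : (2 : ℝ) * (q / (2 * ((m : ℝ) + 1))) = q / ((m : ℝ) + 1) := by
        field_simp
      rwa [h4] at h3
    refine le_trans (Finset.prod_le_prod' fun i _ => h2 i) (le_of_eq ?_)
    rw [Finset.prod_mul_distrib, Finset.prod_const, Finset.card_univ, Fintype.card_fin, hconst]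
  have hctop : K ^ (q / 2) * (2 : ℝ≥0∞) ^ ((l : ℝ) * (m * q / 2)) ≠ ⊤ :=
    ENNReal.mul_ne_top (ENNReal.rpow_ne_top_of_nonneg (by linarith) hK)
      (ENNReal.rpow_ne_top_of_nonneg (by positivity) (by norm_num))
  refine le_trans (lintegral_mono hpt) ?_
  rw [lintegral_const_mul' _ _ hctop]
  exact le_rfl

end Pool.LibDC71
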