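import Pool.Agent.LibDC71.Defs

/-! W1 (cv algebra). All by `lintegral` calculus on the group `V m` (Lebesgue measure, translation
and reflection invariant: `lintegral_sub_left_eq_self`, `lintegral_add_right_eq_self`,
`lintegral_lintegral_swap`). -/

set_option autoImplicit false

noncomputable section

open MeasureTheory
open scoped ENNReal

namespace Pool.LibDC71

/-- Lebesgue measure on `V m` is an additive Haar measure, of total mass infinity, sigma-finite. -/
theorem volume_V (m : ℕ) : (volume : Measure (V m)) = (volume : Measure (E m)).prod volume := rfl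

private theorem W1_haar (m : ℕ) : (volume : Measure (V m)).IsAddHaarMeasure := by
  rw [volume_V]
  infer_instance

private theorem W1_neg (m : ℕ) : (volume : Measure (V m)).IsNegInvariant := by
  have := W1_haar m
  infer_instance

theorem cv_mono {m : ℕ} {h h' w w' : V m → ℝ≥0∞} (hh : ∀ z, h z ≤ h' z) (hw : ∀ z, w z ≤ w' z)
    (z : V m) : cv h w z ≤ cv h' w' z :=
  lintegral_mono fun y => mul_le_mul' (hh (z - y)) (hw y)

theorem cv_const_mul {m : ℕ} (C : ℝ≥0∞) (hC : C ≠ ⊤) (h w : V m → ℝ≥0∞) (z : V m) :
    cv (fun y => C * h y) w z = C * cv h w z := by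
  unfold cv
  rw [← lintegral_const_mul' C _ hC]
  refine lintegral_congr fun y => ?_
  rw [mul_assoc]

theorem cv_mul_const {m : ℕ} (C : ℝ≥0∞) (hC : C ≠ ⊤) (h w : V m → ℝ≥0∞) (z : V m) :
    cv h (fun y => C * w y) z = C * cv h w z := by
  unfold cv
  rw [← lintegral_const_mul' C _ hC]
  refine lintegral_congr fun y => ?_
  rw [mul_left_comm]

private theorem W1_meas {m : ℕ} {h w : V m → ℝ≥0∞} (hh : Measurable h) (hw : Measurable w) (z : V m) :
    Measurable fun y : V m => h (z - y) * w y :=
  (hh.comp (measurable_id.const_sub z)).mul hw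

theorem cv_sum {m : ℕ} {ι : Type} (s : Finset ι) (h : ι → V m → ℝ≥0∞) (w : V m → ℝ≥0∞)
    (hh : ∀ i ∈ s, Measurable (h i)) (hw : Measurable w) (z : V m) :
    cv (fun y => ∑ i ∈ s, h i y) w z = ∑ i ∈ s, cv (h i) w z := by
  unfold cv
  rw [← lintegral_finsetSum s fun i hi => W1_meas (hh i hi) hw z]
  refine lintegral_congr fun y => ?_
  rw [Finset.sum_mul]

private theorem W1_meas2 {m : ℕ} {h w : V m → ℝ≥0∞} (hh : Measurable h) (hw : Measurable w) :
    Measurable fun p : V m × V m => h (p.1 - p.2) * w p.2 :=
  (hh.comp (measurable_fst.sub measurable_snd)).mul (hw.comp measurable_snd)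

theorem measurable_cv {m : ℕ} {h w : V m → ℝ≥0∞} (hh : Measurable h) (hw : Measurable w) :
    Measurable (cv h w) :=
  (W1_meas2 hh hw).lintegral_prod_right'

theorem lintegral_cv {m : ℕ} {h w : V m → ℝ≥0∞} (hh : Measurable h) (hw : Measurable w) :
    ∫⁻ z, cv h w z = (∫⁻ z, h z) * ∫⁻ z, w z := by
  have := W1_haar m
  unfold cv
  rw [lintegral_lintegral_swap (W1_meas2 hh hw).aemeasurable, ← lintegral_const_mul _ hw]
  refine lintegral_congr fun y => ?_
  have h1 : Measurable fun x : V m => h (x - y) := hh.comp (measurable_id.sub_const y)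
  rw [lintegral_mul_const _ h1, lintegral_sub_right_eq_self h y]

theorem cv_comm {m : ℕ} (h w : V m → ℝ≥0∞) (z : V m) : cv h w z = cv w h z := by
  have := W1_haar m
  have := W1_neg m
  unfold cv
  rw [← lintegral_sub_left_eq_self (fun y => h (z - y) * w y) z]
  refine lintegral_congr fun y => ?_
  rw [sub_sub_cancel, mul_comm]

theorem cv_assoc {m : ℕ} {h w w' : V m → ℝ≥0∞} (hh : Measurable h) (hw : Measurable w)
    (hw' : Measurable w') (z : V m) : cv (cv h w) w' z = cv h (cv w w') z := by
  have := W1_haar m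
  have h1 : cv h (cv w w') z = ∫⁻ y, ∫⁻ x, h (z - y) * (w (y - x) * w' x) := by
    show ∫⁻ y, h (z - y) * cv w w' y = _
    refine lintegral_congr fun y => ?_
    exact (lintegral_const_mul _ (W1_meas hw hw' y)).symm
  have hm : Measurable fun p : V m × V m => h (z - p.1) * (w (p.1 - p.2) * w' p.2) :=
    (hh.comp (measurable_fst.const_sub z)).mul (W1_meas2 hw hw')
  rw [h1, lintegral_lintegral_swap hm.aemeasurable]
  show ∫⁻ x, cv h w (z - x) * w' x = _
  refine lintegral_congr fun x => ?_
  rw [← lintegral_add_right_eq_self (fun y => h (z - y) * (w (y - x) * w' x)) x]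
  show (∫⁻ y, h (z - x - y) * w y) * w' x = _
  rw [← lintegral_mul_const _ (W1_meas hh hw (z - x))]
  refine lintegral_congr fun y => ?_
  rw [add_sub_cancel_right, mul_assoc, sub_sub, add_comm x y]

/-- translation in the argument can be moved to either factor -/
theorem cv_translate {m : ℕ} (h w : V m → ℝ≥0∞) (v z : V m) :
    cv h w (z + v) = cv (fun y => h (y + v)) w z ∧ cv h w (z + v) = cv h (fun y => w (y + v)) z := by
  have := W1_haar m
  constructor
  · refine lintegral_congr fun y => ?_
    show h (z + v - y) * w y = h (z - y + v) * w y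
    rw [sub_add_eq_add_sub]
  · unfold cv
    rw [← lintegral_add_right_eq_self (fun y => h (z + v - y) * w y) v]
    refine lintegral_congr fun y => ?_
    rw [add_sub_add_right_eq_sub]

end Pool.LibDC71
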